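import Pool.Agent.Lib.MP_bf91d6_an.Defs

set_option autoImplicit false

namespace Pool.Agent.Lib.MP_bf91d6_an

open Set Filter Topology Metric MeasureTheory

theorem hd_fst {γ : ℝ → ℝ × ℝ} {v : ℝ × ℝ} {t : ℝ} (h : HasDerivAt γ v t) :
    HasDerivAt (fun t => (γ t).1) v.1 t := h.fst

theorem hd_snd {γ : ℝ → ℝ × ℝ} {v : ℝ × ℝ} {t : ℝ} (h : HasDerivAt γ v t) :
    HasDerivAt (fun t => (γ t).2) v.2 t := h.snd

theorem hd_mk {x y : ℝ → ℝ} {u v t : ℝ} (h : HasDerivAt x u t) (h' : HasDerivAt y v t) :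
    HasDerivAt (fun t => (x t, y t)) (u, v) t := h.prodMk h'

theorem hd_swap {γ : ℝ → ℝ × ℝ} {v : ℝ × ℝ} {t : ℝ} (h : HasDerivAt γ v t) :
    HasDerivAt (fun t => (γ t).swap) v.swap t := hd_mk (hd_snd h) (hd_fst h)

section Sol

variable {V : ℝ × ℝ → ℝ × ℝ} {γ γ' : ℝ → ℝ × ℝ}

theorem IsSol.continuous (h : IsSol V γ) : Continuous γ :=
  continuous_iff_continuousAt.2 fun t => (h t).continuousAt

theorem IsSol.fst (h : IsSol V γ) (t : ℝ) : HasDerivAt (fun t => (γ t).1) (V (γ t)).1 t :=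
  (h t).fst

theorem IsSol.snd (h : IsSol V γ) (t : ℝ) : HasDerivAt (fun t => (γ t).2) (V (γ t)).2 t :=
  (h t).snd

theorem IsSol.shift (h : IsSol V γ) (θ : ℝ) : IsSol V (fun t => γ (t + θ)) := fun t => by
  simpa using (h (t + θ)).comp_add_const t θ

theorem IsSol.unique (hV : ContDiff ℝ 1 V) (h : IsSol V γ) (h' : IsSol V γ') {t₀ : ℝ}
    (he : γ t₀ = γ' t₀) : γ = γ' := by
  funext t
  set A : ℝ := |t| + |t₀| + 1
  have hK : IsCompact (γ '' Icc (-A) A ∪ γ' '' Icc (-A) A) :=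
    (isCompact_Icc.image h.continuous).union (isCompact_Icc.image h'.continuous)
  obtain ⟨K, hL⟩ := (hV.locallyLipschitz.locallyLipschitzOn).exists_lipschitzOnWith_of_compact hK
  have h1 := neg_abs_le t
  have h2 := le_abs_self t
  have h3 := neg_abs_le t₀
  have h4 := le_abs_self t₀
  have h5 := abs_nonneg t
  have h6 := abs_nonneg t₀
  exact ODE_solution_unique_of_mem_Ioo (v := fun _ => V)
    (s := fun _ => γ '' Icc (-A) A ∪ γ' '' Icc (-A) A) (K := K) (a := -A) (b := A) (t₀ := t₀)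
    (fun _ _ => hL) ⟨by simp only [A]; linarith, by simp only [A]; linarith⟩
    (fun s hs => ⟨h s, Or.inl ⟨s, Ioo_subset_Icc_self hs, rfl⟩⟩)
    (fun s hs => ⟨h' s, Or.inr ⟨s, Ioo_subset_Icc_self hs, rfl⟩⟩) he
    ⟨by simp only [A]; linarith, by simp only [A]; linarith⟩

/-- A solution through a zero of the field is constant. -/
theorem IsSol.const_of_zero (hV : ContDiff ℝ 1 V) (h : IsSol V γ) {t₀ : ℝ}
    (h0 : V (γ t₀) = 0) (t : ℝ) : γ t = γ t₀ := by
  have h' : IsSol V (fun _ => γ t₀) := fun s => by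
    simpa [h0] using hasDerivAt_const s (γ t₀)
  exact congrFun (h.unique hV h' (t₀ := t₀) rfl) t

/-- A solution passing twice through a point is periodic. -/
theorem IsSol.periodic_of_eq (hV : ContDiff ℝ 1 V) (h : IsSol V γ) {s t : ℝ}
    (he : γ s = γ t) : Function.Periodic γ (t - s) := by
  have := (h.shift (t - s)).unique hV h (t₀ := s) (by simpa using he.symm)
  exact fun u => congrFun this u

/-- Two solutions with a common point have the same image. -/
theorem IsSol.range_eq (hV : ContDiff ℝ 1 V) (h : IsSol V γ) (h' : IsSol V γ') {s t : ℝ}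
    (he : γ s = γ' t) : range γ = range γ' := by
  have := h.unique hV (h'.shift (t - s)) (t₀ := s) (by simpa using he)
  ext p
  constructor
  · rintro ⟨u, rfl⟩
    exact ⟨u + (t - s), (congrFun this u).symm⟩
  · rintro ⟨u, rfl⟩
    exact ⟨u - (t - s), by rw [congrFun this]; simp⟩

theorem IsPeriodicOrbit.eq_of_mem (hV : ContDiff ℝ 1 V) {O O' : Set (ℝ × ℝ)}
    (h : IsPeriodicOrbit V O) (h' : IsPeriodicOrbit V O') {p : ℝ × ℝ} (hp : p ∈ O)
    (hp' : p ∈ O') : O = O' := by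
  obtain ⟨γ, _, hs, -, -, -, rfl⟩ := h
  obtain ⟨γ', _, hs', -, -, -, rfl⟩ := h'
  obtain ⟨s, rfl⟩ := hp
  obtain ⟨t, ht⟩ := hp'
  exact hs.range_eq hV hs' ht.symm

theorem IsPeriodicOrbit.isCompact {O : Set (ℝ × ℝ)} (h : IsPeriodicOrbit V O) : IsCompact O := by
  obtain ⟨γ, T, hs, hT, hp, -, rfl⟩ := h
  exact hp.compact_of_continuous hT.ne' hs.continuous

end Sol

section Scalar

theorem le_of_deriv_nonneg {g g' : ℝ → ℝ} {a b : ℝ} (hab : a ≤ b)
    (hg : ∀ t ∈ Icc a b, HasDerivAt g (g' t) t) (h0 : ∀ t ∈ Icc a b, 0 ≤ g' t) : g a ≤ g b :=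
  monotoneOn_of_hasDerivWithinAt_nonneg (convex_Icc a b)
    (fun t ht => (hg t ht).continuousAt.continuousWithinAt)
    (fun t ht => (hg t (interior_subset ht)).hasDerivWithinAt)
    (fun t ht => h0 t (interior_subset ht)) ⟨le_rfl, hab⟩ ⟨hab, le_rfl⟩ hab

theorem le_of_deriv_nonpos {g g' : ℝ → ℝ} {a b : ℝ} (hab : a ≤ b)
    (hg : ∀ t ∈ Icc a b, HasDerivAt g (g' t) t) (h0 : ∀ t ∈ Icc a b, g' t ≤ 0) : g b ≤ g a := by
  have := le_of_deriv_nonneg (g := fun t => - g t) (g' := fun t => - g' t) hab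
    (fun t ht => (hg t ht).neg) (fun t ht => by linarith [h0 t ht])
  simpa using this

theorem lt_of_deriv_pos {g g' : ℝ → ℝ} {a b : ℝ} (hab : a < b)
    (hg : ∀ t ∈ Icc a b, HasDerivAt g (g' t) t) (h0 : ∀ t ∈ Ioo a b, 0 < g' t) : g a < g b := by
  obtain ⟨c, hc, he⟩ := exists_hasDerivAt_eq_slope g g' hab
    (fun t ht => (hg t ht).continuousAt.continuousWithinAt)
    (fun t ht => hg t (Ioo_subset_Icc_self ht))
  have := h0 c hc
  rw [he] at this
  have h2 := (div_pos_iff_of_pos_right (sub_pos.2 hab)).1 this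
  linarith

theorem hasDerivAt_integral_from {k : ℝ → ℝ} (hk : Continuous k) (a t : ℝ) :
    HasDerivAt (fun t => ∫ s in a..t, k s) (k t) t :=
  intervalIntegral.integral_hasDerivAt_right (hk.intervalIntegrable _ _)
    (hk.stronglyMeasurableAtFilter _ _) hk.continuousAt

/-- Differential inequality `φ' ≥ k φ`. -/
theorem exp_le_of_deriv {φ φ' k : ℝ → ℝ} {a b : ℝ} (hab : a ≤ b) (hk : Continuous k)
    (hφ : ∀ t ∈ Icc a b, HasDerivAt φ (φ' t) t) (h : ∀ t ∈ Icc a b, k t * φ t ≤ φ' t) :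
    φ a * Real.exp (∫ s in a..b, k s) ≤ φ b := by
  have := le_of_deriv_nonneg (g := fun t => φ t * Real.exp (-∫ s in a..t, k s))
    (g' := fun t => (φ' t - k t * φ t) * Real.exp (-∫ s in a..t, k s)) hab
    (fun t ht => by
      refine ((hφ t ht).mul ((hasDerivAt_integral_from hk a t).neg.exp)).congr_deriv ?_
      simp only [Pi.neg_apply]
      ring)
    (fun t ht => mul_nonneg (by linarith [h t ht]) (Real.exp_pos _).le)
  simp only [intervalIntegral.integral_same, neg_zero, Real.exp_zero, mul_one] at this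
  calc φ a * Real.exp (∫ s in a..b, k s)
      ≤ φ b * Real.exp (-∫ s in a..b, k s) * Real.exp (∫ s in a..b, k s) :=
        mul_le_mul_of_nonneg_right this (Real.exp_pos _).le
    _ = φ b := by rw [mul_assoc, ← Real.exp_add]; simp

/-- Differential inequality `φ' ≤ k φ`. -/
theorem le_exp_of_deriv {φ φ' k : ℝ → ℝ} {a b : ℝ} (hab : a ≤ b) (hk : Continuous k)
    (hφ : ∀ t ∈ Icc a b, HasDerivAt φ (φ' t) t) (h : ∀ t ∈ Icc a b, φ' t ≤ k t * φ t) :
    φ b ≤ φ a * Real.exp (∫ s in a..b, k s) := by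
  have := exp_le_of_deriv (φ := fun t => - φ t) (φ' := fun t => - φ' t) hab hk
    (fun t ht => (hφ t ht).neg) (fun t ht => by have := h t ht; linarith)
  linarith

theorem exp_le_of_deriv_const {φ φ' : ℝ → ℝ} {k a b : ℝ} (hab : a ≤ b)
    (hφ : ∀ t ∈ Icc a b, HasDerivAt φ (φ' t) t) (h : ∀ t ∈ Icc a b, k * φ t ≤ φ' t) :
    φ a * Real.exp (k * (b - a)) ≤ φ b := by
  have := exp_le_of_deriv (k := fun _ => k) hab continuous_const hφ h
  simpa [mul_comm] using this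

theorem le_exp_of_deriv_const {φ φ' : ℝ → ℝ} {k a b : ℝ} (hab : a ≤ b)
    (hφ : ∀ t ∈ Icc a b, HasDerivAt φ (φ' t) t) (h : ∀ t ∈ Icc a b, φ' t ≤ k * φ t) :
    φ b ≤ φ a * Real.exp (k * (b - a)) := by
  have := le_exp_of_deriv (k := fun _ => k) hab continuous_const hφ h
  simpa [mul_comm] using this

/-- Positivity propagates forward under `φ' ≥ k φ`. -/
theorem pos_fwd {φ φ' k : ℝ → ℝ} {a b : ℝ} (hab : a ≤ b) (hk : Continuous k)
    (hφ : ∀ t ∈ Icc a b, HasDerivAt φ (φ' t) t) (h : ∀ t ∈ Icc a b, k t * φ t ≤ φ' t)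
    (ha : 0 < φ a) : 0 < φ b :=
  lt_of_lt_of_le (mul_pos ha (Real.exp_pos _)) (exp_le_of_deriv hab hk hφ h)

/-- Positivity propagates backward under `φ' ≤ k φ`. -/
theorem pos_bwd {φ φ' k : ℝ → ℝ} {a b : ℝ} (hab : a ≤ b) (hk : Continuous k)
    (hφ : ∀ t ∈ Icc a b, HasDerivAt φ (φ' t) t) (h : ∀ t ∈ Icc a b, φ' t ≤ k t * φ t)
    (hb : 0 < φ b) : 0 < φ a := by
  have := le_exp_of_deriv hab hk hφ h
  by_contra hn
  have h2 : φ a * Real.exp (∫ s in a..b, k s) ≤ 0 :=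
    mul_nonpos_of_nonpos_of_nonneg (not_lt.1 hn) (Real.exp_pos _).le
  linarith

end Scalar

section Lg

/-- `Lg n ξ = log (1 + n ξ) / n`, equal to `ξ` when `n = 0`. -/
noncomputable def Lg (n ξ : ℝ) : ℝ := ξ * dslope (fun s : ℝ => Real.log (1 + s)) 0 (n * ξ)

theorem Lg_zero (n : ℝ) : Lg n 0 = 0 := by simp [Lg]

theorem hasDerivAt_log_one_add {s : ℝ} (hs : 0 < 1 + s) :
    HasDerivAt (fun s : ℝ => Real.log (1 + s)) (1 / (1 + s)) s := by
  simpa using ((hasDerivAt_id s).const_add 1).log hs.ne'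

theorem Lg_of_zero (ξ : ℝ) : Lg 0 ξ = ξ := by
  have := (hasDerivAt_log_one_add (s := 0) (by norm_num)).deriv
  simp [Lg, dslope_same, this]

theorem mul_Lg (n ξ : ℝ) : n * Lg n ξ = Real.log (1 + n * ξ) := by
  have := sub_smul_dslope (fun s : ℝ => Real.log (1 + s)) 0 (n * ξ)
  simp only [sub_zero, smul_eq_mul, add_zero, Real.log_one] at this
  rw [Lg, ← this]
  ring

theorem exp_mul_Lg {n ξ : ℝ} (h : 0 < 1 + n * ξ) : Real.exp (n * Lg n ξ) = 1 + n * ξ := by
  rw [mul_Lg, Real.exp_log h]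

theorem hasDerivAt_Lg {n ξ : ℝ} (h : 0 < 1 + n * ξ) :
    HasDerivAt (Lg n) (1 / (1 + n * ξ)) ξ := by
  rcases eq_or_ne n 0 with rfl | hn
  · have : Lg 0 = id := funext Lg_of_zero
    rw [this]
    simpa using hasDerivAt_id ξ
  · have : Lg n = fun ξ => Real.log (1 + n * ξ) / n := by
      funext s
      rw [← mul_Lg]
      field_simp
    rw [this]
    have h1 := ((((hasDerivAt_id ξ).const_mul n).const_add 1).log h.ne').div_const n
    refine h1.congr_deriv ?_
    simp only [id]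
    field_simp

theorem continuousAt_Lg {n ξ : ℝ} (h : 0 < 1 + n * ξ) :
    ContinuousAt (fun p : ℝ × ℝ => Lg p.1 p.2) (n, ξ) := by
  have h1 : ContinuousAt (dslope (fun s : ℝ => Real.log (1 + s)) 0) (n * ξ) := by
    rcases eq_or_ne (n * ξ) 0 with h0 | h0
    · rw [h0]
      exact continuousAt_dslope_same.2
        (hasDerivAt_log_one_add (s := 0) (by norm_num)).differentiableAt
    · exact (continuousAt_dslope_of_ne h0).2 (hasDerivAt_log_one_add h).continuousAt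
  have h2 : ContinuousAt (fun p : ℝ × ℝ => p.1 * p.2) (n, ξ) := by fun_prop
  exact continuousAt_snd.mul (ContinuousAt.comp (f := fun p : ℝ × ℝ => p.1 * p.2) h1 h2)

end Lg

end Pool.Agent.Lib.MP_bf91d6_an
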