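import Pool.Agent.Lib.MP_bf91d6_an.HDefs

set_option autoImplicit false

namespace Pool.Agent.Lib.MP_bf91d6_an

open Set Filter Topology Metric MeasureTheory

namespace H4

theorem mul_tendsto {φ B : ℝ → ℝ} {φ' b r : ℝ} (h : HasDerivAt φ φ' r) (h0 : φ r = 0)
    (hB : Tendsto B (𝓝 r) (𝓝 b)) : HasDerivAt (fun x => φ x * B x) (φ' * b) r := by
  rw [hasDerivAt_iff_tendsto_slope] at h ⊢
  refine (h.mul (hB.mono_left nhdsWithin_le_nhds)).congr fun x => ?_
  simp only [slope_def_field, h0]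
  ring

theorem mvt {G : ℝ → ℝ → ℝ} {g : ℝ × ℝ → ℝ} {τ : ℝ → ℝ} {r T b : ℝ}
    (hG : ∀ᶠ p in 𝓝 (r, T), HasDerivAt (G p.1) (g p) p.2) (hg : Tendsto g (𝓝 (r, T)) (𝓝 b))
    (hτ : Tendsto τ (𝓝 r) (𝓝 T)) :
    ∃ B : ℝ → ℝ, Tendsto B (𝓝 r) (𝓝 b) ∧ ∀ x, G x (τ x) = G x T + (τ x - T) * B x := by
  classical
  refine ⟨fun x => if τ x = T then b else (G x (τ x) - G x T) / (τ x - T), ?_, fun x => ?_⟩
  · refine Metric.tendsto_nhds.2 fun ε hε => ?_
    obtain ⟨δ, hδ, H⟩ := Metric.eventually_nhds_iff.1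
      (hG.and (Metric.tendsto_nhds.1 hg (ε / 2) (half_pos hε)))
    filter_upwards [Metric.tendsto_nhds.1 hτ δ hδ, ball_mem_nhds r hδ] with x h1 h2
    split_ifs with e
    · simpa using hε
    have hd : ∀ t ∈ ball T δ, dist (x, t) (r, T) < δ := fun t ht => max_lt h2 ht
    have := (convex_ball T δ).norm_image_sub_le_of_norm_hasDerivWithin_le
      (f := fun t => G x t - b * t) (f' := fun t => g (x, t) - b) (C := ε / 2)
      (fun t ht => ((H (hd t ht)).1.sub
        (by simpa using (hasDerivAt_id t).const_mul b)).hasDerivWithinAt)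
      (fun t ht => (H (hd t ht)).2.le) (mem_ball_self hδ) h1
    have e' := sub_ne_zero.2 e
    rw [Real.dist_eq, show (G x (τ x) - G x T) / (τ x - T) - b =
      (G x (τ x) - b * τ x - (G x T - b * T)) / (τ x - T) by field_simp; ring, abs_div,
      div_lt_iff₀ (abs_pos.2 e')]
    have := abs_pos.2 e'
    simp only [Real.norm_eq_abs] at *
    nlinarith
  · beta_reduce
    split_ifs with e
    · rw [e]; ring
    · have := sub_ne_zero.2 e
      field_simp; ring

theorem chain {G : ℝ → ℝ → ℝ} {g : ℝ × ℝ → ℝ} {τ : ℝ → ℝ} {r a b τ' : ℝ}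
    (hG : ∀ᶠ p in 𝓝 (r, τ r), HasDerivAt (G p.1) (g p) p.2)
    (hg : Tendsto g (𝓝 (r, τ r)) (𝓝 b)) (ha : HasDerivAt (fun x => G x (τ r)) a r)
    (hτ : HasDerivAt τ τ' r) : HasDerivAt (fun x => G x (τ x)) (a + τ' * b) r := by
  obtain ⟨B, h1, h2⟩ := mvt hG hg hτ.continuousAt
  simp only [h2]
  exact ha.add (mul_tendsto (hτ.sub_const _) (sub_self _) h1)

theorem implicit {G : ℝ → ℝ → ℝ} {g : ℝ × ℝ → ℝ} {τ : ℝ → ℝ} {r a b : ℝ}
    (hG : ∀ᶠ p in 𝓝 (r, τ r), HasDerivAt (G p.1) (g p) p.2)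
    (hg : Tendsto g (𝓝 (r, τ r)) (𝓝 b)) (ha : HasDerivAt (fun x => G x (τ r)) a r)
    (hτ : Tendsto τ (𝓝 r) (𝓝 (τ r))) (hb : b ≠ 0) (h0 : ∀ᶠ x in 𝓝 r, G x (τ x) = 0) :
    HasDerivAt τ (-a * b⁻¹) r := by
  obtain ⟨B, h1, h2⟩ := mvt hG hg hτ
  refine ((mul_tendsto ha.neg (by simpa using h0.self_of_nhds) (h1.inv₀ hb)).const_add
    (τ r)).congr_of_eventuallyEq ?_
  filter_upwards [h0, h1.eventually_ne hb] with x e1 e2
  rw [h2] at e1
  simp only [Pi.neg_apply]
  field_simp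
  linarith

/-- The Jacobian matrix applied to a vector. -/
def DX (q : NF) (p u : ℝ × ℝ) : ℝ × ℝ :=
  ((q.l1 + 2 * q.a * p.1 + q.b * p.2) * u.1 + (q.b * p.1 - 2 * p.2) * u.2,
    (2 * p.1 + q.e * p.2) * u.1 + (-q.l2 + q.e * p.1 + 2 * q.f * p.2) * u.2)

theorem hd_V (q : NF) {p : ℝ → ℝ × ℝ} {u : ℝ × ℝ} {t : ℝ} (h : HasDerivAt p u t) :
    HasDerivAt (fun t => q.V (p t)) (DX q (p t) u) t := by
  have x := hd_fst h
  have y := hd_snd h
  refine hd_mk ?_ ?_
  · exact ((((x.const_mul q.l1).add ((x.pow 2).const_mul q.a)).add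
      ((x.const_mul q.b).mul y)).sub (y.pow 2)).congr_deriv (by simp; ring)
  · exact ((((y.const_mul (-q.l2)).add (x.pow 2)).add ((x.const_mul q.e).mul y)).add
      ((y.pow 2).const_mul q.f)).congr_deriv (by simp; ring)

theorem DX_le {q : NF} {M R : ℝ} (hM : q.size ≤ M) {p : ℝ × ℝ} (h : ‖p‖ ≤ R) (u : ℝ × ℝ) :
    ‖DX q p u‖ ≤ M * (1 + 6 * R) * ‖u‖ := by
  have x := (abs_fst_le p).trans h
  have y := (abs_snd_le p).trans h
  have hR := (norm_nonneg p).trans h
  have h1 := q.one_le_size.trans hM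
  have c1 := q.c1_le.trans hM
  have c2 := q.c2_le.trans hM
  have a1 := abs_mul_le (show |q.a| ≤ M by linarith [abs_nonneg q.b, abs_nonneg (-1 : ℝ)]) x
  have hb : |q.b| ≤ M := by linarith [abs_nonneg q.a, abs_nonneg (-1 : ℝ)]
  have he : |q.e| ≤ M := by linarith [abs_nonneg q.f, abs_nonneg (1 : ℝ)]
  have a2 := abs_mul_le hb x
  have a3 := abs_mul_le hb y
  have a4 := abs_mul_le he x
  have a5 := abs_mul_le he y
  have a6 := abs_mul_le (show |q.f| ≤ M by linarith [abs_nonneg q.e, abs_nonneg (1 : ℝ)]) y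
  have a7 := q.l1_le.trans hM
  have a8 := q.l2_le.trans hM
  have a9 : R ≤ M * R := le_mul_of_one_le_left hR h1
  have key : ∀ A B : ℝ, |A| ≤ M + 3 * (M * R) → |B| ≤ 3 * (M * R) →
      |A * u.1 + B * u.2| ≤ M * (1 + 6 * R) * ‖u‖ ∧
      |B * u.1 + A * u.2| ≤ M * (1 + 6 * R) * ‖u‖ := fun A B hA hB =>
    ⟨(abs_add_le _ _).trans ((add_le_add (abs_mul_le hA (abs_fst_le u))
      (abs_mul_le hB (abs_snd_le u))).trans_eq (by ring)),
    (abs_add_le _ _).trans ((add_le_add (abs_mul_le hB (abs_fst_le u))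
      (abs_mul_le hA (abs_snd_le u))).trans_eq (by ring))⟩
  rw [abs_le] at x y a1 a2 a3 a4 a5 a6 a7 a8
  exact norm_le_of_abs
    (key _ _ (abs_le.2 ⟨by linarith, by linarith⟩) (abs_le.2 ⟨by linarith, by linarith⟩)).1
    (key _ _ (abs_le.2 ⟨by linarith, by linarith⟩) (abs_le.2 ⟨by linarith, by linarith⟩)).2

theorem hd_dot (u z : ℝ × ℝ) {p : ℝ → ℝ × ℝ} {w : ℝ × ℝ} {t : ℝ} (h : HasDerivAt p w t) :
    HasDerivAt (fun t => dot u (p t - z)) (dot u w) t :=
  (((hd_fst h).sub_const z.1).const_mul u.1).add (((hd_snd h).sub_const z.2).const_mul u.2)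

theorem cont_dot (u : ℝ × ℝ) : Continuous (dot u) := by unfold dot; fun_prop

end H4

open H4

namespace Setup

theorem close (S : Setup) {q : NF} (h : q.dist S.q₀ ≤ S.ρ₁) (q' : NF) (r r' t : ℝ) :
    ‖S.P q r t - S.P q' r' t‖ ≤
      (|r - r'| + q.dist q' * (S.R + S.R ^ 2)) * Real.exp (S.M * (1 + 2 * S.R) * |t|) := by
  simpa [S.P_zero, Prod.norm_def] using
    gron (S.good q h).size S.R_pos.le (S.P_sol q r) (S.P_sol q' r') 0 0 t

theorem tendsto_P (S : Setup) {ι : Type} {l : Filter ι} {q : NF} (h : q.dist S.q₀ ≤ S.ρ₁)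
    {r t : ℝ} {qi : ι → NF} {ri ti : ι → ℝ} (hq : Tendsto (fun i => (qi i).dist q) l (𝓝 0))
    (hr : Tendsto ri l (𝓝 r)) (ht : Tendsto ti l (𝓝 t)) :
    Tendsto (fun i => S.P (qi i) (ri i) (ti i)) l (𝓝 (S.P q r t)) := by
  refine (((S.P_sol q r).continuous.tendsto t).comp ht).congr_dist ?_
  refine squeeze_zero (fun _ => dist_nonneg) (fun i => (dist_eq_norm _ _).trans_le
    (S.close h _ _ _ _)) ?_
  have e : ∀ i, q.dist (qi i) = (qi i).dist q := fun i => by simp only [NF.dist, abs_sub_comm]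
  simpa [e] using ((((tendsto_const_nhds (x := r)).sub hr).abs.add (hq.mul_const
    (S.R + S.R ^ 2))).mul (ht.abs.const_mul (S.M * (1 + 2 * S.R))).rexp)

theorem T_tendsto (S : Setup) {ι : Type} {l : Filter ι} {C c : ℝ} {q : NF} {r : ℝ}
    (h : S.Facts C c q r) {qi : ι → NF} {ri : ι → ℝ}
    (hi : ∀ᶠ i in l, S.Hit (S.P (qi i) (ri i)) (S.T (qi i) (ri i)))
    (hq : Tendsto (fun i => (qi i).dist q) l (𝓝 0)) (hr : Tendsto ri l (𝓝 r)) :
    Tendsto (fun i => S.T (qi i) (ri i)) l (𝓝 (S.T q r)) ∧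
      Tendsto (fun i => S.P (qi i) (ri i) (S.T (qi i) (ri i))) l (𝓝 (S.P q r (S.T q r))) ∧
      Tendsto (fun i => S.s (qi i) (ri i)) l (𝓝 (S.s q r)) := by
  have hL : Continuous S.L := (cont_dot _).comp (continuous_id.sub continuous_const)
  have hc := (S.P_sol q r).continuous
  have hT : Tendsto (fun i => S.T (qi i) (ri i)) l (𝓝 (S.T q r)) := by
    refine tendsto_order.2 ⟨fun a ha => ?_, fun b hb => ?_⟩
    · obtain ⟨δ, hδ, H⟩ := ((isCompact_Icc (a := 0) (b := a)).image hc).exists_thickening_subset_open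
        (t := {p | ‖p - S.z₀‖ ≤ S.κ₀ ∧ 0 ≤ S.L p}ᶜ) (((isClosed_le
          (continuous_id.sub continuous_const).norm
          continuous_const).inter (isClosed_le continuous_const hL)).isOpen_compl) (by
          rintro _ ⟨t, ht, rfl⟩
          exact h.hit.2.1 t ⟨ht.1, ht.2.trans_lt ha⟩)
      have e : ∀ i, q.dist (qi i) = (qi i).dist q := fun i => by simp only [NF.dist, abs_sub_comm]
      have h1 : Tendsto (fun i => (|r - ri i| + q.dist (qi i) * (S.R + S.R ^ 2)) *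
          Real.exp (S.M * (1 + 2 * S.R) * |a|)) l (𝓝 0) := by
        simpa [e] using ((((tendsto_const_nhds (x := r)).sub hr).abs.add (hq.mul_const
          (S.R + S.R ^ 2))).mul_const (Real.exp (S.M * (1 + 2 * S.R) * |a|)))
      filter_upwards [hi, h1.eventually (gt_mem_nhds hδ)] with i h2 h3
      by_contra hn
      refine H (mem_thickening_iff.2 ⟨_, ⟨_, ⟨h2.1.le, not_lt.1 hn⟩, rfl⟩, ?_⟩)
        ⟨h2.2.2.2.le, h2.2.2.1.ge⟩
      rw [dist_comm, dist_eq_norm]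
      refine ((S.close h.near _ _ _ _).trans ?_).trans_lt h3
      have := S.R_pos
      have := S.one_le_M
      have := q.dist_nonneg (qi i)
      have := abs_le_abs_of_nonneg h2.1.le (not_lt.1 hn)
      gcongr
    · have h1 := hd_dot S.X₀ S.z₀ (h.deriv (t := S.T q r) ⟨h.hit.1.le, by linarith⟩)
      have h2 : ∀ᶠ t in 𝓝[>] S.T q r, 0 < slope (fun t => S.L (S.P q r t)) (S.T q r) t :=
        ((hasDerivAt_iff_tendsto_slope.1 h1).eventually (lt_mem_nhds
          (by linarith [h.trans, S.X₀_pos]))).filter_mono (nhdsWithin_mono _ fun t ht => ne_of_gt ht)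
      have h3 : ∀ᶠ t in 𝓝[>] S.T q r, ‖S.P q r t - S.z₀‖ < S.κ₀ :=
        nhdsWithin_le_nhds (((hc.sub continuous_const).norm.tendsto _).eventually
          (gt_mem_nhds h.hit.2.2.2))
      obtain ⟨t, ⟨h4, h5⟩, h6, h7⟩ := ((h2.and h3).and (Ioo_mem_nhdsGT hb)).exists
      rw [slope_def_field, h.hit.2.2.1, sub_zero] at h4
      replace h4 := (div_pos_iff_of_pos_right (sub_pos.2 h6)).1 h4
      have h8 := S.tendsto_P h.near hq hr (tendsto_const_nhds (x := t))
      filter_upwards [hi, ((hL.tendsto _).comp h8).eventually (lt_mem_nhds h4),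
        (h8.sub_const S.z₀).norm.eventually (gt_mem_nhds h5)] with i e1 e2 e3
      by_contra hn
      exact e1.2.1 t ⟨(h.hit.1.trans h6).le, h7.trans_le (not_lt.1 hn)⟩ ⟨e3.le, e2.le⟩
  have hP := S.tendsto_P h.near hq hr hT
  exact ⟨hT, hP, (((cont_dot _).tendsto _).comp (hP.sub_const S.z₀)).div_const _⟩

variable {S : Setup} {C c : ℝ} {q : NF} {r : ℝ}

theorem Facts.dot_pos (hc : 0 < c) (h : S.Facts C c q r) {t : ℝ}
    (ht : t ∈ Icc 0 (S.T q r + 1)) : 0 < dot (q.V (S.P q r t)) (q.V (S.P q r t)) := by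
  obtain ⟨-, h1, -, h2⟩ := h.reg t ht
  have h3 : 0 < ‖S.P q r t‖ := h1.trans_le ((le_abs_self _).trans (abs_fst_le _))
  have h4 : q.V (S.P q r t) ≠ 0 := norm_pos_iff.1 ((mul_pos hc h3).trans_le h2)
  by_contra hn
  simp only [dot, not_lt] at hn
  have h5 := mul_self_nonneg (q.V (S.P q r t)).1
  have h6 := mul_self_nonneg (q.V (S.P q r t)).2
  exact h4 (Prod.ext (mul_self_eq_zero.1 (by linarith)) (mul_self_eq_zero.1 (by linarith)))

theorem hasDerivAt_β (S : Setup) (q : NF) (r t : ℝ) :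
    HasDerivAt (S.β q r) (S.β q r t * q.div (S.P q r t)) t := by
  have hc := (S.P_sol q r).continuous
  have := ((hasDerivAt_integral_from (k := fun u => q.div (S.P q r u))
    (by unfold NF.div; fun_prop) 0 t).exp).const_mul (q.β₀ r)
  rwa [← mul_assoc] at this

theorem continuous_β (S : Setup) (q : NF) (r : ℝ) : Continuous (S.β q r) :=
  continuous_iff_continuousAt.2 fun t => (S.hasDerivAt_β q r t).continuousAt

theorem Facts.continuousOn_α' {S : Setup} {C c : ℝ} (hc : 0 < c) {q : NF} {r : ℝ}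
    (h : S.Facts C c q r) : ContinuousOn (S.α' q r) (Icc 0 (S.T q r + 1)) := by
  have h1 := (S.P_sol q r).continuous
  have h2 := S.continuous_β q r
  exact ContinuousOn.div (by unfold NF.N NF.V; fun_prop) (by unfold dot NF.V; fun_prop)
    fun t ht => pow_ne_zero 2 (h.dot_pos hc ht).ne'

theorem Facts.continuousOn_v (hc : 0 < c) (h : S.Facts C c q r) :
    ContinuousOn (S.v q r) (Icc 0 (S.T q r + 1)) := by
  have h1 := (S.P_sol q r).continuous
  have h2 := S.continuous_β q r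
  have h0 : 0 ≤ S.T q r + 1 := by linarith [h.one_le]
  have h3 : ContinuousOn (S.α q r) (Icc 0 (S.T q r + 1)) := by
    have := intervalIntegral.continuousOn_primitive_interval' (μ := volume)
      ((h.continuousOn_α' hc).intervalIntegrable_of_Icc h0) left_mem_uIcc
    rw [uIcc_of_le h0] at this
    exact continuousOn_const.add this
  exact (h3.smul (by unfold NF.V; fun_prop)).add ((h2.continuousOn.div (by unfold dot NF.V; fun_prop)
    fun t ht => (h.dot_pos hc ht).ne').smul (by unfold rot NF.V; fun_prop))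

theorem Facts.deriv_v (hc : 0 < c) (h : S.Facts C c q r) {t : ℝ}
    (ht : t ∈ Ico 0 (S.T q r + 1)) :
    HasDerivWithinAt (S.v q r) (DX q (S.P q r t) (S.v q r t)) (Ici t) t := by
  have ht' := Ico_subset_Icc_self ht
  have h1 := h.continuousOn_α' hc
  have hs : Icc 0 (S.T q r + 1) ∈ 𝓝[>] t := mem_of_superset (Ioo_mem_nhdsGT ht.2)
    fun u hu => ⟨ht.1.trans hu.1.le, hu.2.le⟩
  have hα : HasDerivWithinAt (S.α q r) (S.α' q r t) (Ici t) t :=
    (intervalIntegral.integral_hasDerivWithinAt_right (t := Ioi t)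
      ((h1.mono (Icc_subset_Icc_right ht.2.le)).intervalIntegrable_of_Icc ht.1)
      ⟨_, hs, h1.aestronglyMeasurable measurableSet_Icc⟩
      ((h1 t ht').mono_of_mem_nhdsWithin hs)).const_add _
  have hX := hd_V q (h.deriv ht')
  have x := hd_fst hX
  have y := hd_snd hX
  have h0 := (h.dot_pos hc ht').ne'
  have hD := (S.hasDerivAt_β q r t).div ((x.mul x).add (y.mul y)) h0
  have := (hα.smul hX.hasDerivWithinAt).add (hD.smul (hd_mk y.neg x)).hasDerivWithinAt
  refine this.congr_deriv ?_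
  simp only [dot] at h0
  ext <;> simp only [v, α', DX, dot, rot, NF.N, NF.div, Prod.fst_add, Prod.snd_add, Prod.smul_fst,
    Prod.smul_snd, smul_eq_mul, Pi.add_apply, Pi.mul_apply, Pi.div_apply, Pi.neg_apply] <;>
    generalize hd : (q.V (S.P q r t)).1 * (q.V (S.P q r t)).1 +
      (q.V (S.P q r t)).2 * (q.V (S.P q r t)).2 = d at h0 ⊢ <;>
    field_simp <;> subst hd <;> ring

theorem Facts.v_zero (hc : 0 < c) (h : S.Facts C c q r) : S.v q r 0 = (1, 1) := by
  have h0 := (h.dot_pos hc (t := 0) ⟨le_rfl, by linarith [h.one_le]⟩).ne'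
  simp only [v, α, β, S.P_zero, NF.α₀, NF.β₀] at h0 ⊢
  generalize hd : dot (q.V (r, r)) (q.V (r, r)) = d at h0 ⊢
  ext <;> simp [rot] <;> field_simp <;> subst hd <;> simp only [dot] <;> ring

theorem Facts.hasDerivAt_P {S : Setup} {C c : ℝ} (hc : 0 < c) {q : NF} {r : ℝ}
    (h : S.Facts C c q r) {t : ℝ} (ht : t ∈ Icc 0 (S.T q r + 1)) :
    HasDerivAt (fun r' => S.P q r' t) (S.v q r t) r := by
  have hM := (S.good q h.near).size
  have hR := S.R_pos
  have h1 := S.one_le_M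
  set E := Real.exp (S.M * (1 + 2 * S.R) * (S.T q r + 1)) with hE
  set K := S.M * (1 + 6 * S.R) with hK
  have hK1 : 1 ≤ K := by nlinarith
  refine hasDerivAt_iff_isLittleO.2 (Asymptotics.IsBigO.trans_isLittleO (.of_bound
    (S.M * E ^ 2 * Real.exp (K * t)) ?_) (Asymptotics.isLittleO_pow_sub_sub r one_lt_two))
  have h2 : Tendsto (fun x => |x - r| * E) (𝓝 r) (𝓝 0) := by
    simpa using ((continuous_id.sub continuous_const).abs.tendsto r (f := fun x => |x - r|)).mul_const E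
  filter_upwards [h2.eventually (gt_mem_nhds one_pos)] with x hx
  have hΔ : ∀ s ∈ Icc 0 (S.T q r + 1), ‖S.P q x s - S.P q r s‖ ≤ |x - r| * E := fun s hs => by
    refine (S.close h.near q x r s).trans ?_
    rw [NF.dist_self, zero_mul, add_zero, abs_of_nonneg hs.1, hE]
    gcongr
    exact hs.2
  have key := norm_le_gronwallBound_of_norm_deriv_right_le
    (f := fun s => S.P q x s - S.P q r s - (x - r) • S.v q r s)
    (f' := fun s => q.V (S.P q x s) - q.V (S.P q r s) - (x - r) • DX q (S.P q r s) (S.v q r s))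
    (δ := 0) (K := K) (ε := S.M * (|x - r| * E) ^ 2) (a := 0) (b := S.T q r + 1)
    ((((S.P_sol q x).continuous.sub (S.P_sol q r).continuous).continuousOn).sub
      ((h.continuousOn_v hc).const_smul (x - r)))
    (fun s hs => by
      have hs' := Ico_subset_Icc_self hs
      refine (((S.P_sol q x).ofW ?_).sub (h.deriv hs')).hasDerivWithinAt.sub
        ((h.deriv_v hc hs).const_smul (x - r))
      linarith [norm_le_norm_add_norm_sub' (S.P q x s) (S.P q r s), hΔ s hs', (h.reg s hs').1])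
    (by simp [S.P_zero, h.v_zero hc])
    (fun s hs => by
      have hs' := Ico_subset_Icc_self hs
      have e : q.V (S.P q x s) - q.V (S.P q r s) - (x - r) • DX q (S.P q r s) (S.v q r s) =
          DX q (S.P q r s) (S.P q x s - S.P q r s - (x - r) • S.v q r s) +
            (q.Q1 (S.P q x s - S.P q r s), q.Q2 (S.P q x s - S.P q r s)) := by
        ext <;> simp [DX, NF.V, NF.Q1, NF.Q2] <;> ring
      have e2 : S.M * ‖S.P q x s - S.P q r s‖ ^ 2 ≤ S.M * (|x - r| * E) ^ 2 := by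
        gcongr
        exact hΔ s hs'
      rw [e]
      exact (norm_add_le _ _).trans (add_le_add (DX_le hM (by linarith [(h.reg s hs').1]) _)
        (norm_le_of_abs ((NF.Q1_le hM _).trans e2) ((NF.Q2_le hM _).trans e2)))) t ht
  rw [gronwallBound_of_K_ne_0 (by linarith), sub_zero] at key
  refine key.trans ?_
  have e1 : S.M * (|x - r| * E) ^ 2 / K ≤ S.M * (|x - r| * E) ^ 2 :=
    div_le_self (by positivity) hK1
  have e2 : 0 ≤ S.M * (|x - r| * E) ^ 2 / K := by positivity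
  have e3 := Real.exp_pos (K * t)
  simp only [norm_pow, Real.norm_eq_abs, abs_abs]
  nlinarith

theorem T_cont {r₀ : ℝ} (h : ∀ r ∈ Ioo 0 r₀, S.Facts C c q r) (hr : r ∈ Ioo 0 r₀) :
    Tendsto (S.T q) (𝓝 r) (𝓝 (S.T q r)) :=
  (S.T_tendsto (h r hr) (qi := fun _ => q) (ri := id)
    (mem_of_superset (Ioo_mem_nhds hr.1 hr.2) fun x hx => (h x hx).hit)
    (by simp [NF.dist_self]) tendsto_id).1

theorem Facts.joint (h : S.Facts C c q r) (t : ℝ) :
    Tendsto (fun p : ℝ × ℝ => S.P q p.1 p.2) (𝓝 (r, t)) (𝓝 (S.P q r t)) :=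
  S.tendsto_P h.near (qi := fun _ => q) (by simp [NF.dist_self]) (continuous_fst.tendsto _)
    (continuous_snd.tendsto _)

theorem hasDerivAt_s (S : Setup) {C c r₀ : ℝ} (hc : 0 < c) {q : NF}
    (h : ∀ r ∈ Ioo 0 r₀, S.Facts C c q r) {r : ℝ} (hr : r ∈ Ioo 0 r₀) :
    HasDerivAt (S.T q) (S.T' q r) r ∧
    HasDerivAt (S.s q) (S.β q r (S.T q r) / dot S.X₀ (q.V (S.P q r (S.T q r)))) r := by
  have h0 := h r hr
  have ht : S.T q r ∈ Icc 0 (S.T q r + 1) := ⟨h0.hit.1.le, by linarith⟩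
  have hG : ∀ u, ∀ᶠ p : ℝ × ℝ in 𝓝 (r, S.T q r), HasDerivAt (fun t => dot u (S.P q p.1 t - S.z₀))
      (dot u (q.W S.R (S.P q p.1 p.2))) p.2 := fun u =>
    .of_forall fun p => hd_dot u _ (S.P_sol q p.1 p.2)
  have hg : ∀ u, Tendsto (fun p : ℝ × ℝ => dot u (q.W S.R (S.P q p.1 p.2))) (𝓝 (r, S.T q r))
      (𝓝 (dot u (q.V (S.P q r (S.T q r))))) := fun u => by
    rw [← q.W_eq (R := S.R) (by linarith [(h0.reg _ ht).1])]
    exact (((cont_dot u).comp (q.continuous_W S.R)).tendsto _).comp (h0.joint _)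
  have ha := fun u => hd_dot u S.z₀ (h0.hasDerivAt_P hc ht)
  have h1 : dot S.X₀ (q.V (S.P q r (S.T q r))) ≠ 0 := by linarith [h0.trans, S.X₀_pos]
  have h2 := (h0.dot_pos hc ht).ne'
  have h3 := S.X₀_pos.ne'
  have hT : HasDerivAt (S.T q) (S.T' q r) r := by
    refine (implicit (G := fun x t => dot S.X₀ (S.P q x t - S.z₀)) (hG _) (hg _) (ha _)
      (T_cont h hr) h1 (mem_of_superset (Ioo_mem_nhds hr.1 hr.2)
        fun x hx => (h x hx).hit.2.2.1)).congr_deriv ?_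
    simp only [T', v]
    generalize hd : dot (q.V (S.P q r (S.T q r))) (q.V (S.P q r (S.T q r))) = d at h2 ⊢
    generalize he : dot S.X₀ (q.V (S.P q r (S.T q r))) = e at h1 ⊢
    simp [dot, rot]
    field_simp
    subst hd he
    simp only [dot]
    ring
  refine ⟨hT, ((chain (G := fun x t => dot (rot S.X₀) (S.P q x t - S.z₀)) (hG _) (hg _) (ha _)
    hT).div_const _).congr_deriv ?_⟩
  simp only [T', v]
  generalize hd : dot (q.V (S.P q r (S.T q r))) (q.V (S.P q r (S.T q r))) = d at h2 ⊢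
  generalize he : dot S.X₀ (q.V (S.P q r (S.T q r))) = e at h1 ⊢
  generalize hf : dot S.X₀ S.X₀ = f at h3 ⊢
  simp [dot, rot]
  field_simp
  subst hd he hf
  simp only [dot]
  ring

theorem hasDerivAt_I (S : Setup) {C c r₀ : ℝ} (hc : 0 < c) {q : NF}
    (h : ∀ r ∈ Ioo 0 r₀, S.Facts C c q r) {Ω : Set (ℝ × ℝ)}
    (hΩ : ∀ r ∈ Ioo 0 r₀, ∀ t ∈ Icc 0 (S.T q r + 1), S.P q r t ∈ Ω)
    {D D1 D2 : ℝ × ℝ → ℝ} (hD : Grad D D1 D2 Ω) {m : ℝ}
    (hm : ∀ p ∈ Ω, |D1 p| ≤ m ∧ |D2 p| ≤ m) {r : ℝ} (hr : r ∈ Ioo 0 r₀) :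
    HasDerivAt (S.I D q) (S.I' D D1 D2 q r) r := by
  have h0 := h r hr
  have hT0 := h0.hit.1
  have hc' : ∀ {F : ℝ × ℝ → ℝ}, ContinuousOn F Ω → ∀ x ∈ Ioo 0 r₀,
      ContinuousOn (fun t => F (S.P q x t)) (Icc 0 (S.T q x + 1)) := fun hF x hx =>
    hF.comp (S.P_sol q x).continuous.continuousOn (hΩ x hx)
  have hs : ∀ᶠ x in 𝓝 r, x ∈ Ioo 0 r₀ ∧ S.T q r + 1 / 2 < S.T q x + 1 :=
    Eventually.and (Ioo_mem_nhds hr.1 hr.2)
      (((T_cont h hr).add_const 1).eventually (lt_mem_nhds (by linarith)))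
  have hp : ∀ᶠ p : ℝ × ℝ in 𝓝 (r, S.T q r), p.1 ∈ Ioo 0 r₀ ∧ p.2 ∈ Ioo 0 (S.T q p.1 + 1) := by
    filter_upwards [(continuous_fst.tendsto (r, S.T q r)).eventually hs,
      (continuous_snd.tendsto (r, S.T q r)).eventually
        (Ioo_mem_nhds hT0 (show S.T q r < S.T q r + 1 / 2 by linarith))] with p e1 e2
    exact ⟨e1.1, e2.1, e2.2.trans e1.2⟩
  have hsub : ∀ x, S.T q r + 1 / 2 < S.T q x + 1 → uIoc 0 (S.T q r) ⊆ Icc 0 (S.T q x + 1) :=
    fun x hx t ht => by
      rw [uIoc_of_le hT0.le] at ht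
      exact ⟨ht.1.le, by linarith [ht.2]⟩
  have hv := h0.continuousOn_v hc
  have ha := (intervalIntegral.hasDerivAt_integral_of_dominated_loc_of_deriv_le (μ := volume)
    (F := fun x t => D (S.P q x t))
    (F' := fun x t => D1 (S.P q x t) * (S.v q x t).1 + D2 (S.P q x t) * (S.v q x t).2)
    (bound := fun t => 2 * (m * Real.exp (S.M * (1 + 2 * S.R) * |t|))) hs
    (hs.mono fun x hx => ((hc' hD.cont x hx.1).mono (hsub x hx.2)).aestronglyMeasurable
      measurableSet_uIoc)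
    (((hc' hD.cont r hr).mono (Icc_subset_Icc_right (by linarith))).intervalIntegrable_of_Icc hT0.le)
    (((((hc' hD.cont1 r hr).mul hv.fst).add ((hc' hD.cont2 r hr).mul hv.snd)).mono
      (hsub r (by linarith))).aestronglyMeasurable measurableSet_uIoc)
    (.of_forall fun t ht x hx => by
      have ht' := hsub x hx.2 ht
      have e := ((h x hx.1).hasDerivAt_P hc ht').le_of_lip' (Real.exp_pos
        (S.M * (1 + 2 * S.R) * |t|)).le (.of_forall fun y => by
          simpa [NF.dist_self, mul_comm] using S.close h0.near q y x t)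
      have e1 := abs_mul_le (hm _ (hΩ x hx.1 t ht')).1 ((abs_fst_le _).trans e)
      have e2 := abs_mul_le (hm _ (hΩ x hx.1 t ht')).2 ((abs_snd_le _).trans e)
      exact (abs_add_le _ _).trans (by linarith))
    (Continuous.intervalIntegrable (by fun_prop) _ _)
    (.of_forall fun t ht x hx => hD.deriv (fun y => S.P q y t) _ x (hΩ x hx.1 t (hsub x hx.2 ht))
      ((h x hx.1).hasDerivAt_P hc (hsub x hx.2 ht)))).2
  refine (chain (G := fun x t => ∫ u in (0 : ℝ)..t, D (S.P q x u))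
    (g := fun p => D (S.P q p.1 p.2)) (hp.mono fun p e => ?_)
    ((hD.cont _ (hΩ r hr _ ⟨hT0.le, by linarith⟩)).tendsto.comp (tendsto_nhdsWithin_iff.2
      ⟨h0.joint _, hp.mono fun p e => hΩ _ e.1 _ (Ioo_subset_Icc_self e.2)⟩)) ha
    (S.hasDerivAt_s hc h hr).1).congr_deriv (by rw [I']; ring)
  have e1 := hc' hD.cont _ e.1
  exact intervalIntegral.integral_hasDerivAt_right
    ((e1.mono (Icc_subset_Icc_right e.2.2.le)).intervalIntegrable_of_Icc e.2.1.le)
    ⟨_, Icc_mem_nhds e.2.1 e.2.2, e1.aestronglyMeasurable measurableSet_Icc⟩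
    (e1.continuousAt (Icc_mem_nhds e.2.1 e.2.2))

end Setup

end Pool.Agent.Lib.MP_bf91d6_an
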