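import Pool.Agent.Lib.MP_bf91d6_an.H3a

set_option autoImplicit false

namespace Pool.Agent.Lib.MP_bf91d6_an

open Set Filter Topology Metric MeasureTheory

namespace H6

/-- `p` is close to a point of the closed positive quadrant away from the diagonal. -/
def NearCone (ε : ℝ) (p : ℝ × ℝ) : Prop :=
  ∃ g : ℝ × ℝ, ‖p - g‖ < ε ∧ 0 ≤ g.1 ∧ 0 ≤ g.2 ∧ (g.2 ≤ g.1 / 2 ∨ g.1 ≤ g.2 / 2)

theorem abs_fst_le (p : ℝ × ℝ) : |p.1| ≤ ‖p‖ := norm_fst_le p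

theorem abs_snd_le (p : ℝ × ℝ) : |p.2| ≤ ‖p‖ := norm_snd_le p

theorem norm_eq (p : ℝ × ℝ) : ‖p‖ = max |p.1| |p.2| := rfl

theorem norm_swap' (p : ℝ × ℝ) : ‖p.swap‖ = ‖p‖ := by
  rw [norm_eq, norm_eq, max_comm]; rfl

theorem NearCone.swap {ε : ℝ} {p : ℝ × ℝ} (h : NearCone ε p) : NearCone ε p.swap := by
  obtain ⟨g, h1, h2, h3, h4⟩ := h
  refine ⟨g.swap, ?_, h3, h2, h4.symm⟩
  have : p.swap - g.swap = (p - g).swap := rfl
  rw [this, norm_swap']; exact h1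

theorem NearCone.bounds {ε : ℝ} {p : ℝ × ℝ} (h : NearCone ε p) :
    -ε < p.1 ∧ -ε < p.2 ∧ (2 * p.2 - 3 * ε < p.1 ∨ 2 * p.1 - 3 * ε < p.2) := by
  obtain ⟨g, h1, h2, h3, h4⟩ := h
  have a1 := abs_lt.1 ((abs_fst_le (p - g)).trans_lt h1)
  have a2 := abs_lt.1 ((abs_snd_le (p - g)).trans_lt h1)
  simp only [Prod.fst_sub, Prod.snd_sub] at a1 a2
  refine ⟨by linarith, by linarith, ?_⟩
  rcases h4 with h4 | h4
  · left; linarith
  · right; linarith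

theorem nearCone (S : Setup) {ε : ℝ} {p : ℝ × ℝ} (hε : ε ≤ S.δ) (hp : ‖p‖ ≤ S.δ)
    (h : p ∈ thickening ε S.Γ) : NearCone ε p := by
  obtain ⟨g, hg, hd⟩ := mem_thickening_iff.1 h
  rw [dist_eq_norm] at hd
  rcases hg with rfl | ⟨t, rfl⟩
  · exact ⟨0, hd, le_rfl, le_rfl, Or.inl (by simp)⟩
  · refine ⟨S.γ t, hd, (S.loop.pos t).1.le, (S.loop.pos t).2.le, S.cone t ?_⟩
    have := norm_sub_norm_le (S.γ t) p
    rw [norm_sub_rev] at this
    linarith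

variable {q : NF} {lam M δ ε : ℝ} {p : ℝ → ℝ × ℝ}

theorem exit (h : Good q lam M) (hl : 0 < lam) (hδ : 100 * M * δ ≤ lam) (hp : IsSol q.V p)
    {Tp : ℝ} (hT : 0 < Tp) (hper : Function.Periodic p Tp) (hne : ∀ t, p t ≠ 0)
    (hc : ∀ t, ‖p t‖ ≤ δ → NearCone ε (p t)) (hε : 4 * ε ≤ δ) {ts : ℝ} (hs : ‖p ts‖ < δ) :
    ∃ tb > ts, (p tb).1 = δ ∧ |(p tb).2| < δ ∧ ∀ t ∈ Icc ts tb, ‖p t‖ ≤ δ := by
  have hδ0 : 0 < δ := (norm_nonneg _).trans_lt hs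
  obtain ⟨b, hb, hb'⟩ : ∃ b, ts ≤ b ∧ δ ≤ ‖p b‖ := by
    by_contra hn
    push Not at hn
    have := h.Vf_lt hl hδ (p := p) (a := ts) (b := ts + Tp) (by linarith) (fun t _ => hp t)
      (fun t ht => (hn t ht.1).le) (fun t _ => hne t)
    rw [hper ts] at this
    exact lt_irrefl _ this
  obtain ⟨tb, htb, he, hlt⟩ := exists_first hp.continuous.norm hb hs hb'
  have hle : ∀ t ∈ Icc ts tb, ‖p t‖ ≤ δ := fun t ht => by
    rcases ht.2.lt_or_eq with h1 | h1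
    · exact (hlt t ⟨ht.1, h1⟩).le
    · rw [h1]; exact he.le
  obtain ⟨b1, b2, b3⟩ := (hc tb he.le).bounds
  have a1 := abs_le.1 ((abs_fst_le (p tb)).trans he.le)
  have a2 := abs_le.1 ((abs_snd_le (p tb)).trans he.le)
  have hm : |(p tb).1| = δ ∨ |(p tb).2| = δ := by
    rw [norm_eq] at he
    rcases max_choice |(p tb).1| |(p tb).2| with h1 | h1
    · left; rw [← h1]; exact he
    · right; rw [← h1]; exact he
  have hy : (p tb).2 < δ := by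
    by_contra hn
    have hy : (p tb).2 = δ := le_antisymm a2.2 (not_lt.1 hn)
    have hd := h.box_y hl hδ he.le (he.trans hy.symm)
    have hneg : (q.V (p tb)).2 < 0 := by
      rw [hy] at hd
      nlinarith
    have ht := (hasDerivAt_iff_tendsto_slope_left_right.1 (hp.snd tb)).1
    have e1 := ht.eventually (gt_mem_nhds hneg)
    obtain ⟨s, hs1, hs2⟩ := (e1.and (Ioo_mem_nhdsLT htb.1)).exists
    rw [slope_def_field, div_neg_iff] at hs1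
    have h3 := (abs_le.1 ((abs_snd_le (p s)).trans (hlt s ⟨hs2.1.le, hs2.2⟩).le)).2
    have h4 := abs_lt.1 ((abs_snd_le (p s)).trans_lt (hlt s ⟨hs2.1.le, hs2.2⟩))
    rcases hs1 with hs1 | hs1
    · linarith [hs1.1, h4.2]
    · linarith [hs1.2, hs2.2]
  have hy' : |(p tb).2| < δ := abs_lt.2 ⟨by linarith, hy⟩
  refine ⟨tb, htb.1, ?_, hy', hle⟩
  rcases hm with h1 | h1
  · rcases (abs_eq hδ0.le).1 h1 with h2 | h2
    · exact h2
    · linarith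
  · exact absurd h1 hy'.ne

theorem entry (h : Good q lam M) (hl : 0 < lam) (hδ : 100 * M * δ ≤ lam) (hp : IsSol q.V p)
    {Tp : ℝ} (hT : 0 < Tp) (hper : Function.Periodic p Tp) (hne : ∀ t, p t ≠ 0)
    (hc : ∀ t, ‖p t‖ ≤ δ → NearCone ε (p t)) (hε : 4 * ε ≤ δ) {ts : ℝ} (hs : ‖p ts‖ < δ) :
    ∃ ta < ts, (p ta).2 = δ ∧ |(p ta).1| < δ ∧ ∀ t ∈ Icc ta ts, ‖p t‖ ≤ δ := by
  obtain ⟨tb, h1, h2, h3, h4⟩ := exit (p := fun t => (p (-t)).swap) (ε := ε) (ts := -ts) h.star hl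
    hδ hp.star hT
    (fun t => by
      have := hper (-(t + Tp))
      simp only [show -(t + Tp) + Tp = -t by ring] at this
      simp only [this])
    (fun t h0 => hne (-t) (by
      ext
      · exact congrArg Prod.snd h0
      · exact congrArg Prod.fst h0))
    (fun t ht => (hc (-t) (by rwa [norm_swap'] at ht)).swap) hε
    (by simpa [norm_swap'] using hs)
  refine ⟨-tb, by linarith, h2, h3, fun t ht => ?_⟩
  have := h4 (-t) ⟨by linarith [ht.2], by linarith [ht.1]⟩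
  simpa [norm_swap'] using this

theorem passage (h : Good q lam M) (hl : 0 < lam) (hδ : 100 * M * δ ≤ lam) (hp : IsSol q.V p)
    {Tp : ℝ} (hT : 0 < Tp) (hper : Function.Periodic p Tp) (hne : ∀ t, p t ≠ 0)
    (hc : ∀ t, ‖p t‖ ≤ δ → NearCone ε (p t)) (hε : 4 * ε ≤ δ) {ts : ℝ} (hs : ‖p ts‖ < δ) :
    ∃ tc r, p tc = (r, r) ∧ 0 < r ∧ r < 3 * ε ∧
      ((p ts).2 ^ 2 < (p ts).1 ^ 2 → tc < ts ∧ ∀ t ∈ Icc tc ts, ‖p t‖ ≤ δ) := by
  obtain ⟨tb, b1, b2, b3, b4⟩ := exit h hl hδ hp hT hper hne hc hε hs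
  obtain ⟨ta, a1, a2, a3, a4⟩ := entry h hl hδ hp hT hper hne hc hε hs
  have hδ0 : 0 < δ := (norm_nonneg _).trans_lt hs
  have hall : ∀ t ∈ Icc ta tb, ‖p t‖ ≤ δ := fun t ht => by
    rcases le_total t ts with h1 | h1
    · exact a4 t ⟨ht.1, h1⟩
    · exact b4 t ⟨h1, ht.2⟩
  have hcont : Continuous fun t => (p t).1 ^ 2 - (p t).2 ^ 2 := by
    have := hp.continuous
    fun_prop
  have hFa : (p ta).1 ^ 2 - (p ta).2 ^ 2 < 0 := by
    have := abs_lt.1 a3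
    rw [a2]; nlinarith
  have hFb : 0 < (p tb).1 ^ 2 - (p tb).2 ^ 2 := by
    have := abs_lt.1 b3
    rw [b2]; nlinarith
  obtain ⟨tc, htc, hF⟩ := intermediate_value_Icc (by linarith : ta ≤ tb) hcont.continuousOn
    (show (0 : ℝ) ∈ Icc _ _ from ⟨hFa.le, hFb.le⟩)
  simp only at hF
  have hy := y_pos_fwd (q := q) hp.continuous htc.1 (fun t _ => hp t) (by rw [a2]; exact hδ0)
  have hx := x_pos_bwd (q := q) hp.continuous htc.2 (fun t _ => hp t) (by rw [b2]; exact hδ0)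
  have hxy : (p tc).2 = (p tc).1 := by
    have : ((p tc).1 - (p tc).2) * ((p tc).1 + (p tc).2) = 0 := by linarith
    rcases mul_eq_zero.1 this with h1 | h1 <;> linarith
  obtain ⟨-, -, c3⟩ := (hc tc (hall tc htc)).bounds
  refine ⟨tc, (p tc).1, Prod.ext rfl hxy, hx, by rcases c3 with c | c <;> linarith, fun hlt => ?_⟩
  have h1 : tc < ts := by
    by_contra hn
    rcases (not_lt.1 hn).lt_or_eq with h2 | h2
    · have := h.Vf_lt hl hδ (p := p) h2 (fun t _ => hp t)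
        (fun t ht => hall t ⟨by linarith [ht.1], by linarith [ht.2, htc.2]⟩) (fun t _ => hne t)
      linarith
    · rw [← h2] at hF; linarith
  exact ⟨h1, fun t ht => a4 t ⟨htc.1.trans ht.1, ht.2⟩⟩

theorem close (S : Setup) (Sg : ℝ) {B : ℝ} (hB : 0 < B) :
    ∃ κ > (0 : ℝ), κ ≤ 1 ∧ ∀ q : NF, q.dist S.q₀ ≤ S.ρ₁ → q.dist S.q₀ ≤ κ →
      ∀ p : ℝ → ℝ × ℝ, IsSol (q.W S.R) p → ∀ θ θ' t : ℝ, ‖p θ - S.γ θ'‖ ≤ κ → |t| ≤ Sg →
        ‖p (t + θ) - S.γ (t + θ')‖ ≤ B := by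
  obtain ⟨κ, h0, h1, h2⟩ := exists_small
    ((1 + (S.R + S.R ^ 2)) * Real.exp (S.M * (1 + 2 * S.R) * Sg)) hB
  refine ⟨κ, h0, h1, fun q hq hq' p hp θ θ' t hθ ht => ?_⟩
  have hR := S.R_pos
  have hM := S.one_le_M
  refine (gron (S.good q hq).size hR.le hp S.γ_sol θ θ' t).trans (le_trans ?_ (h2 κ h0.le le_rfl))
  have e1 : Real.exp (S.M * (1 + 2 * S.R) * |t|) ≤ Real.exp (S.M * (1 + 2 * S.R) * Sg) :=
    Real.exp_le_exp.2 (mul_le_mul_of_nonneg_left ht (by positivity))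
  have e2 : ‖p θ - S.γ θ'‖ + q.dist S.q₀ * (S.R + S.R ^ 2) ≤ (1 + (S.R + S.R ^ 2)) * κ := by
    have := mul_le_mul_of_nonneg_right hq' (show 0 ≤ S.R + S.R ^ 2 by positivity)
    linarith
  calc _ ≤ ((1 + (S.R + S.R ^ 2)) * κ) * Real.exp (S.M * (1 + 2 * S.R) * Sg) :=
        mul_le_mul e2 e1 (Real.exp_pos _).le (by positivity)
    _ = _ := by ring

theorem norm_le_R (S : Setup) {x : ℝ × ℝ} (hε : ε ≤ 1) (h : x ∈ thickening ε S.Γ) :
    ‖x‖ ≤ S.R := by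
  obtain ⟨g, hg, hd⟩ := mem_thickening_iff.1 h
  rw [dist_eq_norm] at hd
  have h1 := norm_sub_norm_le x g
  rcases hg with rfl | ⟨t, rfl⟩
  · have := S.two_le_R
    simp only [norm_zero] at h1
    linarith
  · linarith [S.hR t]

theorem ne_zero (hp : IsSol q.V p) (hn : ∃ s t, p s ≠ p t) (t : ℝ) : p t ≠ 0 := by
  intro h0
  obtain ⟨s, u, hsu⟩ := hn
  have hV : q.V (p t) = 0 := by rw [h0]; simp [NF.V]
  exact hsu ((hp.const_of_zero q.contDiff_V hV s).trans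
    (hp.const_of_zero q.contDiff_V hV u).symm)

end H6

open H6

theorem Setup.mem_thick (S : Setup) {C c κ : ℝ} (hc : 0 < c) (hκ : 0 < κ) :
    ∃ η > (0 : ℝ), ∃ ρ > (0 : ℝ), ∀ (q : NF) (r : ℝ), S.Facts C c q r → q.dist S.q₀ ≤ ρ →
      ‖S.P q r (S.T q r) - S.z₀‖ ≤ η →
      ∀ t ∈ Icc 0 (S.T q r + 1), S.P q r t ∈ thickening κ S.Γ := by
  have h1 : Tendsto (fun s : ℝ => |C| * Real.exp (-c * s)) atTop (𝓝 0) := by
    have := (Real.tendsto_exp_neg_atTop_nhds_zero.comp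
      (tendsto_id.const_mul_atTop hc)).const_mul |C|
    simpa [Function.comp_def] using this
  obtain ⟨Sg, hS1, hS2⟩ := ((h1.eventually (gt_mem_nhds hκ)).and (eventually_ge_atTop 1)).exists
  obtain ⟨η, h0, -, hη⟩ := close S Sg (half_pos hκ)
  refine ⟨η, h0, η, h0, fun q r hF hq hz t ht => mem_thickening_iff.2 ?_⟩
  rcases le_total Sg (S.T q r - t) with h2 | h2
  · refine ⟨0, Or.inl rfl, ?_⟩
    rw [dist_zero_right]
    refine (hF.decay t ⟨ht.1, by linarith⟩).trans_lt (lt_of_le_of_lt ?_ hS1)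
    exact mul_le_mul (le_abs_self C) (Real.exp_le_exp.2 (by nlinarith)) (Real.exp_pos _).le
      (abs_nonneg _)
  · refine ⟨S.γ (t - S.T q r + 0), Or.inr ⟨_, rfl⟩, ?_⟩
    have := hη q hF.near hq _ (S.P_sol q r) (S.T q r) 0 (t - S.T q r) hz
      (abs_le.2 ⟨by linarith, by linarith [ht.2]⟩)
    rw [sub_add_cancel] at this
    rw [dist_eq_norm]
    linarith

theorem Setup.diag_small (S : Setup) {ε r : ℝ} (hε : ε ≤ S.δ) (hr : 0 < r) (hrδ : r ≤ S.δ)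
    (h : ((r, r) : ℝ × ℝ) ∈ thickening ε S.Γ) : r < 3 * ε := by
  obtain ⟨-, -, h3⟩ := (nearCone S hε (by rw [norm_eq, max_self, abs_of_pos hr]; exact hrδ) h).bounds
  rcases h3 with h3 | h3 <;> simp only at h3 <;> linarith

theorem Setup.exists_diag (S : Setup) {r₁ : ℝ} (hr₁ : 0 < r₁) :
    ∃ ε > (0 : ℝ), ∃ ρ > (0 : ℝ), ∀ q : NF, q.dist S.q₀ ≤ ρ → ∀ O, IsPeriodicOrbit q.V O →
      O ⊆ thickening ε S.Γ → ∃ r ∈ Ioo 0 r₁, ((r, r) : ℝ × ℝ) ∈ O := by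
  have hδ := S.δ_pos
  obtain ⟨S1, hS1⟩ : ∃ S1 : ℝ, ∀ t, S1 ≤ |t| → ‖S.γ t‖ < S.δ / 2 := by
    have e1 := S.loop.top.norm.eventually (gt_mem_nhds (show ‖(0 : ℝ × ℝ)‖ < S.δ / 2 by
      simpa using hδ))
    have e2 := S.loop.bot.norm.eventually (gt_mem_nhds (show ‖(0 : ℝ × ℝ)‖ < S.δ / 2 by
      simpa using hδ))
    obtain ⟨a, ha⟩ := eventually_atTop.1 e1
    obtain ⟨b, hb⟩ := eventually_atBot.1 e2
    refine ⟨max a (-b), fun t ht => ?_⟩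
    rcases le_total 0 t with h0 | h0
    · rw [abs_of_nonneg h0] at ht
      exact ha t ((le_max_left _ _).trans ht)
    · rw [abs_of_nonpos h0] at ht
      exact hb t (by linarith [(le_max_right _ _).trans ht])
  obtain ⟨κ, h0, h1, hκ⟩ := close S (2 * S1) (half_pos hδ)
  refine ⟨min κ (min (S.δ / 4) (r₁ / 3)), by positivity, min κ S.ρ₁, lt_min h0 S.ρ₁_pos,
    fun q hq O hO hsub => ?_⟩
  set ε := min κ (min (S.δ / 4) (r₁ / 3)) with hε
  have e1 : ε ≤ κ := min_le_left _ _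
  have e2 : ε ≤ S.δ / 4 := (min_le_right _ _).trans (min_le_left _ _)
  have e3 : ε ≤ r₁ / 3 := (min_le_right _ _).trans (min_le_right _ _)
  have q1 : q.dist S.q₀ ≤ S.ρ₁ := hq.trans (min_le_right _ _)
  have q2 : q.dist S.q₀ ≤ κ := hq.trans (min_le_left _ _)
  obtain ⟨p, Tp, hp, hT, hper, hn, rfl⟩ := hO
  have hmem : ∀ t, p t ∈ thickening ε S.Γ := fun t => hsub ⟨t, rfl⟩
  have hW : IsSol (q.W S.R) p := hp.toW fun t => norm_le_R S (e1.trans h1) (hmem t)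
  obtain ⟨ts, hts⟩ : ∃ ts, ‖p ts‖ < S.δ := by
    obtain ⟨g, hg, hd⟩ := mem_thickening_iff.1 (hmem 0)
    rw [dist_eq_norm] at hd
    have h2 := norm_sub_norm_le (p 0) g
    rcases hg with rfl | ⟨u, rfl⟩
    · refine ⟨0, ?_⟩
      simp only [norm_zero] at h2
      linarith
    · rcases le_total S1 |u| with h3 | h3
      · exact ⟨0, by linarith [hS1 u h3]⟩
      · have h4 := abs_le.1 h3
        have h5 := hκ q q1 q2 p hW 0 u (S1 - u) (by linarith)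
          (abs_le.2 ⟨by linarith, by linarith⟩)
        have h6 := hS1 (S1 - u + u) (by rw [sub_add_cancel]; exact le_abs_self _)
        have h7 := norm_sub_norm_le (p (S1 - u + 0)) (S.γ (S1 - u + u))
        exact ⟨S1 - u + 0, by linarith⟩
  obtain ⟨tc, r, c1, c2, c3, -⟩ := passage (ε := ε) (S.good q q1) S.lam_pos S.δ_le hp hT hper
    (ne_zero hp hn) (fun t ht => nearCone S (by linarith) ht (hmem t)) (by linarith) hts
  exact ⟨r, ⟨c2, by linarith⟩, tc, c1⟩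

theorem Setup.back (S : Setup) {r₁ : ℝ} (hr₁ : 0 < r₁) :
    ∃ ε > (0 : ℝ), ∃ ρ > (0 : ℝ), ∀ q : NF, q.dist S.q₀ ≤ ρ → ∀ O, IsPeriodicOrbit q.V O →
      O ⊆ thickening ε S.Γ → ∀ p ∈ O, S.L p = 0 → ‖p - S.z₀‖ ≤ ε →
        ∃ r ∈ Ioo 0 r₁, ((r, r) : ℝ × ℝ) ∈ O ∧ S.P q r (S.T q r) = p := by
  have hδ := S.δ_pos
  obtain ⟨A, -, η₀, hη₀, hhit⟩ := S.hit
  have a1 := S.br1
  obtain ⟨a2, a3⟩ := S.loop.pos (S.t₀ - 1)
  have a4 := (S.br (S.t₀ - 1) (by linarith)).1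
  have ht₀ := S.t₀_le
  set a := S.γ (S.t₀ - 1) with ha
  set η := min η₀ (min ((S.δ - a.1) / 2) (a.1 / 8)) with hη
  have η0 : 0 < η := lt_min hη₀ (lt_min (by linarith) (by linarith))
  have η1 : η ≤ η₀ := min_le_left _ _
  have η2 : η ≤ (S.δ - a.1) / 2 := (min_le_right _ _).trans (min_le_left _ _)
  have η3 : η ≤ a.1 / 8 := (min_le_right _ _).trans (min_le_right _ _)
  obtain ⟨κ, h0, h1, hκ⟩ := close S (2 - S.t₀) η0
  refine ⟨min κ (min (S.δ / 4) (r₁ / 3)), by positivity, min κ S.ρ₁, lt_min h0 S.ρ₁_pos,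
    fun q hq O hO hsub z hz hL hzz => ?_⟩
  set ε := min κ (min (S.δ / 4) (r₁ / 3)) with hε
  have e1 : ε ≤ κ := min_le_left _ _
  have e2 : ε ≤ S.δ / 4 := (min_le_right _ _).trans (min_le_left _ _)
  have e3 : ε ≤ r₁ / 3 := (min_le_right _ _).trans (min_le_right _ _)
  have q1 : q.dist S.q₀ ≤ S.ρ₁ := hq.trans (min_le_right _ _)
  have q2 : q.dist S.q₀ ≤ κ := hq.trans (min_le_left _ _)
  obtain ⟨p, Tp, hp, hT, hper, hn, rfl⟩ := hO
  obtain ⟨θ, rfl⟩ := hz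
  have hmem : ∀ t, p t ∈ thickening ε S.Γ := fun t => hsub ⟨t, rfl⟩
  have hW : IsSol (q.W S.R) p := hp.toW fun t => norm_le_R S (e1.trans h1) (hmem t)
  have hcl : ∀ t ∈ Icc (S.t₀ - 1) 1, ‖p (t + θ) - S.γ t‖ ≤ η := fun t ht => by
    have := hκ q q1 q2 p hW θ 0 t (hzz.trans e1) (abs_le.2 ⟨by linarith [ht.1], by linarith [ht.2]⟩)
    rwa [add_zero] at this
  have hs := hcl (S.t₀ - 1) ⟨le_rfl, by linarith⟩
  have b1 := abs_le.1 ((abs_fst_le _).trans hs)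
  have b2 := abs_le.1 ((abs_snd_le _).trans hs)
  simp only [Prod.fst_sub, Prod.snd_sub, ← ha] at b1 b2
  have hts : ‖p (S.t₀ - 1 + θ)‖ < S.δ := by
    rw [norm_eq, max_lt_iff, abs_lt, abs_lt]
    exact ⟨⟨by linarith, by linarith⟩, by linarith, by linarith⟩
  obtain ⟨tc, r, c1, c2, c3, c4⟩ := passage (ε := ε) (S.good q q1) S.lam_pos S.δ_le hp hT hper
    (ne_zero hp hn) (fun t ht => nearCone S (by linarith) ht (hmem t)) (by linarith) hts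
  obtain ⟨c5, c6⟩ := c4 (by nlinarith)
  have hP : ∀ t, S.P q r t = p (t + tc) := fun t => by
    rw [Setup.P, ← c1]; exact hW.eq_flow tc t
  have hH : S.Hit (S.P q r) (θ - tc) := by
    refine (hhit q q1 _ (S.P_sol q r) (θ - tc) (S.t₀ - 1) η η1 (by linarith) (by linarith)
      (fun t ht => ?_) (fun t ht => ?_)).2 ?_
    · rw [hP, show t + (θ - tc) + tc = t + θ by ring]; exact hcl t ht
    · rw [hP]; exact c6 _ ⟨by linarith [ht.1], by linarith [ht.2]⟩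
    · rw [hP, sub_add_cancel]; exact hL
  refine ⟨r, ⟨c2, by linarith⟩, ⟨tc, c1⟩, ?_⟩
  rw [hH.T_eq, hP, sub_add_cancel]

end Pool.Agent.Lib.MP_bf91d6_an
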