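import Pool.Agent.Lib.MP_bf91d6_an.CDefs
import Pool.Agent.Lib.MP_bf91d6_an.H4
import Pool.Agent.Lib.MP_bf91d6_an.H6

set_option autoImplicit false

namespace Pool.Agent.Lib.MP_bf91d6_an

open Set Filter Topology Metric MeasureTheory

namespace C1

theorem norm_diag {r : ℝ} (hr : 0 ≤ r) : ‖((r, r) : ℝ × ℝ)‖ = r := by
  simp [Prod.norm_def, abs_of_nonneg hr]

theorem not_diag {S : Setup} {C c : ℝ} {q : NF} {r r' t : ℝ} (h : S.Facts C c q r)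
    (ht : t ∈ Ioc 0 (S.T q r)) (h0 : 0 < r') (h1 : r' < S.δ / 2) : S.P q r t ≠ (r', r') := by
  intro he
  rcases h.diag t ht with h2 | h2
  · rw [he] at h2
    exact lt_irrefl _ h2
  · rw [he, norm_diag h0.le] at h2
    linarith

theorem sc_eq (Z : Pair) (p : ℝ × ℝ) : Z.S'.sc p.swap = Z.S.sc p := by
  simp only [Setup.sc, Z.z₀_eq, Z.X₀_eq, dot, rot, Prod.fst_neg, Prod.snd_neg, Prod.fst_swap,
    Prod.snd_swap, Prod.fst_sub, Prod.snd_sub]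
  congr 1 <;> ring

theorem s_mono {S : Setup} {C c r₀ : ℝ} (hc : 0 < c) {q : NF}
    (h : ∀ r ∈ Ioo 0 r₀, S.Facts C c q r) {a b : ℝ} (ha : 0 < a) (hab : a ≤ b) (hb : b < r₀) :
    S.s q a ≤ S.s q b := by
  have hm : ∀ t ∈ Icc a b, t ∈ Ioo 0 r₀ := fun t ht => ⟨ha.trans_le ht.1, ht.2.trans_lt hb⟩
  refine le_of_deriv_nonneg hab (fun t ht => (S.hasDerivAt_s hc h (hm t ht)).2) fun t ht => ?_
  have h0 := h t (hm t ht)
  have h1 : 0 < q.β₀ t := (mul_pos hc h0.r_pos).trans_le h0.beta0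
  have h2 := h0.trans
  have h3 := S.X₀_pos
  exact div_nonneg (mul_pos h1 (Real.exp_pos _)).le (by linarith)

theorem orbit_star {q : NF} {O : Set (ℝ × ℝ)} (h : IsPeriodicOrbit q.V O) :
    IsPeriodicOrbit q.star.V (Prod.swap '' O) := by
  obtain ⟨γ, T, hs, hT, hp, ⟨s, t, hst⟩, rfl⟩ := h
  refine ⟨fun t => (γ (-t)).swap, T, hs.star, hT, fun u => ?_, ⟨-s, -t, ?_⟩, ?_⟩
  · have := hp.sub_eq (-u)
    simp only [show -(u + T) = -u - T by ring, this]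
  · simp only [neg_neg]
    exact fun h => hst (Prod.swap_injective h)
  · ext p
    constructor
    · rintro ⟨_, ⟨u, rfl⟩, rfl⟩
      exact ⟨-u, by simp⟩
    · rintro ⟨u, rfl⟩
      exact ⟨_, ⟨-u, rfl⟩, rfl⟩

theorem norm_le_R (S : Setup) {ε : ℝ} (hε : ε ≤ 1) {p : ℝ × ℝ} (h : p ∈ thickening ε S.Γ) :
    ‖p‖ ≤ S.R := by
  obtain ⟨g, hg, hd⟩ := mem_thickening_iff.1 h
  rw [dist_eq_norm] at hd
  have h1 : ‖g‖ + 2 ≤ S.R := by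
    rcases hg with rfl | ⟨t, rfl⟩
    · simpa using S.two_le_R
    · exact S.hR t
  linarith [norm_le_norm_add_norm_sub' p g, norm_sub_rev p g]

theorem eq_range (S : Setup) {q : NF} {O : Set (ℝ × ℝ)} (h : IsPeriodicOrbit q.V O) {ε : ℝ}
    (hε : ε ≤ 1) (hO : O ⊆ thickening ε S.Γ) {r : ℝ} (hr : ((r, r) : ℝ × ℝ) ∈ O) :
    O = range (S.P q r) := by
  obtain ⟨γ, T, hs, -, -, -, rfl⟩ := h
  obtain ⟨θ, hθ⟩ := hr
  have hW := hs.toW (R := S.R) fun t => norm_le_R S hε (hO ⟨t, rfl⟩)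
  have he : ∀ t, S.P q r t = γ (t + θ) := fun t => by
    rw [Setup.P, ← hθ]
    exact hW.eq_flow θ t
  ext p
  constructor
  · rintro ⟨u, rfl⟩
    exact ⟨u - θ, by rw [he]; simp⟩
  · rintro ⟨u, rfl⟩
    exact ⟨u + θ, (he u).symm⟩

end C1

open C1

theorem Pair.ends_eq (Z : Pair) {q : NF} {r : ℝ} (h : Z.Both q r) (hg : Z.gap q r = 0) :
    Z.S.P q r (Z.S.T q r) = Z.S.P q r (-Z.S'.T q.star r) := by
  have h1 := h.1.z_s
  have h2 := h.2.z_s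
  rw [Z.z_eq, Z.P'_eq, ← sub_eq_zero.1 hg, h1] at h2
  exact Prod.swap_injective h2

theorem Pair.periodic (Z : Pair) {q : NF} {r : ℝ} (h : Z.Both q r) (hg : Z.gap q r = 0) :
    Function.Periodic (Z.S.P q r) (Z.S.T q r + Z.S'.T q.star r) := fun t =>
  congrFun (((Z.S.P_sol q r).shift (Z.S.T q r + Z.S'.T q.star r)).uniqueW (Z.S.P_sol q r)
    (t₀ := -Z.S'.T q.star r) (by simpa using Z.ends_eq h hg)) t

theorem Pair.orbit (Z : Pair) {q : NF} {r : ℝ} (h : Z.Both q r) (hg : Z.gap q r = 0) :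
    IsPeriodicOrbit q.V (range (Z.S.P q r)) ∧
      (∀ p ∈ range (Z.S.P q r), (∃ t ∈ Icc 0 (Z.S.T q r), p = Z.S.P q r t) ∨
        ∃ t ∈ Icc 0 (Z.S'.T q.star r), p = (Z.S'.P q.star r t).swap) ∧
      ∀ r', 0 < r' → r' < Z.S.δ / 2 → r' < Z.S'.δ / 2 →
        ((r', r') : ℝ × ℝ) ∈ range (Z.S.P q r) → r' = r := by
  have hp := Z.periodic h hg
  have hT : 0 < Z.S.T q r + Z.S'.T q.star r := by linarith [h.1.one_le, h.2.one_le]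
  have h2 : ∀ p ∈ range (Z.S.P q r), (∃ t ∈ Icc 0 (Z.S.T q r), p = Z.S.P q r t) ∨
      ∃ t ∈ Icc 0 (Z.S'.T q.star r), p = (Z.S'.P q.star r t).swap := by
    rintro _ ⟨t, rfl⟩
    obtain ⟨y, hy, he⟩ := hp.exists_mem_Ico hT t (-Z.S'.T q.star r)
    rcases le_total 0 y with h0 | h0
    · exact Or.inl ⟨y, ⟨h0, by linarith [hy.2]⟩, he⟩
    · refine Or.inr ⟨-y, ⟨by linarith, by linarith [hy.1]⟩, ?_⟩
      rw [Z.P'_eq, neg_neg, Prod.swap_swap, he]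
  have hb : ∀ t, ‖Z.S.P q r t‖ ≤ Z.S.R := fun t => by
    rcases h2 _ ⟨t, rfl⟩ with ⟨u, hu, he⟩ | ⟨u, hu, he⟩
    · rw [he]
      linarith [(h.1.reg u ⟨hu.1, by linarith [hu.2]⟩).1]
    · rw [he, norm_swap, ← Z.hR]
      linarith [(h.2.reg u ⟨hu.1, by linarith [hu.2]⟩).1]
  refine ⟨⟨Z.S.P q r, _, fun t => (Z.S.P_sol q r).ofW (hb t), hT, hp, ⟨1, 0, ?_⟩, rfl⟩, h2,
    fun r' h0 h1 h1' hm => ?_⟩
  · rw [Z.S.P_zero]
    exact not_diag h.1 ⟨one_pos, h.1.one_le⟩ h.1.r_pos h.1.r_lt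
  · rcases h2 _ hm with ⟨u, hu, he⟩ | ⟨u, hu, he⟩
    · rcases hu.1.eq_or_lt with rfl | hu0
      · rw [Z.S.P_zero] at he
        exact congrArg Prod.fst he
      · exact absurd he.symm (not_diag h.1 ⟨hu0, hu.2⟩ h0 h1)
    · rcases hu.1.eq_or_lt with rfl | hu0
      · rw [Z.S'.P_zero] at he
        exact congrArg Prod.fst he
      · refine absurd ?_ (not_diag h.2 ⟨hu0, hu.2⟩ h0 h1')
        simpa using (congrArg Prod.swap he).symm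

theorem Pair.gap_of_orbit (Z : Pair) {r₁ : ℝ} (hr₁ : 0 < r₁) :
    ∃ ε > (0 : ℝ), ∃ ρ > (0 : ℝ), ∀ q : NF, q.dist Z.S.q₀ ≤ ρ → ∀ O, IsPeriodicOrbit q.V O →
      O ⊆ thickening ε Z.S.Γ → ∃ r ∈ Ioo 0 r₁, O = range (Z.S.P q r) ∧ Z.gap q r = 0 := by
  obtain ⟨ρ0, hρ0, r0, hr0, hF0⟩ := Z.facts 1 one_pos
  have hδ := Z.S.δ_pos
  obtain ⟨r2, hr2, h21, h20, h2δ⟩ : ∃ r2 > (0 : ℝ), r2 < r₁ ∧ r2 < r0 ∧ r2 ≤ Z.S.δ :=
    ⟨min r₁ (min r0 Z.S.δ) / 2, by positivity,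
      by linarith [min_le_left r₁ (min r0 Z.S.δ)],
      by linarith [min_le_right r₁ (min r0 Z.S.δ), min_le_left r0 Z.S.δ],
      by linarith [min_le_right r₁ (min r0 Z.S.δ), min_le_right r0 Z.S.δ]⟩
  obtain ⟨ε1, hε1, ρ1, hρ1, hB1⟩ := Z.S.back hr2
  obtain ⟨ε2, hε2, ρ2, hρ2, hB2⟩ := Z.S'.back hr2
  obtain ⟨ε3, hε3, ρ3, hρ3, hB3⟩ := Z.S.exists_diag hr2
  obtain ⟨ρ4, hρ4, r4, hr4, hF4⟩ := Z.facts (min ε1 ε2) (lt_min hε1 hε2)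
  obtain ⟨ε, hε, e1, e2, e3, e4, e5, e6⟩ : ∃ ε > (0 : ℝ), ε ≤ ε1 ∧ ε ≤ ε2 ∧ ε ≤ ε3 ∧
      ε ≤ r4 / 3 ∧ ε ≤ 1 ∧ ε ≤ Z.S.δ :=
    ⟨min (min (min ε1 ε2) (min ε3 (r4 / 3))) (min 1 Z.S.δ), by positivity,
      by simp, by simp, by simp, by simp, by simp, by simp⟩
  obtain ⟨ρ, hρ, f0, f1, f2, f3, f4⟩ : ∃ ρ > (0 : ℝ), ρ ≤ ρ0 ∧ ρ ≤ ρ1 ∧ ρ ≤ ρ2 ∧ ρ ≤ ρ3 ∧ ρ ≤ ρ4 :=
    ⟨min (min (min ρ0 ρ1) (min ρ2 ρ3)) ρ4, by positivity,
      by simp, by simp, by simp, by simp, by simp⟩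
  refine ⟨ε, hε, ρ, hρ, fun q hq O hO hsub => ?_⟩
  have hK : IsCompact (Icc 0 r2 ∩ (fun r : ℝ => ((r, r) : ℝ × ℝ)) ⁻¹' O) :=
    isCompact_Icc.inter_right (hO.isCompact.isClosed.preimage (by fun_prop))
  obtain ⟨a, ha, haO⟩ := hB3 q (hq.trans f3) O hO (hsub.trans (thickening_mono e3 _))
  obtain ⟨m, ⟨⟨hm, hmO⟩, hmax⟩⟩ := hK.exists_isGreatest ⟨a, Ioo_subset_Icc_self ha, haO⟩
  have hm0 : 0 < m := ha.1.trans_le (hmax ⟨Ioo_subset_Icc_self ha, haO⟩)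
  have hm4 : m < r4 := by
    linarith [Z.S.diag_small e6 hm0 (hm.2.trans h2δ) (hsub hmO)]
  have hOr := eq_range Z.S hO e5 hsub hmO
  obtain ⟨⟨hA, hA'⟩, hc, hc'⟩ := hF4 q (hq.trans f4) m ⟨hm0, hm4⟩
  have hmr0 : m < r0 := hm.2.trans_lt h20
  refine ⟨m, ⟨hm0, hm.2.trans_lt h21⟩, hOr, sub_eq_zero.2 (le_antisymm ?_ ?_)⟩
  · have hpO : Z.S.P q m (Z.S.T q m) ∈ O := hOr ▸ ⟨_, rfl⟩
    obtain ⟨r', hr', hr'O, he⟩ := hB2 q.star (by rw [Z.dist_eq]; exact hq.trans f2) _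
      (orbit_star hO) (by
        rintro _ ⟨p, hp, rfl⟩
        exact Z.thick_eq.2 (thickening_mono e2 _ (hsub hp))) _ ⟨_, hpO, rfl⟩
      (by rw [Z.L_eq, hA.hit.2.2.1, neg_zero])
      (by rw [Z.z₀_eq, ← Prod.swap_sub, norm_swap]; exact hc.trans (min_le_right _ _))
    have hr'O' : ((r', r') : ℝ × ℝ) ∈ O := by
      obtain ⟨p, hp, he⟩ := hr'O
      have : p = (r', r') := by simpa using congrArg Prod.swap he
      exact this ▸ hp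
    have h1 : Z.S'.s q.star r' = Z.S.s q m := by rw [Setup.s, he, sc_eq]; rfl
    rw [← h1]
    exact s_mono Z.c'_pos (fun r hr => (hF0 q (hq.trans f0) r hr).1.2) hr'.1
      (hmax ⟨Ioo_subset_Icc_self hr', hr'O'⟩) hmr0
  · have hpO : (Z.S'.P q.star m (Z.S'.T q.star m)).swap ∈ O := by
      rw [Z.P'_eq, Prod.swap_swap, hOr]
      exact ⟨_, rfl⟩
    obtain ⟨r', hr', hr'O, he⟩ := hB1 q (hq.trans f1) O hO (hsub.trans (thickening_mono e1 _)) _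
      hpO (by rw [← neg_eq_zero, ← Z.L_eq, Prod.swap_swap]; exact hA'.hit.2.2.1)
      (by
        rw [← norm_swap, Prod.swap_sub, Prod.swap_swap, ← Z.z₀_eq]
        exact hc'.trans (min_le_left _ _))
    have h1 : Z.S.s q r' = Z.S'.s q.star m := by
      rw [Setup.s, he, ← sc_eq, Prod.swap_swap]; rfl
    rw [← h1]
    exact s_mono Z.c_pos (fun r hr => (hF0 q (hq.trans f0) r hr).1.1) hr'.1
      (hmax ⟨Ioo_subset_Icc_self hr', hr'O⟩) hmr0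

theorem Pair.not_isolated (Z : Pair) {q : NF} {r₀ : ℝ} (h : ∀ r ∈ Ioo 0 r₀, Z.Both q r)
    (hg : ∀ r ∈ Ioo 0 r₀, Z.gap q r = 0) {r : ℝ} (hr : r ∈ Ioo 0 r₀) :
    ¬IsLimitCycle q.V (range (Z.S.P q r)) := by
  rintro ⟨hO, U, hU, hOU, huniq⟩
  obtain ⟨ω, hω, hωU⟩ := hO.isCompact.exists_thickening_subset_open hU hOU
  set A : ℝ := Z.S.T q r + Z.S'.T q.star r + 1 with hA
  set E : ℝ := Real.exp (Z.S.M * (1 + 2 * Z.S.R) * A) with hE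
  have hT := (h r hr).1.one_le
  have hT' := (h r hr).2.one_le
  have e1 : ∀ᶠ x in 𝓝 r, Z.S.T q x < A :=
    (Setup.T_cont (fun x hx => (h x hx).1) hr).eventually_lt_const (by linarith)
  have e2 : ∀ᶠ x in 𝓝 r, Z.S'.T q.star x < A :=
    (Setup.T_cont (fun x hx => (h x hx).2) hr).eventually_lt_const (by linarith)
  have e3 : ∀ᶠ x in 𝓝 r, |x - r| * E < ω := by
    have : Continuous fun x : ℝ => |x - r| * E := by fun_prop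
    exact (this.tendsto r).eventually_lt_const (by simpa using hω)
  have e4 : ∀ᶠ x in 𝓝 r, x ∈ Ioo 0 r₀ := Ioo_mem_nhds hr.1 hr.2
  obtain ⟨x, ⟨⟨⟨x1, x2⟩, x3⟩, x4⟩, x5⟩ :=
    ((((e1.and e2).and e3).and e4).filter_mono nhdsWithin_le_nhds |>.and
      (self_mem_nhdsWithin (s := {r}ᶜ))).exists
  have hK : 0 ≤ Z.S.M * (1 + 2 * Z.S.R) := by nlinarith [Z.S.one_le_M, Z.S.R_pos]
  have key : ∀ t, |t| ≤ A → Z.S.P q x t ∈ U := fun t ht => by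
    refine hωU (mem_thickening_iff.2 ⟨Z.S.P q r t, ⟨t, rfl⟩, ?_⟩)
    rw [dist_eq_norm]
    have h1 := Z.S.close (h r hr).1.near q x r t
    rw [NF.dist_self, zero_mul, add_zero] at h1
    refine h1.trans_lt (lt_of_le_of_lt ?_ x3)
    exact mul_le_mul_of_nonneg_left (Real.exp_le_exp.2 (mul_le_mul_of_nonneg_left ht hK))
      (abs_nonneg _)
  obtain ⟨o1, o2, -⟩ := Z.orbit (h x x4) (hg x x4)
  have hsub : range (Z.S.P q x) ⊆ U := fun p hp => by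
    rcases o2 p hp with ⟨u, hu, rfl⟩ | ⟨u, hu, rfl⟩
    · exact key u (by rw [abs_of_nonneg hu.1]; linarith [hu.2])
    · rw [Z.P'_eq, Prod.swap_swap]
      exact key _ (by rw [abs_neg, abs_of_nonneg hu.1]; linarith [hu.2])
  have he := huniq _ o1 hsub
  exact x5 ((Z.orbit (h r hr) (hg r hr)).2.2 x x4.1 (h x x4).1.r_lt (h x x4).2.r_lt
    (he ▸ ⟨0, Z.S.P_zero q x⟩))

end Pool.Agent.Lib.MP_bf91d6_an
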