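import Pool.Agent.Lib.MP_bf91d6_an.H3a

set_option autoImplicit false

namespace Pool.Agent.Lib.MP_bf91d6_an

open Set Filter Topology Metric MeasureTheory

variable {q : NF} {lam M δ : ℝ}

theorem NF.continuous_div (q : NF) : Continuous q.div := by
  unfold NF.div
  fun_prop

theorem Good.beta0 (h : Good q lam M) (hl : 0 < lam) (hδ : 100 * M * δ ≤ lam) {r : ℝ}
    (hr : 0 < r) (hrδ : r ≤ δ) : lam * r ≤ q.β₀ r ∧ q.β₀ r ≤ 3 * M * r := by
  have hn : ‖((r, r) : ℝ × ℝ)‖ = r := norm_eq_fst hr.le le_rfl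
  have e1 := abs_le.1 (h.Q1_box hδ (p := (r, r)) (by rw [hn]; exact hrδ))
  have e2 := abs_le.1 (h.Q2_box hδ (p := (r, r)) (by rw [hn]; exact hrδ))
  rw [hn] at e1 e2
  have a1 := mul_le_mul_of_nonneg_right h.l1 hr.le
  have a2 := mul_le_mul_of_nonneg_right h.l2 hr.le
  have a3 := mul_le_mul_of_nonneg_right h.l1_le hr.le
  have a4 := mul_le_mul_of_nonneg_right h.l2_le hr.le
  have a5 := mul_pos hl hr
  rw [NF.β₀, NF.V_fst, NF.V_snd]
  constructor <;> simp only <;> linarith [e1.1, e1.2, e2.1, e2.2]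

theorem Good.y_lower (h : Good q lam M) {p : ℝ × ℝ} (hp : ‖p‖ ≤ 1) (hy : 0 < p.2) :
    -(2 * M) * p.2 ≤ (q.V p).2 := by
  have e1 := abs_le.1 (abs_mul_le (le_refl |q.e|) ((abs_fst_le p).trans hp))
  have e2 := abs_le.1 (abs_mul_le (le_refl |q.f|) ((abs_snd_le p).trans hp))
  have e3 : -(2 * M) ≤ -q.l2 + q.e * p.1 + q.f * p.2 := by
    linarith [e1.1, e2.1, h.l2_le, h.coef, abs_nonneg q.a, abs_nonneg q.b]
  have e4 := mul_le_mul_of_nonneg_right e3 hy.le
  simp only [NF.V]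
  nlinarith [sq_nonneg p.1]

namespace Setup

variable (S : Setup)

theorem β_deriv (q : NF) (r t : ℝ) :
    HasDerivAt (S.β q r) (q.div (S.P q r t) * S.β q r t) t := by
  have h1 := ((hasDerivAt_integral_from (q.continuous_div.comp (S.P_sol q r).continuous) 0
    t).exp).const_mul (q.β₀ r)
  refine h1.congr_deriv ?_
  simp only [β, Function.comp]
  ring

theorem β_at_zero (q : NF) (r : ℝ) : S.β q r 0 = q.β₀ r := by simp [β]

theorem exists_mins : ∃ c₁ > (0 : ℝ), ∀ t ∈ Icc S.t₀ 2,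
    c₁ ≤ ‖S.q₀.V (S.γ t)‖ ∧ c₁ ≤ (S.γ t).1 ∧ c₁ ≤ (S.γ t).2 := by
  have hc := S.loop.sol.continuous
  have hV := S.q₀.contDiff_V.continuous
  obtain ⟨u, -, hu⟩ := isCompact_Icc.exists_isMinOn
    (nonempty_Icc.2 (show S.t₀ ≤ 2 by linarith [S.t₀_le]))
    (f := fun t => min ‖S.q₀.V (S.γ t)‖ (min (S.γ t).1 (S.γ t).2)) (by fun_prop)
  refine ⟨_, lt_min (norm_pos_iff.2 (S.loop.nonsing u)) (lt_min (S.loop.pos u).1 (S.loop.pos u).2),
    fun t ht => ?_⟩
  have := hu ht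
  simp only [mem_ofPred_eq] at this
  exact ⟨this.trans (min_le_left _ _), this.trans ((min_le_right _ _).trans (min_le_left _ _)),
    this.trans ((min_le_right _ _).trans (min_le_right _ _))⟩

theorem facts_aux : ∃ C > (0 : ℝ), ∃ c > (0 : ℝ), ∀ η > (0 : ℝ), ∃ ρ > (0 : ℝ), ∃ r₀ > (0 : ℝ),
    ∀ q : NF, q.dist S.q₀ ≤ ρ → ∀ r ∈ Ioo 0 r₀,
      S.Facts C c q r ∧ ‖S.P q r (S.T q r) - S.z₀‖ ≤ η := by
  have hM := S.one_le_M
  have hR := S.two_le_R
  have hl := S.lam_pos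
  have hlM := S.lam_le_M
  have hδ := S.δ_pos
  have hδ1 := S.δ_small
  have ht₀ := S.t₀_le
  obtain ⟨c₁, hc₁, hmin⟩ := S.exists_mins
  obtain ⟨A, hA, η₀, hη₀, hhit⟩ := S.hit
  set K := S.M * (1 + 2 * S.R) with hK
  have hKM : S.M ≤ K := by nlinarith
  set d := 1 - S.t₀ with hd
  set E := Real.exp (K * d) with hE
  have hE1 : 1 ≤ E := Real.one_le_exp (by nlinarith)
  set e := Real.exp (-(2 * S.M)) with he
  have he0 : 0 < e := Real.exp_pos _
  obtain ⟨c, hc, c1, c2, c3, c4, c5⟩ : ∃ c > (0 : ℝ), c ≤ S.lam / 2 ∧ c ≤ c₁ / (2 * S.R) ∧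
      c ≤ 1 / (2 * S.M) ∧ c ≤ S.lam * e ∧ c ≤ e :=
    ⟨min (min (S.lam / 2) (c₁ / (2 * S.R))) (min (1 / (2 * S.M)) (min (S.lam * e) e)),
      by positivity, by simp, by simp, by simp, by simp, by simp⟩
  obtain ⟨C, C1, C2, C3, C4, C5, C6⟩ : ∃ C : ℝ, S.R * E ≤ C ∧ d ≤ C ∧ 2 / S.lam ≤ C ∧
      -Real.log S.δ ≤ C ∧ 6 * S.M * E * E ≤ C ∧ Real.exp (2 * S.M) ≤ C :=
    ⟨max (max (max (S.R * E) d) (max (2 / S.lam) (-Real.log S.δ)))
      (max (6 * S.M * E * E) (Real.exp (2 * S.M))),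
      by simp, by simp, by simp, by simp, by simp, by simp⟩
  have hC : 0 < C := (Real.exp_pos _).trans_le C6
  have hd0 : 0 ≤ d := by linarith
  have hK0 : 0 ≤ K := by linarith
  have hcd : Real.exp (c * d) ≤ E :=
    Real.exp_le_exp.2 (mul_le_mul_of_nonneg_right (by linarith) hd0)
  have p4 : 3 * S.M ≤ C := by
    have := mul_le_mul_of_nonneg_left (one_le_mul_of_one_le_of_one_le hE1 hE1)
      (show 0 ≤ 6 * S.M by linarith)
    linarith
  have c6 : c ≤ S.lam := by linarith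
  refine ⟨C, hC, c, hc, fun η hη => ?_⟩
  obtain ⟨η₁, hη₁, -, h₁⟩ := exists_small A hη
  obtain ⟨η₂, hη₂, -, h₂⟩ := exists_small K (show 0 < c₁ / 4 by positivity)
  obtain ⟨ρ₂, hρ₂, -, h₃⟩ := exists_small (S.R + S.R ^ 2) (show 0 < c₁ / 4 by positivity)
  obtain ⟨η', hη', n0, n1, n2, n3, n4⟩ : ∃ η' > (0 : ℝ), η' ≤ η₀ ∧ η' ≤ η₁ ∧ η' ≤ η₂ ∧
      η' ≤ c₁ / 2 ∧ η' ≤ S.δ / 2 :=
    ⟨min (min η₀ η₁) (min η₂ (min (c₁ / 2) (S.δ / 2))), by positivity, by simp, by simp, by simp,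
      by simp, by simp⟩
  obtain ⟨ρ, hρ, r₀, hr₀, hρ1, hr₀δ, hph⟩ := S.phase hη'
  refine ⟨min ρ ρ₂, lt_min hρ hρ₂, r₀, hr₀, fun q hq r hr => ?_⟩
  have hq1 : q.dist S.q₀ ≤ S.ρ₁ := (hq.trans (min_le_left _ _)).trans hρ1
  have g := S.good q hq1
  obtain ⟨t₁, ht₁, hx, hbox, hsh⟩ := hph q (hq.trans (min_le_left _ _)) r hr
  obtain ⟨⟨u, hu, hH, hcl⟩, -⟩ := hhit q hq1 _ (S.P_sol q r) (t₁ - S.t₀) S.t₀ η' n0 ht₀
    (by linarith) (fun t ht => hsh t ⟨ht.1, by linarith [ht.2]⟩)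
    (fun t ht => (hbox t ⟨ht.1, by linarith [ht.2]⟩).1)
  have hT : S.T q r = u := hH.T_eq
  have hu' := abs_le.1 hu
  have u1 : t₁ ≤ u := by linarith [hu'.1]
  have u2 : u - t₁ ≤ d := by linarith [hu'.2]
  have hr0 := hr.1
  have hrδ : r < S.δ / 2 := hr.2.trans_le hr₀δ
  have hlog : 0 ≤ -Real.log r := by
    have := Real.log_nonpos hr0.le (by linarith)
    linarith
  set P := S.P q r with hP
  have hP0 : P 0 = (r, r) := S.P_zero q r
  have hD : ∀ t ∈ Icc 0 t₁, HasDerivAt P (q.V (P t)) t := fun t ht =>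
    (S.P_sol q r).ofW ((hbox t ht).1.trans (by linarith))
  have hn : ∀ t ∈ Icc 0 t₁, ‖P t‖ = (P t).1 := fun t ht =>
    norm_eq_fst (hbox t ht).2.1.le (hbox t ht).2.2.1
  have hxlow : ∀ a b, 0 ≤ a → a ≤ b → b ≤ t₁ →
      (P a).1 * Real.exp (S.lam / 2 * (b - a)) ≤ (P b).1 := fun a b h1 h2 h3 =>
    exp_le_of_deriv_const (φ := fun t => (P t).1) h2
      (fun t ht => hd_fst (hD t ⟨h1.trans ht.1, ht.2.trans h3⟩))
      (fun t ht => (g.box_x hl S.δ_le (hbox t ⟨h1.trans ht.1, ht.2.trans h3⟩).1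
        (hn t ⟨h1.trans ht.1, ht.2.trans h3⟩)).1)
  have hxup : ∀ b, 0 ≤ b → b ≤ t₁ → (P b).1 ≤ r * Real.exp (2 * S.M * b) := fun b h2 h3 => by
    have := le_exp_of_deriv_const (φ := fun t => (P t).1) (k := 2 * S.M) h2
      (fun t ht => hd_fst (hD t ⟨ht.1, ht.2.trans h3⟩))
      (fun t ht => (g.box_x hl S.δ_le (hbox t ⟨ht.1, ht.2.trans h3⟩).1
        (hn t ⟨ht.1, ht.2.trans h3⟩)).2)
    simpa [hP0] using this
  have hout : ∀ t, t₁ ≤ t → t ≤ u + 1 → t - (t₁ - S.t₀) ∈ Icc S.t₀ 2 ∧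
      ‖P t - S.γ (t - (t₁ - S.t₀))‖ ≤ η' := fun t h1 h2 => by
    have h3 : t - (t₁ - S.t₀) ∈ Icc S.t₀ 2 := ⟨by linarith, by linarith [hu'.2]⟩
    have := hsh _ h3
    rw [sub_add_cancel] at this
    exact ⟨h3, this⟩
  have hR1 : ∀ t, t₁ ≤ t → t ≤ u + 1 → ‖P t‖ ≤ S.R - 1 := fun t h1 h2 => by
    linarith [norm_sub_norm_le (P t) (S.γ (t - (t₁ - S.t₀))), (hout t h1 h2).2,
      S.hR (t - (t₁ - S.t₀))]
  have hfar : ∀ t, t₁ ≤ t → t ≤ u → S.δ / 2 ≤ ‖P t‖ := fun t h1 h2 => by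
    have a1 := S.far (t - (t₁ - S.t₀)) ⟨by linarith, by linarith [hu'.2]⟩
    have a2 := norm_sub_norm_le (S.γ (t - (t₁ - S.t₀))) (P t)
    rw [norm_sub_rev] at a2
    linarith [(hout t h1 (by linarith)).2]
  obtain ⟨b1, b2⟩ := g.beta0 hl S.δ_le hr0 (by linarith)
  have hβ : ∀ t, 0 < S.β q r t := fun t =>
    mul_pos (lt_of_lt_of_le (mul_pos hl hr0) b1) (Real.exp_pos _)
  have hβ1 : ∀ t ∈ Icc 0 t₁, S.β q r t ≤ 3 * S.M * (P t).1 * Real.exp (-(S.lam / 2) * t) := by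
    intro t ht
    have hx0 : ∀ s ∈ Icc 0 t₁, 0 < (P s).1 := fun s hs => (hbox s hs).2.1.trans_le (hbox s hs).2.2.1
    have a1 := le_exp_of_deriv_const (φ := fun t => S.β q r t / (P t).1) (k := -(S.lam / 2))
      (φ' := fun t => S.β q r t * (q.div (P t) * (P t).1 - (q.V (P t)).1) / (P t).1 ^ 2) ht.1
      (fun s hs => by
        have hs' : s ∈ Icc 0 t₁ := ⟨hs.1, hs.2.trans ht.2⟩
        refine ((S.β_deriv q r s).fun_div (hd_fst (hD s hs')) (hx0 s hs').ne').congr_deriv ?_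
        rw [← hP]
        ring)
      (fun s hs => by
        have hs' : s ∈ Icc 0 t₁ := ⟨hs.1, hs.2.trans ht.2⟩
        have a2 := mul_le_mul_of_nonneg_left (g.box_div hl S.δ_le (hbox s hs').1 (hn s hs'))
          (hβ s).le
        have a3 := hx0 s hs'
        rw [div_le_iff₀ (by positivity)]
        calc _ ≤ _ := a2
          _ = _ := by field_simp)
    simp only [S.β_at_zero, hP0, sub_zero] at a1
    rw [div_le_iff₀ (hx0 t ht)] at a1
    have a2 : q.β₀ r / r ≤ 3 * S.M := by rw [div_le_iff₀ hr0]; exact b2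
    have a3 := mul_le_mul_of_nonneg_right a2
      (mul_nonneg (Real.exp_pos (-(S.lam / 2) * t)).le (hx0 t ht).le)
    linarith
  have hexp : ∀ t, t₁ ≤ t → t ≤ u → 1 ≤ E * Real.exp (-c * (u - t)) := fun t h1 h2 => by
    have a1 : Real.exp (c * d) * Real.exp (-c * (u - t)) ≤ E * Real.exp (-c * (u - t)) :=
      mul_le_mul_of_nonneg_right hcd (Real.exp_pos _).le
    rw [← Real.exp_add] at a1
    exact (Real.one_le_exp (by
      linarith [mul_nonneg hc.le (show 0 ≤ d - (u - t) by linarith)])).trans a1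
  refine ⟨?_, by rw [hT]; exact hcl.trans (h₁ _ hη'.le n1)⟩
  refine { near := hq1, r_pos := hr0, r_lt := hrδ, hit := hT ▸ hH, one_le := by linarith,
           reg := ?_, decay := ?_, Tup := ?_, Tlow := ?_, diag := ?_, beta := ?_,
           beta0 := (mul_le_mul_of_nonneg_right c6 hr0.le).trans b1,
           init := ?_ } <;> (try rw [← hP]) <;> try rw [hT]
  · intro t ht
    rcases le_total t t₁ with h1 | h1
    · have a1 := hbox t ⟨ht.1, h1⟩
      refine ⟨by linarith [a1.1], a1.2.1.trans_le a1.2.2.1, a1.2.1, ?_⟩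
      exact (mul_le_mul_of_nonneg_right c1 (norm_nonneg _)).trans (g.box_norm hl S.δ_le a1.1)
    · obtain ⟨a1, a2⟩ := hout t h1 ht.2
      obtain ⟨a3, a4, a5⟩ := hmin _ a1
      have a6 := hR1 t h1 ht.2
      set w := S.γ (t - (t₁ - S.t₀)) with hw
      have a7 := abs_le.1 ((abs_fst_le (P t - w)).trans a2)
      have a8 := abs_le.1 ((abs_snd_le (P t - w)).trans a2)
      simp only [Prod.fst_sub, Prod.snd_sub] at a7 a8
      refine ⟨a6, by linarith [a7.1], by linarith [a8.1], ?_⟩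
      have hwR : ‖w‖ ≤ S.R := by linarith [S.hR (t - (t₁ - S.t₀))]
      have a9 := NF.V_sub_le g.size hwR (show ‖P t‖ ≤ S.R by linarith)
      have a10 := NF.V_param S.q₀ q hwR
      rw [norm_sub_rev w] at a9
      rw [NF.dist_comm] at a10
      have a11 := h₂ _ (norm_nonneg _) (a2.trans n2)
      have a12 := h₃ _ (q.dist_nonneg S.q₀) (hq.trans (min_le_right _ _))
      have a13 := norm_sub_norm_le (S.q₀.V w) (q.V w)
      have a14 := norm_sub_norm_le (q.V w) (q.V (P t))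
      have a15 : c * ‖P t‖ ≤ c₁ / (2 * S.R) * S.R :=
        mul_le_mul c2 (by linarith) (norm_nonneg _) (by positivity)
      have a16 : c₁ / (2 * S.R) * S.R = c₁ / 2 := by field_simp
      linarith
  · intro t ht
    rcases le_total t t₁ with h1 | h1
    · have a1 := hxlow t t₁ ht.1 h1 le_rfl
      have a2 : (P t).1 * Real.exp (c * (t₁ - t)) ≤ (P t).1 * Real.exp (S.lam / 2 * (t₁ - t)) :=
        mul_le_mul_of_nonneg_left (Real.exp_le_exp.2
          (mul_le_mul_of_nonneg_right c1 (by linarith)))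
          (hn t ⟨ht.1, h1⟩ ▸ norm_nonneg _)
      have a3 : (P t).1 * Real.exp (c * (t₁ - t)) ≤ S.R := by linarith
      have a4 := mul_le_mul_of_nonneg_right a3 (Real.exp_pos (-(c * (t₁ - t)))).le
      rw [mul_assoc, ← Real.exp_add, add_neg_cancel, Real.exp_zero, mul_one] at a4
      have a5 : Real.exp (-(c * (t₁ - t))) ≤ Real.exp (c * d) * Real.exp (-c * (u - t)) := by
        rw [← Real.exp_add]
        exact Real.exp_le_exp.2 (by
          linarith [mul_nonneg hc.le (show 0 ≤ d - (u - t₁) by linarith)])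
      have a6 := Real.exp_pos (-c * (u - t))
      rw [hn t ⟨ht.1, h1⟩]
      calc (P t).1 ≤ S.R * (E * Real.exp (-c * (u - t))) :=
            a4.trans (mul_le_mul_of_nonneg_left
              (a5.trans (mul_le_mul_of_nonneg_right hcd a6.le)) (by linarith))
        _ = S.R * E * Real.exp (-c * (u - t)) := by ring
        _ ≤ _ := mul_le_mul_of_nonneg_right C1 a6.le
    · have a1 := hR1 t h1 (by linarith [ht.2])
      have a2 := mul_le_mul_of_nonneg_left (hexp t h1 ht.2) (show 0 ≤ S.R by linarith)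
      have a3 := mul_le_mul_of_nonneg_right C1 (Real.exp_pos (-c * (u - t))).le
      linarith
  · have a1 := hxlow 0 t₁ le_rfl (by linarith) le_rfl
    simp only [hP0, sub_zero, hx] at a1
    have a2 := Real.log_nonpos (by positivity) (a1.trans (by linarith : S.δ ≤ 1))
    rw [Real.log_mul hr0.ne' (Real.exp_pos _).ne', Real.log_exp] at a2
    have a3 : t₁ ≤ 2 / S.lam * -Real.log r := by
      rw [div_mul_eq_mul_div, le_div_iff₀ hl]
      linarith
    have a4 := mul_le_mul_of_nonneg_right C3 hlog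
    linarith
  · have a1 := hxup t₁ (by linarith) le_rfl
    rw [hx] at a1
    have a2 := Real.log_le_log hδ a1
    rw [Real.log_mul hr0.ne' (Real.exp_pos _).ne', Real.log_exp] at a2
    have a3 := mul_le_mul_of_nonneg_right c3 hlog
    have a4 : Real.log S.δ ≤ 0 := Real.log_nonpos hδ.le (by linarith)
    have a5 : 1 / (2 * S.M) * -Real.log r ≤ t₁ - Real.log S.δ := by
      rw [div_mul_eq_mul_div, div_le_iff₀ (by positivity)]
      linarith [mul_nonneg (show 0 ≤ -Real.log S.δ by linarith)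
        (show 0 ≤ 2 * S.M - 1 by linarith)]
    linarith
  · intro t ht
    rcases le_total t t₁ with h1 | h1
    · exact Or.inl ((hbox t ⟨ht.1.le, h1⟩).2.2.2 ht.1)
    · exact Or.inr (hfar t h1 ht.2)
  · intro t ht
    have p1 := Real.exp_pos (-c * t)
    have p2 := Real.exp_pos (-c * (u - t))
    have p3 := norm_nonneg (P t)
    rcases le_total t t₁ with h1 | h1
    · have a1 := hβ1 t ⟨ht.1, h1⟩
      rw [← hn t ⟨ht.1, h1⟩] at a1
      have a2 : Real.exp (-(S.lam / 2) * t) ≤ Real.exp (-c * t) :=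
        Real.exp_le_exp.2 (by linarith [mul_le_mul_of_nonneg_right c1 ht.1])
      calc _ ≤ _ := a1
        _ ≤ C * ‖P t‖ * Real.exp (-c * t) :=
          mul_le_mul (mul_le_mul_of_nonneg_right p4 p3) a2 (Real.exp_pos _).le (by positivity)
        _ ≤ _ := mul_le_mul_of_nonneg_left (by linarith) (by positivity)
    · have a1 := le_exp_of_deriv_const (φ := S.β q r) (k := K) h1
        (fun s _ => S.β_deriv q r s)
        (fun s hs => mul_le_mul_of_nonneg_right ((le_abs_self _).trans (g.div_le hl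
          (show ‖S.P q r s‖ ≤ S.R by linarith [hR1 s hs.1 (by linarith [hs.2, ht.2])])))
          (hβ s).le)
      have a2 := hβ1 t₁ ⟨by linarith, le_rfl⟩
      have a3 : Real.exp (-(S.lam / 2) * t₁) ≤ 1 := Real.exp_le_one_iff.2 (by
        linarith [mul_nonneg hl.le (show 0 ≤ t₁ by linarith)])
      have a4 : S.β q r t₁ ≤ 6 * S.M * ‖P t‖ := by
        have a5 := hfar t h1 ht.2
        rw [hx] at a2
        have a6 := mul_le_mul_of_nonneg_left a3 (show 0 ≤ 3 * S.M * S.δ by positivity)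
        have a7 := mul_le_mul_of_nonneg_left a5 (show 0 ≤ 6 * S.M by positivity)
        linarith
      have a5 : Real.exp (K * (t - t₁)) ≤ E :=
        Real.exp_le_exp.2 (mul_le_mul_of_nonneg_left (by linarith [ht.2]) hK0)
      have a6 : S.β q r t ≤ 6 * S.M * ‖P t‖ * E :=
        a1.trans (mul_le_mul a4 a5 (Real.exp_pos _).le (by positivity))
      have a7 := mul_le_mul_of_nonneg_left (hexp t h1 ht.2)
        (show 0 ≤ 6 * S.M * ‖P t‖ * E by positivity)
      have a8 := mul_le_mul_of_nonneg_right C5 (mul_nonneg p3 p2.le)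
      have a9 : 0 ≤ C * ‖P t‖ * Real.exp (-c * t) := by positivity
      linarith
  · intro t ht
    have ht' : t ∈ Icc 0 t₁ := ⟨ht.1, ht.2.trans ht₁⟩
    have m1 := mul_le_mul_of_nonneg_left ht.2 (show 0 ≤ 2 * S.M by linarith)
    have a0 : e ≤ Real.exp (-(2 * S.M) * (t - 0)) := Real.exp_le_exp.2 (by linarith)
    have a1 := exp_le_of_deriv_const (φ := fun t => (P t).2) (k := -(2 * S.M)) ht.1
      (fun s hs => hd_snd (hD s ⟨hs.1, hs.2.trans ht'.2⟩))
      (fun s hs => g.y_lower ((hbox s ⟨hs.1, hs.2.trans ht'.2⟩).1.trans (by linarith))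
        (hbox s ⟨hs.1, hs.2.trans ht'.2⟩).2.1)
    simp only [hP0] at a1
    have a2 : c * r ≤ (P t).2 := by
      linarith [mul_le_mul_of_nonneg_left (c5.trans a0) hr0.le]
    have a3 := hxup t ht.1 ht'.2
    have a4 : Real.exp (2 * S.M * t) ≤ C :=
      (Real.exp_le_exp.2 (by linarith)).trans C6
    have a5 := exp_le_of_deriv_const (φ := S.β q r) (k := -(2 * S.M)) ht.1
      (fun s _ => S.β_deriv q r s)
      (fun s hs => mul_le_mul_of_nonneg_right (by
        have := abs_le.1 (g.div_le hl (R := 1 / 2) (p := S.P q r s)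
          ((hbox s ⟨hs.1, hs.2.trans ht'.2⟩).1.trans (by linarith)))
        linarith [this.1]) (hβ s).le)
    rw [S.β_at_zero] at a5
    have a6 : S.lam * r * e ≤ q.β₀ r * Real.exp (-(2 * S.M) * (t - 0)) :=
      mul_le_mul b1 a0 he0.le ((mul_pos hl hr0).le.trans b1)
    refine ⟨a2.trans (hbox t ht').2.2.1, a2, ?_,
      by linarith [mul_le_mul_of_nonneg_right c4 hr0.le]⟩
    rw [hn t ht']
    linarith [mul_le_mul_of_nonneg_left a4 hr0.le]

end Setup

end Pool.Agent.Lib.MP_bf91d6_an
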