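import Pool.Agent.Lib.MP_bf91d6_an.HDefs

set_option autoImplicit false

namespace Pool.Agent.Lib.MP_bf91d6_an

open Set Filter Topology Metric MeasureTheory

namespace H5

variable {q : NF} {M R lam : ℝ}

theorem coef_le (hM : q.size ≤ M) : |q.a| ≤ M ∧ |q.b| ≤ M ∧ |q.e| ≤ M ∧ |q.f| ≤ M := by
  simp only [NF.size] at hM
  have := abs_nonneg q.l1
  have := abs_nonneg q.l2
  have := abs_nonneg q.a
  have := abs_nonneg q.b
  have := abs_nonneg q.e
  have := abs_nonneg q.f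
  refine ⟨?_, ?_, ?_, ?_⟩ <;> linarith

theorem sq_le_dot (u : ℝ × ℝ) : ‖u‖ ^ 2 ≤ dot u u := by
  unfold dot
  rw [Prod.norm_def]
  rcases le_total ‖u.1‖ ‖u.2‖ with h | h
  · rw [max_eq_right h, Real.norm_eq_abs, sq_abs]
    nlinarith [mul_self_nonneg u.1]
  · rw [max_eq_left h, Real.norm_eq_abs, sq_abs]
    nlinarith [mul_self_nonneg u.2]

theorem dot_le (u v : ℝ × ℝ) : |dot u v| ≤ 2 * (‖u‖ * ‖v‖) := by
  have e1 := abs_mul_le (abs_fst_le u) (abs_fst_le v)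
  have e2 := abs_mul_le (abs_snd_le u) (abs_snd_le v)
  unfold dot
  linarith [abs_add_le (u.1 * v.1) (u.2 * v.2)]

theorem dot_rot_le (u v : ℝ × ℝ) : |dot u (rot v)| ≤ 2 * (‖u‖ * ‖v‖) := by
  have e1 := abs_mul_le (abs_fst_le u) (abs_snd_le v)
  have e2 := abs_mul_le (abs_snd_le u) (abs_fst_le v)
  have e3 : dot u (rot v) = u.2 * v.1 - u.1 * v.2 := by
    simp only [dot, rot]
    ring
  rw [e3]
  linarith [abs_sub (u.2 * v.1) (u.1 * v.2)]

theorem N_split (hM : q.size ≤ M) (p : ℝ × ℝ) :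
    |q.N p + 2 * (q.l1 + q.l2) * ((q.V p).1 * (q.V p).2)| ≤ 18 * M * ‖p‖ * ‖q.V p‖ ^ 2 := by
  obtain ⟨ha, hb, he, hf⟩ := coef_le hM
  have hM1 : 1 ≤ M := q.one_le_size.trans hM
  have x1 := abs_fst_le p
  have y1 := abs_snd_le p
  have X1 := abs_fst_le (q.V p)
  have X2 := abs_snd_le (q.V p)
  have hp := norm_nonneg p
  set X := (q.V p).1
  set Y := (q.V p).2
  set n := ‖q.V p‖
  have hn : 0 ≤ n := norm_nonneg _
  have a1 := abs_mul_le ha x1
  have a2 := abs_mul_le hb x1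
  have a3 := abs_mul_le hb y1
  have a4 := abs_mul_le he x1
  have a5 := abs_mul_le he y1
  have a6 := abs_mul_le hf y1
  have hMp : ‖p‖ ≤ M * ‖p‖ := le_mul_of_one_le_left hp hM1
  have b1 : |(q.b * p.1 - 2 * p.2) + (2 * p.1 + q.e * p.2)| ≤ 6 * (M * ‖p‖) := by
    rw [abs_le] at *
    constructor <;> linarith [a2.1, a2.2, a5.1, a5.2, x1.1, x1.2, y1.1, y1.2]
  have b2 : |(2 * q.a * p.1 + q.b * p.2) - (q.e * p.1 + 2 * q.f * p.2)| ≤ 6 * (M * ‖p‖) := by
    rw [abs_le] at *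
    constructor <;> linarith [a1.1, a1.2, a3.1, a3.2, a4.1, a4.2, a6.1, a6.2]
  have c1 : |X ^ 2 - Y ^ 2| ≤ n ^ 2 := by
    have h1 : X ^ 2 ≤ n ^ 2 := sq_le_sq' (abs_le.1 X1).1 (abs_le.1 X1).2
    have h2 : Y ^ 2 ≤ n ^ 2 := sq_le_sq' (abs_le.1 X2).1 (abs_le.1 X2).2
    rw [abs_le]
    constructor <;> nlinarith [sq_nonneg X, sq_nonneg Y]
  have c2 : |X * Y| ≤ n * n := abs_mul_le X1 X2
  have d1 := abs_mul_le b1 c1
  have d2 := abs_mul_le b2 c2
  have e : q.N p + 2 * (q.l1 + q.l2) * (X * Y) =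
      ((q.b * p.1 - 2 * p.2) + (2 * p.1 + q.e * p.2)) * (X ^ 2 - Y ^ 2) -
        2 * (((2 * q.a * p.1 + q.b * p.2) - (q.e * p.1 + 2 * q.f * p.2)) * (X * Y)) := by
    simp only [NF.N, X, Y]
    ring
  rw [e, abs_le]
  rw [abs_le] at d1 d2
  constructor <;> nlinarith [d1.1, d1.2, d2.1, d2.2]

theorem N_abs (hM : q.size ≤ M) {p : ℝ × ℝ} (hp : ‖p‖ ≤ R) :
    |q.N p| ≤ (4 * M + 18 * M * R) * ‖q.V p‖ ^ 2 := by
  have h1 := N_split hM p
  have hM1 : 1 ≤ M := q.one_le_size.trans hM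
  have l1 := q.l1_le.trans hM
  have l2 := q.l2_le.trans hM
  have c2 : |(q.V p).1 * (q.V p).2| ≤ ‖q.V p‖ * ‖q.V p‖ :=
    abs_mul_le (abs_fst_le _) (abs_snd_le _)
  have c3 : |q.l1 + q.l2| ≤ M + M := (abs_add_le _ _).trans (add_le_add l1 l2)
  have c4 := abs_mul_le c3 c2
  have c5 : 18 * M * ‖p‖ * ‖q.V p‖ ^ 2 ≤ 18 * M * R * ‖q.V p‖ ^ 2 := by gcongr
  rw [abs_le] at h1 c4 ⊢
  constructor <;> nlinarith [h1.1, h1.2, c4.1, c4.2]

theorem N_lower (hq : Good q lam M) (hl : 0 < lam) {p : ℝ × ℝ} (hp : ‖p‖ ≤ R) (hx : 0 < p.1)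
    (hy : 0 < p.2) :
    4 * lam ^ 3 * (p.1 * p.2) - 4 * M ^ 3 * (2 + R) * ‖p‖ ^ 3 - 18 * M * ‖p‖ * ‖q.V p‖ ^ 2
      ≤ q.N p := by
  have hM := hq.size
  have h1 := (abs_le.1 (N_split hM p)).1
  have hM1 : 1 ≤ M := q.one_le_size.trans hM
  have l1 := q.l1_le.trans hM
  have l2 := q.l2_le.trans hM
  have x1 := abs_fst_le p
  have y1 := abs_snd_le p
  have Q1 := NF.Q1_le hM p
  have Q2 := NF.Q2_le hM p
  have hn := norm_nonneg p
  have e1 := abs_mul_le (abs_mul_le l1 x1) Q2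
  have e2 := abs_mul_le (abs_mul_le l2 y1) Q1
  have e3 := abs_mul_le Q1 Q2
  have e4 : M * ‖p‖ ^ 2 * (M * ‖p‖ ^ 2) ≤ M ^ 2 * R * ‖p‖ ^ 3 := by
    have : M * ‖p‖ ^ 2 * (M * ‖p‖ ^ 2) = M ^ 2 * ‖p‖ * ‖p‖ ^ 3 := by ring
    rw [this]
    gcongr
  have e5 : |-((q.V p).1 * (q.V p).2) - q.l1 * q.l2 * (p.1 * p.2)| ≤ M ^ 2 * (2 + R) * ‖p‖ ^ 3 := by
    have : -((q.V p).1 * (q.V p).2) - q.l1 * q.l2 * (p.1 * p.2) =
        -(q.l1 * p.1 * q.Q2 p) + q.l2 * p.2 * q.Q1 p - q.Q1 p * q.Q2 p := by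
      rw [NF.V_fst, NF.V_snd]
      ring
    rw [this]
    rw [abs_le] at e1 e2 e3 ⊢
    constructor <;> nlinarith [e1.1, e1.2, e2.1, e2.2, e3.1, e3.2]
  have c3 : |q.l1 + q.l2| ≤ M + M := (abs_add_le _ _).trans (add_le_add l1 l2)
  have e6 := (abs_le.1 (abs_mul_le c3 e5)).1
  have hxy : 0 < p.1 * p.2 := mul_pos hx hy
  have e7 : 2 * lam * (lam * lam) ≤ (q.l1 + q.l2) * (q.l1 * q.l2) := by
    have := hq.l1
    have := hq.l2
    apply mul_le_mul (by linarith) (mul_le_mul hq.l1 hq.l2 hl.le (by linarith)) (by positivity)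
      (by linarith)
  have e8 := mul_le_mul_of_nonneg_right e7 hxy.le
  nlinarith

theorem int_g {c T : ℝ} (hc : 0 < c) :
    ∫ t in (0 : ℝ)..T, (Real.exp (-c * t) + Real.exp (-c * (T - t))) ≤ 2 / c := by
  have hd : ∀ t ∈ uIcc (0 : ℝ) T, HasDerivAt
      (fun t => (Real.exp (-c * (T - t)) - Real.exp (-c * t)) / c)
      (Real.exp (-c * t) + Real.exp (-c * (T - t))) t := by
    intro t _
    have h1 : HasDerivAt (fun t => -c * (T - t)) c t := by
      simpa using ((hasDerivAt_id t).const_sub T).const_mul (-c)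
    have h2 : HasDerivAt (fun t => -c * t) (-c) t := by
      simpa using (hasDerivAt_id t).const_mul (-c)
    refine ((h1.exp.sub h2.exp).div_const c).congr_deriv ?_
    field_simp
    ring
  rw [intervalIntegral.integral_eq_sub_of_hasDerivAt hd
    (Continuous.intervalIntegrable (by fun_prop) _ _)]
  simp only [sub_self, mul_zero, Real.exp_zero, sub_zero]
  rw [← sub_div]
  apply div_le_div_of_nonneg_right _ hc.le
  linarith [Real.exp_pos (-c * T)]

theorem continuous_V (q : NF) : Continuous q.V := q.contDiff_V.continuous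

end H5

namespace Setup

open H5

section Est

variable {S : Setup} {C c : ℝ} {q : NF} {r : ℝ}

theorem Facts.P_pos_5 (h : S.Facts C c q r) {t : ℝ} (ht : t ∈ Icc 0 (S.T q r + 1)) :
    0 < ‖S.P q r t‖ :=
  (h.reg t ht).2.1.trans_le ((le_abs_self _).trans (abs_fst_le _))

theorem Facts.X_pos_5 (hc : 0 < c) (h : S.Facts C c q r) {t : ℝ} (ht : t ∈ Icc 0 (S.T q r + 1)) :
    0 < ‖q.V (S.P q r t)‖ :=
  (mul_pos hc (h.P_pos_5 ht)).trans_le (h.reg t ht).2.2.2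

theorem Facts.dot_pos_5 (hc : 0 < c) (h : S.Facts C c q r) {t : ℝ}
    (ht : t ∈ Icc 0 (S.T q r + 1)) : 0 < dot (q.V (S.P q r t)) (q.V (S.P q r t)) :=
  (pow_pos (h.X_pos_5 hc ht) 2).trans_le (sq_le_dot _)

theorem Facts.β_pos_5 (hc : 0 < c) (h : S.Facts C c q r) (t : ℝ) : 0 < S.β q r t :=
  mul_pos ((mul_pos hc h.r_pos).trans_le h.beta0) (Real.exp_pos _)

theorem cont_β_5 (S : Setup) (q : NF) (r : ℝ) : Continuous (S.β q r) := by
  have hP := (S.P_sol q r).continuous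
  have h1 : Continuous fun u => q.div (S.P q r u) := by
    unfold NF.div
    fun_prop
  exact continuous_const.mul (Real.continuous_exp.comp
    (intervalIntegral.continuous_primitive (fun a b => h1.intervalIntegrable a b) 0))

theorem cont_X_5 (S : Setup) (q : NF) (r : ℝ) : Continuous fun t => q.V (S.P q r t) :=
  (continuous_V q).comp (S.P_sol q r).continuous

theorem cont_dot_5 (S : Setup) (q : NF) (r : ℝ) :
    Continuous fun t => dot (q.V (S.P q r t)) (q.V (S.P q r t)) := by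
  have hX := S.cont_X_5 q r
  exact (hX.fst.mul hX.fst).add (hX.snd.mul hX.snd)

theorem Facts.cont5_α' (hc : 0 < c) (h : S.Facts C c q r) :
    ContinuousOn (S.α' q r) (Icc 0 (S.T q r + 1)) := by
  have hP := (S.P_sol q r).continuous
  have hX := S.cont_X_5 q r
  have hN : Continuous fun t => q.N (S.P q r t) := by
    unfold NF.N
    fun_prop
  exact ((S.cont_β_5 q r).mul hN).continuousOn.div ((S.cont_dot_5 q r).pow 2).continuousOn
    fun t ht => (pow_pos (h.dot_pos_5 hc ht) 2).ne'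

theorem Facts.sub_5 (_h : S.Facts C c q r) : Icc 0 (S.T q r) ⊆ Icc 0 (S.T q r + 1) :=
  Icc_subset_Icc_right (by linarith)

/-- The weight which dominates all integrands. -/
noncomputable def wt5 (c T t : ℝ) : ℝ := Real.exp (-c * t) + Real.exp (-c * (T - t))

theorem wt_pos_5 (c T t : ℝ) : 0 < wt5 c T t := add_pos (Real.exp_pos _) (Real.exp_pos _)

theorem wt_cont_5 (c T : ℝ) : Continuous (wt5 c T) := by
  unfold wt5
  fun_prop

theorem abs_int_le_5 (hc : 0 < c) {T A : ℝ} (hT : 0 ≤ T) (hA : 0 ≤ A) {f : ℝ → ℝ}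
    (hf : ∀ t ∈ Icc 0 T, |f t| ≤ A * wt5 c T t) : |∫ t in (0 : ℝ)..T, f t| ≤ A * (2 / c) := by
  have h1 := intervalIntegral.norm_integral_le_of_norm_le (μ := volume) (f := f)
    (g := fun t => A * wt5 c T t) hT
    (Eventually.of_forall fun t ht => hf t (Ioc_subset_Icc_self ht))
    ((continuous_const.mul (wt_cont_5 c T)).intervalIntegrable _ _)
  rw [intervalIntegral.integral_const_mul] at h1
  exact h1.trans (mul_le_mul_of_nonneg_left (int_g hc) hA)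

theorem Facts.β_div_5 (hC : 0 < C) (hc : 0 < c) (h : S.Facts C c q r) {t : ℝ}
    (ht : t ∈ Icc 0 (S.T q r)) :
    S.β q r t / ‖q.V (S.P q r t)‖ ≤ C / c * wt5 c (S.T q r) t := by
  have h1 := h.beta t ht
  have h2 := (h.reg t (h.sub_5 ht)).2.2.2
  have h3 := wt_pos_5 c (S.T q r) t
  rw [div_le_iff₀ (h.X_pos_5 hc (h.sub_5 ht))]
  calc S.β q r t ≤ C * ‖S.P q r t‖ * wt5 c (S.T q r) t := h1
    _ = C / c * wt5 c (S.T q r) t * (c * ‖S.P q r t‖) := by field_simp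
    _ ≤ _ := mul_le_mul_of_nonneg_left h2 (by positivity)

theorem Facts.P_div_5 (hc : 0 < c) (h : S.Facts C c q r) {t : ℝ}
    (ht : t ∈ Icc 0 (S.T q r + 1)) : ‖S.P q r t‖ / ‖q.V (S.P q r t)‖ ≤ 1 / c := by
  rw [div_le_div_iff₀ (h.X_pos_5 hc ht) hc]
  linarith [(h.reg t ht).2.2.2]

theorem Facts.est1_5 (hC : 0 < C) (hc : 0 < c) (h : S.Facts C c q r) {t : ℝ}
    (ht : t ∈ Icc 0 (S.T q r)) :
    |S.α' q r t| * ‖S.P q r t‖ ≤
      (4 * S.M + 18 * S.M * S.R) * (1 / c) * (C / c) * wt5 c (S.T q r) t := by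
  have hq := S.good q h.near
  have ht' := h.sub_5 ht
  have hX := h.X_pos_5 hc ht'
  have hβ := h.β_pos_5 hc t
  have hM := S.one_le_M
  have hR := S.R_pos
  have hN := N_abs (R := S.R) hq.size (p := S.P q r t) (by linarith [(h.reg t ht').1])
  have hd := sq_le_dot (q.V (S.P q r t))
  have h1 : |S.α' q r t| ≤ S.β q r t * ((4 * S.M + 18 * S.M * S.R) * ‖q.V (S.P q r t)‖ ^ 2) /
      (‖q.V (S.P q r t)‖ ^ 2) ^ 2 := by
    rw [α', abs_div, abs_mul, abs_of_pos hβ, abs_of_pos (pow_pos (h.dot_pos_5 hc ht') 2)]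
    gcongr
  have h2 := h.β_div_5 hC hc ht
  have h3 := h.P_div_5 hc ht'
  calc |S.α' q r t| * ‖S.P q r t‖
      ≤ S.β q r t * ((4 * S.M + 18 * S.M * S.R) * ‖q.V (S.P q r t)‖ ^ 2) /
        (‖q.V (S.P q r t)‖ ^ 2) ^ 2 * ‖S.P q r t‖ := by gcongr
    _ = (4 * S.M + 18 * S.M * S.R) * (‖S.P q r t‖ / ‖q.V (S.P q r t)‖) *
        (S.β q r t / ‖q.V (S.P q r t)‖) := by field_simp
    _ ≤ (4 * S.M + 18 * S.M * S.R) * (1 / c) * (C / c * wt5 c (S.T q r) t) := by gcongr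
    _ = _ := by ring

theorem Facts.est2_5 (hC : 0 < C) (hc : 0 < c) (h : S.Facts C c q r) {t : ℝ}
    (ht : t ∈ Icc 0 (S.T q r)) :
    4 * S.lam ^ 3 * (S.β q r t * ((S.P q r t).1 * (S.P q r t).2) /
        dot (q.V (S.P q r t)) (q.V (S.P q r t)) ^ 2) -
      (4 * S.M ^ 3 * (2 + S.R) * (1 / c) ^ 3 + 18 * S.M * (1 / c)) * (C / c) * wt5 c (S.T q r) t ≤
      S.α' q r t := by
  have hq := S.good q h.near
  have ht' := h.sub_5 ht
  have hX := h.X_pos_5 hc ht'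
  have hβ := h.β_pos_5 hc t
  have hM := S.one_le_M
  have hR := S.R_pos
  have hP := h.P_pos_5 ht'
  have hN := N_lower (R := S.R) hq S.lam_pos (p := S.P q r t) (by linarith [(h.reg t ht').1])
    (h.reg t ht').2.1 (h.reg t ht').2.2.1
  have hd := sq_le_dot (q.V (S.P q r t))
  have hd0 := h.dot_pos_5 hc ht'
  have h2 := h.β_div_5 hC hc ht
  have h3 := h.P_div_5 hc ht'
  have h1 : S.β q r t * (4 * S.lam ^ 3 * ((S.P q r t).1 * (S.P q r t).2) -
      4 * S.M ^ 3 * (2 + S.R) * ‖S.P q r t‖ ^ 3 - 18 * S.M * ‖S.P q r t‖ *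
        ‖q.V (S.P q r t)‖ ^ 2) / dot (q.V (S.P q r t)) (q.V (S.P q r t)) ^ 2 ≤ S.α' q r t := by
    rw [α']
    gcongr
  have h4 : S.β q r t * (4 * S.M ^ 3 * (2 + S.R) * ‖S.P q r t‖ ^ 3 + 18 * S.M * ‖S.P q r t‖ *
        ‖q.V (S.P q r t)‖ ^ 2) / dot (q.V (S.P q r t)) (q.V (S.P q r t)) ^ 2 ≤
      (4 * S.M ^ 3 * (2 + S.R) * (1 / c) ^ 3 + 18 * S.M * (1 / c)) * (C / c) *
        wt5 c (S.T q r) t := by
    calc _ ≤ S.β q r t * (4 * S.M ^ 3 * (2 + S.R) * ‖S.P q r t‖ ^ 3 + 18 * S.M * ‖S.P q r t‖ *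
        ‖q.V (S.P q r t)‖ ^ 2) / (‖q.V (S.P q r t)‖ ^ 2) ^ 2 := by gcongr
      _ = (4 * S.M ^ 3 * (2 + S.R) * (‖S.P q r t‖ / ‖q.V (S.P q r t)‖) ^ 3 +
          18 * S.M * (‖S.P q r t‖ / ‖q.V (S.P q r t)‖)) * (S.β q r t / ‖q.V (S.P q r t)‖) := by
        field_simp
      _ ≤ (4 * S.M ^ 3 * (2 + S.R) * (1 / c) ^ 3 + 18 * S.M * (1 / c)) *
          (C / c * wt5 c (S.T q r) t) := by gcongr
      _ = _ := by ring
  refine le_trans ?_ h1
  have e : S.β q r t * (4 * S.lam ^ 3 * ((S.P q r t).1 * (S.P q r t).2) -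
      4 * S.M ^ 3 * (2 + S.R) * ‖S.P q r t‖ ^ 3 - 18 * S.M * ‖S.P q r t‖ *
        ‖q.V (S.P q r t)‖ ^ 2) / dot (q.V (S.P q r t)) (q.V (S.P q r t)) ^ 2 =
      4 * S.lam ^ 3 * (S.β q r t * ((S.P q r t).1 * (S.P q r t).2) /
        dot (q.V (S.P q r t)) (q.V (S.P q r t)) ^ 2) -
      S.β q r t * (4 * S.M ^ 3 * (2 + S.R) * ‖S.P q r t‖ ^ 3 + 18 * S.M * ‖S.P q r t‖ *
        ‖q.V (S.P q r t)‖ ^ 2) / dot (q.V (S.P q r t)) (q.V (S.P q r t)) ^ 2 := by ring
  rw [e]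
  linarith

theorem Facts.est3_5 (hC : 0 < C) (hc : 0 < c) (h : S.Facts C c q r) {t : ℝ}
    (ht : t ∈ Icc (0 : ℝ) 1) :
    c ^ 3 / (4 * (S.M * (1 + 2 * S.R) * C) ^ 4) / r ≤
      S.β q r t * ((S.P q r t).1 * (S.P q r t).2) /
        dot (q.V (S.P q r t)) (q.V (S.P q r t)) ^ 2 := by
  have hq := S.good q h.near
  have ht' : t ∈ Icc 0 (S.T q r + 1) := ⟨ht.1, by linarith [ht.2, h.one_le]⟩
  have hM := S.one_le_M
  have hR := S.R_pos
  have hr := h.r_pos
  obtain ⟨i1, i2, i3, i4⟩ := h.init t ht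
  have hd0 := h.dot_pos_5 hc ht'
  have hV := NF.V_le (R := S.R) hq.size (p := S.P q r t) (by linarith [(h.reg t ht').1])
  have hV' : ‖q.V (S.P q r t)‖ ≤ S.M * (1 + 2 * S.R) * C * r := by
    refine hV.trans ?_
    rw [mul_assoc (S.M * (1 + 2 * S.R))]
    gcongr
  have hd : dot (q.V (S.P q r t)) (q.V (S.P q r t)) ≤ 2 * (S.M * (1 + 2 * S.R) * C * r) ^ 2 := by
    refine (le_abs_self _).trans ((dot_le _ _).trans ?_)
    rw [← sq]
    gcongr
  have hcr : 0 < c * r := mul_pos hc hr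
  calc c ^ 3 / (4 * (S.M * (1 + 2 * S.R) * C) ^ 4) / r
      = c * r * (c * r * (c * r)) / (2 * (S.M * (1 + 2 * S.R) * C * r) ^ 2) ^ 2 := by
        field_simp
        ring
    _ ≤ _ := by
        gcongr
        · exact mul_nonneg (hcr.le.trans i4) (mul_nonneg (hcr.le.trans i1) (hcr.le.trans i2))
        · exact hcr.le.trans i4
        · exact hcr.le.trans i1

theorem Facts.J_lower_5 (hC : 0 < C) (hc : 0 < c) (h : S.Facts C c q r) :
    S.lam ^ 3 * c ^ 3 / (S.M * (1 + 2 * S.R) * C) ^ 4 / r -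
      (4 * S.M ^ 3 * (2 + S.R) * (1 / c) ^ 3 + 18 * S.M * (1 / c)) * (C / c) * (2 / c) ≤
      ∫ t in (0 : ℝ)..S.T q r, S.α' q r t := by
  have hM := S.one_le_M
  have hR := S.R_pos
  have hl := S.lam_pos
  set A := (4 * S.M ^ 3 * (2 + S.R) * (1 / c) ^ 3 + 18 * S.M * (1 / c)) * (C / c) with hA
  have hA0 : 0 ≤ A := by positivity
  set k := S.lam ^ 3 * c ^ 3 / (S.M * (1 + 2 * S.R) * C) ^ 4 / r with hk
  have h1 := h.one_le
  have hw := wt_cont_5 c (S.T q r)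
  have I1 : IntervalIntegrable (S.α' q r) volume 0 1 :=
    ((h.cont5_α' hc).mono (by
      rw [uIcc_of_le zero_le_one]
      exact Icc_subset_Icc_right (by linarith))).intervalIntegrable
  have I2 : IntervalIntegrable (S.α' q r) volume 1 (S.T q r) :=
    ((h.cont5_α' hc).mono (by
      rw [uIcc_of_le h1]
      exact Icc_subset_Icc zero_le_one (by linarith))).intervalIntegrable
  have e1 : ∫ t in (0 : ℝ)..1, (k - A * wt5 c (S.T q r) t) ≤ ∫ t in (0 : ℝ)..1, S.α' q r t := by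
    refine intervalIntegral.integral_mono_on zero_le_one
      (Continuous.intervalIntegrable (by fun_prop) _ _) I1 fun t ht => ?_
    have a1 := h.est2_5 hC hc (t := t) ⟨ht.1, ht.2.trans h1⟩
    have a2 := mul_le_mul_of_nonneg_left (h.est3_5 hC hc ht) (show 0 ≤ 4 * S.lam ^ 3 by positivity)
    have a3 : k = 4 * S.lam ^ 3 * (c ^ 3 / (4 * (S.M * (1 + 2 * S.R) * C) ^ 4) / r) := by
      rw [hk]
      field_simp
    linarith
  have e2 : ∫ t in (1 : ℝ)..S.T q r, (-(A * wt5 c (S.T q r) t)) ≤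
      ∫ t in (1 : ℝ)..S.T q r, S.α' q r t := by
    refine intervalIntegral.integral_mono_on h1
      (Continuous.intervalIntegrable (by fun_prop) _ _) I2 fun t ht => ?_
    have ht' : t ∈ Icc 0 (S.T q r) := ⟨zero_le_one.trans ht.1, ht.2⟩
    have a1 := h.est2_5 hC hc ht'
    have a2 : 0 ≤ 4 * S.lam ^ 3 * (S.β q r t * ((S.P q r t).1 * (S.P q r t).2) /
        dot (q.V (S.P q r t)) (q.V (S.P q r t)) ^ 2) := by
      have b1 := h.β_pos_5 hc t
      have b2 := (h.reg t (h.sub_5 ht')).2.1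
      have b3 := (h.reg t (h.sub_5 ht')).2.2.1
      positivity
    linarith
  rw [intervalIntegral.integral_sub (by simp) (Continuous.intervalIntegrable (by fun_prop) _ _),
    intervalIntegral.integral_const_mul, intervalIntegral.integral_const] at e1
  rw [intervalIntegral.integral_neg, intervalIntegral.integral_const_mul] at e2
  have e3 := intervalIntegral.integral_add_adjacent_intervals I1 I2
  have e4 := intervalIntegral.integral_add_adjacent_intervals (μ := volume)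
    (hw.intervalIntegrable 0 1) (hw.intervalIntegrable 1 (S.T q r))
  have e5 : A * ∫ t in (0 : ℝ)..S.T q r, wt5 c (S.T q r) t ≤ A * (2 / c) :=
    mul_le_mul_of_nonneg_left (int_g hc) hA0
  rw [← e4, mul_add] at e5
  simp only [sub_zero, smul_eq_mul, one_mul] at e1
  linarith

theorem Facts.E_le_5 (hC : 0 < C) (hc : 0 < c) (h : S.Facts C c q r) :
    |S.β q r (S.T q r) * dot S.X₀ (rot (q.V (S.P q r (S.T q r)))) /
      (dot (q.V (S.P q r (S.T q r))) (q.V (S.P q r (S.T q r))) *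
        dot S.X₀ (q.V (S.P q r (S.T q r))))| ≤ 8 * (C / c) * ‖S.X₀‖ / dot S.X₀ S.X₀ := by
  have hT : S.T q r ∈ Icc 0 (S.T q r) := ⟨by linarith [h.one_le], le_rfl⟩
  have hX := h.X_pos_5 hc (h.sub_5 hT)
  have hβ := h.β_pos_5 hc (S.T q r)
  have hd := sq_le_dot (q.V (S.P q r (S.T q r)))
  have hd0 := h.dot_pos_5 hc (h.sub_5 hT)
  have h0 := S.X₀_pos
  have htr := h.trans
  have h2 := h.β_div_5 hC hc hT
  have h3 : wt5 c (S.T q r) (S.T q r) ≤ 2 := by
    have : Real.exp (-c * S.T q r) ≤ 1 := Real.exp_le_one_iff.2 (by nlinarith [hT.1])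
    simp only [wt5, sub_self, mul_zero, Real.exp_zero]
    linarith
  have h4 := dot_rot_le S.X₀ (q.V (S.P q r (S.T q r)))
  rw [abs_div, abs_mul, abs_of_pos hβ, abs_of_pos (mul_pos hd0 (by linarith))]
  calc _ ≤ S.β q r (S.T q r) * (2 * (‖S.X₀‖ * ‖q.V (S.P q r (S.T q r))‖)) /
        (‖q.V (S.P q r (S.T q r))‖ ^ 2 * (dot S.X₀ S.X₀ / 2)) := by gcongr
    _ = 4 * (S.β q r (S.T q r) / ‖q.V (S.P q r (S.T q r))‖) * ‖S.X₀‖ / dot S.X₀ S.X₀ := by
        field_simp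
        ring
    _ ≤ 4 * (C / c * 2) * ‖S.X₀‖ / dot S.X₀ S.X₀ := by
        gcongr
        exact h2.trans (by gcongr)
    _ = _ := by ring

theorem Facts.α₀_le_5 (hc : 0 < c) (h : S.Facts C c q r) : |q.α₀ r| * r ≤ 2 * (1 / c) := by
  have h0 : (0 : ℝ) ∈ Icc 0 (S.T q r + 1) := ⟨le_rfl, by linarith [h.one_le]⟩
  have hX := h.X_pos_5 hc h0
  have hd0 := h.dot_pos_5 hc h0
  have h3 := h.P_div_5 hc h0
  have hr := h.r_pos
  rw [S.P_zero] at hX hd0 h3
  have hn : ‖((r, r) : ℝ × ℝ)‖ = r := by simp [Prod.norm_def, abs_of_pos hr]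
  rw [hn] at h3
  have hd := sq_le_dot (q.V (r, r))
  have h1 : |(q.V (r, r)).1 + (q.V (r, r)).2| ≤ 2 * ‖q.V (r, r)‖ := by
    linarith [abs_add_le (q.V (r, r)).1 (q.V (r, r)).2, abs_fst_le (q.V (r, r)),
      abs_snd_le (q.V (r, r))]
  rw [NF.α₀, abs_div, abs_of_pos hd0]
  calc _ ≤ 2 * ‖q.V (r, r)‖ / ‖q.V (r, r)‖ ^ 2 * r := by gcongr
    _ = 2 * (r / ‖q.V (r, r)‖) := by field_simp
    _ ≤ _ := by gcongr

theorem Facts.I'_eq_5 (hc : 0 < c) (h : S.Facts C c q r) {Ω : Set (ℝ × ℝ)} {D D1 D2 : ℝ × ℝ → ℝ}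
    (σ : ℝ) (hD : Grad D D1 D2 Ω) (hΩ : ∀ t ∈ Icc 0 (S.T q r + 1), S.P q r t ∈ Ω) :
    ∫ t in (0 : ℝ)..S.T q r, (D1 (S.P q r t) * (S.v q r t).1 + D2 (S.P q r t) * (S.v q r t).2) =
      S.α q r (S.T q r) * (D (S.P q r (S.T q r)) - σ) - q.α₀ r * (D (S.P q r 0) - σ) -
        (∫ t in (0 : ℝ)..S.T q r, S.α' q r t * (D (S.P q r t) - σ)) +
        ∫ t in (0 : ℝ)..S.T q r, S.β q r t / dot (q.V (S.P q r t)) (q.V (S.P q r t)) *
          (D2 (S.P q r t) * (q.V (S.P q r t)).1 - D1 (S.P q r t) * (q.V (S.P q r t)).2) := by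
  have hT : 0 ≤ S.T q r := by linarith [h.one_le]
  have hu : uIcc 0 (S.T q r) = Icc 0 (S.T q r) := uIcc_of_le hT
  have hP := (S.P_sol q r).continuous
  have hX := S.cont_X_5 q r
  have hmap : MapsTo (S.P q r) (uIcc 0 (S.T q r)) Ω := fun t ht => hΩ t (h.sub_5 (hu ▸ ht))
  have cD : ContinuousOn (fun t => D (S.P q r t)) (uIcc 0 (S.T q r)) :=
    hD.cont.comp hP.continuousOn hmap
  have cD1 : ContinuousOn (fun t => D1 (S.P q r t)) (uIcc 0 (S.T q r)) :=
    hD.cont1.comp hP.continuousOn hmap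
  have cD2 : ContinuousOn (fun t => D2 (S.P q r t)) (uIcc 0 (S.T q r)) :=
    hD.cont2.comp hP.continuousOn hmap
  have cα' : ContinuousOn (S.α' q r) (uIcc 0 (S.T q r)) :=
    (h.cont5_α' hc).mono (hu ▸ h.sub_5)
  have cα : ContinuousOn (S.α q r) (uIcc 0 (S.T q r)) :=
    continuousOn_const.add (intervalIntegral.continuousOn_primitive_interval'
      cα'.intervalIntegrable left_mem_uIcc)
  have cd' : ContinuousOn (fun t => D1 (S.P q r t) * (q.V (S.P q r t)).1 +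
      D2 (S.P q r t) * (q.V (S.P q r t)).2) (uIcc 0 (S.T q r)) :=
    (cD1.mul hX.fst.continuousOn).add (cD2.mul hX.snd.continuousOn)
  have cn : ContinuousOn (fun t => S.β q r t / dot (q.V (S.P q r t)) (q.V (S.P q r t)) *
      (D2 (S.P q r t) * (q.V (S.P q r t)).1 - D1 (S.P q r t) * (q.V (S.P q r t)).2))
      (uIcc 0 (S.T q r)) :=
    ((S.cont_β_5 q r).continuousOn.div (S.cont_dot_5 q r).continuousOn
      fun t ht => (h.dot_pos_5 hc (h.sub_5 (hu ▸ ht))).ne').mul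
      ((cD2.mul hX.fst.continuousOn).sub (cD1.mul hX.snd.continuousOn))
  have parts := intervalIntegral.integral_mul_deriv_eq_deriv_mul_of_hasDerivAt
    (u := S.α q r) (v := fun t => D (S.P q r t) - σ) (u' := S.α' q r)
    (v' := fun t => D1 (S.P q r t) * (q.V (S.P q r t)).1 + D2 (S.P q r t) * (q.V (S.P q r t)).2)
    (a := 0) (b := S.T q r) cα (cD.sub continuousOn_const)
    (fun t ht => by
      rw [min_eq_left hT, max_eq_right hT] at ht
      have c1 : ContinuousOn (S.α' q r) (Ioo 0 (S.T q r)) :=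
        cα'.mono (hu ▸ Ioo_subset_Icc_self)
      refine (intervalIntegral.integral_hasDerivAt_right ?_
        (c1.stronglyMeasurableAtFilter isOpen_Ioo t ht)
        (c1.continuousAt (Ioo_mem_nhds ht.1 ht.2))).const_add _
      refine (cα'.mono ?_).intervalIntegrable
      rw [hu, uIcc_of_le ht.1.le]
      exact Icc_subset_Icc_right ht.2.le)
    (fun t ht => by
      rw [min_eq_left hT, max_eq_right hT] at ht
      have ht' := h.sub_5 (Ioo_subset_Icc_self ht)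
      exact (hD.deriv _ _ t (hΩ t ht') (h.deriv ht')).sub_const σ)
    cα'.intervalIntegrable cd'.intervalIntegrable
  have e0 : S.α q r 0 = q.α₀ r := by simp [α]
  rw [e0] at parts
  have cm : ContinuousOn (fun t => S.α q r t * (D1 (S.P q r t) * (q.V (S.P q r t)).1 +
      D2 (S.P q r t) * (q.V (S.P q r t)).2)) (uIcc 0 (S.T q r)) := cα.mul cd'
  rw [← parts, ← intervalIntegral.integral_add cm.intervalIntegrable cn.intervalIntegrable]
  refine intervalIntegral.integral_congr fun t _ => ?_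
  simp only [v, rot, Prod.fst_add, Prod.snd_add, Prod.smul_fst, Prod.smul_snd, smul_eq_mul]
  ring

end Est

theorem I'_est (S : Setup) {C c : ℝ} (hC : 0 < C) (hc : 0 < c) :
    ∃ C' > (0 : ℝ), ∃ c' > (0 : ℝ), ∃ r₁ > (0 : ℝ), ∀ (q : NF) (r : ℝ), S.Facts C c q r → r < r₁ →
      ∀ (Ω : Set (ℝ × ℝ)) (D D1 D2 : ℝ × ℝ → ℝ) (σ m : ℝ), Grad D D1 D2 Ω →
        (∀ t ∈ Icc 0 (S.T q r + 1), S.P q r t ∈ Ω) →
        (∀ p ∈ Ω, |D p - σ| ≤ m * ‖p‖ ∧ |D1 p| ≤ m ∧ |D2 p| ≤ m) →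
        ∃ J err : ℝ, S.I' D D1 D2 q r = -σ * (q.α₀ r + J) + err ∧ c' / r ≤ J ∧
          |err| ≤ C' * (|σ| + m) := by
  have hM := S.one_le_M
  have hR := S.two_le_R
  have hl := S.lam_pos
  have h0 := S.X₀_pos
  set k := S.lam ^ 3 * c ^ 3 / (S.M * (1 + 2 * S.R) * C) ^ 4 with hk
  set A := (4 * S.M ^ 3 * (2 + S.R) * (1 / c) ^ 3 + 18 * S.M * (1 / c)) * (C / c) * (2 / c)
    with hA
  set B₁ := 8 * (C / c) * ‖S.X₀‖ / dot S.X₀ S.X₀ with hB₁
  set B₂ := (4 * S.M + 18 * S.M * S.R) * (1 / c) * (C / c) with hB₂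
  have k0 : 0 < k := by positivity
  have A0 : 0 < A := by positivity
  have B10 : 0 ≤ B₁ := by positivity
  have B20 : 0 ≤ B₂ := by positivity
  refine ⟨S.R * B₁ + 2 * (1 / c) + B₂ * (2 / c) + 2 * (C / c) * (2 / c), by positivity,
    k / 2, by positivity, k / (2 * A), by positivity, ?_⟩
  intro q r h hr Ω D D1 D2 σ m hD hΩ hm
  have hT : 0 ≤ S.T q r := by linarith [h.one_le]
  have r0 := h.r_pos
  have m0 : 0 ≤ m := (abs_nonneg _).trans (hm _ (hΩ 0 ⟨le_rfl, by linarith⟩)).2.1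
  set E := S.β q r (S.T q r) * dot S.X₀ (rot (q.V (S.P q r (S.T q r)))) /
      (dot (q.V (S.P q r (S.T q r))) (q.V (S.P q r (S.T q r))) *
        dot S.X₀ (q.V (S.P q r (S.T q r)))) with hE
  set I₁ := ∫ t in (0 : ℝ)..S.T q r, S.α' q r t * (D (S.P q r t) - σ) with hI₁
  set I₂ := ∫ t in (0 : ℝ)..S.T q r, S.β q r t / dot (q.V (S.P q r t)) (q.V (S.P q r t)) *
    (D2 (S.P q r t) * (q.V (S.P q r t)).1 - D1 (S.P q r t) * (q.V (S.P q r t)).2) with hI₂
  refine ⟨∫ t in (0 : ℝ)..S.T q r, S.α' q r t,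
    -(D (S.P q r (S.T q r)) * E) - q.α₀ r * (D (S.P q r 0) - σ) - I₁ + I₂, ?_, ?_, ?_⟩
  · rw [I', h.I'_eq_5 hc σ hD hΩ, T', ← hE, ← hI₁, ← hI₂, α]
    ring
  · have h1 := h.J_lower_5 hC hc
    rw [← hk, ← hA] at h1
    have h2 : A ≤ k / 2 / r := by
      rw [le_div_iff₀ r0]
      rw [lt_div_iff₀ (by positivity)] at hr
      linarith
    have h3 : k / r = k / 2 / r + k / 2 / r := by ring
    linarith
  · have e1 : |D (S.P q r (S.T q r)) * E| ≤ (S.R * (|σ| + m)) * B₁ := by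
      refine abs_mul_le ?_ (h.E_le_5 hC hc)
      have hT' : S.T q r ∈ Icc 0 (S.T q r + 1) := ⟨hT, by linarith⟩
      have a1 := (hm _ (hΩ _ hT')).1
      have a2 : m * ‖S.P q r (S.T q r)‖ ≤ m * S.R :=
        mul_le_mul_of_nonneg_left (by linarith [(h.reg _ hT').1]) m0
      have a3 := abs_sub_abs_le_abs_sub (D (S.P q r (S.T q r))) σ
      nlinarith [abs_nonneg σ]
    have e2 : |q.α₀ r * (D (S.P q r 0) - σ)| ≤ 2 * (1 / c) * m := by
      have a1 := (hm _ (hΩ 0 ⟨le_rfl, by linarith⟩)).1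
      have hn : ‖S.P q r 0‖ = r := by simp [S.P_zero, Prod.norm_def, abs_of_pos r0]
      rw [hn] at a1
      refine (abs_mul_le le_rfl a1).trans ?_
      rw [show |q.α₀ r| * (m * r) = |q.α₀ r| * r * m by ring]
      exact mul_le_mul_of_nonneg_right (h.α₀_le_5 hc) m0
    have e3 : |I₁| ≤ B₂ * m * (2 / c) := by
      refine abs_int_le_5 hc hT (by positivity) fun t ht => ?_
      refine (abs_mul_le le_rfl (hm _ (hΩ t (h.sub_5 ht))).1).trans ?_
      have := mul_le_mul_of_nonneg_left (h.est1_5 hC hc ht) m0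
      rw [← hB₂] at this
      linarith
    have e4 : |I₂| ≤ 2 * (C / c) * m * (2 / c) := by
      refine abs_int_le_5 hc hT (by positivity) fun t ht => ?_
      have ht' := h.sub_5 ht
      have hX := h.X_pos_5 hc ht'
      have hβ := h.β_pos_5 hc t
      have hd := sq_le_dot (q.V (S.P q r t))
      have hd0 := h.dot_pos_5 hc ht'
      have a1 := abs_mul_le (hm _ (hΩ t ht')).2.2 (abs_fst_le (q.V (S.P q r t)))
      have a2 := abs_mul_le (hm _ (hΩ t ht')).2.1 (abs_snd_le (q.V (S.P q r t)))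
      have a3 : |D2 (S.P q r t) * (q.V (S.P q r t)).1 - D1 (S.P q r t) * (q.V (S.P q r t)).2| ≤
          2 * (m * ‖q.V (S.P q r t)‖) := (abs_sub _ _).trans (by linarith)
      have a4 := h.β_div_5 hC hc ht
      rw [abs_mul, abs_of_pos (div_pos hβ hd0)]
      calc _ ≤ S.β q r t / ‖q.V (S.P q r t)‖ ^ 2 * (2 * (m * ‖q.V (S.P q r t)‖)) := by gcongr
        _ = 2 * m * (S.β q r t / ‖q.V (S.P q r t)‖) := by field_simp
        _ ≤ 2 * m * (C / c * wt5 c (S.T q r) t) := by gcongr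
        _ = _ := by ring
    have s0 := abs_nonneg σ
    have p1 : 0 ≤ 2 * (1 / c) * |σ| := by positivity
    have p2 : 0 ≤ B₂ * (2 / c) * |σ| := by positivity
    have p3 : 0 ≤ 2 * (C / c) * (2 / c) * |σ| := by positivity
    rw [abs_le] at e1 e2 e3 e4 ⊢
    constructor <;> linarith [e1.1, e1.2, e2.1, e2.2, e3.1, e3.2, e4.1, e4.2]

theorem lim_int (S : Setup) {ι : Type} {l : Filter ι} [l.IsCountablyGenerated] {C c B : ℝ}
    (hc : 0 < c) {q : ι → NF} {r : ι → ℝ} {F : ι → ℝ × ℝ → ℝ} {F₀ : ℝ × ℝ → ℝ}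
    (hF : ∀ᶠ i in l, S.Facts C c (q i) (r i))
    (hq : Tendsto (fun i => (q i).dist S.q₀) l (𝓝 0)) (hr : Tendsto r l (𝓝 0))
    (hz : Tendsto (fun i => S.P (q i) (r i) (S.T (q i) (r i))) l (𝓝 S.z₀))
    (hb : ∀ᶠ i in l, ContinuousOn (fun t => F i (S.P (q i) (r i) t)) (Icc 0 (S.T (q i) (r i))) ∧
      ∀ t ∈ Icc 0 (S.T (q i) (r i)), |F i (S.P (q i) (r i) t)| ≤ B * ‖S.P (q i) (r i) t‖)
    (hlim : ∀ t ≤ (0 : ℝ), ∀ p : ι → ℝ × ℝ, Tendsto p l (𝓝 (S.γ t)) →
      Tendsto (fun i => F i (p i)) l (𝓝 (F₀ (S.γ t)))) :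
    Tendsto (fun i => S.I (F i) (q i) (r i)) l (𝓝 (∫ t in Iic (0 : ℝ), F₀ (S.γ t))) := by
  set G : ι → ℝ → ℝ := fun i => indicator (Icc (-S.T (q i) (r i)) 0)
    (fun s => F i (S.P (q i) (r i) (s + S.T (q i) (r i)))) with hG
  have hmem : ∀ i, ∀ s ∈ Icc (-S.T (q i) (r i)) 0,
      s + S.T (q i) (r i) ∈ Icc 0 (S.T (q i) (r i)) := fun i s hs =>
    ⟨by linarith [hs.1], by linarith [hs.2]⟩
  have hT : Tendsto (fun i => S.T (q i) (r i)) l atTop := by
    have h1 : Tendsto r l (𝓝[>] 0) :=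
      tendsto_nhdsWithin_iff.2 ⟨hr, hF.mono fun i hi => hi.r_pos⟩
    have h2 : Tendsto (fun i => -c * Real.log (r i) - C) l atTop :=
      tendsto_atTop_add_const_right _ (-C)
        ((Real.tendsto_log_nhdsGT_zero.comp h1).const_mul_atBot_of_neg (by linarith))
    exact tendsto_atTop_mono' l (hF.mono fun i hi => hi.Tlow) h2
  have key : Tendsto (fun i => ∫ s in Iic (0 : ℝ), G i s) l
      (𝓝 (∫ t in Iic (0 : ℝ), F₀ (S.γ t))) := by
    refine tendsto_integral_filter_of_dominated_convergence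
      (fun s => |B| * |C| * Real.exp (c * s)) ?_ ?_
      ((integrableOn_exp_mul_Iic hc 0).const_mul _) ?_
    · filter_upwards [hb] with i hi
      refine AEStronglyMeasurable.restrict ?_
      rw [hG, aestronglyMeasurable_indicator_iff measurableSet_Icc]
      refine ContinuousOn.aestronglyMeasurable ?_ measurableSet_Icc
      exact hi.1.comp (continuous_id.add continuous_const).continuousOn (hmem i)
    · filter_upwards [hb, hF] with i hi hf
      refine Eventually.of_forall fun s => ?_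
      by_cases hs : s ∈ Icc (-S.T (q i) (r i)) 0
      · simp only [hG, indicator_of_mem hs, Real.norm_eq_abs]
        have h1 := hi.2 _ (hmem i s hs)
        have h2 := hf.decay _ (hmem i s hs)
        rw [show -c * (S.T (q i) (r i) - (s + S.T (q i) (r i))) = c * s by ring] at h2
        have h3 : C * Real.exp (c * s) ≤ |C| * Real.exp (c * s) :=
          mul_le_mul_of_nonneg_right (le_abs_self C) (Real.exp_pos _).le
        have h4 : B * ‖S.P (q i) (r i) (s + S.T (q i) (r i))‖ ≤ |B| * (|C| * Real.exp (c * s)) :=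
          mul_le_mul (le_abs_self B) (h2.trans h3) (norm_nonneg _) (abs_nonneg _)
        linarith
      · simp only [hG, indicator_of_notMem hs, norm_zero]
        positivity
    · rw [ae_restrict_iff' measurableSet_Iic]
      refine Eventually.of_forall fun s hs => ?_
      have h1 : Tendsto (fun i => S.P (q i) (r i) (s + S.T (q i) (r i))) l (𝓝 (S.γ s)) := by
        rw [tendsto_iff_norm_sub_tendsto_zero]
        have h2 : Tendsto (fun i => (‖S.P (q i) (r i) (S.T (q i) (r i)) - S.γ 0‖ +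
            (q i).dist S.q₀ * (S.R + S.R ^ 2)) * Real.exp (S.M * (1 + 2 * S.R) * |s|)) l
            (𝓝 ((0 + 0 * (S.R + S.R ^ 2)) * Real.exp (S.M * (1 + 2 * S.R) * |s|))) :=
          ((tendsto_iff_norm_sub_tendsto_zero.1 hz).add (hq.mul_const _)).mul_const _
        simp only [zero_mul, add_zero] at h2
        refine squeeze_zero' (Eventually.of_forall fun i => norm_nonneg _) ?_ h2
        filter_upwards [hF] with i hi
        simpa using gron (S.good _ hi.near).size S.R_pos.le (S.P_sol (q i) (r i)) S.γ_sol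
          (S.T (q i) (r i)) 0 s
      refine (hlim s hs _ h1).congr' ?_
      filter_upwards [hT.eventually_ge_atTop (-s)] with i hi
      have : s ∈ Icc (-S.T (q i) (r i)) 0 := ⟨by linarith, hs⟩
      simp only [hG, indicator_of_mem this]
  refine key.congr' ?_
  filter_upwards [hF] with i hi
  have hT0 : -S.T (q i) (r i) ≤ 0 := by linarith [hi.one_le]
  rw [hG]
  simp only
  rw [setIntegral_indicator measurableSet_Icc, inter_eq_right.2 Icc_subset_Iic_self,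
    integral_Icc_eq_integral_Ioc, ← intervalIntegral.integral_of_le hT0,
    intervalIntegral.integral_comp_add_right (fun t => F i (S.P (q i) (r i) t))]
  simp [I]

end Setup

end Pool.Agent.Lib.MP_bf91d6_an
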