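import Pool.Agent.Lib.MP_bf91d6_an.CDefs
import Pool.Agent.Lib.MP_bf91d6_an.H3b
import Pool.Agent.Lib.MP_bf91d6_an.H4
import Pool.Agent.Lib.MP_bf91d6_an.H5

set_option autoImplicit false

namespace Pool.Agent.Lib.MP_bf91d6_an

open Set Filter Topology Metric MeasureTheory

theorem exists_pair {q₀ : NF} {γ : ℝ → ℝ × ℝ} (h : q₀.Loop γ) :
    ∃ Z : Pair, Z.S.q₀ = q₀ ∧ Z.S.γ = γ := by
  obtain ⟨R, -, hR⟩ := h.bdd
  obtain ⟨S, e1, e2, e3⟩ := exists_setup h (R := R + 2) (fun t => by linarith [hR t])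
  obtain ⟨S', e1', e2', e3'⟩ := exists_setup h.star (R := R + 2)
    (fun t => by rw [norm_swap]; linarith [hR (-t)])
  obtain ⟨C, hC, c, hc, hF⟩ := S.facts_aux
  obtain ⟨C', hC', c', hc', hF'⟩ := S'.facts_aux
  refine ⟨{ S := S, S' := S', C := C, c := c, C' := C', c' := c', hq := by rw [e1, e1'],
            hγ := by rw [e2, e2'], hR := by rw [e3, e3'], C_pos := hC, c_pos := hc,
            C'_pos := hC', c'_pos := hc', facts := fun η hη => ?_ }, e1, e2⟩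
  obtain ⟨ρ, hρ, r₀, hr₀, h1⟩ := hF η hη
  obtain ⟨ρ', hρ', r₀', hr₀', h2⟩ := hF' η hη
  refine ⟨min ρ ρ', lt_min hρ hρ', min r₀ r₀', lt_min hr₀ hr₀', fun q hq r hr => ?_⟩
  have a1 := h1 q (hq.trans (min_le_left _ _)) r ⟨hr.1, hr.2.trans_le (min_le_left _ _)⟩
  have a2 := h2 q.star (by
    rw [e1', ← e1, NF.dist_star]; exact hq.trans (min_le_right _ _)) r
    ⟨hr.1, hr.2.trans_le (min_le_right _ _)⟩
  exact ⟨⟨a1.1, a2.1⟩, a1.2, a2.2⟩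

/-- Numerator of `Ef`. -/
def En (A : Fin 6 → ℝ) (p : ℝ × ℝ) : ℝ :=
  A 1 * (p.1 + p.2) + A 2 * (p.1 - p.2) + A 3 * (p.1 + p.2) ^ 2 +
    A 4 * (p.1 + p.2) * (p.1 - p.2) + A 5 * (p.1 - p.2) ^ 2

def Ea (A : Fin 6 → ℝ) (p : ℝ × ℝ) : ℝ := A 1 + 2 * (A 3 * (p.1 + p.2)) + A 4 * (p.1 - p.2)

def Eb (A : Fin 6 → ℝ) (p : ℝ × ℝ) : ℝ := A 2 + A 4 * (p.1 + p.2) + 2 * (A 5 * (p.1 - p.2))

noncomputable def E1 (n : ℝ) (A : Fin 6 → ℝ) (p : ℝ × ℝ) : ℝ :=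
  (Ea A p + Eb A p) / (1 + n * (p.1 + p.2)) - n * En A p / (1 + n * (p.1 + p.2)) ^ 2

noncomputable def E2 (n : ℝ) (A : Fin 6 → ℝ) (p : ℝ × ℝ) : ℝ :=
  (Ea A p - Eb A p) / (1 + n * (p.1 + p.2)) - n * En A p / (1 + n * (p.1 + p.2)) ^ 2

noncomputable def Dv (n : ℝ) (A : Fin 6 → ℝ) (p : ℝ × ℝ) : ℝ := A 0 + Ef n A p

theorem continuousAt_Ef {n : ℝ} {A : Fin 6 → ℝ} {p : ℝ × ℝ} (h : 0 < 1 + n * (p.1 + p.2)) :
    ContinuousAt (fun w : ℝ × (Fin 6 → ℝ) × (ℝ × ℝ) => Ef w.1 w.2.1 w.2.2) (n, A, p) := by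
  unfold Ef
  exact ContinuousAt.div (by fun_prop) (by fun_prop) h.ne'

theorem continuousAt_Xi {n u : ℝ} {A : Fin 6 → ℝ} {p : ℝ × ℝ} (h : 0 < 1 + n * (p.1 + p.2)) :
    ContinuousAt (fun w : (ℝ × ℝ) × (Fin 6 → ℝ) × (ℝ × ℝ) => Xi w.1.1 w.1.2 w.2.1 w.2.2)
      ((n, u), A, p) := by
  unfold Xi Bf
  have h1 : ContinuousAt (fun w : (ℝ × ℝ) × (Fin 6 → ℝ) × (ℝ × ℝ) =>
      Lg w.1.1 (w.2.2.1 + w.2.2.2)) ((n, u), A, p) :=
    ContinuousAt.comp (f := fun w : (ℝ × ℝ) × (Fin 6 → ℝ) × (ℝ × ℝ) =>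
      (w.1.1, w.2.2.1 + w.2.2.2)) (continuousAt_Lg h) (by fun_prop)
  refine (Real.continuous_exp.continuousAt.comp (ContinuousAt.mul (by fun_prop) h1)).mul ?_
  exact ContinuousAt.add (by fun_prop) (ContinuousAt.div (by fun_prop) (by fun_prop) h.ne')

theorem grad_Dv (n : ℝ) (A : Fin 6 → ℝ) {Ω : Set (ℝ × ℝ)}
    (h : ∀ p ∈ Ω, 0 < 1 + n * (p.1 + p.2)) : Grad (Dv n A) (E1 n A) (E2 n A) Ω where
  deriv g v t hg hd := by
    have hξ := (hd_fst hd).fun_add (hd_snd hd)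
    have hη := (hd_fst hd).fun_sub (hd_snd hd)
    have h1 := ((((hξ.const_mul (A 1)).fun_add (hη.const_mul (A 2))).fun_add
      ((hξ.fun_pow 2).const_mul (A 3))).fun_add ((hξ.const_mul (A 4)).fun_mul hη)).fun_add
      ((hη.fun_pow 2).const_mul (A 5))
    have h2 := (hξ.const_mul n).const_add 1
    have h0 := (h _ hg).ne'
    refine ((h1.fun_div h2 h0).const_add (A 0)).congr_deriv ?_
    simp only [E1, E2, Ea, Eb, En]
    field_simp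
    ring
  cont p hp := by
    have h0 := (h p hp).ne'
    refine ContinuousAt.continuousWithinAt ?_
    unfold Dv Ef
    fun_prop (disch := assumption)
  cont1 p hp := by
    have h0 := (h p hp).ne'
    have h1 := (pow_pos (h p hp) 2).ne'
    refine ContinuousAt.continuousWithinAt ?_
    unfold E1 Ea Eb En
    fun_prop (disch := assumption)
  cont2 p hp := by
    have h0 := (h p hp).ne'
    have h1 := (pow_pos (h p hp) 2).ne'
    refine ContinuousAt.continuousWithinAt ?_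
    unfold E2 Ea Eb En
    fun_prop (disch := assumption)

theorem abs_div_le {a b A c : ℝ} (ha : |a| ≤ A) (hc : 0 < c) (hb : c ≤ b) : |a / b| ≤ A / c := by
  rw [abs_div, abs_of_pos (hc.trans_le hb)]
  exact div_le_div₀ ((abs_nonneg _).trans ha) ha hc hb

theorem Ef_bounds {c₀ R n₁ : ℝ} (hc : 0 < c₀) (hR : 0 ≤ R) (hn₁ : 0 ≤ n₁) :
    ∃ Cm > (0 : ℝ), ∀ (n : ℝ) (A : Fin 6 → ℝ) (p : ℝ × ℝ), |n| ≤ n₁ → ‖p‖ ≤ R →
      c₀ ≤ 1 + n * (p.1 + p.2) →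
      |Ef n A p| ≤ Cm * ‖A‖ * ‖p‖ ∧ |E1 n A p| ≤ Cm * ‖A‖ ∧ |E2 n A p| ≤ Cm * ‖A‖ := by
  refine ⟨(4 + 12 * R) / c₀ + 2 * (1 + 6 * R) / c₀ + n₁ * ((4 + 12 * R) * R) / c₀ ^ 2,
    by positivity, fun n A p hn hp hl => ?_⟩
  have hA : ∀ i, |A i| ≤ ‖A‖ := fun i => norm_le_pi_norm A i
  have a0 := norm_nonneg A
  have p0 := norm_nonneg p
  have hξ : |p.1 + p.2| ≤ 2 * ‖p‖ := by
    linarith [abs_add_le p.1 p.2, abs_fst_le p, abs_snd_le p]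
  have hη : |p.1 - p.2| ≤ 2 * ‖p‖ := by
    linarith [abs_sub p.1 p.2, abs_fst_le p, abs_snd_le p]
  have hξ' : |p.1 + p.2| ≤ 2 * R := by linarith
  have hη' : |p.1 - p.2| ≤ 2 * R := by linarith
  have hN : |En A p| ≤ (4 + 12 * R) * ‖A‖ * ‖p‖ := by
    have e1 := abs_le.1 (abs_mul_le (hA 1) hξ)
    have e2 := abs_le.1 (abs_mul_le (hA 2) hη)
    have e3 := abs_le.1 (abs_mul_le (hA 3) (abs_mul_le hξ hξ'))
    have e4 := abs_le.1 (abs_mul_le (hA 4) (abs_mul_le hξ hη'))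
    have e5 := abs_le.1 (abs_mul_le (hA 5) (abs_mul_le hη hη'))
    rw [abs_le, En]
    constructor <;> linarith [e1.1, e1.2, e2.1, e2.2, e3.1, e3.2, e4.1, e4.2, e5.1, e5.2]
  have ha : |Ea A p| ≤ (1 + 6 * R) * ‖A‖ := by
    have e1 := abs_le.1 (hA 1)
    have e2 := abs_le.1 (abs_mul_le (hA 3) hξ')
    have e3 := abs_le.1 (abs_mul_le (hA 4) hη')
    rw [abs_le, Ea]
    constructor <;> linarith [e1.1, e1.2, e2.1, e2.2, e3.1, e3.2]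
  have hb : |Eb A p| ≤ (1 + 6 * R) * ‖A‖ := by
    have e1 := abs_le.1 (hA 2)
    have e2 := abs_le.1 (abs_mul_le (hA 4) hξ')
    have e3 := abs_le.1 (abs_mul_le (hA 5) hη')
    rw [abs_le, Eb]
    constructor <;> linarith [e1.1, e1.2, e2.1, e2.2, e3.1, e3.2]
  have hN' : |En A p| ≤ (4 + 12 * R) * R * ‖A‖ := by
    have := mul_le_mul_of_nonneg_left hp (show 0 ≤ (4 + 12 * R) * ‖A‖ by positivity)
    linarith
  have f1 := abs_div_le hN hc hl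
  have f2 := abs_div_le (abs_mul_le hn hN') (pow_pos hc 2) (pow_le_pow_left₀ hc.le hl 2)
  have f3 := abs_div_le ((abs_add_le _ _).trans (add_le_add ha hb)) hc hl
  have f4 := abs_div_le ((abs_sub _ _).trans (add_le_add ha hb)) hc hl
  have g1 : 0 ≤ (4 + 12 * R) / c₀ * ‖A‖ := by positivity
  have g2 : 0 ≤ (2 * (1 + 6 * R) / c₀ + n₁ * ((4 + 12 * R) * R) / c₀ ^ 2) * ‖A‖ * ‖p‖ := by
    positivity
  have g3 : ((1 + 6 * R) * ‖A‖ + (1 + 6 * R) * ‖A‖) / c₀ + n₁ * ((4 + 12 * R) * R * ‖A‖) / c₀ ^ 2 =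
      (2 * (1 + 6 * R) / c₀ + n₁ * ((4 + 12 * R) * R) / c₀ ^ 2) * ‖A‖ := by ring
  refine ⟨?_, ?_, ?_⟩
  · refine le_trans f1 ?_
    have : (4 + 12 * R) * ‖A‖ * ‖p‖ / c₀ = (4 + 12 * R) / c₀ * ‖A‖ * ‖p‖ := by ring
    linarith
  · refine (abs_sub _ _).trans ((add_le_add f3 f2).trans ?_)
    linarith
  · refine (abs_sub _ _).trans ((add_le_add f4 f2).trans ?_)
    linarith

theorem Ef_smul (n c : ℝ) (A : Fin 6 → ℝ) (p : ℝ × ℝ) : Ef n (c • A) p = c * Ef n A p := by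
  simp only [Ef, Pi.smul_apply, smul_eq_mul]; ring

theorem Xi_smul (n u c : ℝ) (A : Fin 6 → ℝ) (p : ℝ × ℝ) : Xi n u (c • A) p = c * Xi n u A p := by
  simp only [Xi, Pi.smul_apply, smul_eq_mul]; ring

theorem NF.A_star (q : NF) (n u : ℝ) : q.star.A n u =
    ![-q.A n u 0, -q.A n u 1, q.A n u 2, -q.A n u 3, q.A n u 4, -q.A n u 5] := by
  ext i
  fin_cases i <;> simp [NF.A, NF.star] <;> ring

theorem NF.norm_A_star (q : NF) (n u : ℝ) : ‖q.star.A n u‖ ≤ ‖q.A n u‖ := by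
  rw [pi_norm_le_iff_of_nonneg (norm_nonneg _), NF.A_star]
  intro i
  fin_cases i <;> simpa using norm_le_pi_norm (q.A n u) _

theorem NF.Ef_star (q : NF) (n u : ℝ) (p : ℝ × ℝ) :
    Ef n (q.star.A n u) p = -Ef n (q.A n u) p.swap := by
  rw [NF.A_star]
  simp only [Ef, Prod.fst_swap, Prod.snd_swap, add_comm p.2 p.1, Matrix.cons_val_zero,
    Matrix.cons_val_one, Matrix.cons_val]
  ring

theorem NF.α₀_star (q : NF) (r : ℝ) : q.star.α₀ r = -q.α₀ r := by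
  simp only [NF.α₀, NF.star_V, dot, Prod.swap_prod_mk, Prod.fst_neg, Prod.snd_neg, Prod.fst_swap,
    Prod.snd_swap]
  ring

theorem Setup.norm_le_of_thick (S : Setup) {κ : ℝ} (hκ : κ ≤ 1) {p : ℝ × ℝ}
    (hp : p ∈ thickening κ S.Γ) : ‖p‖ ≤ S.R - 1 := by
  obtain ⟨g, hg, h⟩ := mem_thickening_iff.1 hp
  rw [dist_eq_norm] at h
  have h1 : ‖g‖ + 2 ≤ S.R := by
    rcases hg with rfl | ⟨t, rfl⟩
    · simpa using S.two_le_R
    · exact S.hR t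
  linarith [norm_sub_norm_le p g]

/-- `1 + n ξ` is bounded below near the loop. -/
theorem Setup.ell_lower (S : Setup) {n₀ : ℝ} (h : ∀ t, 0 < 1 + n₀ * ((S.γ t).1 + (S.γ t).2)) :
    ∃ c₀ > (0 : ℝ), ∃ κ > (0 : ℝ), κ ≤ 1 ∧ ∀ n, |n - n₀| ≤ κ → ∀ p ∈ thickening κ S.Γ,
      c₀ ≤ 1 + n * (p.1 + p.2) := by
  have hK : IsCompact S.Γ := by
    have h1 : Tendsto S.γ (cocompact ℝ) (𝓝 0) := by
      rw [cocompact_eq_atBot_atTop]
      exact S.loop.bot.sup S.loop.top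
    exact h1.isCompact_insert_range_of_cocompact S.loop.sol.continuous
  obtain ⟨g, hg, hmin⟩ := hK.exists_isMinOn ⟨0, mem_insert _ _⟩
    (f := fun p : ℝ × ℝ => 1 + n₀ * (p.1 + p.2)) (by fun_prop)
  have hg0 : 0 < 1 + n₀ * (g.1 + g.2) := by
    rcases hg with rfl | ⟨t, rfl⟩
    · simp
    · exact h t
  obtain ⟨κ, hκ, hκ1, hκ'⟩ := exists_small (2 * S.R + 2 * |n₀|) (half_pos hg0)
  refine ⟨_, half_pos hg0, κ, hκ, hκ1, fun n hn p hp => ?_⟩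
  have h1 := S.norm_le_of_thick hκ1 hp
  obtain ⟨w, hw, h2⟩ := mem_thickening_iff.1 hp
  rw [dist_eq_norm] at h2
  have h3 := hmin hw
  simp only [mem_ofPred_eq] at h3
  have h4 : |p.1 + p.2| ≤ 2 * S.R := by
    linarith [abs_add_le p.1 p.2, abs_fst_le p, abs_snd_le p]
  have h5 : |(p - w).1 + (p - w).2| ≤ 2 * κ := by
    linarith [abs_add_le (p - w).1 (p - w).2, abs_fst_le (p - w), abs_snd_le (p - w)]
  have h6 := abs_le.1 (abs_mul_le hn h4)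
  have h7 := abs_le.1 (abs_mul_le (le_refl |n₀|) h5)
  have h8 := hκ' κ hκ.le le_rfl
  simp only [Prod.fst_sub, Prod.snd_sub] at h7
  linarith [h6.1, h7.1]

end Pool.Agent.Lib.MP_bf91d6_an
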