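import Pool.Agent.Lib.MP_bf91d6_an.CDefs
import Pool.Agent.Lib.MP_bf91d6_an.H4

set_option autoImplicit false

namespace Pool.Agent.Lib.MP_bf91d6_an

open Set Filter Topology Metric MeasureTheory

namespace C3

theorem hd_int {k : ℝ → ℝ} {U : Set ℝ} (hU : IsOpen U) (hk : ContinuousOn k U) {a b : ℝ}
    (h : uIcc a b ⊆ U) : HasDerivAt (fun t => ∫ s in a..t, k s) (k b) b :=
  intervalIntegral.integral_hasDerivAt_right (hk.mono h).intervalIntegrable
    (hk.stronglyMeasurableAtFilter hU b (h right_mem_uIcc))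
    (hk.continuousAt (hU.mem_nhds (h right_mem_uIcc)))

theorem affine_pos {a b s t : ℝ} (h0 : 0 < a) (h1 : 0 < a + b * t) (hs : s ∈ uIcc 0 t) :
    0 < a + b * s := by
  rcases le_total 0 b with hb | hb <;> rcases mem_uIcc.1 hs with h | h <;> nlinarith [h.1, h.2]

theorem hasDerivAt_Bf {n u ξ : ℝ} (h : 0 < 1 + n * ξ) :
    HasDerivAt (Bf n u) (Bf n u ξ * (-u * (1 / (1 + n * ξ)))) ξ :=
  ((hasDerivAt_Lg h).const_mul (-u)).exp

theorem Bf_pos (n u ξ : ℝ) : 0 < Bf n u ξ := Real.exp_pos _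

theorem continuousOn_Bf {X : Type} [TopologicalSpace X] {n u : ℝ} {g : X → ℝ} {U : Set X}
    (hg : ContinuousOn g U) (h : ∀ x ∈ U, 0 < 1 + n * g x) :
    ContinuousOn (fun x => Bf n u (g x)) U := fun x hx =>
  (hasDerivAt_Bf (u := u) (h x hx)).continuousAt.comp_continuousWithinAt (hg x hx)

/-- The flux density along the section. -/
noncomputable def kf (S : Setup) (q : NF) (n u s : ℝ) : ℝ :=
  Bf n u ((S.z s).1 + (S.z s).2) * dot S.X₀ (q.V (S.z s))

/-- The part of the section where the integrating factor is defined. -/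
def U (S : Setup) (n : ℝ) : Set ℝ := {s | 0 < 1 + n * ((S.z s).1 + (S.z s).2)}

theorem cont_z (S : Setup) : Continuous S.z := by
  unfold Setup.z
  fun_prop

theorem isOpen_U (S : Setup) (n : ℝ) : IsOpen (U S n) := by
  have := cont_z S
  exact isOpen_lt continuous_const (by fun_prop)

theorem continuousOn_kf (S : Setup) (q : NF) (n u : ℝ) : ContinuousOn (kf S q n u) (U S n) := by
  have := cont_z S
  refine (continuousOn_Bf (by fun_prop) fun _ hx => hx).mul (Continuous.continuousOn ?_)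
  unfold dot NF.V
  fun_prop

variable {S : Setup} {C c : ℝ} {q : NF} {r n u : ℝ}

theorem sub_U (h : S.Facts C c q r)
    (h1 : 0 < 1 + n * ((S.P q r (S.T q r)).1 + (S.P q r (S.T q r)).2))
    (h0 : 0 < 1 + n * (S.z₀.1 + S.z₀.2)) : uIcc 0 (S.s q r) ⊆ U S n := fun s hs => by
  rw [← h.z_s] at h1
  have e : ∀ s, 1 + n * ((S.z s).1 + (S.z s).2) =
      (1 + n * (S.z₀.1 + S.z₀.2)) + n * ((rot S.X₀).1 + (rot S.X₀).2) * s := fun s => by
    simp only [Setup.z, Prod.fst_add, Prod.snd_add, Prod.smul_fst, Prod.smul_snd, smul_eq_mul]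
    ring
  rw [e] at h1
  simp only [U, mem_ofPred_eq, e]
  exact affine_pos h0 h1 hs

theorem kf_pos (h : S.Facts C c q r) {s : ℝ} (hs : s ∈ uIcc 0 (S.s q r)) : 0 < kf S q n u s := by
  refine mul_pos (Bf_pos _ _ _) (lt_of_lt_of_le (half_pos S.X₀_pos) (S.trans q h.near _ ?_))
  have h1 := h.hit.2.2.2
  rw [← h.z_s] at h1
  have e : ∀ s, ‖S.z s - S.z₀‖ = |s| * ‖rot S.X₀‖ := fun s => by
    simp only [Setup.z, add_sub_cancel_left, norm_smul, Real.norm_eq_abs]
  have h2 : |s| ≤ |S.s q r| := by simpa using abs_sub_left_of_mem_uIcc hs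
  have h3 : ‖S.z s - S.z₀‖ ≤ ‖S.z (S.s q r) - S.z₀‖ := by
    rw [e, e]
    exact mul_le_mul_of_nonneg_right h2 (norm_nonneg _)
  have h4 := S.κ₀_le
  have h5 := S.κ₀_pos
  exact h3.trans (by linarith)

theorem B_exp (h : S.Facts C c q r)
    (hl : ∀ t ∈ Icc 0 (S.T q r), 0 < 1 + n * ((S.P q r t).1 + (S.P q r t).2)) :
    Bf n u ((S.P q r (S.T q r)).1 + (S.P q r (S.T q r)).2) * S.β q r (S.T q r) =
      Bf n u (2 * r) * q.β₀ r * Real.exp (S.I (q.D n u) q r) := by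
  have hT := h.hit.1.le
  have hc := (S.P_sol q r).continuous
  have hW : ContinuousOn (fun t => ((q.V (S.P q r t)).1 + (q.V (S.P q r t)).2) /
      (1 + n * ((S.P q r t).1 + (S.P q r t).2))) (uIcc 0 (S.T q r)) := by
    rw [uIcc_of_le hT]
    exact ContinuousOn.div (by unfold NF.V; fun_prop) (by fun_prop) fun t ht => (hl t ht).ne'
  have h1 := intervalIntegral.integral_eq_sub_of_hasDerivAt
    (f := fun t => Lg n ((S.P q r t).1 + (S.P q r t).2))
    (f' := fun t => ((q.V (S.P q r t)).1 + (q.V (S.P q r t)).2) /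
      (1 + n * ((S.P q r t).1 + (S.P q r t).2))) (fun t ht => by
      rw [uIcc_of_le hT] at ht
      have hd := h.deriv (t := t) ⟨ht.1, by linarith [ht.2]⟩
      refine ((hasDerivAt_Lg (hl t ht)).comp t ((hd_fst hd).add (hd_snd hd))).congr_deriv ?_
      ring) hW.intervalIntegrable
  have h2 : S.I (q.D n u) q r = (∫ t in (0 : ℝ)..S.T q r, q.div (S.P q r t)) -
      u * (Lg n ((S.P q r (S.T q r)).1 + (S.P q r (S.T q r)).2) - Lg n (2 * r)) := by
    have e : (S.P q r 0).1 + (S.P q r 0).2 = 2 * r := by rw [S.P_zero]; ring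
    rw [e] at h1
    rw [← h1, ← intervalIntegral.integral_const_mul, ← intervalIntegral.integral_sub
      (Continuous.intervalIntegrable (by unfold NF.div; fun_prop) _ _)
      (hW.intervalIntegrable.const_mul u)]
    simp only [Setup.I, NF.D, mul_div_assoc]
  rw [h2, Setup.β, Bf, Bf, mul_left_comm, ← Real.exp_add, mul_comm (Real.exp _) (q.β₀ r),
    mul_assoc, ← Real.exp_add]
  congr 2
  ring

theorem side {r₀ : ℝ} (hc : 0 < c) (h : ∀ r ∈ Ioo 0 r₀, S.Facts C c q r) (hr : r ∈ Ioo 0 r₀)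
    (hl : ∀ t ∈ Icc 0 (S.T q r), 0 < 1 + n * ((S.P q r t).1 + (S.P q r t).2))
    (h0 : 0 < 1 + n * (S.z₀.1 + S.z₀.2)) :
    HasDerivAt (fun r => ∫ s in (0 : ℝ)..S.s q r, kf S q n u s)
      (Bf n u (2 * r) * q.β₀ r * Real.exp (S.I (q.D n u) q r)) r := by
  have hf := h r hr
  have h1 := hd_int (isOpen_U S n) (continuousOn_kf S q n u)
    (sub_U hf (hl _ ⟨hf.hit.1.le, le_rfl⟩) h0)
  refine (h1.comp r (S.hasDerivAt_s hc h hr).2).congr_deriv ?_
  have h2 : dot S.X₀ (q.V (S.P q r (S.T q r))) ≠ 0 := by linarith [hf.trans, S.X₀_pos]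
  rw [← B_exp hf hl, kf, hf.z_s]
  field_simp

theorem kf_star (Z : Pair) (q : NF) (n u : ℝ) : kf Z.S' q.star n u = kf Z.S q n u := by
  funext s
  simp only [kf, Z.z_eq, Z.X₀_eq, NF.star_V, dot, Prod.fst_swap, Prod.snd_swap, Prod.swap_swap,
    Prod.fst_neg, Prod.snd_neg, add_comm (Z.S.z s).2]
  ring

theorem U_star (Z : Pair) (n : ℝ) : U Z.S' n = U Z.S n := by
  simp only [U, Z.z_eq, Prod.fst_swap, Prod.snd_swap, add_comm (Z.S.z _).2]

theorem β₀_star (q : NF) (r : ℝ) : q.star.β₀ r = q.β₀ r := by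
  simp only [NF.β₀, NF.V, NF.star]
  ring

/-- The primitive in `η` of `V₁ + V₂`. -/
noncomputable def Pc (q : NF) (ξ η : ℝ) : ℝ :=
  (q.l1 - q.l2) / 2 * (ξ * η) + (q.l1 + q.l2) / 4 * η ^ 2 +
    (q.a + q.b + q.e + q.f) / 4 * (ξ ^ 2 * η) + (q.a + 2 - q.f) / 4 * (ξ * η ^ 2) +
    (q.a - q.b - q.e + q.f) / 12 * η ^ 3

/-- `V₁ - V₂` on the diagonal. -/
noncomputable def Q0 (q : NF) (s : ℝ) : ℝ :=
  (q.l1 + q.l2) / 2 * s + (q.a + q.b - q.e - q.f - 2) / 4 * s ^ 2

noncomputable def H (q : NF) (n u : ℝ) (p : ℝ × ℝ) : ℝ :=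
  Bf n u (p.1 + p.2) * Pc q (p.1 + p.2) (p.1 - p.2) -
    ∫ s in (0 : ℝ)..(p.1 + p.2), Bf n u s * Q0 q s

theorem hd_H {p : ℝ → ℝ × ℝ} {t σ : ℝ} (hp : HasDerivAt p (σ • q.V (p t)) t)
    (hl : 0 < 1 + n * ((p t).1 + (p t).2)) :
    HasDerivAt (fun t => H q n u (p t))
      (σ * (Xi n u (q.A n u) (p t) * ((q.V (p t)).1 + (q.V (p t)).2))) t := by
  have x := (hd_fst hp).add (hd_snd hp)
  have y := (hd_fst hp).sub (hd_snd hp)
  have h1 := hd_int (k := fun s => Bf n u s * Q0 q s) (U := {s | 0 < 1 + n * s})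
    (isOpen_lt continuous_const (by fun_prop))
    ((continuousOn_Bf continuousOn_id fun _ hx => hx).mul (by unfold Q0; fun_prop))
    (a := 0) (b := (p t).1 + (p t).2) fun s hs => affine_pos one_pos hl hs
  have h2 := (((((x.mul y).const_mul ((q.l1 - q.l2) / 2)).add
    ((y.pow 2).const_mul ((q.l1 + q.l2) / 4))).add
    (((x.pow 2).mul y).const_mul ((q.a + q.b + q.e + q.f) / 4))).add
    ((x.mul (y.pow 2)).const_mul ((q.a + 2 - q.f) / 4))).add
    ((y.pow 3).const_mul ((q.a - q.b - q.e + q.f) / 12))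
  refine ((((hasDerivAt_Bf (u := u) hl).comp t x).mul h2).sub (h1.comp t x)).congr_deriv ?_
  have h3 := hl.ne'
  simp only [Function.comp_apply, Pi.add_apply, Pi.sub_apply, Pi.mul_apply, Pi.pow_apply,
    Prod.smul_fst, Prod.smul_snd, smul_eq_mul]
  simp only [Xi, NF.A, NF.V, Q0, Matrix.cons_val_zero, Matrix.cons_val_one, Matrix.cons_val]
  generalize Bf n u ((p t).1 + (p t).2) = B
  generalize (p t).1 = a at h3 ⊢
  generalize (p t).2 = b at h3 ⊢
  norm_num
  field_simp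
  ring

theorem int_H {p : ℝ → ℝ × ℝ} {T σ : ℝ} (hT : 0 ≤ T) (hc : Continuous p)
    (hp : ∀ t ∈ Icc 0 T, HasDerivAt p (σ • q.V (p t)) t)
    (hl : ∀ t ∈ Icc 0 T, 0 < 1 + n * ((p t).1 + (p t).2)) :
    σ * ∫ t in (0 : ℝ)..T, Xi n u (q.A n u) (p t) * ((q.V (p t)).1 + (q.V (p t)).2) =
      H q n u (p T) - H q n u (p 0) := by
  rw [← intervalIntegral.integral_const_mul]
  refine intervalIntegral.integral_eq_sub_of_hasDerivAt (f := fun t => H q n u (p t))
    (fun t ht => ?_) (ContinuousOn.intervalIntegrable ?_)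
  · rw [uIcc_of_le hT] at ht
    exact hd_H (hp t ht) (hl t ht)
  · rw [uIcc_of_le hT]
    refine continuousOn_const.mul (ContinuousOn.mul ?_ (by unfold NF.V; fun_prop))
    unfold Xi
    exact (continuousOn_Bf (by fun_prop) hl).mul (ContinuousOn.add (by fun_prop)
      (ContinuousOn.div (by fun_prop) (by fun_prop) fun t ht => (hl t ht).ne'))

end C3

open C3

theorem Pair.flux (Z : Pair) {q : NF} {r₀ n u : ℝ} (h : ∀ r ∈ Ioo 0 r₀, Z.Both q r)
    (hl : ∀ r ∈ Ioo 0 r₀, Z.Ell q n r) :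
    ∃ fl : ℝ → ℝ, ∀ r ∈ Ioo 0 r₀,
      HasDerivAt fl (Bf n u (2 * r) * q.β₀ r *
        (Real.exp (Z.S.I (q.D n u) q r) - Real.exp (Z.S'.I (q.star.D n u) q.star r))) r ∧
      (0 < Z.gap q r ↔ 0 < fl r) ∧ (Z.gap q r < 0 ↔ fl r < 0) := by
  refine ⟨fun r => (∫ s in (0 : ℝ)..Z.S.s q r, kf Z.S q n u s) -
    ∫ s in (0 : ℝ)..Z.S'.s q.star r, kf Z.S q n u s, fun r hr => ?_⟩
  obtain ⟨l1, l2, l3⟩ := hl r hr
  obtain ⟨f1, f2⟩ := h r hr
  have l4 : 0 < 1 + n * (Z.S'.z₀.1 + Z.S'.z₀.2) := by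
    rw [Z.z₀_eq, Prod.fst_swap, Prod.snd_swap, add_comm Z.S.z₀.2]
    exact l3
  have d1 := side (u := u) Z.c_pos (fun r hr => (h r hr).1) hr l1 l3
  have d2 := side (u := u) Z.c'_pos (fun r hr => (h r hr).2) hr l2 l4
  rw [kf_star, β₀_star] at d2
  have u1 := sub_U f1 (l1 _ ⟨f1.hit.1.le, le_rfl⟩) l3
  have u2 := sub_U f2 (l2 _ ⟨f2.hit.1.le, le_rfl⟩) l4
  rw [U_star] at u2
  have hk := continuousOn_kf Z.S q n u
  have i1 : IntervalIntegrable (kf Z.S q n u) volume 0 (Z.S.s q r) :=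
    (hk.mono u1).intervalIntegrable
  have i2 : IntervalIntegrable (kf Z.S q n u) volume 0 (Z.S'.s q.star r) :=
    (hk.mono u2).intervalIntegrable
  have hpos : ∀ s ∈ uIcc (Z.S'.s q.star r) (Z.S.s q r), 0 < kf Z.S q n u s := fun s hs => by
    rcases uIcc_subset_uIcc_union_uIcc (b := 0) hs with h1 | h1
    · rw [uIcc_comm] at h1
      rw [← kf_star]
      exact kf_pos f2 h1
    · exact kf_pos f1 h1
  refine ⟨(d1.sub d2).congr_deriv (by ring), ?_⟩
  beta_reduce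
  rw [intervalIntegral.integral_interval_sub_left i1 i2, Pair.gap]
  have i3 := i2.symm.trans i1
  rcases lt_trichotomy (Z.S'.s q.star r) (Z.S.s q r) with e | e | e
  · have := intervalIntegral.intervalIntegral_pos_of_pos_on i3
      (fun s hs => hpos s (Icc_subset_uIcc (Ioo_subset_Icc_self hs))) e
    exact ⟨iff_of_true (by linarith) this, iff_of_false (by linarith) (by linarith)⟩
  · simp [e]
  · have := intervalIntegral.intervalIntegral_pos_of_pos_on i3.symm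
      (fun s hs => hpos s (Icc_subset_uIcc' (Ioo_subset_Icc_self hs))) e
    rw [intervalIntegral.integral_symm] at this
    exact ⟨iff_of_false (by linarith) (by linarith), iff_of_true (by linarith) (by linarith)⟩

theorem Pair.closed (Z : Pair) {q : NF} {r n u : ℝ} (h : Z.Both q r) (hl : Z.Ell q n r)
    (hg : Z.gap q r = 0) :
    Z.S.I (fun p => Xi n u (q.A n u) p * ((q.V p).1 + (q.V p).2)) q r +
      Z.S'.I (fun p => Xi n u (q.A n u) p.swap * ((q.V p.swap).1 + (q.V p.swap).2)) q.star r = 0 := by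
  obtain ⟨l1, l2, -⟩ := hl
  obtain ⟨f1, f2⟩ := h
  have e1 := int_H (q := q) (n := n) (u := u) (σ := 1) f1.hit.1.le (Z.S.P_sol q r).continuous
    (fun t ht => by simpa using f1.deriv (t := t) ⟨ht.1, by linarith [ht.2]⟩) l1
  have e2 := int_H (q := q) (n := n) (u := u) (σ := -1)
    (p := fun t => (Z.S'.P q.star r t).swap) f2.hit.1.le
    (continuous_swap.comp (Z.S'.P_sol q.star r).continuous)
    (fun t ht => by
      refine (hd_swap (f2.deriv (t := t) ⟨ht.1, by linarith [ht.2]⟩)).congr_deriv ?_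
      rw [NF.star_V]
      ext <;> simp)
    (fun t ht => by
      rw [Prod.fst_swap, Prod.snd_swap, add_comm (Z.S'.P q.star r t).2]
      exact l2 t ht)
  have e3 : (Z.S'.P q.star r (Z.S'.T q.star r)).swap = Z.S.P q r (Z.S.T q r) := by
    rw [← f2.z_s, ← f1.z_s, Z.z_eq, Prod.swap_swap, ← sub_eq_zero.1 hg]
  simp only [Setup.P_zero, Prod.swap_prod_mk, e3] at e1 e2
  simp only [Setup.I]
  linarith

end Pool.Agent.Lib.MP_bf91d6_an
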