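import Pool.Agent.Lib.MP_bf91d6_an.C2a
import Pool.Agent.Lib.MP_bf91d6_an.H6
import Pool.Agent.Lib.MP_bf91d6_an.C3

set_option autoImplicit false

namespace Pool.Agent.Lib.MP_bf91d6_an

open Set Filter Topology Metric MeasureTheory

namespace Pair

variable (Z : Pair)

/-- Both arcs lie in the `κ`-neighbourhood of the loop. -/
def Arcs (κ : ℝ) (q : NF) (r : ℝ) : Prop :=
  (∀ t ∈ Icc 0 (Z.S.T q r + 1), Z.S.P q r t ∈ thickening κ Z.S.Γ) ∧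
    ∀ t ∈ Icc 0 (Z.S'.T q.star r + 1), Z.S'.P q.star r t ∈ thickening κ Z.S'.Γ

theorem exists_arcs {κ : ℝ} (hκ : 0 < κ) : ∃ ρ > (0 : ℝ), ∃ r₀ > (0 : ℝ), ∀ q : NF,
    q.dist Z.S.q₀ ≤ ρ → ∀ r ∈ Ioo 0 r₀, Z.Both q r ∧ Z.Arcs κ q r := by
  obtain ⟨η, hη, ρ, hρ, h1⟩ := Z.S.mem_thick (C := Z.C) Z.c_pos hκ
  obtain ⟨η', hη', ρ', hρ', h2⟩ := Z.S'.mem_thick (C := Z.C') Z.c'_pos hκ
  obtain ⟨ρ'', hρ'', r₀, hr₀, h3⟩ := Z.facts (min η η') (lt_min hη hη')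
  refine ⟨min ρ'' (min ρ ρ'), by positivity, r₀, hr₀, fun q hq r hr => ?_⟩
  obtain ⟨a1, a2, a3⟩ := h3 q (hq.trans (min_le_left _ _)) r hr
  exact ⟨a1, h1 q r a1.1 (hq.trans ((min_le_right _ _).trans (min_le_left _ _)))
    (a2.trans (min_le_left _ _)), h2 q.star r a1.2 (by
      rw [Z.dist_eq]; exact hq.trans ((min_le_right _ _).trans (min_le_right _ _)))
    (a3.trans (min_le_right _ _))⟩

theorem thick_eq' {ε : ℝ} {p : ℝ × ℝ} (h : p ∈ thickening ε Z.S'.Γ) :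
    p.swap ∈ thickening ε Z.S.Γ := Z.thick_eq.1 (by simpa using h)

theorem lim2 {ι : Type} {l : Filter ι} [l.IsCountablyGenerated] {κ B : ℝ} {q : ι → NF}
    {r : ι → ℝ} {F : ι → ℝ × ℝ → ℝ} {F₀ : ℝ × ℝ → ℝ}
    (hB : ∀ᶠ i in l, Z.Both (q i) (r i) ∧ Z.Arcs κ (q i) (r i))
    (hq : Tendsto (fun i => (q i).dist Z.S.q₀) l (𝓝 0)) (hr : Tendsto r l (𝓝 0))
    (hF : ∀ᶠ i in l, ContinuousOn (F i) (thickening κ Z.S.Γ) ∧
      ∀ p ∈ thickening κ Z.S.Γ, |F i p| ≤ B * ‖p‖)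
    (hlim : ∀ t, ∀ p : ι → ℝ × ℝ, Tendsto p l (𝓝 (Z.S.γ t)) →
      Tendsto (fun i => F i (p i)) l (𝓝 (F₀ (Z.S.γ t))))
    (hint : Integrable fun t => F₀ (Z.S.γ t)) :
    Tendsto (fun i => Z.S.I (F i) (q i) (r i) + Z.S'.I (fun p => F i p.swap) (q i).star (r i)) l
      (𝓝 (∫ t, F₀ (Z.S.γ t))) := by
  have hz : ∀ η > (0 : ℝ), ∀ᶠ i in l,
      ‖Z.S.P (q i) (r i) (Z.S.T (q i) (r i)) - Z.S.z₀‖ ≤ η ∧
        ‖Z.S'.P (q i).star (r i) (Z.S'.T (q i).star (r i)) - Z.S'.z₀‖ ≤ η := fun η hη => by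
    obtain ⟨ρ, hρ, r₀, hr₀, h⟩ := Z.facts η hη
    filter_upwards [hB, hq.eventually (ge_mem_nhds hρ), hr.eventually (gt_mem_nhds hr₀)]
      with i h1 h2 h3
    exact (h (q i) h2 (r i) ⟨h1.1.1.r_pos, h3⟩).2
  have h1 := Z.S.lim_int (C := Z.C) (B := B) (F := F) (F₀ := F₀) Z.c_pos
    (hB.mono fun i h => h.1.1) hq hr
    (Metric.tendsto_nhds.2 fun η hη => (hz (η / 2) (half_pos hη)).mono fun i h => by
      rw [dist_eq_norm]; linarith [h.1])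
    (by
      filter_upwards [hB, hF] with i a1 a2
      have a3 : ∀ t ∈ Icc 0 (Z.S.T (q i) (r i)), Z.S.P (q i) (r i) t ∈ thickening κ Z.S.Γ :=
        fun t ht => a1.2.1 t ⟨ht.1, by linarith [ht.2]⟩
      exact ⟨a2.1.comp (Z.S.P_sol _ _).continuous.continuousOn a3, fun t ht => a2.2 _ (a3 t ht)⟩)
    (fun t _ => hlim t)
  have h2 := Z.S'.lim_int (C := Z.C') (B := B) (F := fun i p => F i p.swap)
    (F₀ := fun p => F₀ p.swap) (q := fun i => (q i).star) Z.c'_pos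
    (hB.mono fun i h => h.1.2) (by simpa only [Z.dist_eq] using hq) hr
    (Metric.tendsto_nhds.2 fun η hη => (hz (η / 2) (half_pos hη)).mono fun i h => by
      rw [dist_eq_norm]; linarith [h.2])
    (by
      filter_upwards [hB, hF] with i a1 a2
      have a3 : ∀ t ∈ Icc 0 (Z.S'.T (q i).star (r i)),
          (Z.S'.P (q i).star (r i) t).swap ∈ thickening κ Z.S.Γ :=
        fun t ht => Z.thick_eq' (a1.2.2 t ⟨ht.1, by linarith [ht.2]⟩)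
      exact ⟨a2.1.comp (continuous_swap.comp (Z.S'.P_sol _ _).continuous).continuousOn a3,
        fun t ht => by simpa only [norm_swap] using a2.2 _ (a3 t ht)⟩)
    (fun t _ p hp => by
      have := hlim (-t) (fun i => (p i).swap) (by
        have := (continuous_swap.tendsto _).comp hp
        simpa [Z.hγ, Function.comp_def] using this)
      simpa [Z.hγ] using this)
  have h3 : ∫ t in Iic (0 : ℝ), F₀ (Z.S'.γ t).swap = ∫ t in Ioi (0 : ℝ), F₀ (Z.S.γ t) := by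
    have := integral_comp_neg_Iic (0 : ℝ) (fun t => F₀ (Z.S.γ t))
    simpa [Z.hγ] using this
  rw [h3] at h2
  rw [← intervalIntegral.integral_Iic_add_Ioi hint.integrableOn hint.integrableOn]
  exact h1.add h2

theorem Arcs.ell {Z : Pair} {κ c₀ n : ℝ} {q : NF} {r : ℝ} (h : Z.Arcs κ q r) (hκ : 0 < κ)
    (hc : 0 < c₀) (hl : ∀ p ∈ thickening κ Z.S.Γ, c₀ ≤ 1 + n * (p.1 + p.2)) : Z.Ell q n r :=
  ⟨fun t ht => hc.trans_le (hl _ (h.1 t ⟨ht.1, by linarith [ht.2]⟩)),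
    fun t ht => hc.trans_le (by
      simpa [add_comm] using hl _ (Z.thick_eq' (h.2 t ⟨ht.1, by linarith [ht.2]⟩))),
    hc.trans_le (hl _ (self_subset_thickening hκ _ (mem_insert_of_mem _ ⟨0, rfl⟩)))⟩

theorem I_eq {q : NF} {n u r : ℝ} (h : Z.Both q r) (hl : Z.Ell q n r) :
    Z.S.I (q.D n u) q r = Z.S.I (Dv n (q.A n u)) q r ∧
      Z.S'.I (q.star.D n u) q.star r = Z.S'.I (Dv n (q.star.A n u)) q.star r := by
  constructor
  · refine intervalIntegral.integral_congr fun t ht => ?_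
    rw [uIcc_of_le h.1.hit.1.le] at ht
    exact q.D_eq n u (hl.1 t ht).ne'
  · refine intervalIntegral.integral_congr fun t ht => ?_
    rw [uIcc_of_le h.2.hit.1.le] at ht
    exact q.star.D_eq n u (hl.2.1 t ht).ne'

/-- Three closed orbits force the trace to be small. -/
theorem step1 {κ c₀ n₁ : ℝ} (hκ : 0 < κ) (hκ1 : κ ≤ 1) (hc : 0 < c₀) (hn₁ : 0 ≤ n₁) :
    ∃ C₃ > (0 : ℝ), ∃ r₁ > (0 : ℝ), ∀ (q : NF) (n u r₀ : ℝ), r₀ ≤ r₁ → |n| ≤ n₁ →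
      (∀ p ∈ thickening κ Z.S.Γ, c₀ ≤ 1 + n * (p.1 + p.2)) →
      (∀ r ∈ Ioo 0 r₀, Z.Both q r ∧ Z.Arcs κ q r) →
      ∀ x y z, 0 < x → x < y → y < z → z < r₀ → Z.gap q x = 0 → Z.gap q y = 0 → Z.gap q z = 0 →
        ∃ b ∈ Ioo 0 z, |q.A n u 0| ≤ C₃ * b * ‖q.A n u‖ ∧
          Z.S.I (Dv n (q.A n u)) q b = Z.S'.I (Dv n (q.star.A n u)) q.star b := by
  obtain ⟨C₁, hC₁, c₁, hc₁, r₁, hr₁, h₁⟩ := Z.S.I'_est Z.C_pos Z.c_pos
  obtain ⟨C₂, hC₂, c₂, hc₂, r₂, hr₂, h₂⟩ := Z.S'.I'_est Z.C'_pos Z.c'_pos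
  obtain ⟨Cm, hCm, hm⟩ := Ef_bounds hc Z.S.R_pos.le hn₁
  refine ⟨(C₁ + C₂) * (1 + Cm) / c₁, by positivity, min r₁ r₂, lt_min hr₁ hr₂,
    fun q n u r₀ hr₀ hn hl hB x y z hx hxy hyz hz gx gy gz => ?_⟩
  have hl' : ∀ p ∈ thickening κ Z.S'.Γ, c₀ ≤ 1 + n * (p.1 + p.2) := fun p hp => by
    simpa [add_comm] using hl _ (Z.thick_eq' hp)
  have hE : ∀ r ∈ Ioo 0 r₀, Z.Ell q n r := fun r hr => (hB r hr).2.ell hκ hc hl
  obtain ⟨fl, hfl⟩ := Z.flux (u := u) (fun r hr => (hB r hr).1) hE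
  have fl0 : ∀ r ∈ Ioo 0 r₀, Z.gap q r = 0 → fl r = 0 := fun r hr hg => by
    obtain ⟨-, a1, a2⟩ := hfl r hr
    rw [hg] at a1 a2
    exact le_antisymm (not_lt.1 fun h => lt_irrefl _ (a1.2 h))
      (not_lt.1 fun h => lt_irrefl _ (a2.2 h))
  set A := q.A n u with hA
  set A' := q.star.A n u with hA'
  set g : ℝ → ℝ := fun r => Z.S.I (Dv n A) q r - Z.S'.I (Dv n A') q.star r with hg
  have rolle : ∀ a b, 0 < a → a < b → b < r₀ → Z.gap q a = 0 → Z.gap q b = 0 →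
      ∃ w ∈ Ioo a b, g w = 0 := fun a b ha hab hb ga gb => by
    have hs : ∀ w ∈ Icc a b, w ∈ Ioo 0 r₀ := fun w hw => ⟨ha.trans_le hw.1, hw.2.trans_lt hb⟩
    obtain ⟨w, hw, he⟩ := exists_hasDerivAt_eq_zero hab
      (fun w hw => (hfl w (hs w hw)).1.continuousAt.continuousWithinAt)
      ((fl0 a ⟨ha, hab.trans hb⟩ ga).trans (fl0 b ⟨ha.trans hab, hb⟩ gb).symm)
      (fun w hw => (hfl w (hs w (Ioo_subset_Icc_self hw))).1)
    have hw' := hs w (Ioo_subset_Icc_self hw)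
    have b0 : 0 < Bf n u (2 * w) * q.β₀ w := mul_pos (Real.exp_pos _)
      ((mul_pos Z.c_pos hw'.1).trans_le (hB w hw').1.1.beta0)
    have b1 := Real.exp_injective (sub_eq_zero.1 ((mul_eq_zero.1 he).resolve_left b0.ne'))
    obtain ⟨b2, b3⟩ := Z.I_eq (u := u) (hB w hw').1 (hE w hw')
    exact ⟨w, hw, sub_eq_zero.2 (by rw [← b2, ← b3, b1])⟩
  obtain ⟨a, ha, ga⟩ := rolle x y hx hxy (hyz.trans hz) gx gy
  obtain ⟨b, hb, gb⟩ := rolle y z (hx.trans hxy) hyz hz gy gz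
  have hG := grad_Dv n A (Ω := thickening κ Z.S.Γ) fun p hp => hc.trans_le (hl p hp)
  have hG' := grad_Dv n A' (Ω := thickening κ Z.S'.Γ) fun p hp => hc.trans_le (hl' p hp)
  have hb1 : ∀ p ∈ thickening κ Z.S.Γ, |Dv n A p - A 0| ≤ Cm * ‖A‖ * ‖p‖ ∧
      |E1 n A p| ≤ Cm * ‖A‖ ∧ |E2 n A p| ≤ Cm * ‖A‖ := fun p hp => by
    rw [Dv, add_sub_cancel_left]
    exact hm n A p hn (by linarith [Z.S.norm_le_of_thick hκ1 hp]) (hl p hp)
  have hb2 : ∀ p ∈ thickening κ Z.S'.Γ, |Dv n A' p - A' 0| ≤ Cm * ‖A'‖ * ‖p‖ ∧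
      |E1 n A' p| ≤ Cm * ‖A'‖ ∧ |E2 n A' p| ≤ Cm * ‖A'‖ := fun p hp => by
    rw [Dv, add_sub_cancel_left]
    exact hm n A' p hn (by linarith [Z.S'.norm_le_of_thick hκ1 hp, Z.hR]) (hl' p hp)
  have hd : ∀ r ∈ Ioo 0 r₀, HasDerivAt g (Z.S.I' (Dv n A) (E1 n A) (E2 n A) q r -
      Z.S'.I' (Dv n A') (E1 n A') (E2 n A') q.star r) r := fun r hr =>
    (Z.S.hasDerivAt_I Z.c_pos (fun r hr => (hB r hr).1.1) (fun r hr => (hB r hr).2.1) hG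
      (fun p hp => (hb1 p hp).2) hr).sub
    (Z.S'.hasDerivAt_I Z.c'_pos (fun r hr => (hB r hr).1.2) (fun r hr => (hB r hr).2.2) hG'
      (fun p hp => (hb2 p hp).2) hr)
  have hs : ∀ w ∈ Icc a b, w ∈ Ioo 0 r₀ := fun w hw =>
    ⟨(hx.trans ha.1).trans_le hw.1, hw.2.trans_lt (hb.2.trans hz)⟩
  obtain ⟨w, hw, he⟩ := exists_hasDerivAt_eq_zero (ha.2.trans hb.1)
    (fun w hw => (hd w (hs w hw)).continuousAt.continuousWithinAt) (ga.trans gb.symm)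
    (fun w hw => hd w (hs w (Ioo_subset_Icc_self hw)))
  have hw' := hs w (Ioo_subset_Icc_self hw)
  obtain ⟨J, e, e1, e2, e3⟩ := h₁ q w (hB w hw').1.1 (hw'.2.trans_le (hr₀.trans (min_le_left _ _)))
    _ _ _ _ _ _ hG (hB w hw').2.1 hb1
  obtain ⟨J', e', e1', e2', e3'⟩ := h₂ q.star w (hB w hw').1.2
    (hw'.2.trans_le (hr₀.trans (min_le_right _ _))) _ _ _ _ _ _ hG' (hB w hw').2.2 hb2
  have s0 : A' 0 = -A 0 := by rw [hA', NF.A_star]; rfl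
  have s1 : ‖A'‖ ≤ ‖A‖ := q.norm_A_star n u
  have s2 : |A 0| ≤ ‖A‖ := norm_le_pi_norm A 0
  rw [e1, e1', s0, NF.α₀_star] at he
  rw [s0, abs_neg] at e3'
  refine ⟨b, ⟨(hx.trans hxy).trans hb.1, hb.2⟩, ?_, sub_eq_zero.1 gb⟩
  have j0 : 0 < c₂ / w := div_pos hc₂ hw'.1
  have j1 : 0 < c₁ / w := div_pos hc₁ hw'.1
  have j2 : |A 0| * (J + J') = |e - e'| := by
    rw [← abs_of_pos (show 0 < J + J' by linarith), ← abs_mul]
    congr 1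
    linarith
  have j3 : |A 0| * (c₁ / w) ≤ (C₁ + C₂) * (1 + Cm) * ‖A‖ := by
    have k1 := mul_le_mul_of_nonneg_left (show c₁ / w ≤ J + J' by linarith) (abs_nonneg (A 0))
    have k2 := abs_sub e e'
    have k3 := mul_le_mul_of_nonneg_left (show |A 0| + Cm * ‖A‖ ≤ (1 + Cm) * ‖A‖ by linarith) hC₁.le
    have k4 := mul_le_mul_of_nonneg_left (show |A 0| + Cm * ‖A'‖ ≤ (1 + Cm) * ‖A‖ by
      linarith [mul_le_mul_of_nonneg_left s1 hCm.le]) hC₂.le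
    linarith
  rw [← mul_div_assoc, div_le_iff₀ hw'.1] at j3
  have j4 := mul_le_mul_of_nonneg_left hw.2.le
    (show 0 ≤ (C₁ + C₂) * (1 + Cm) * ‖A‖ by positivity)
  rw [div_mul_eq_mul_div, div_mul_eq_mul_div, le_div_iff₀ hc₁]
  linarith

end Pair

end Pool.Agent.Lib.MP_bf91d6_an
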