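import Pool.Agent.Lib.MP_bf91d6_an.NF

/-! Block LG: geometry of a homoclinic loop of a pre-Lienard form. -/

set_option autoImplicit false

namespace Pool.Agent.Lib.MP_bf91d6_an

open Set Filter Topology Metric MeasureTheory

namespace LG

theorem pos_right {f : ℝ → ℝ} {f' c : ℝ} (hd : HasDerivAt f f' c) (h0 : f c = 0) (hp : 0 < f') :
    ∃ u > c, ∀ t ∈ Ioo c u, 0 < f t := by
  have h := eventually_nhdsWithin_sign_eq_of_deriv_pos (f := f) (x₀ := c) (hd.deriv ▸ hp) h0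
  have h2 : ∀ᶠ t in 𝓝[>] c, 0 < f t := by
    filter_upwards [mem_nhdsWithin_of_mem_nhds h, self_mem_nhdsWithin] with t ht (htc : c < t)
    rw [sign_pos (sub_pos.2 htc)] at ht
    exact sign_eq_one_iff.1 ht
  obtain ⟨u, hu, hs⟩ := mem_nhdsGT_iff_exists_Ioo_subset.1 h2
  exact ⟨u, hu, fun t ht => hs ht⟩

theorem neg_left {f : ℝ → ℝ} {f' c : ℝ} (hd : HasDerivAt f f' c) (h0 : f c = 0) (hp : 0 < f') :
    ∃ l < c, ∀ t ∈ Ioo l c, f t < 0 := by
  have h := eventually_nhdsWithin_sign_eq_of_deriv_pos (f := f) (x₀ := c) (hd.deriv ▸ hp) h0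
  have h2 : ∀ᶠ t in 𝓝[<] c, f t < 0 := by
    filter_upwards [mem_nhdsWithin_of_mem_nhds h, self_mem_nhdsWithin] with t ht (htc : t < c)
    rw [sign_neg (sub_neg.2 htc)] at ht
    exact sign_eq_neg_one_iff.1 ht
  obtain ⟨u, hu, hs⟩ := mem_nhdsLT_iff_exists_Ioo_subset.1 h2
  exact ⟨u, hu, fun t ht => hs ht⟩

theorem neg_right {f : ℝ → ℝ} {f' c : ℝ} (hd : HasDerivAt f f' c) (h0 : f c = 0) (hp : f' < 0) :
    ∃ u > c, ∀ t ∈ Ioo c u, f t < 0 := by
  obtain ⟨u, hu, h⟩ := pos_right (f := fun t => - f t) hd.neg (by simp [h0]) (by linarith)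
  exact ⟨u, hu, fun t ht => by linarith [h t ht]⟩

theorem deriv_nonpos_of_left {f : ℝ → ℝ} {f' a c : ℝ} (hac : a < c) (hd : HasDerivAt f f' c)
    (h0 : f c = 0) (hp : ∀ t ∈ Ioo a c, 0 < f t) : f' ≤ 0 := by
  by_contra hn
  obtain ⟨l, hl, h⟩ := neg_left hd h0 (not_le.1 hn)
  obtain ⟨t, ht1, ht2⟩ := exists_between (max_lt hac hl)
  have := h t ⟨(le_max_right _ _).trans_lt ht1, ht2⟩
  have := hp t ⟨(le_max_left _ _).trans_lt ht1, ht2⟩
  linarith

theorem deriv_nonneg_of_right {f : ℝ → ℝ} {f' c : ℝ} (hd : HasDerivAt f f' c)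
    (h0 : f c = 0) (hp : ∀ t > c, 0 < f t) : 0 ≤ f' := by
  by_contra hn
  obtain ⟨u, hu, h⟩ := neg_right hd h0 (not_le.1 hn)
  obtain ⟨t, ht1, ht2⟩ := exists_between hu
  have := h t ⟨ht1, ht2⟩
  have := hp t ht1
  linarith

theorem first_time {f : ℝ → ℝ} (hf : Continuous f) {a b : ℝ} (hab : a ≤ b) (ha : 0 < f a)
    (hb : f b ≤ 0) : ∃ c ∈ Ioc a b, f c = 0 ∧ ∀ t ∈ Ico a c, 0 < f t := by
  have hK : IsCompact (Icc a b ∩ {t | f t ≤ 0}) :=
    isCompact_Icc.inter_right (isClosed_le hf continuous_const)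
  obtain ⟨c, ⟨hc1, hc2⟩, hc3⟩ := hK.exists_isLeast ⟨b, ⟨hab, le_rfl⟩, hb⟩
  have hpos : ∀ t ∈ Ico a c, 0 < f t := by
    intro t ht
    by_contra hn
    exact absurd (hc3 ⟨⟨ht.1, ht.2.le.trans hc1.2⟩, not_lt.1 hn⟩) (not_le.2 ht.2)
  have hac : a < c := by
    refine lt_of_le_of_ne hc1.1 ?_
    rintro rfl
    exact absurd ha (not_lt.2 hc2)
  refine ⟨c, ⟨hac, hc1.2⟩, ?_, hpos⟩
  obtain ⟨z, hz, hz0⟩ := intermediate_value_Icc' hac.le hf.continuousOn
    (show (0 : ℝ) ∈ Icc (f c) (f a) from ⟨hc2, ha.le⟩)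
  rcases eq_or_lt_of_le hz.2 with h | h
  · rw [← h, hz0]
  · exact absurd (hpos z ⟨hz.1, h⟩) (by rw [hz0]; exact lt_irrefl _)

theorem last_time {f : ℝ → ℝ} (hf : Continuous f) {a : ℝ} (ha : f a ≤ 0)
    (hb : ∀ᶠ t in atTop, 0 < f t) : ∃ c ≥ a, f c = 0 ∧ ∀ t > c, 0 < f t := by
  obtain ⟨T, hT⟩ := eventually_atTop.1 hb
  have haT : a < T := by
    by_contra hn
    exact absurd (hT a (not_lt.1 hn)) (not_lt.2 ha)
  obtain ⟨c, hc, h0, hp⟩ := first_time (f := fun t => f (-t)) (hf.comp continuous_neg)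
    (a := -T) (b := -a) (by linarith) (by simpa using hT T le_rfl) (by simpa using ha)
  refine ⟨-c, by linarith [hc.2], h0, fun t ht => ?_⟩
  rcases le_total T t with h | h
  · exact hT t h
  · simpa using hp (-t) ⟨by linarith, by linarith⟩

theorem quad4 {a b c s1 s2 s3 s4 : ℝ} (h12 : s1 < s2) (h23 : s2 < s3) (h34 : s3 < s4)
    (h1 : 0 ≤ a * s1 ^ 2 + b * s1 + c) (h2 : a * s2 ^ 2 + b * s2 + c ≤ 0)
    (h3 : 0 ≤ a * s3 ^ 2 + b * s3 + c) (h4 : a * s4 ^ 2 + b * s4 + c ≤ 0) :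
    a = 0 ∧ b = 0 ∧ c = 0 := by
  have d1 : a * (s1 + s2) + b ≤ 0 := by
    by_contra hn
    nlinarith [mul_pos (not_le.1 hn) (sub_pos.2 h12)]
  have d2 : 0 ≤ a * (s2 + s3) + b := by
    by_contra hn
    nlinarith [mul_pos (neg_pos.2 (not_le.1 hn)) (sub_pos.2 h23)]
  have d3 : a * (s3 + s4) + b ≤ 0 := by
    by_contra hn
    nlinarith [mul_pos (not_le.1 hn) (sub_pos.2 h34)]
  have a1 : 0 ≤ a := by
    by_contra hn
    nlinarith [mul_pos (neg_pos.2 (not_le.1 hn)) (sub_pos.2 (h12.trans h23))]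
  have a2 : a ≤ 0 := by
    by_contra hn
    nlinarith [mul_pos (not_le.1 hn) (sub_pos.2 (h23.trans h34))]
  have ha : a = 0 := le_antisymm a2 a1
  subst ha
  have hb : b = 0 := by linarith
  subst hb
  exact ⟨rfl, rfl, by linarith⟩

/-- Time reversal. -/
def rev (q : LN) : LN := ⟨q.n, -q.m, q.A, -q.B, q.C⟩

def revc (γ : ℝ → ℝ × ℝ) (t : ℝ) : ℝ × ℝ := ((γ (-t)).1, -(γ (-t)).2)

theorem rev_h (q : LN) : (rev q).h = q.h := by
  funext s
  simp only [LN.h, rev]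
  ring

theorem rev_V (q : LN) (p : ℝ × ℝ) :
    (rev q).V (p.1, -p.2) = (-(q.V p).1, (q.V p).2) := by
  ext <;> simp only [LN.V, rev] <;> ring

variable {q : LN} {γ : ℝ → ℝ × ℝ}

theorem loop_rev (h : q.Loop γ) : (rev q).Loop (revc γ) where
  sol := fun t => by
    have h1 := (h.sol (-t)).scomp t (hasDerivAt_neg t)
    unfold revc
    rw [rev_V]
    refine (hd_mk (hd_fst h1) (hd_snd h1).neg).congr_deriv ?_
    ext <;> simp
  bot := by
    have h1 := h.top.comp tendsto_neg_atBot_atTop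
    have := h1.fst_nhds.prodMk_nhds h1.snd_nhds.neg
    simp only [Prod.fst_zero, Prod.snd_zero, neg_zero] at this
    exact this
  top := by
    have h1 := h.bot.comp tendsto_neg_atTop_atBot
    have := h1.fst_nhds.prodMk_nhds h1.snd_nhds.neg
    simp only [Prod.fst_zero, Prod.snd_zero, neg_zero] at this
    exact this
  pos := fun t => h.pos _
  int := by
    have := h.int.comp_neg
    refine this.congr (Eventually.of_forall fun t => ?_)
    simp [revc, Prod.norm_def]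
  inj := fun s t hst => by
    have h1 := congrArg Prod.fst hst
    have h2 := congrArg Prod.snd hst
    simp only [revc, neg_inj] at h1 h2
    exact neg_inj.1 (h.inj (Prod.ext h1 h2))
  nonsing := fun t h0 => by
    unfold revc at h0
    rw [rev_V] at h0
    apply h.nonsing (-t)
    have h1 := congrArg Prod.fst h0
    have h2 := congrArg Prod.snd h0
    simp only [Prod.fst_zero, neg_eq_zero, Prod.snd_zero] at h1 h2
    exact Prod.ext h1 h2

theorem cont1 (h : q.Loop γ) : Continuous fun t => (γ t).1 := h.sol.continuous.fst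

theorem cont2 (h : q.Loop γ) : Continuous fun t => (γ t).2 := h.sol.continuous.snd

theorem contP (h : q.Loop γ) : Continuous fun t => (q.V (γ t)).1 :=
  (q.contDiff_V.continuous.comp h.sol.continuous).fst

theorem top1 (h : q.Loop γ) : Tendsto (fun t => (γ t).1) atTop (𝓝 0) := h.top.fst_nhds

theorem top2 (h : q.Loop γ) : Tendsto (fun t => (γ t).2) atTop (𝓝 0) := h.top.snd_nhds

theorem ell_pos_aux (h : q.Loop γ) (hnm : q.n * q.m ≤ 0) (t : ℝ) : 0 < 1 + q.n * (γ t).1 := by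
  have h1 : Tendsto (fun t => 1 + q.n * (γ t).1) atTop (𝓝 (1 + q.n * 0)) :=
    ((top1 h).const_mul _).const_add _
  have h2 : ∀ᶠ s in atTop, 0 < 1 + q.n * (γ s).1 :=
    h1.eventually (lt_mem_nhds (by simp))
  obtain ⟨b, hb, hb'⟩ := (h2.and (eventually_ge_atTop t)).exists
  refine pos_bwd (φ := fun t => 1 + q.n * (γ t).1) (φ' := fun t => q.n * (q.V (γ t)).1)
    (k := fun t => q.n * (γ t).2) hb' ((cont2 h).const_mul _)
    (fun s _ => ((h.sol.fst s).const_mul _).const_add _) (fun s _ => ?_) hb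
  simp only [LN.V]
  nlinarith [sq_nonneg (γ s).1]

theorem ell_pos (h : q.Loop γ) (t : ℝ) : 0 < 1 + q.n * (γ t).1 := by
  rcases le_total (q.n * q.m) 0 with hn | hn
  · exact ell_pos_aux h hn t
  · have := ell_pos_aux (loop_rev h) (by simp only [rev]; linarith) (-t)
    simpa [rev, revc] using this

theorem exists_max (h : q.Loop γ) : ∃ tM, ∀ t, (γ t).1 ≤ (γ tM).1 := by
  refine (cont1 h).exists_forall_ge' 0 ?_
  rw [cocompact_eq_atBot_atTop, eventually_sup]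
  exact ⟨(h.bot.fst_nhds.eventually (gt_mem_nhds (h.pos 0))).mono fun _ => le_of_lt,
    ((top1 h).eventually (gt_mem_nhds (h.pos 0))).mono fun _ => le_of_lt⟩

theorem ell_pos' (h : q.Loop γ) {t s : ℝ} (h0 : 0 ≤ s) (h1 : s ≤ (γ t).1) : 0 < 1 + q.n * s := by
  have := ell_pos h t
  rcases le_total 0 q.n with hn | hn
  · nlinarith
  · nlinarith

/-- The coefficient of the linear equation for `P`. -/
noncomputable def kP (q : LN) (γ : ℝ → ℝ × ℝ) (t : ℝ) : ℝ :=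
  ((q.C + q.n) * (q.V (γ t)).1 - (q.n + 2 * q.C) * q.m * (γ t).1 ^ 2) / (1 + q.n * (γ t).1) +
    (2 * q.m + q.B) * (γ t).1

theorem cont_kP (h : q.Loop γ) : Continuous (kP q γ) := by
  have h1 := cont1 h
  have h2 := contP h
  unfold kP
  refine (Continuous.div (by fun_prop) (by fun_prop) fun t => (ell_pos h t).ne').add (by fun_prop)

theorem derivP (h : q.Loop γ) (t : ℝ) : HasDerivAt (fun t => (q.V (γ t)).1)
    (kP q γ t * (q.V (γ t)).1 + (γ t).1 * q.h (γ t).1 / (1 + q.n * (γ t).1)) t := by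
  have h1 := h.sol.fst t
  have h2 := h.sol.snd t
  have h3 := (h2.mul ((h1.const_mul q.n).const_add 1)).add ((h1.pow 2).const_mul q.m)
  refine h3.congr_deriv ?_
  have h4 := (ell_pos h t).ne'
  have h5 : 1 + (γ t).1 * q.n ≠ 0 := by rwa [mul_comm]
  simp only [kP, LN.V, LN.h]
  field_simp
  ring

theorem h_ne (h : q.Loop γ) {t : ℝ} (hP : (q.V (γ t)).1 = 0) : q.h (γ t).1 ≠ 0 := by
  intro h0
  apply h.nonsing t
  refine Prod.ext hP ?_
  have hl := (ell_pos h t).ne'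
  apply mul_left_cancel₀ (pow_ne_zero 2 hl)
  simp only [LN.V, LN.h, Prod.snd_zero] at hP h0 ⊢
  linear_combination (γ t).1 * h0 + (q.B * (γ t).1 * (1 + q.n * (γ t).1) +
    q.C * ((γ t).2 * (1 + q.n * (γ t).1) - q.m * (γ t).1 ^ 2)) * hP

theorem sign_h (h : q.Loop γ) (t : ℝ) :
    (0 ≤ (γ t).1 * q.h (γ t).1 / (1 + q.n * (γ t).1) ↔ 0 ≤ q.h (γ t).1) := by
  rw [le_div_iff₀ (ell_pos h t), zero_mul, mul_nonneg_iff_of_pos_left (h.pos t)]

theorem P_max (h : q.Loop γ) {tM : ℝ} (hM : ∀ t, (γ t).1 ≤ (γ tM).1) : (q.V (γ tM)).1 = 0 :=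
  IsLocalMax.hasDerivAt_eq_zero (f := fun t => (γ t).1) (Eventually.of_forall hM) (h.sol.fst tM)

theorem h_max (h : q.Loop γ) {tM : ℝ} (hM : ∀ t, (γ t).1 ≤ (γ tM).1) : q.h (γ tM).1 < 0 := by
  have hP := P_max h hM
  by_contra hn
  have hp : 0 < q.h (γ tM).1 := lt_of_le_of_ne (not_lt.1 hn) (h_ne h hP).symm
  obtain ⟨u, hu, hpos⟩ := pos_right (derivP h tM) hP (by
    rw [hP, mul_zero, zero_add]
    exact div_pos (mul_pos (h.pos tM) hp) (ell_pos h tM))
  have := lt_of_deriv_pos (g := fun t => (γ t).1) hu (fun t _ => h.sol.fst t) hpos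
  exact absurd (hM u) (not_le.2 this)

theorem claim_neg (h : q.Loop γ) {tM : ℝ} (hM : ∀ t, (γ t).1 ≤ (γ tM).1) (hm : q.m < 0)
    {x1 x2 : ℝ} (h0 : 0 < x1) (h12 : x1 < x2) (h2 : x2 < (γ tM).1) (e1 : q.h x1 ≤ 0)
    (e2 : 0 ≤ q.h x2) : False := by
  have l1 : 0 < 1 + q.n * x1 := ell_pos' h h0.le (h12.trans h2).le
  have l2 : 0 < 1 + q.n * x2 := ell_pos' h (h0.trans h12).le h2.le
  obtain ⟨κ, hκ, hκm⟩ : ∃ κ : ℝ, 0 < κ ∧ q.m = -κ * ((1 + q.n * x1) * (1 + q.n * x2)) :=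
    ⟨-q.m / ((1 + q.n * x1) * (1 + q.n * x2)), div_pos (by linarith) (mul_pos l1 l2), by
      field_simp⟩
  obtain ⟨a0, ha0⟩ : ∃ a0, a0 = -κ * (x1 * x2) := ⟨_, rfl⟩
  obtain ⟨a1, ha1⟩ : ∃ a1, a1 = κ * (x1 + x2) + q.n * κ * (x1 * x2) := ⟨_, rfl⟩
  let φ : ℝ → ℝ := fun t => (γ t).2 - a0 - a1 * (γ t).1
  have hφc : Continuous φ := ((cont2 h).sub continuous_const).sub ((cont1 h).const_mul _)
  have hφl : ∀ t, φ t * (1 + q.n * (γ t).1) =
      (q.V (γ t)).1 + κ * (((γ t).1 - x1) * ((γ t).1 - x2)) := by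
    intro t
    simp only [φ, LN.V]
    rw [hκm, ha0, ha1]
    ring
  obtain ⟨r2, hr2⟩ : ∃ r2, r2 = q.A + q.B * a1 + q.C * a1 ^ 2 - a1 * (a1 * q.n + q.m) := ⟨_, rfl⟩
  obtain ⟨r1, hr1⟩ : ∃ r1, r1 = 1 + q.B * a0 + 2 * q.C * a0 * a1 - a1 * (a1 + a0 * q.n) :=
    ⟨_, rfl⟩
  obtain ⟨r0, hr0⟩ : ∃ r0, r0 = q.C * a0 ^ 2 - a1 * a0 := ⟨_, rfl⟩
  let k : ℝ → ℝ := fun t => q.B * (γ t).1 + q.C * (a0 + a1 * (γ t).1 + (γ t).2) -
    a1 * (1 + q.n * (γ t).1)
  have hk : Continuous k := by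
    have := cont1 h
    have := cont2 h
    fun_prop
  have hφd : ∀ t, HasDerivAt φ (k t * φ t + (r2 * (γ t).1 ^ 2 + r1 * (γ t).1 + r0)) t := by
    intro t
    refine (((h.sol.snd t).sub_const a0).sub ((h.sol.fst t).const_mul a1)).congr_deriv ?_
    simp only [φ, k, LN.V]
    rw [hr0, hr1, hr2]
    ring
  have hρ : ∀ x, (x - x1) * (x - x2) = 0 →
      (r2 * x ^ 2 + r1 * x + r0) * (1 + q.n * x) ^ 2 = x * q.h x := by
    intro x hx
    have e : (a0 + a1 * x) * (1 + q.n * x) = -q.m * x ^ 2 := by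
      rw [hκm, ha0, ha1]
      linear_combination (-κ) * hx
    simp only [LN.h]
    rw [hr0, hr1, hr2]
    linear_combination (q.B * x * (1 + q.n * x) + q.C * ((a0 + a1 * x) * (1 + q.n * x) -
      q.m * x ^ 2) - a1 * (1 + q.n * x) ^ 2) * e
  have hρ1 := hρ x1 (by ring)
  have hρ2 := hρ x2 (by ring)
  have hφM : 0 < φ tM := by
    have := hφl tM
    rw [P_max h hM, zero_add] at this
    have h3 : 0 < φ tM * (1 + q.n * (γ tM).1) := by
      rw [this]
      exact mul_pos hκ (mul_pos (by linarith) (by linarith))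
    exact (mul_pos_iff_of_pos_right (ell_pos h tM)).1 h3
  have hφtop : ∀ᶠ t in atTop, 0 < φ t := by
    have h1 : Tendsto φ atTop (𝓝 (0 - a0 - a1 * 0)) :=
      ((top2 h).sub_const _).sub ((top1 h).const_mul _)
    refine h1.eventually (lt_mem_nhds ?_)
    have := mul_pos hκ (mul_pos h0 (h0.trans h12))
    rw [ha0]
    linarith
  have hneg : ∀ t, ((γ t).1 - x1) * ((γ t).1 - x2) = 0 → (q.V (γ t)).1 ≤ 0 → φ t ≤ 0 := by
    intro t ht hP
    have := hφl t
    rw [ht, mul_zero, add_zero] at this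
    by_contra hn
    have := mul_pos (not_le.1 hn) (ell_pos h t)
    linarith
  have hzero : ∀ t, ((γ t).1 - x1) * ((γ t).1 - x2) = 0 → φ t = 0 → q.h (γ t).1 ≠ 0 := by
    intro t ht hP
    have := hφl t
    rw [ht, mul_zero, add_zero, hP, zero_mul] at this
    exact h_ne h this.symm
  -- the right point
  obtain ⟨T, hT, hT'⟩ := (((top1 h).eventually (gt_mem_nhds h0)).and
    (eventually_ge_atTop tM)).exists
  obtain ⟨t2, ht2, ht2e, ht2p⟩ := first_time (f := fun t => (γ t).1 - x2)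
    ((cont1 h).sub continuous_const) hT' (by linarith) (by linarith)
  have hP2 : (q.V (γ t2)).1 ≤ 0 := deriv_nonpos_of_left ht2.1 ((h.sol.fst t2).sub_const x2) ht2e
    fun t ht => ht2p t (Ioo_subset_Ico_self ht)
  obtain ⟨tb, htb, htbe, htbp⟩ := first_time hφc ht2.1.le hφM
    (hneg t2 (by rw [show (γ t2).1 - x2 = 0 from ht2e, mul_zero]) hP2)
  have hb1 := deriv_nonpos_of_left htb.1 (hφd tb) htbe fun t ht => htbp t (Ioo_subset_Ico_self ht)
  rw [htbe, mul_zero, zero_add] at hb1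
  have hb2 : x2 ≤ (γ tb).1 := by
    rcases eq_or_lt_of_le htb.2 with e | e
    · rw [e]; linarith
    · linarith [ht2p tb ⟨htb.1.le, e⟩]
  have hb3 : x2 < (γ tb).1 := by
    refine lt_of_le_of_ne hb2 fun e => ?_
    have h3 := hzero tb (by rw [← e]; ring) htbe
    rw [← e] at h3 hb1
    have h4 := mul_pos (h0.trans h12) (lt_of_le_of_ne e2 h3.symm)
    nlinarith [sq_nonneg (1 + q.n * x2)]
  -- the left point
  obtain ⟨t1, -, ht1e, ht1p⟩ := last_time (f := fun t => x1 - (γ t).1)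
    (continuous_const.sub (cont1 h)) (a := tM) (by linarith)
    (((top1 h).eventually (gt_mem_nhds h0)).mono fun t ht => by linarith)
  have hP1 : (q.V (γ t1)).1 ≤ 0 := by
    have := deriv_nonneg_of_right ((h.sol.fst t1).const_sub x1) ht1e ht1p
    linarith
  have ht1e' : (γ t1).1 - x1 = 0 := by linarith
  obtain ⟨ta, hta, htae, htap⟩ := last_time hφc (hneg t1 (by rw [ht1e', zero_mul]) hP1) hφtop
  have ha1' := deriv_nonneg_of_right (hφd ta) htae htap
  rw [htae, mul_zero, zero_add] at ha1'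
  have ha2 : (γ ta).1 ≤ x1 := by
    rcases eq_or_lt_of_le hta with e | e
    · rw [← e]; linarith
    · linarith [ht1p ta e]
  have ha3 : (γ ta).1 < x1 := by
    refine lt_of_le_of_ne ha2 fun e => ?_
    have h3 := hzero ta (by rw [e]; ring) htae
    rw [e] at h3 ha1'
    have h4 := mul_neg_of_pos_of_neg h0 (lt_of_le_of_ne e1 h3)
    nlinarith [sq_nonneg (1 + q.n * x1)]
  have s1 : r2 * x1 ^ 2 + r1 * x1 + r0 ≤ 0 := by
    by_contra hn
    have := mul_pos (not_le.1 hn) (pow_pos l1 2)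
    have := mul_nonpos_of_nonneg_of_nonpos h0.le e1
    linarith
  have s2 : 0 ≤ r2 * x2 ^ 2 + r1 * x2 + r0 := by
    by_contra hn
    have := mul_neg_of_neg_of_pos (not_le.1 hn) (pow_pos l2 2)
    have := mul_nonneg (h0.trans h12).le e2
    linarith
  obtain ⟨z2, z1, z0⟩ := quad4 ha3 h12 hb3 ha1' s1 s2 hb1
  have := pos_fwd (φ := φ) htb.1.le hk (fun t _ => hφd t) (fun t _ => by
    rw [z2, z1, z0]; simp) hφM
  linarith

theorem claim (h : q.Loop γ) {tM : ℝ} (hM : ∀ t, (γ t).1 ≤ (γ tM).1)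
    {x1 x2 : ℝ} (h0 : 0 < x1) (h12 : x1 < x2) (h2 : x2 < (γ tM).1) (e1 : q.h x1 ≤ 0)
    (e2 : 0 ≤ q.h x2) : False := by
  rcases lt_trichotomy q.m 0 with hm | hm | hm
  · exact claim_neg h hM hm h0 h12 h2 e1 e2
  · have l1 : 0 < 1 + q.n * x1 := ell_pos' h h0.le (h12.trans h2).le
    have l2 : 0 < 1 + q.n * x2 := ell_pos' h (h0.trans h12).le h2.le
    simp only [LN.h, hm, mul_zero, zero_mul, sub_zero, ne_eq, OfNat.ofNat_ne_zero,
      not_false_eq_true, zero_pow, add_zero] at e1 e2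
    have a1 : 1 + q.A * x1 ≤ 0 := by
      by_contra hn
      linarith [mul_pos (pow_pos l1 2) (not_le.1 hn)]
    have a2 : 0 ≤ 1 + q.A * x2 := (mul_nonneg_iff_of_pos_left (pow_pos l2 2)).1 e2
    have hA : q.A < 0 := by
      by_contra hn
      linarith [mul_nonneg (not_lt.1 hn) h0.le]
    nlinarith
  · refine claim_neg (loop_rev h) (tM := -tM) (fun t => ?_) (by simp only [rev]; linarith) h0 h12
      (by simpa [revc] using h2) (by rw [rev_h]; exact e1) (by rw [rev_h]; exact e2)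
    simpa [revc] using hM (-t)

theorem exists_xh (h : q.Loop γ) {tM : ℝ} (hM : ∀ t, (γ t).1 ≤ (γ tM).1) : ∃ ξh,
    0 < ξh ∧ ξh < (γ tM).1 ∧ (∀ s ∈ Ico 0 ξh, 0 < q.h s) ∧ q.h ξh = 0 ∧
      ∀ s ∈ Ioc ξh (γ tM).1, q.h s < 0 := by
  have hc : Continuous q.h := by
    unfold LN.h
    fun_prop
  have hmax := h_max h hM
  obtain ⟨x, hx, hx0, hxp⟩ := first_time hc (h.pos tM).le (by simp [LN.h]) hmax.le
  have hlt : x < (γ tM).1 := lt_of_le_of_ne hx.2 fun e => by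
    rw [← e, hx0] at hmax
    exact lt_irrefl _ hmax
  refine ⟨x, hx.1, hlt, hxp, hx0, fun s hs => ?_⟩
  rcases eq_or_lt_of_le hs.2 with e | e
  · rw [e]; exact hmax
  · by_contra hn
    exact claim h hM hx.1 hs.1 e hx0.le (not_lt.1 hn)

theorem P_neg (h : q.Loop γ) {tM : ℝ} (hM : ∀ t, (γ t).1 ≤ (γ tM).1) {b : ℝ} (hb : tM < b) :
    (q.V (γ b)).1 < 0 := by
  obtain ⟨x, hx0, -, hxp, hxe, hxn⟩ := exists_xh h hM
  by_contra hn
  have hPM := P_max h hM
  obtain ⟨u, hu, hun⟩ := neg_right (derivP h tM) hPM (by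
    rw [hPM, mul_zero, zero_add]
    exact div_neg_of_neg_of_pos (mul_neg_of_pos_of_neg (h.pos tM) (h_max h hM)) (ell_pos h tM))
  obtain ⟨a, ha1, ha2⟩ := exists_between (lt_min hu hb)
  have hau : a < u := ha2.trans_le (min_le_left _ _)
  obtain ⟨t1, ht1, ht1e, ht1p⟩ := first_time (f := fun t => -(q.V (γ t)).1) (contP h).neg
    (ha2.trans_le (min_le_right _ _)).le (by linarith [hun a ⟨ha1, hau⟩])
    (by linarith [not_lt.1 hn])
  have hP1 : (q.V (γ t1)).1 = 0 := neg_eq_zero.1 ht1e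
  have hM1 : tM < t1 := ha1.trans ht1.1
  have hneg1 : ∀ t ∈ Icc tM t1, (q.V (γ t)).1 ≤ 0 := by
    intro t ht
    rcases eq_or_lt_of_le ht.1 with e | e
    · rw [← e, hPM]
    rcases eq_or_lt_of_le ht.2 with e' | e'
    · rw [e', hP1]
    rcases lt_or_ge t a with e'' | e''
    · exact (hun t ⟨e, e''.trans hau⟩).le
    · linarith [ht1p t ⟨e'', e'⟩]
  have hd1 := deriv_nonpos_of_left ht1.1 (derivP h t1).neg ht1e
    fun t ht => ht1p t (Ioo_subset_Ico_self ht)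
  rw [hP1, mul_zero, zero_add, neg_nonpos, sign_h h] at hd1
  have hh1 : 0 < q.h (γ t1).1 := lt_of_le_of_ne hd1 (h_ne h hP1).symm
  have hx1 : (γ t1).1 < x := by
    by_contra hc
    rcases eq_or_lt_of_le (not_lt.1 hc) with e | e
    · rw [← e, hxe] at hh1
      exact lt_irrefl _ hh1
    · linarith [hxn _ ⟨e, hM t1⟩]
  obtain ⟨v, hv, hvp⟩ := pos_right (derivP h t1) hP1 (by
    rw [hP1, mul_zero, zero_add]
    exact div_pos (mul_pos (h.pos t1) hh1) (ell_pos h t1))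
  obtain ⟨w, hw1, hw2⟩ := exists_between hv
  have hev : ∀ᶠ t in atTop, 0 < -(q.V (γ t)).1 := by
    obtain ⟨T, hT⟩ := eventually_atTop.1 ((top1 h).eventually (gt_mem_nhds hx0))
    refine eventually_atTop.2 ⟨T, fun t0 ht0 => ?_⟩
    by_contra hc
    have hc' : 0 ≤ (q.V (γ t0)).1 := by linarith [not_lt.1 hc]
    have hall : ∀ t ≥ t0, 0 ≤ (q.V (γ t)).1 := by
      intro t ht
      refine le_trans (mul_nonneg hc' (Real.exp_pos _).le)
        (exp_le_of_deriv (φ := fun t => (q.V (γ t)).1) ht (cont_kP h) (fun s _ => derivP h s)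
          fun s hs => ?_)
      have := (sign_h h s).2 (hxp _ ⟨(h.pos s).le, hT s (ht0.trans hs.1)⟩).le
      linarith
    obtain ⟨t, ht, ht'⟩ := (((top1 h).eventually (gt_mem_nhds (h.pos t0))).and
      (eventually_ge_atTop t0)).exists
    have := le_of_deriv_nonneg (g := fun t => (γ t).1) ht' (fun s _ => h.sol.fst s)
      fun s hs => hall s hs.1
    linarith
  obtain ⟨t3, ht3, ht3e, ht3p⟩ := last_time (f := fun t => -(q.V (γ t)).1) (contP h).neg
    (a := w) (by linarith [hvp w ⟨hw1, hw2⟩]) hev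
  have hP3 : (q.V (γ t3)).1 = 0 := neg_eq_zero.1 ht3e
  have h13 : t1 < t3 := hw1.trans_le ht3
  have hd3 := deriv_nonneg_of_right (derivP h t3).neg ht3e ht3p
  rw [hP3, mul_zero, zero_add] at hd3
  have hx3 : x ≤ (γ t3).1 := by
    by_contra hc
    have := div_pos (mul_pos (h.pos t3) (hxp _ ⟨(h.pos t3).le, not_le.1 hc⟩)) (ell_pos h t3)
    linarith
  have hanti : ∀ s s', t3 ≤ s → s < s' → (γ s').1 < (γ s).1 := by
    intro s s' hs hs'
    have := lt_of_deriv_pos (g := fun t => -(γ t).1) hs' (fun t _ => (h.sol.fst t).neg)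
      fun t ht => ht3p t (hs.trans_lt ht.1)
    linarith
  obtain ⟨t2, ht2, ht2e⟩ := intermediate_value_Icc' hM1.le (cont1 h).continuousOn
    (show (γ t3).1 ∈ Icc (γ t1).1 (γ tM).1 from ⟨by linarith, hM t3⟩)
  obtain ⟨T, hT, hT'⟩ := (((top1 h).eventually (gt_mem_nhds (h.pos t1))).and
    (eventually_ge_atTop t3)).exists
  have hrange : ∀ t ∈ Icc t2 t1, ∃ s ∈ Icc t3 T, (γ s).1 = (γ t).1 := by
    intro t ht
    have i1 := le_of_deriv_nonpos (g := fun t => (γ t).1) ht.1 (fun s _ => h.sol.fst s)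
      fun s hs => hneg1 s ⟨ht2.1.trans hs.1, hs.2.trans ht.2⟩
    have i2 := le_of_deriv_nonpos (g := fun t => (γ t).1) ht.2 (fun s _ => h.sol.fst s)
      fun s hs => hneg1 s ⟨ht2.1.trans (ht.1.trans hs.1), hs.2⟩
    exact intermediate_value_Icc' hT' (cont1 h).continuousOn
      (show (γ t).1 ∈ Icc (γ T).1 (γ t3).1 from ⟨by linarith, by
        simp only at ht2e i1
        linarith⟩)
  have hcl : ∀ ε : ℝ, IsClosed (Prod.fst '' ((Icc t2 t1 ×ˢ Icc t3 T) ∩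
      ({p : ℝ × ℝ | (γ p.2).1 = (γ p.1).1} ∩
        {p : ℝ × ℝ | ε * (q.V (γ p.1)).1 ≤ ε * (q.V (γ p.2)).1}))) := by
    intro ε
    refine (((isCompact_Icc.prod isCompact_Icc).inter_right ?_).image continuous_fst).isClosed
    exact (isClosed_eq ((cont1 h).comp continuous_snd) ((cont1 h).comp continuous_fst)).inter
      (isClosed_le (((contP h).comp continuous_fst).const_mul _)
        (((contP h).comp continuous_snd).const_mul _))
  obtain ⟨t, ht, ⟨⟨t', s⟩, ⟨⟨-, hs⟩, hs1, hs2⟩, rfl⟩, ⟨⟨t'', s'⟩, ⟨⟨-, hs'⟩, hs1', hs2'⟩, e⟩⟩ :=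
    isPreconnected_closed_iff.1 (isPreconnected_Icc (a := t2) (b := t1)) _ _ (hcl 1) (hcl (-1))
      (by
        intro t ht
        obtain ⟨s, hs, hse⟩ := hrange t ht
        rcases le_total (q.V (γ t)).1 (q.V (γ s)).1 with hle | hle
        · exact Or.inl ⟨(t, s), ⟨⟨ht, hs⟩, hse, by simpa using hle⟩, rfl⟩
        · exact Or.inr ⟨(t, s), ⟨⟨ht, hs⟩, hse, by simpa using hle⟩, rfl⟩)
      ⟨t2, ⟨le_rfl, ht2.2⟩, (t2, t3), ⟨⟨⟨le_rfl, ht2.2⟩, le_rfl, hT'⟩, ht2e.symm, by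
        have := hneg1 t2 ht2
        simp only [mem_ofPred_eq, one_mul, hP3]
        exact this⟩, rfl⟩
      (by
        obtain ⟨s, hs, hse⟩ := hrange t1 ⟨ht2.2, le_rfl⟩
        refine ⟨t1, ⟨ht2.2, le_rfl⟩, (t1, s), ⟨⟨⟨ht2.2, le_rfl⟩, hs⟩, hse, ?_⟩, rfl⟩
        simp only [mem_ofPred_eq, hP1, mul_zero]
        rcases eq_or_lt_of_le hs.1 with e | e
        · rw [← e, hP3]; simp
        · linarith [ht3p s e])
  simp only [mem_ofPred_eq] at e hs hs' hs1 hs2 hs1' hs2' ht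
  subst e
  have hss : s = s' := by
    rcases lt_trichotomy s s' with c | c | c
    · linarith [hanti s s' hs.1 c]
    · exact c
    · linarith [hanti s' s hs'.1 c]
  subst hss
  have hPe : (q.V (γ t'')).1 = (q.V (γ s)).1 := by linarith
  have : γ s = γ t'' := by
    refine Prod.ext hs1 ?_
    apply mul_right_cancel₀ (ell_pos h t'').ne'
    simp only [LN.V, hs1] at hPe
    linarith
  have := h.inj this
  linarith [hs.1, ht.2]

end LG

theorem LN.Loop.geom {q : LN} {γ : ℝ → ℝ × ℝ} (h : q.Loop γ) :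
    ∃ tM ξh, q.Geom γ tM ξh := by
  obtain ⟨tM, hM⟩ := LG.exists_max h
  obtain ⟨x, h1, h2, h3, h4, h5⟩ := LG.exists_xh h hM
  refine ⟨tM, x, LG.ell_pos h, hM, fun t ht => ?_, LG.P_max h hM,
    fun t ht => LG.P_neg h hM ht, h1, h2, h3, h4, h5⟩
  have := LG.P_neg (LG.loop_rev h) (tM := -tM) (fun s => by simpa [LG.revc] using hM (-s))
    (b := -t) (by linarith)
  unfold LG.revc at this
  rw [LG.rev_V] at this
  simpa using this

end Pool.Agent.Lib.MP_bf91d6_an
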