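import Pool.Agent.Lib.MP_bf91d6_an.NF

set_option autoImplicit false

namespace Pool.Agent.Lib.MP_bf91d6_an.N2

open Set Filter Topology Metric MeasureTheory

lemma prim {n : ℝ} {a : ℝ → ℝ} (ha : ∀ s, 0 < 1 + n * s → ContinuousAt a s) (s : ℝ)
    (hs : 0 < 1 + n * s) : HasDerivAt (fun s => ∫ u in (0 : ℝ)..s, a u) (a s) s := by
  have ho : IsOpen {s : ℝ | 0 < 1 + n * s} := isOpen_lt continuous_const (by fun_prop)
  have hc : ContinuousOn a {s : ℝ | 0 < 1 + n * s} := fun s hs => (ha s hs).continuousWithinAt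
  refine intervalIntegral.integral_hasDerivAt_right (hc.mono fun u hu => ?_).intervalIntegrable
    (hc.stronglyMeasurableAtFilter ho s hs) (ha s hs)
  change 0 < 1 + n * u
  rcases mem_uIcc.1 hu with h | h <;> rcases le_total 0 n with h' | h' <;> nlinarith [h.1, h.2]

variable {q : LN} {γ : ℝ → ℝ × ℝ} (h : q.Loop γ) (hl : ∀ t, 0 < 1 + q.n * (γ t).1)
include h hl

section
variable {β : ℝ × ℝ → ℝ} (hβ : ∀ p : ℝ × ℝ, 0 < 1 + q.n * p.1 → ContinuousAt β p)
include hβ

lemma cont : Continuous fun t => β (γ t) :=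
  continuous_iff_continuousAt.2 fun t => (hβ _ (hl t)).comp h.sol.continuous.continuousAt

omit hl in
lemma bot : Tendsto (fun t => β (γ t)) atBot (𝓝 (β 0)) := (hβ 0 (by simp)).tendsto.comp h.bot

omit hl in
lemma top : Tendsto (fun t => β (γ t)) atTop (𝓝 (β 0)) := (hβ 0 (by simp)).tendsto.comp h.top

lemma int0 {g : ℝ → ℝ} (hg : Integrable g) : Integrable fun t => β (γ t) * g t := by
  have hK := Tendsto.isCompact_insert_range_of_cocompact (f := fun t => β (γ t)) (y := β 0) (by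
    rw [cocompact_eq_atBot_atTop, tendsto_sup]; exact ⟨bot h hβ, top h hβ⟩) (cont h hl hβ)
  obtain ⟨C, hC⟩ := hK.isBounded.exists_norm_le
  exact hg.bdd_mul (cont h hl hβ).aestronglyMeasurable
    (Eventually.of_forall fun t => hC _ (Or.inr (mem_range_self t)))

lemma int1 : Integrable fun t => β (γ t) * (γ t).1 :=
  int0 h hl hβ (h.int.mono' h.sol.continuous.fst.aestronglyMeasurable
    (Eventually.of_forall fun _ => norm_fst_le _))

lemma int2 : Integrable fun t => β (γ t) * (γ t).2 :=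
  int0 h hl hβ (h.int.mono' h.sol.continuous.snd.aestronglyMeasurable
    (Eventually.of_forall fun _ => norm_snd_le _))

omit hl in
lemma exact0 {g : ℝ → ℝ} (hd : ∀ t, HasDerivAt (fun t => β (γ t)) (g t) t) (hg : Integrable g) :
    ∫ t, g t = 0 := by
  rw [integral_of_hasDerivAt_of_tendsto hd hg (bot h hβ) (top h hβ), sub_self]

end

lemma intP {β : ℝ × ℝ → ℝ} (hβ : ∀ p : ℝ × ℝ, 0 < 1 + q.n * p.1 → ContinuousAt β p) :
    Integrable fun t => β (γ t) * (q.V (γ t)).1 :=
  int0 h hl hβ (((int2 h hl (β := fun p => 1 + q.n * p.1) fun _ _ => by fun_prop).add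
    (int1 h hl (β := fun p => q.m * p.1) fun _ _ => by fun_prop)).congr
      (Eventually.of_forall fun t => by simp only [LN.V, Pi.add_apply]; ring))

lemma exact1 {a : ℝ → ℝ} (ha : ∀ s, 0 < 1 + q.n * s → ContinuousAt a s) :
    ∫ t, a (γ t).1 * (q.V (γ t)).1 = 0 :=
  exact0 h (β := fun p => ∫ u in (0 : ℝ)..p.1, a u)
    (fun p hp => (prim ha _ hp).continuousAt.comp continuousAt_fst)
    (fun t => by exact (prim ha _ (hl t)).comp t (h.sol.fst t))
    (intP h hl (β := fun p => a p.1) fun p hp => (ha _ hp).comp continuousAt_fst)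

variable {U W θ : ℝ} {E D : ℝ → ℝ}
  (hD : ∀ s, D s = s * (W + (W * q.n - U * q.m) * s) / (1 + q.n * s))
include hD

lemma intD {β : ℝ × ℝ → ℝ} (hβ : ∀ p : ℝ × ℝ, 0 < 1 + q.n * p.1 → ContinuousAt β p) :
    Integrable fun t => D (γ t).1 * β (γ t) :=
  (int1 h hl (β := fun p => (W + (W * q.n - U * q.m) * p.1) / (1 + q.n * p.1) * β p) fun p hp => by
    have := hp.ne'
    have := hβ p hp
    fun_prop (disch := assumption)).congr (Eventually.of_forall fun t => by simp only [hD]; ring)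

lemma partA (I1 : ∫ t, (W * (γ t).1 + U * (γ t).2) = 0) : ∫ t, D (γ t).1 = 0 := by
  have c : ∀ s, 0 < 1 + q.n * s → ContinuousAt (fun s => U / (1 + q.n * s)) s := fun s hs => by
    have := hs.ne'
    fun_prop (disch := assumption)
  have i := intD h hl hD (β := fun _ => 1) fun _ _ => continuousAt_const
  simp only [mul_one] at i
  have e := integral_add i
    (intP h hl (β := fun p => U / (1 + q.n * p.1)) fun p hp => (c _ hp).comp continuousAt_fst)
  rw [exact1 h hl c, add_zero] at e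
  rw [← e, ← I1]
  congr 1
  funext t
  have a1 := (hl t).ne'
  have a0 : 1 + (γ t).1 * q.n ≠ 0 := mul_comm q.n _ ▸ a1
  simp only [hD, LN.V]
  field_simp
  ring

variable (Ep : ∀ s, 0 < E s)
  (dE : ∀ s, 0 < 1 + q.n * s → HasDerivAt E ((q.C + q.n) / (1 + q.n * s) * E s) s)
  (h1 : 2 * q.m + q.B = θ * W) (h2 : q.n + 2 * q.C = θ * U)
include Ep dE h1 h2

lemma partB (t : ℝ) : HasDerivAt (fun t => (q.V (γ t)).1 / E (γ t).1)
    (θ * D (γ t).1 * ((q.V (γ t)).1 / E (γ t).1) +
      (γ t).1 * q.h (γ t).1 / ((1 + q.n * (γ t).1) * E (γ t).1)) t := by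
  have hx := h.sol.fst t
  have hy := h.sol.snd t
  have := (((hy.mul ((hx.const_mul q.n).const_add 1)).add ((hx.pow 2).const_mul q.m)).div
    ((dE _ (hl t)).comp t hx) (Ep _).ne')
  refine this.congr_deriv ?_
  have a1 := (hl t).ne'
  have a0 : 1 + (γ t).1 * q.n ≠ 0 := mul_comm q.n _ ▸ a1
  have a2 := (Ep (γ t).1).ne'
  simp only [hD, LN.V, LN.h, Function.comp, Pi.add_apply, Pi.mul_apply, Pi.pow_apply]
  generalize (γ t).1 = x at *
  generalize (γ t).2 = y at *
  have e1 : q.B = θ * W - 2 * q.m := by linarith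
  have e2 : q.C = (θ * U - q.n) / 2 := by linarith
  rw [e1, e2]
  field_simp
  ring

lemma partC (hE : q.n + 2 * q.C = 0 → ∀ s, 0 < 1 + q.n * s → E s ^ 2 = 1 + q.n * s)
    (I2 : ∫ t, (W * (γ t).1 * (γ t).2 + U * (γ t).2 ^ 2 / 2) * (q.V (γ t)).1 = 0) :
    ∫ t, D (γ t).1 * ((q.V (γ t)).1 / E (γ t).1) ^ 2 = 0 := by
  have cE : ∀ s, 0 < 1 + q.n * s → ContinuousAt E s := fun s hs => (dE s hs).continuousAt
  have cg : ∀ s, 0 < 1 + q.n * s →
      ContinuousAt (fun s => s * q.h s / ((1 + q.n * s) * E s ^ 2)) s := fun s hs => by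
    have : (1 + q.n * s) * E s ^ 2 ≠ 0 := by have := Ep s; positivity
    have := cE s hs
    unfold LN.h
    fun_prop (disch := assumption)
  have dG := prim cg
  have G0 : (fun s => ∫ u in (0 : ℝ)..s, u * q.h u / ((1 + q.n * u) * E u ^ 2)) 0 = 0 := by simp
  generalize (fun s => ∫ u in (0 : ℝ)..s, u * q.h u / ((1 + q.n * u) * E u ^ 2)) = G at dG G0
  have cZ : ∀ p : ℝ × ℝ, 0 < 1 + q.n * p.1 →
      ContinuousAt (fun p : ℝ × ℝ => ((q.V p).1 / E p.1) ^ 2) p := fun p hp => by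
    have := (Ep p.1).ne'
    have := cE _ hp
    unfold LN.V
    fun_prop (disch := assumption)
  have cH : ∀ p : ℝ × ℝ, 0 < 1 + q.n * p.1 →
      ContinuousAt (fun p : ℝ × ℝ => ((q.V p).1 / E p.1) ^ 2 / 2 - G p.1) p := fun p hp =>
    ((cZ p hp).div_const 2).sub ((dG _ hp).continuousAt.comp continuousAt_fst)
  have dH : ∀ t, HasDerivAt (fun t => ((q.V (γ t)).1 / E (γ t).1) ^ 2 / 2 - G (γ t).1)
      (θ * (D (γ t).1 * ((q.V (γ t)).1 / E (γ t).1) ^ 2)) t := fun t => by
    refine ((((partB h hl hD Ep dE h1 h2 t).pow 2).div_const 2).sub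
      ((dG _ (hl t)).comp t (h.sol.fst t))).congr_deriv ?_
    have a1 := (hl t).ne'
    have a0 : 1 + (γ t).1 * q.n ≠ 0 := mul_comm q.n _ ▸ a1
    have a2 := (Ep (γ t).1).ne'
    norm_num
    field_simp
    ring
  have i := intD h hl hD cZ
  by_cases h0 : θ = 0
  swap
  · have := exact0 h cH dH (i.const_mul θ)
    rw [integral_const_mul] at this
    exact (mul_eq_zero.1 this).resolve_left h0
  subst h0
  have cst : ∀ t, ((q.V (γ t)).1 / E (γ t).1) ^ 2 = 2 * G (γ t).1 := fun t => by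
    have a1 := is_const_of_deriv_eq_zero (fun t => (dH t).differentiableAt)
      (fun t => (dH t).deriv.trans (zero_mul _)) t
    have a2 := tendsto_nhds_unique (tendsto_const_nhds.congr a1) (bot h cH)
    simp only [LN.V, Prod.fst_zero, Prod.snd_zero, G0] at a2 ⊢
    linarith [show ((0 * (1 + q.n * 0) + q.m * 0 ^ 2) / E 0) ^ 2 / 2 = 0 by simp]
  have c : ∀ s, 0 < 1 + q.n * s → ContinuousAt (fun s => -W * q.m * s ^ 3 / (1 + q.n * s) +
      U * (2 * G s * (1 + q.n * s) + q.m ^ 2 * s ^ 4) / (2 * (1 + q.n * s) ^ 2)) s := fun s hs => by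
    have := hs.ne'
    have : 2 * (1 + q.n * s) ^ 2 ≠ 0 := by positivity
    have := (dG s hs).continuousAt
    fun_prop (disch := assumption)
  have e := integral_add i (intP h hl fun p hp => (c _ hp).comp continuousAt_fst)
  simp only [Function.comp] at e
  rw [exact1 h hl c, add_zero] at e
  rw [← e, ← I2]
  congr 1
  funext t
  have a1 := (hl t).ne'
  have a0 : 1 + (γ t).1 * q.n ≠ 0 := mul_comm q.n _ ▸ a1
  rw [← cst t, div_pow, hE (by linarith) _ (hl t)]
  simp only [hD, LN.V]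
  field_simp
  ring

end Pool.Agent.Lib.MP_bf91d6_an.N2
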