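import Pool.Agent.Lib.MP_bf91d6_an.N2a
import Pool.Agent.Lib.MP_bf91d6_an.N2b

set_option autoImplicit false

namespace Pool.Agent.Lib.MP_bf91d6_an

open Set Filter Topology Metric MeasureTheory

namespace N2

variable {q : LN} {γ : ℝ → ℝ × ℝ} {tM ξh U W θ : ℝ}

lemma final {n m A B C k k₁ : ℝ} (e1 : 2 * m + B = k * (n + 2 * C)) (e2 : k₁ * (n - C) = C * k - B)
    (r0 : 1 - k * k₁ = 0) (r1 : A + k₁ * m - C * k * k₁ = 0) :
    m + B = k * (A + n + C) ∧ m = k * (C - A) ∧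
      (m - B) * (1 + 3 * k ^ 2) + (A + C - n) * (3 * k + k ^ 3) = 0 := by
  have h1 : m = k * (C - A) := by linear_combination k * r1 + (m - C * k) * r0
  have h2 : B = k * (n + 2 * A) := by linear_combination e1 - 2 * h1
  have h3 : n - C = k * (C * k - B) := by linear_combination k * e2 + (n - C) * r0
  refine ⟨by linear_combination h1 + h2, h1, ?_⟩
  rw [h2] at h3
  rw [h1, h2]
  linear_combination (-4 * k) * h3

theorem core (h : q.Loop γ) (hg : q.Geom γ tM ξh) (hW : 0 < W)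
    (hM : W + (W * q.n - U * q.m) * (γ tM).1 < 0) (h1 : 2 * q.m + q.B = θ * W)
    (h2 : q.n + 2 * q.C = θ * U) (hs : q.n = q.C → q.B = q.m)
    (I1 : ∫ t, (W * (γ t).1 + U * (γ t).2) = 0)
    (I2 : ∫ t, (W * (γ t).1 * (γ t).2 + U * (γ t).2 ^ 2 / 2) * (q.V (γ t)).1 = 0) :
    ∃ k : ℝ, q.m + q.B = k * (q.A + q.n + q.C) ∧ q.m = k * (q.C - q.A) ∧
      (q.m - q.B) * (1 + 3 * k ^ 2) + (q.A + q.C - q.n) * (3 * k + k ^ 3) = 0 := by
  obtain ⟨hl, -, g1, g2, g3, g4, g5, g6, g7, g8⟩ := hg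
  have Mp := h.pos tM
  have lM := hl tM
  obtain ⟨M, eM⟩ : ∃ M, (γ tM).1 = M := ⟨_, rfl⟩
  rw [eM] at hM Mp lM g5 g8
  obtain ⟨K, eK⟩ : ∃ K, W * q.n - U * q.m = K := ⟨_, rfl⟩
  rw [eK] at hM
  have hK : K < 0 := by nlinarith
  have hU : U ≠ 0 := fun e => by rw [e] at eK; nlinarith
  have hn : q.n - q.C ≠ 0 := fun e => hK.ne (by
    have a1 : q.n = q.C := by linarith
    have a2 := hs a1
    linear_combination -eK + W / 3 * h2 - U / 3 * h1 + U / 3 * a2 + 2 * W / 3 * a1)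
  have ll : ∀ s ∈ Icc 0 M, 0 < 1 + q.n * s := fun s hs => by
    rcases le_total 0 q.n with c | c <;> nlinarith [hs.1, hs.2]
  obtain ⟨ξ, eξ⟩ : ∃ ξ, W = -K * ξ := ⟨-W / K, by field_simp [hK.ne]⟩
  have ξ0 : 0 < ξ := by nlinarith
  have ξM : ξ < M := by nlinarith
  have lp : ∀ s < ξ, 0 < W + K * s := fun s hs => by nlinarith
  have ln : ∀ s, ξ < s → W + K * s < 0 := fun s hs => by nlinarith
  have l0 : ∀ s, s ≠ ξ → W + K * s ≠ 0 := fun s hs =>
    (lt_or_gt_of_ne hs).elim (fun c => (lp s c).ne') fun c => (ln s c).ne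
  obtain ⟨E, eE⟩ : ∃ E : ℝ → ℝ, E = fun s => Real.exp ((q.C + q.n) * Lg q.n s) := ⟨_, rfl⟩
  obtain ⟨w, ew⟩ : ∃ w : ℝ → ℝ, w = fun s => Real.exp ((q.n - q.C) * Lg q.n s) := ⟨_, rfl⟩
  obtain ⟨D, eD⟩ : ∃ D : ℝ → ℝ, ∀ s, D s = s * (W + K * s) / (1 + q.n * s) := ⟨_, fun _ => rfl⟩
  have hD : ∀ s, D s = s * (W + (W * q.n - U * q.m) * s) / (1 + q.n * s) := eK ▸ eD
  have Ep : ∀ s, 0 < E s := fun s => eE ▸ Real.exp_pos _
  have wp : ∀ s, 0 < w s := fun s => ew ▸ Real.exp_pos _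
  have E0 : E 0 = 1 := by simp [eE, Lg_zero]
  have dE : ∀ s, 0 < 1 + q.n * s → HasDerivAt E ((q.C + q.n) / (1 + q.n * s) * E s) s :=
    fun s hs => by
      rw [eE]
      exact (((hasDerivAt_Lg hs).const_mul _).exp).congr_deriv (by ring)
  have wE : ∀ s, 0 < 1 + q.n * s → w s * E s = (1 + q.n * s) ^ 2 := fun s hs => by
    rw [eE, ew, ← exp_mul_Lg hs, ← Real.exp_add, sq, ← Real.exp_add]; congr 1; ring
  have Lm : StrictMonoOn (Lg q.n) (Icc 0 M) := strictMonoOn_of_deriv_pos (convex_Icc _ _)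
    (fun s hs => (hasDerivAt_Lg (ll s hs)).continuousAt.continuousWithinAt) fun s hs => by
      have := ll s (interior_subset hs)
      rw [(hasDerivAt_Lg this).deriv]; positivity
  have wm : StrictMonoOn w (Ioo 0 M) ∨ StrictAntiOn w (Ioo 0 M) := by
    rw [ew]
    refine (lt_or_gt_of_ne hn).symm.imp (fun c s hs u hu d => Real.exp_lt_exp.2 ?_)
      fun c s hs u hu d => Real.exp_lt_exp.2 ?_ <;>
      nlinarith [Lm (Ioo_subset_Icc_self hs) (Ioo_subset_Icc_self hu) d]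
  have j2 := partA h hl hD I1
  have j1 := partC h hl hD Ep dE h1 h2 (fun e s hs => by
    rw [eE, ← exp_mul_Lg hs, sq, ← Real.exp_add]; congr 1; linear_combination Lg q.n s * e) I2
  have cE : ∀ s, 0 < 1 + q.n * s → ContinuousAt E s := fun s hs => (dE s hs).continuousAt
  have dF := prim (n := q.n) (a := fun s => D s / E s) fun s hs => by
    have := hs.ne'
    have := (Ep s).ne'
    have := cE s hs
    simp only [eD]
    fun_prop (disch := assumption)
  have F0 : (fun s => ∫ u in (0 : ℝ)..s, D u / E u) 0 = 0 := by simp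
  generalize (fun s => ∫ u in (0 : ℝ)..s, D u / E u) = F at dF F0
  have DL : ∀ s ∈ Ioo 0 ξ, 0 < D s := fun s hs => eD s ▸
    div_pos (mul_pos hs.1 (lp s hs.2)) (ll s ⟨hs.1.le, (hs.2.trans ξM).le⟩)
  have DR : ∀ s ∈ Ioo ξ M, D s < 0 := fun s hs => eD s ▸ div_neg_of_neg_of_pos
    (mul_neg_of_pos_of_neg (ξ0.trans hs.1) (ln s hs.1)) (ll s ⟨(ξ0.trans hs.1).le, hs.2.le⟩)
  have s1 : Icc 0 ξ ⊆ Icc 0 M := Icc_subset_Icc_right ξM.le
  have s2 : Icc ξ M ⊆ Icc 0 M := Icc_subset_Icc_left ξ0.le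
  have S : SD D F (fun s => q.h s / (E s * (W + K * s))) M ξ :=
    ⟨ξ0, ξM, DL, DR, strictMonoOn_of_deriv_pos (convex_Icc _ _)
      (fun s hs => (dF s (ll s (s1 hs))).continuousAt.continuousWithinAt) fun s hs => by
        rw [(dF s (ll s (s1 (interior_subset hs)))).deriv]
        exact div_pos (DL s (interior_Icc (a := 0) (b := ξ) ▸ hs)) (Ep s),
      strictAntiOn_of_deriv_neg (convex_Icc _ _)
      (fun s hs => (dF s (ll s (s2 hs))).continuousAt.continuousWithinAt) fun s hs => by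
        rw [(dF s (ll s (s2 (interior_subset hs)))).deriv]
        exact div_neg_of_neg_of_pos (DR s (interior_Icc (a := ξ) (b := M) ▸ hs)) (Ep s),
      F0, (dF 0 (by simp)).continuousAt, fun s hs c => by
        have := mul_ne_zero (Ep s).ne' (l0 s c)
        have := cE s (ll s (Ioo_subset_Icc_self hs))
        unfold LN.h
        fun_prop (disch := assumption)⟩
  have cZ : ∀ p : ℝ × ℝ, 0 < 1 + q.n * p.1 →
      ContinuousAt (fun p : ℝ × ℝ => (q.V p).1 / E p.1) p := fun p hp => by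
    have := (Ep p.1).ne'
    have := cE _ hp
    unfold LN.V
    fun_prop (disch := assumption)
  have V0 : (q.V 0).1 / E (0 : ℝ × ℝ).1 = 0 := by simp [LN.V]
  have xc := h.sol.continuous.fst
  have T : TD D F (fun s => q.h s / (E s * (W + K * s))) (fun t => (γ t).1)
      (fun t => (q.V (γ t)).1 / E (γ t).1) _ θ tM M ξ :=
    ⟨xc, strictMonoOn_of_deriv_pos (convex_Iic _) xc.continuousOn fun t ht => by
        rw [(h.sol.fst t).deriv]; exact g1 t (by simpa using ht), eM,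
      (continuous_fst.tendsto 0).comp h.bot, h.pos,
      fun t => ((dF _ (hl t)).comp t (h.sol.fst t)).congr_deriv (by ring),
      partB h hl hD Ep dE h1 h2, fun t c => by
        have a1 := l0 _ c
        have a2 := (hl t).ne'
        have a3 := (Ep (γ t).1).ne'
        simp only [eD]
        generalize W + K * (γ t).1 = b1 at a1 ⊢
        generalize 1 + q.n * (γ t).1 = b2 at a2 ⊢
        field_simp,
      fun t ht => div_pos (g1 t ht) (Ep _), by rw [g2, zero_div], V0 ▸ bot h cZ,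
      intD h hl hD (β := fun p => ((q.V p).1 / E p.1) ^ 2) fun p hp => (cZ p hp).pow 2,
      by simpa using intD h hl hD (β := fun _ => 1) fun _ _ => continuousAt_const⟩
  have xa : StrictAntiOn (fun t => (γ t).1) (Ici tM) :=
    strictAntiOn_of_deriv_neg (convex_Ici _) xc.continuousOn fun t ht => by
      rw [(h.sol.fst t).deriv]; exact g3 t (mem_Ioi.1 (interior_Ici (a := tM) ▸ ht))
  -- algebra
  obtain ⟨k, ek⟩ : ∃ k, W = k * U := ⟨W / U, by field_simp⟩
  obtain ⟨k₁, e2⟩ : ∃ k₁, k₁ * (q.n - q.C) = q.C * k - q.B := ⟨_, div_mul_cancel₀ _ hn⟩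
  have e1 : 2 * q.m + q.B = k * (q.n + 2 * q.C) := by rw [h1, h2, ek]; ring
  obtain ⟨r0, e0⟩ : ∃ r0, r0 = 1 - k * k₁ := ⟨_, rfl⟩
  obtain ⟨r1, e3⟩ : ∃ r1, r1 = q.A + k₁ * q.m - q.C * k * k₁ := ⟨_, rfl⟩
  obtain ⟨P, eP⟩ : ∃ P : ℝ → ℝ,
    P = fun s => (q.C * q.m * s ^ 2 - k₁ * ((1 + q.n * s) * (1 + q.C * s))) / U := ⟨_, rfl⟩
  have eK' : K = (k * q.n - q.m) * U := by rw [← eK, ek]; ring
  have dP : ∀ s ∈ Icc 0 M,
      HasDerivAt (fun s => P s / E s - q.C * (q.C + q.n) / U ^ 2 * F s) 0 s := fun s hs => by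
    have a1 := (ll s hs).ne'
    have a2 := (Ep s).ne'
    have i := hasDerivAt_id s
    rw [eP]
    refine (((((((i.pow 2).const_mul (q.C * q.m)).sub ((((i.const_mul q.n).const_add 1).mul
      ((i.const_mul q.C).const_add 1)).const_mul k₁)).div_const U).div (dE s (ll s hs)) a2).sub
      ((dF s (ll s hs)).const_mul _))).congr_deriv ?_
    simp only [eD, ek, eK', id, Pi.sub_apply, Pi.mul_apply, Pi.pow_apply]
    field_simp
    linear_combination (q.C * s * (1 + q.n * s)) * e1 - (q.C * s * (1 + q.n * s)) * e2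
  obtain ⟨B1, B2⟩ := both S T
    ⟨xc.comp continuous_neg, fun t ht u hu c => xa (by simpa [le_neg] using hu)
        (by simpa [le_neg] using ht) (neg_lt_neg c), by simpa using eM,
      ((continuous_fst.tendsto 0).comp h.top).comp tendsto_neg_atBot_atTop, fun t => h.pos _,
      fun t => ((T.hΦ (-t)).comp t (hasDerivAt_neg t)).congr_deriv (by ring),
      fun t => ((T.hZ (-t)).comp t (hasDerivAt_neg t)).neg.congr_deriv (by ring),
      fun t c => (T.ode (-t) c).trans (by ring),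
      fun t ht => neg_pos.2 (div_neg_of_neg_of_pos (g3 _ (lt_neg.1 ht)) (Ep _)),
      by simp [g2], by
        have := ((top h cZ).comp tendsto_neg_atBot_atTop).neg
        rw [V0, neg_zero] at this
        exact this,
      by simpa using T.i1.comp_neg, T.i2.comp_neg⟩ j1 j2
    (φ := fun s => w s * ((r0 + r1 * s) / (W + K * s)) - P 0) (c := q.C * (q.C + q.n) / U ^ 2)
    fun s hs c => by
      have sub : Icc 0 s ⊆ Icc 0 M := Icc_subset_Icc_right hs.2.le
      have a1 := le_of_deriv_nonneg hs.1.le (fun u hu => dP u (sub hu)) fun _ _ => le_rfl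
      have a2 := le_of_deriv_nonpos hs.1.le (fun u hu => dP u (sub hu)) fun _ _ => le_rfl
      rw [E0, F0] at a1 a2
      have a3 : (1 + q.n * s) ^ 2 * (r0 + r1 * s) - q.h s = (W + K * s) * P s := by
        simp only [eP, e0, e3, LN.h, ek, eK']
        field_simp
        linear_combination (q.m * s ^ 2 * (1 + q.n * s)) * e2
      have a4 := l0 s c
      have a5 := (Ep s).ne'
      have a6 : q.h s / (E s * (W + K * s)) = w s * ((r0 + r1 * s) / (W + K * s)) - P s / E s := by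
        field_simp
        linear_combination -a3 - (r0 + r1 * s) * wE s (ll s (Ioo_subset_Icc_self hs))
      linarith
  have dμ : ∀ s u, s ≠ ξ → u ≠ ξ → (r0 + r1 * s) / (W + K * s) - (r0 + r1 * u) / (W + K * u) =
      (r1 * W - K * r0) * ((s - u) / ((W + K * s) * (W + K * u))) := fun s u a b => by
    rw [div_sub_div _ _ (l0 s a) (l0 u b), ← mul_div_assoc]
    congr 1
    ring
  have q1 : ∀ s ∈ Ioo 0 ξ, ∀ u ∈ Ioo 0 ξ, s ≤ u → (s - u) / ((W + K * s) * (W + K * u)) ≤ 0 :=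
    fun s hs u hu c => div_nonpos_of_nonpos_of_nonneg (sub_nonpos.2 c)
      (mul_pos (lp s hs.2) (lp u hu.2)).le
  have q2 : ∀ s ∈ Ioo ξ M, ∀ u ∈ Ioo ξ M, s ≤ u → (s - u) / ((W + K * s) * (W + K * u)) ≤ 0 :=
    fun s hs u hu c => div_nonpos_of_nonpos_of_nonneg (sub_nonpos.2 c)
      (mul_pos_of_neg_of_neg (ln s hs.1) (ln u hu.1)).le
  have q3 : ∀ s ∈ Ioo 0 ξ, ∀ u ∈ Ioo ξ M, 0 < (s - u) / ((W + K * s) * (W + K * u)) :=
    fun s hs u hu => div_pos_of_neg_of_neg (sub_neg.2 (hs.2.trans hu.1))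
      (mul_neg_of_pos_of_neg (lp s hs.2) (ln u hu.1))
  have hξ : q.h ξ = (1 + q.n * ξ) ^ 2 * (r0 + r1 * ξ) := by
    have : k + (k * q.n - q.m) * ξ = 0 := mul_right_cancel₀ hU (by
      linear_combination eξ - ek - ξ * eK')
    simp only [e0, e3, LN.h]
    linear_combination -(q.m * ξ ^ 2 * (1 + q.n * ξ)) * e2 -
      (q.C * q.m * ξ ^ 2 - k₁ * (1 + q.n * ξ) * (1 + q.C * ξ)) * this
  have lξ := pow_pos (ll ξ ⟨ξ0.le, ξM.le⟩) 2
  have wm' := wm.imp StrictMonoOn.monotoneOn StrictAntiOn.antitoneOn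
  have cR : Continuous fun s => r0 + r1 * s := by fun_prop
  have iR : r1 * W - K * r0 = -K * (r0 + r1 * ξ) := by linear_combination r1 * eξ
  rcases lt_trichotomy (r1 * W - K * r0) 0 with c | c | c
  · have R0 : r0 + r1 * ξ < 0 := neg_of_mul_neg_right (iR ▸ c) (neg_pos.2 hK).le
    have hh : ξh < ξ := by
      have := hξ.trans_lt (mul_neg_of_pos_of_neg lξ R0)
      by_contra d
      rcases (not_lt.1 d).eq_or_lt with d | d
      · exact this.ne (d ▸ g7)
      · exact this.not_gt (g6 ξ ⟨ξ0.le, d⟩)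
    refine (B2 ⟨_, (cR.tendsto ξ).eventually_lt_const R0, fun s hs u hu => ?_⟩
      fun s hs u hu e => ?_).elim
    · have := mul_neg_of_pos_of_neg (wp s) (div_neg_of_neg_of_pos hs.2 (lp s hs.1.2))
      have := mul_pos (wp u) (div_pos_of_neg_of_neg hu.2 (ln u hu.1.1))
      linarith
    · obtain ⟨d1, d2⟩ := prod_cmp (μ := fun s => -((r0 + r1 * s) / (W + K * s)))
        (fun s _ => wp s) wm'
        (fun s hs u hu d => neg_le_neg (sub_nonneg.1 (dμ s u hs.2.ne hu.2.ne ▸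
          mul_nonneg_of_nonpos_of_nonpos c.le (q1 s hs u hu d))))
        (fun s hs u hu d => neg_le_neg (sub_nonneg.1 (dμ s u hs.1.ne' hu.1.ne' ▸
          mul_nonneg_of_nonpos_of_nonpos c.le (q2 s hs u hu d))))
        (fun s hs u hu => neg_lt_neg (sub_neg.1 (dμ s u hs.2.ne hu.1.ne' ▸
          mul_neg_of_neg_of_pos c (q3 s hs u hu)))) hs hu (by linarith)
      exact ⟨div_pos_of_neg_of_neg (g8 u ⟨hh.trans hu.1, hu.2.le⟩)
        (mul_neg_of_pos_of_neg (Ep u) (ln u hu.1)), fun v hv => by linarith [d1 v hv],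
        fun v hv => by linarith [d2 v hv]⟩
  · by_cases z : r0 = 0
    · have : r1 = 0 := by
        rw [z, mul_zero, sub_zero] at c
        exact (mul_eq_zero.1 c).resolve_right hW.ne'
      exact ⟨k, final e1 e2 (e0 ▸ z) (e3 ▸ this)⟩
    exfalso
    have μ0 : ∀ s, s ≠ ξ → (r0 + r1 * s) / (W + K * s) = r0 / W := fun s hs => by
      simpa [c, sub_eq_zero] using dμ s 0 hs ξ0.ne
    have z' : r0 / W ≠ 0 := div_ne_zero z hW.ne'
    have key : (∀ s ∈ Ioo 0 ξ, ∀ u ∈ Ioo ξ M, w u * (r0 / W) < w s * (r0 / W)) ∨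
        ∀ s ∈ Ioo 0 ξ, ∀ u ∈ Ioo ξ M, w s * (r0 / W) < w u * (r0 / W) := by
      rcases wm with a | a <;> rcases lt_or_gt_of_ne z' with b | b <;> [left; right; right; left] <;>
        intro s hs u hu <;>
        have := a ⟨hs.1, hs.2.trans ξM⟩ ⟨ξ0.trans hu.1, hu.2⟩ (hs.2.trans hu.1) <;>
        first | exact mul_lt_mul_of_neg_right this b | exact mul_lt_mul_of_pos_right this b
    rcases key with a | a
    · refine B1 ⟨_, univ_mem, fun s hs u hu => ?_⟩ fun s hs u hu e => ?_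
      · rw [μ0 s hs.1.2.ne, μ0 u hu.1.1.ne']; linarith [a s hs.1 u hu.1]
      · rw [μ0 s hs.2.ne, μ0 u hu.1.ne'] at e; linarith [a s hs u hu]
    · refine B2 ⟨_, univ_mem, fun s hs u hu => ?_⟩ fun s hs u hu e => ?_
      · rw [μ0 s hs.1.2.ne, μ0 u hu.1.1.ne']; linarith [a s hs.1 u hu.1]
      · rw [μ0 s hs.2.ne, μ0 u hu.1.ne'] at e; linarith [a s hs u hu]
  · have R0 : 0 < r0 + r1 * ξ := (mul_pos_iff_of_pos_left (neg_pos.2 hK)).1 (iR ▸ c)
    have hh : ξ < ξh := by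
      have := (mul_pos lξ R0).trans_eq hξ.symm
      by_contra d
      rcases (not_lt.1 d).eq_or_lt with d | d
      · exact this.ne' (d ▸ g7)
      · exact this.not_gt (g8 ξ ⟨d, ξM.le⟩)
    refine (B1 ⟨_, (cR.tendsto ξ).eventually_const_lt R0, fun s hs u hu => ?_⟩
      fun s hs u hu e => ?_).elim
    · have := mul_pos (wp s) (div_pos hs.2 (lp s hs.1.2))
      have := mul_neg_of_pos_of_neg (wp u) (div_neg_of_pos_of_neg hu.2 (ln u hu.1.1))
      linarith
    · obtain ⟨d1, d2⟩ := prod_cmp (μ := fun s => (r0 + r1 * s) / (W + K * s))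
        (fun s _ => wp s) wm'
        (fun s hs u hu d => sub_nonpos.1 (dμ s u hs.2.ne hu.2.ne ▸
          mul_nonpos_of_nonneg_of_nonpos c.le (q1 s hs u hu d)))
        (fun s hs u hu d => sub_nonpos.1 (dμ s u hs.1.ne' hu.1.ne' ▸
          mul_nonpos_of_nonneg_of_nonpos c.le (q2 s hs u hu d)))
        (fun s hs u hu => sub_pos.1 (dμ s u hs.2.ne hu.1.ne' ▸ mul_pos c (q3 s hs u hu)))
        hs hu (by linarith)
      exact ⟨div_pos (g6 s ⟨hs.1.le, hs.2.trans hh⟩) (mul_pos (Ep s) (lp s hs.2)),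
        fun v hv => by linarith [d1 v hv], fun v hv => by linarith [d2 v hv]⟩

lemma sign (h : q.Loop γ) (hg : q.Geom γ tM ξh) (I1 : ∫ t, (W * (γ t).1 + U * (γ t).2) = 0) {c : ℝ}
    (hc : ∀ s, 0 < s → s ≤ (γ tM).1 → 0 ≤ c * (W + (W * q.n - U * q.m) * s))
    (hc' : ∀ s, 0 < s → s < (γ tM).1 → c * (W + (W * q.n - U * q.m) * s) ≠ 0) : False := by
  have hl := hg.1
  have j := partA h hl (fun _ => rfl) I1
  obtain ⟨t, ht⟩ := (((continuous_fst.tendsto 0).comp h.bot).eventually_lt_const (h.pos tM)).exists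
  have := integral_pos_of_integrable_nonneg_nonzero (x := t)
    (cont h hl (β := fun p => p.1 * (W + (W * q.n - U * q.m) * p.1) / (1 + q.n * p.1) * c)
      fun p hp => by have := hp.ne'; fun_prop (disch := assumption))
    (intD h hl (fun _ => rfl) (β := fun _ => c) fun _ _ => continuousAt_const) (fun t => ?_) ?_
  · rw [integral_mul_const, j, zero_mul] at this
    exact this.false
  · have := div_nonneg (mul_nonneg (h.pos t).le (hc _ (h.pos t) (hg.2.1 t))) (hl t).le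
    exact this.trans_eq (by ring)
  · have := div_ne_zero (mul_ne_zero (h.pos t).ne' (hc' _ (h.pos t) ht)) (hl t).ne'
    exact fun e => this (Eq.trans (by ring) e)

end N2

theorem N2LN {q : LN} {γ : ℝ → ℝ × ℝ} (h : q.Loop γ) {tM ξh : ℝ} (hg : q.Geom γ tM ξh)
    {U W θ : ℝ} (hne : U ≠ 0 ∨ W ≠ 0) (h1 : 2 * q.m + q.B = θ * W) (h2 : q.n + 2 * q.C = θ * U)
    (hs : q.n = q.C → q.B = q.m)
    (I1 : ∫ t, (W * (γ t).1 + U * (γ t).2) = 0)
    (I2 : ∫ t, (W * (γ t).1 * (γ t).2 + U * (γ t).2 ^ 2 / 2) * (q.V (γ t)).1 = 0) :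
    ∃ k : ℝ, q.m + q.B = k * (q.A + q.n + q.C) ∧ q.m = k * (q.C - q.A) ∧
      (q.m - q.B) * (1 + 3 * k ^ 2) + (q.A + q.C - q.n) * (3 * k + k ^ 3) = 0 := by
  have Mp := h.pos tM
  by_cases hW : W = 0
  · subst hW
    have hU := hne.resolve_right (by simp)
    by_cases hm : q.m = 0
    · have : q.B = 0 := by linarith
      exact ⟨0, by simp [hm, this], by simp [hm], by simp [hm, this]⟩
    · refine (N2.sign h hg I1 (c := -(U * q.m)) (fun s a _ => ?_) fun s a _ => ?_).elim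
      · nlinarith [mul_nonneg (mul_self_nonneg (U * q.m)) a.le]
      · simp [hU, hm, a.ne']
  have hW2 := mul_self_pos.2 hW
  by_cases hM : W * (W + (W * q.n - U * q.m) * (γ tM).1) < 0
  swap
  · have key : ∀ s, (γ tM).1 * (W * (W + (W * q.n - U * q.m) * s)) = ((γ tM).1 - s) * (W * W) +
        s * (W * (W + (W * q.n - U * q.m) * (γ tM).1)) := fun s => by ring
    refine (N2.sign h hg I1 (c := W) (fun s a b => ?_) fun s a b e => ?_).elim
    · refine nonneg_of_mul_nonneg_right ?_ Mp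
      rw [key]
      exact add_nonneg (mul_nonneg (sub_nonneg.2 b) hW2.le) (mul_nonneg a.le (not_lt.1 hM))
    · have := key s
      rw [e, mul_zero] at this
      linarith [mul_pos (sub_pos.2 b) hW2, mul_nonneg a.le (not_lt.1 hM)]
  rcases lt_or_gt_of_ne hW with c | c
  · refine N2.core (U := -U) (W := -W) (θ := -θ) h hg (neg_pos.2 c) (by nlinarith) (by linarith)
      (by linarith) hs ?_ ?_
    · rw [← neg_eq_zero, ← integral_neg, ← I1]; congr 1; funext t; ring
    · rw [← neg_eq_zero, ← integral_neg, ← I2]; congr 1; funext t; ring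
  · exact N2.core h hg c (by nlinarith) h1 h2 hs I1 I2

end Pool.Agent.Lib.MP_bf91d6_an
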