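import Pool.Agent.Lib.MP_bf91d6_an.NF

set_option autoImplicit false

namespace Pool.Agent.Lib.MP_bf91d6_an

open Set Filter Topology Metric MeasureTheory

namespace N3

theorem sign_lemma {M x : ℝ} (hx : 0 < x) (hM : x < M) {G φ g D : ℝ → ℝ}
    (hG1 : ∀ s ∈ Ioo 0 x, 0 < G s) (hG2 : ∀ s ∈ Ioc x M, G s < 0) (hG0 : G x = 0) (hD0 : 0 < D x)
    (hD : ∀ s ∈ Ioc 0 M, s ≠ x → D s = G s * φ s)
    (hgc : ContinuousOn g (Icc 0 M)) (hg1 : StrictMonoOn g (Icc 0 x))
    (hg2 : StrictAntiOn g (Icc x M)) (hg0 : g 0 = g M)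
    (hφ1 : ContinuousOn φ (Ico 0 x)) (hφ2 : ContinuousOn φ (Ioc x M))
    (mon : ∀ a ∈ Ico 0 x, ∀ b ∈ Ioc x M, φ a ≤ φ b →
      StrictMonoOn φ (Icc 0 a) ∧ StrictMonoOn φ (Icc b M))
    (big : ∃ a ∈ Ico 0 x, ∀ b ∈ Ioc x M, φ b < φ a) :
    ∃ k lam z : ℝ, (∀ s ∈ Ioc 0 M, 0 ≤ (D s - k * G s) * (lam * g s - z)) ∧
      0 < (D x - k * G x) * (lam * g x - z) := by
  by_cases hA : ∀ a ∈ Ico 0 x, ∀ b ∈ Ioc x M, φ b ≤ φ a
  · have hne : (φ '' Ioc x M).Nonempty := ⟨_, M, ⟨hM, le_rfl⟩, rfl⟩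
    have hbd : BddAbove (φ '' Ioc x M) := ⟨φ 0, by
      rintro _ ⟨b, hb, rfl⟩
      exact hA 0 ⟨le_rfl, hx⟩ b hb⟩
    refine ⟨sSup (φ '' Ioc x M), 0, -1, fun s hs => ?_, by simpa [hG0] using hD0⟩
    rcases lt_trichotomy s x with h | rfl | h
    · have h1 : sSup (φ '' Ioc x M) ≤ φ s := csSup_le hne (by
        rintro _ ⟨b, hb, rfl⟩
        exact hA s ⟨hs.1.le, h⟩ b hb)
      rw [hD s hs h.ne]
      nlinarith [hG1 s ⟨hs.1, h⟩]
    · simpa [hG0] using hD0.le
    · have h1 : φ s ≤ sSup (φ '' Ioc x M) := le_csSup hbd ⟨s, ⟨h, hs.2⟩, rfl⟩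
      rw [hD s hs h.ne']
      nlinarith [hG2 s ⟨h, hs.2⟩]
  · push Not at hA
    obtain ⟨a0, ha0, b0, hb0, hab⟩ := hA
    obtain ⟨a1, ha1, hbig⟩ := big
    have hex : ∀ a : Icc (0 : ℝ) a1, ∃ b : Icc x M, g b = g a := by
      rintro ⟨a, ha⟩
      have h1 : g M ≤ g a := by
        rw [← hg0]
        exact hg1.monotoneOn ⟨le_rfl, hx.le⟩ ⟨ha.1, (ha.2.trans ha1.2.le)⟩ ha.1
      have h2 : g a ≤ g x :=
        hg1.monotoneOn ⟨ha.1, (ha.2.trans ha1.2.le)⟩ ⟨hx.le, le_rfl⟩ (ha.2.trans ha1.2.le)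
      obtain ⟨b, hb, he⟩ := intermediate_value_Icc' hM.le
        (hgc.mono (Icc_subset_Icc_left hx.le)) ⟨h1, h2⟩
      exact ⟨⟨b, hb⟩, he⟩
    choose B hB using hex
    have hemb : IsClosedEmbedding (fun b : Icc x M => g b) :=
      Continuous.isClosedEmbedding (hgc.mono (Icc_subset_Icc_left hx.le)).domRestrict
        (fun b b' h => Subtype.ext (hg2.injOn b.2 b'.2 h))
    have hBc : Continuous B := by
      rw [hemb.isEmbedding.continuous_iff]
      have : (fun b : Icc x M => g b) ∘ B = fun a : Icc (0 : ℝ) a1 => g a := funext hB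
      rw [this]
      exact (hgc.mono (Icc_subset_Icc_right (ha1.2.le.trans hM.le))).domRestrict
    have hBm : ∀ a, (B a : ℝ) ∈ Ioc x M := by
      intro a
      refine ⟨lt_of_le_of_ne (B a).2.1 fun h => ?_, (B a).2.2⟩
      have h1 := hB a
      rw [← h] at h1
      have := hg1 ⟨a.2.1, (a.2.2.trans ha1.2.le)⟩ ⟨hx.le, le_rfl⟩ (a.2.2.trans_lt ha1.2)
      linarith
    have hQ : Continuous fun a : Icc (0 : ℝ) a1 => φ (B a) - φ a := by
      refine Continuous.sub ?_ ?_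
      · exact hφ2.comp_continuous (continuous_subtype_val.comp hBc) hBm
      · exact hφ1.comp_continuous continuous_subtype_val fun a => ⟨a.2.1, a.2.2.trans_lt ha1.2⟩
    have : PreconnectedSpace (Icc (0 : ℝ) a1) := Subtype.preconnectedSpace isPreconnected_Icc
    have hQ0 : 0 ≤ φ (B ⟨0, le_rfl, ha1.1⟩) - φ 0 := by
      have h1 : (B ⟨0, le_rfl, ha1.1⟩ : ℝ) = M :=
        hg2.injOn (B _).2 ⟨hM.le, le_rfl⟩ ((hB _).trans hg0)
      rw [h1]
      obtain ⟨m1, m2⟩ := mon a0 ha0 b0 hb0 hab.le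
      have h2 := m1.monotoneOn ⟨le_rfl, ha0.1⟩ ⟨ha0.1, le_rfl⟩ ha0.1
      have h3 := m2.monotoneOn ⟨le_rfl, hb0.2⟩ ⟨hb0.2, le_rfl⟩ hb0.2
      linarith
    have hQ1 : φ (B ⟨a1, ha1.1, le_rfl⟩) - φ a1 ≤ 0 := by
      have := hbig _ (hBm ⟨a1, ha1.1, le_rfl⟩)
      linarith
    obtain ⟨a, ha⟩ := intermediate_value_univ (⟨a1, ha1.1, le_rfl⟩ : Icc (0 : ℝ) a1)
      ⟨0, le_rfl, ha1.1⟩ hQ ⟨hQ1, hQ0⟩
    have hb := hBm a
    have hgb := hB a
    beta_reduce at ha
    generalize (B a : ℝ) = b at ha hb hgb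
    obtain ⟨a, ha'⟩ := a
    simp only at ha hgb
    have hax : a ∈ Ico 0 x := ⟨ha'.1, ha'.2.trans_lt ha1.2⟩
    have hφab : φ b = φ a := by linarith
    obtain ⟨m1, m2⟩ := mon a hax b hb hφab.ge
    have hgx : g a < g x := hg1 ⟨hax.1, hax.2.le⟩ ⟨hx.le, le_rfl⟩ hax.2
    have hpos : 0 < (D x - φ a * G x) * (1 * g x - g a) := by
      rw [hG0]
      exact mul_pos (by linarith) (by linarith)
    refine ⟨φ a, 1, g a, fun s hs => ?_, hpos⟩
    rcases lt_trichotomy s x with h | rfl | h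
    · rw [hD s hs h.ne, show (G s * φ s - φ a * G s) * (1 * g s - g a)
        = G s * ((φ s - φ a) * (g s - g a)) by ring]
      refine mul_nonneg (hG1 s ⟨hs.1, h⟩).le ?_
      rcases le_total s a with h1 | h1
      · have h2 := m1.monotoneOn ⟨hs.1.le, h1⟩ ⟨hax.1, le_rfl⟩ h1
        have h3 := hg1.monotoneOn ⟨hs.1.le, h.le⟩ ⟨hax.1, hax.2.le⟩ h1
        exact mul_nonneg_of_nonpos_of_nonpos (by linarith) (by linarith)
      · have h3 := hg1.monotoneOn ⟨hax.1, hax.2.le⟩ ⟨hs.1.le, h.le⟩ h1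
        have h2 : φ a ≤ φ s := by
          by_contra hc
          push Not at hc
          have := (mon s ⟨hs.1.le, h⟩ b hb (by linarith)).1.monotoneOn ⟨hax.1, h1⟩
            ⟨hs.1.le, le_rfl⟩ h1
          linarith
        exact mul_nonneg (by linarith) (by linarith)
    · exact hpos.le
    · rw [hD s hs h.ne', show (G s * φ s - φ a * G s) * (1 * g s - g a)
        = -G s * ((φ a - φ s) * (g s - g a)) by ring]
      refine mul_nonneg (by linarith [hG2 s ⟨h, hs.2⟩]) ?_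
      rcases le_total b s with h1 | h1
      · have h2 := m2.monotoneOn ⟨le_rfl, hb.2⟩ ⟨h1, hs.2⟩ h1
        have h3 := hg2.antitoneOn ⟨hb.1.le, hb.2⟩ ⟨h.le, hs.2⟩ h1
        exact mul_nonneg_of_nonpos_of_nonpos (by linarith) (by linarith)
      · have h3 := hg2.antitoneOn ⟨h.le, hs.2⟩ ⟨hb.1.le, hb.2⟩ h1
        have h2 : φ s ≤ φ a := by
          by_contra hc
          push Not at hc
          have := (mon a hax s ⟨h, hs.2⟩ hc.le).2.monotoneOn ⟨le_rfl, hs.2⟩ ⟨h1, hb.2⟩ h1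
          linarith
        exact mul_nonneg (by linarith) (by linarith)

theorem smono {f f' : ℝ → ℝ} {a b : ℝ} (hf : ∀ t ∈ Icc a b, HasDerivAt f (f' t) t)
    (h0 : ∀ t ∈ Ioo a b, 0 < f' t) : StrictMonoOn f (Icc a b) := fun _ hu _ hv huv =>
  lt_of_deriv_pos huv (fun t ht => hf t ⟨hu.1.trans ht.1, ht.2.trans hv.2⟩)
    (fun t ht => h0 t ⟨hu.1.trans_lt ht.1, ht.2.trans_le hv.2⟩)

/-- the one variable part of the argument -/
theorem one_var {n A C M x0 : ℝ} {X p g : ℝ → ℝ} (hx : 0 < x0) (hM : x0 < M)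
    (hA : 1 + A * x0 = 0) (hl : ∀ s ∈ Icc 0 M, 0 < 1 + n * s) (hX0 : ∀ s, 0 < X s)
    (hX : ∀ s ∈ Icc 0 M, HasDerivAt X (C * X s / (1 + n * s)) s)
    (hp : ∀ s ∈ Icc 0 M, HasDerivAt p (X s / (1 + n * s) ^ 2) s) (hp0 : p 0 = 0)
    (hpX : ∀ s ∈ Icc 0 M, X s / (1 + n * s) = 1 + (C - n) * p s)
    (hg : ∀ s ∈ Icc 0 M, HasDerivAt g (s * (1 + A * s) / ((1 + n * s) * X s ^ 2)) s)
    (hg0 : g 0 = g M) {W K : ℝ} (hWK : W ≠ 0 ∨ K ≠ 0) :
    ∃ k lam z : ℝ, (∀ s ∈ Ioc 0 M, 0 ≤ (W * s / (1 + n * s) + K * (s * (1 + A * s) / X s) * p s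
        - k * (s * (1 + A * s) / X s)) * (lam * g s - z)) ∧
      ∃ s ∈ Ioc 0 M, 0 < (W * s / (1 + n * s) + K * (s * (1 + A * s) / X s) * p s
        - k * (s * (1 + A * s) / X s)) * (lam * g s - z) := by
  have hA0 : A < 0 := by nlinarith
  have hy1 : ∀ s < x0, 0 < 1 + A * s := fun s hs => by nlinarith
  have hy2 : ∀ s > x0, 1 + A * s < 0 := fun s hs => by nlinarith
  have hG1 : ∀ s ∈ Ioo 0 x0, 0 < s * (1 + A * s) / X s := fun s hs =>
    div_pos (mul_pos hs.1 (hy1 s hs.2)) (hX0 s)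
  have hG2 : ∀ s ∈ Ioc x0 M, s * (1 + A * s) / X s < 0 := fun s hs =>
    div_neg_of_neg_of_pos (mul_neg_of_pos_of_neg (hx.trans hs.1) (hy2 s hs.1)) (hX0 s)
  have hpm : StrictMonoOn p (Icc 0 M) := smono hp fun t ht =>
    div_pos (hX0 t) (pow_pos (hl t ⟨ht.1.le, ht.2.le⟩) 2)
  have hx0 : x0 ∈ Icc 0 M := ⟨hx.le, hM.le⟩
  have case1 : ∀ W K : ℝ, 0 ≤ W → K ≤ 0 → (W ≠ 0 ∨ K ≠ 0) →
      ∃ k lam z : ℝ, (∀ s ∈ Ioc 0 M, 0 ≤ (W * s / (1 + n * s) + K * (s * (1 + A * s) / X s) * p s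
        - k * (s * (1 + A * s) / X s)) * (lam * g s - z)) ∧
      ∃ s ∈ Ioc 0 M, 0 < (W * s / (1 + n * s) + K * (s * (1 + A * s) / X s) * p s
        - k * (s * (1 + A * s) / X s)) * (lam * g s - z) := by
    intro W K hW hK hne
    have e : ∀ s, (W * s / (1 + n * s) + K * (s * (1 + A * s) / X s) * p s
        - K * p x0 * (s * (1 + A * s) / X s)) * (0 * g s - -1)
        = W * (s / (1 + n * s)) + -K * (-(s * (1 + A * s) / X s) * (p s - p x0)) := fun s => by ring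
    refine ⟨K * p x0, 0, -1, fun s hs => ?_, M, ⟨hx.trans hM, le_rfl⟩, ?_⟩
    · rw [e]
      have h1 : 0 ≤ s / (1 + n * s) := div_nonneg hs.1.le (hl s ⟨hs.1.le, hs.2⟩).le
      refine add_nonneg (mul_nonneg hW h1) (mul_nonneg (by linarith) ?_)
      rcases lt_trichotomy s x0 with h | rfl | h
      · have h2 := hG1 s ⟨hs.1, h⟩
        have h3 := hpm ⟨hs.1.le, hs.2⟩ hx0 h
        exact mul_nonneg_of_nonpos_of_nonpos (by linarith) (by linarith)
      · simp
      · have h2 := hG2 s ⟨h, hs.2⟩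
        have h3 := hpm hx0 ⟨hs.1.le, hs.2⟩ h
        exact mul_nonneg (by linarith) (by linarith)
    · rw [e]
      have hM0 := hx.trans hM
      have h1 : 0 < M / (1 + n * M) := div_pos hM0 (hl M ⟨hM0.le, le_rfl⟩)
      have h2 := hG2 M ⟨hM, le_rfl⟩
      have h3 := hpm hx0 ⟨hM0.le, le_rfl⟩ hM
      have h4 : 0 < -(M * (1 + A * M) / X M) * (p M - p x0) := mul_pos (by linarith) (by linarith)
      rcases hne with h | h
      · exact add_pos_of_pos_of_nonneg (mul_pos (lt_of_le_of_ne hW h.symm) h1)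
          (mul_nonneg (by linarith) h4.le)
      · exact add_pos_of_nonneg_of_pos (mul_nonneg hW h1.le)
          (mul_pos (by have := lt_of_le_of_ne hK h; linarith) h4)
  have case2 : ∀ W K : ℝ, 0 < W → 0 < K →
      ∃ k lam z : ℝ, (∀ s ∈ Ioc 0 M, 0 ≤ (W * s / (1 + n * s) + K * (s * (1 + A * s) / X s) * p s
        - k * (s * (1 + A * s) / X s)) * (lam * g s - z)) ∧
      ∃ s ∈ Ioc 0 M, 0 < (W * s / (1 + n * s) + K * (s * (1 + A * s) / X s) * p s
        - k * (s * (1 + A * s) / X s)) * (lam * g s - z) := by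
    intro W K hW hK
    set φ : ℝ → ℝ := fun s => W * (1 + (C - n) * p s) / (1 + A * s) + K * p s with hφ
    have hρ : ∀ s ∈ Icc 0 M, 0 < 1 + (C - n) * p s := fun s hs => by
      rw [← hpX s hs]; exact div_pos (hX0 s) (hl s hs)
    have hφd : ∀ s ∈ Icc 0 M, 1 + A * s ≠ 0 → HasDerivAt φ (X s / (1 + n * s) ^ 2 *
        ((1 + A * s) * (K * (1 + A * s) - W * (n - C)) - W * A * (1 + n * s)) /
          (1 + A * s) ^ 2) s := by
      intro s hs hy
      have h1 := ((((hp s hs).const_mul (C - n)).const_add 1).const_mul W).div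
        (((hasDerivAt_id s).const_mul A).const_add 1) hy
      have h2 := h1.add ((hp s hs).const_mul K)
      refine h2.congr_deriv ?_
      have h3 := (hl s hs).ne'
      have h4 : 1 + s * A ≠ 0 := by rwa [mul_comm]
      have h5 : 1 + s * n ≠ 0 := by rwa [mul_comm]
      simp only [id, mul_one]
      rw [← hpX s hs]
      field_simp
      ring
    have hN : ∀ s ∈ Icc 0 M, 1 + A * s ≠ 0 →
        0 ≤ (1 + A * s) * (K * (1 + A * s) - W * (n - C)) → 0 < X s / (1 + n * s) ^ 2 *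
        ((1 + A * s) * (K * (1 + A * s) - W * (n - C)) - W * A * (1 + n * s)) /
          (1 + A * s) ^ 2 := by
      intro s hs hy h
      have h1 := hl s hs
      have h2 := hX0 s
      have h3 : 0 < W * -A * (1 + n * s) := mul_pos (mul_pos hW (by linarith)) h1
      exact div_pos (mul_pos (by positivity) (by linarith)) (by positivity)
    obtain ⟨k, lam, z, h1, h2⟩ := sign_lemma hx hM (G := fun s => s * (1 + A * s) / X s) (φ := φ)
      (g := g) (D := fun s => W * s / (1 + n * s) + K * (s * (1 + A * s) / X s) * p s) hG1 hG2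
      (by simp [hA]) (by
        simp only [hA, mul_zero, zero_div, zero_mul, add_zero]
        exact div_pos (mul_pos hW hx) (hl x0 hx0))
      (fun s hs hne => by
        have h1 := (hl s ⟨hs.1.le, hs.2⟩).ne'
        have h2 := (hX0 s).ne'
        have h3 : 1 + A * s ≠ 0 := by
          rcases lt_or_gt_of_ne hne with h | h
          · exact (hy1 s h).ne'
          · exact (hy2 s h).ne
        have h4 : 1 + s * A ≠ 0 := by rwa [mul_comm]
        have h5 : 1 + s * n ≠ 0 := by rwa [mul_comm]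
        simp only [hφ]
        rw [← hpX s ⟨hs.1.le, hs.2⟩]
        field_simp)
      (fun s hs => (hg s hs).continuousAt.continuousWithinAt)
      (smono (fun t ht => hg t ⟨ht.1, ht.2.trans hM.le⟩) fun t ht =>
        div_pos (mul_pos ht.1 (hy1 t ht.2))
          (mul_pos (hl t ⟨ht.1.le, ht.2.le.trans hM.le⟩) (pow_pos (hX0 t) 2)))
      (fun u hu v hv huv => by
        have := smono (f := fun s => -g s) (fun t ht => (hg t ⟨hx.le.trans ht.1, ht.2⟩).neg)
          (fun t ht => neg_pos.2 (div_neg_of_neg_of_pos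
            (mul_neg_of_pos_of_neg (hx.trans ht.1) (hy2 t ht.1))
            (mul_pos (hl t ⟨(hx.trans ht.1).le, ht.2.le⟩) (pow_pos (hX0 t) 2)))) hu hv huv
        simpa using this)
      hg0
      (fun s hs => (hφd s ⟨hs.1, hs.2.le.trans hM.le⟩
        (hy1 s hs.2).ne').continuousAt.continuousWithinAt)
      (fun s hs => (hφd s ⟨hx.le.trans hs.1.le, hs.2⟩
        (hy2 s hs.1).ne).continuousAt.continuousWithinAt)
      (fun a ha b hb hab => by
        have ha' : a ∈ Icc 0 M := ⟨ha.1, ha.2.le.trans hM.le⟩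
        have hb' : b ∈ Icc 0 M := ⟨hx.le.trans hb.1.le, hb.2⟩
        have ya := hy1 a ha.2
        have yb := hy2 b hb.1
        have ra := hρ a ha'
        have rb := hρ b hb'
        simp only [hφ] at hab
        have t1 : 0 < W * (1 + (C - n) * p a) / (1 + A * a) := by positivity
        have t2 : W * (1 + (C - n) * p b) / (1 + A * b) < 0 :=
          div_neg_of_pos_of_neg (by positivity) yb
        constructor
        · have key : W * (n - C) ≤ K * (1 + A * a) := by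
            rcases le_or_gt n C with h | h
            · nlinarith [mul_pos hK ya]
            · have h1 : W * (1 + (C - n) * p a) / (1 + A * a) ≤ K * (p b - p a) := by linarith
              rw [div_le_iff₀ ya] at h1
              have h2 := mul_le_mul_of_nonneg_left h1 (by linarith : 0 ≤ n - C)
              have h3 : (n - C) * (K * (p b - p a) * (1 + A * a)) =
                K * (1 + A * a) * ((1 + (C - n) * p a) - (1 + (C - n) * p b)) := by ring
              have h4 : 0 < K * (1 + A * a) * (1 + (C - n) * p b) := by positivity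
              refine le_of_mul_le_mul_right ?_ ra
              linarith
          refine smono (fun t ht => hφd t ⟨ht.1, ht.2.trans ha'.2⟩
            (hy1 t (ht.2.trans_lt ha.2)).ne') fun t ht => hN t ⟨ht.1.le, ht.2.le.trans ha'.2⟩
            (hy1 t (ht.2.trans ha.2)).ne' (mul_nonneg (hy1 t (ht.2.trans ha.2)).le ?_)
          have : K * (1 + A * a) ≤ K * (1 + A * t) := by
            have := ht.2
            gcongr K * ?_
            nlinarith
          linarith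
        · have key : K * (1 + A * b) ≤ W * (n - C) := by
            rcases le_or_gt C n with h | h
            · nlinarith [mul_neg_of_pos_of_neg hK yb]
            · have h1 : K * (p a - p b) ≤ W * (1 + (C - n) * p b) / (1 + A * b) := by linarith
              rw [le_div_iff_of_neg yb] at h1
              have h2 := mul_le_mul_of_nonneg_left h1 (by linarith : 0 ≤ C - n)
              have h3 : (C - n) * (K * (p a - p b) * (1 + A * b)) =
                K * (1 + A * b) * ((1 + (C - n) * p a) - (1 + (C - n) * p b)) := by ring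
              have h4 : K * (1 + A * b) * (1 + (C - n) * p a) < 0 :=
                mul_neg_of_neg_of_pos (mul_neg_of_pos_of_neg hK yb) ra
              refine le_of_mul_le_mul_right ?_ rb
              linarith
          refine smono (fun t ht => hφd t ⟨hb'.1.trans ht.1, ht.2⟩
            (hy2 t (hb.1.trans_le ht.1)).ne) fun t ht => hN t ⟨hb'.1.trans ht.1.le, ht.2.le⟩
            (hy2 t (hb.1.trans ht.1)).ne
            (mul_nonneg_of_nonpos_of_nonpos (hy2 t (hb.1.trans ht.1)).le ?_)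
          have : K * (1 + A * t) ≤ K * (1 + A * b) := by
            have := ht.1
            gcongr K * ?_
            nlinarith
          linarith)
      (by
        have hc : ContinuousAt (fun s => W * (1 + (C - n) * p s) - K * p M * (1 + A * s)) x0 := by
          have := (hp x0 hx0).continuousAt
          fun_prop
        have h1 : ∀ᶠ s in 𝓝 x0, 0 < W * (1 + (C - n) * p s) - K * p M * (1 + A * s) :=
          hc.eventually (lt_mem_nhds (by
            simp only [hA, mul_zero, sub_zero]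
            exact mul_pos hW (hρ x0 hx0)))
        obtain ⟨a, ha1, ha2⟩ := ((h1.filter_mono nhdsWithin_le_nhds).and
          (Ioo_mem_nhdsLT hx)).exists
        refine ⟨a, ⟨ha2.1.le, ha2.2⟩, fun b hb => ?_⟩
        have hb' : b ∈ Icc 0 M := ⟨hx.le.trans hb.1.le, hb.2⟩
        have t2 : W * (1 + (C - n) * p b) / (1 + A * b) < 0 :=
          div_neg_of_pos_of_neg (mul_pos hW (hρ b hb')) (hy2 b hb.1)
        have t1 : K * p M < W * (1 + (C - n) * p a) / (1 + A * a) := by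
          rw [lt_div_iff₀ (hy1 a ha2.2)]; linarith
        have t3 := hpm.monotoneOn hb' ⟨hb'.1.trans hb'.2, le_rfl⟩ hb'.2
        have t4 := hpm.monotoneOn ⟨le_rfl, hb'.1.trans hb'.2⟩
          ⟨ha2.1.le, ha2.2.le.trans hM.le⟩ ha2.1.le
        simp only [hφ]
        nlinarith)
    exact ⟨k, lam, z, h1, x0, ⟨hx, hM.le⟩, h2⟩
  have neg : ∀ W K : ℝ,
      (∃ k lam z : ℝ, (∀ s ∈ Ioc 0 M, 0 ≤ (-W * s / (1 + n * s) +
        -K * (s * (1 + A * s) / X s) * p s - k * (s * (1 + A * s) / X s)) * (lam * g s - z)) ∧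
      ∃ s ∈ Ioc 0 M, 0 < (-W * s / (1 + n * s) + -K * (s * (1 + A * s) / X s) * p s
        - k * (s * (1 + A * s) / X s)) * (lam * g s - z)) →
      ∃ k lam z : ℝ, (∀ s ∈ Ioc 0 M, 0 ≤ (W * s / (1 + n * s) + K * (s * (1 + A * s) / X s) * p s
        - k * (s * (1 + A * s) / X s)) * (lam * g s - z)) ∧
      ∃ s ∈ Ioc 0 M, 0 < (W * s / (1 + n * s) + K * (s * (1 + A * s) / X s) * p s
        - k * (s * (1 + A * s) / X s)) * (lam * g s - z) := by
    rintro W K ⟨k, lam, z, h1, s, hs, h2⟩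
    exact ⟨-k, -lam, -z, fun s hs => (h1 s hs).trans_eq (by ring), s, hs, h2.trans_eq (by ring)⟩
  rcases le_total 0 W with hW | hW
  · rcases le_or_gt K 0 with hK | hK
    · exact case1 W K hW hK hWK
    · rcases hW.eq_or_lt with h | h
      · exact neg W K (case1 _ _ (by linarith) (by linarith) (Or.inr (by linarith)))
      · exact case2 W K h hK
  · rcases le_or_gt 0 K with hK | hK
    · exact neg W K (case1 _ _ (by linarith) (by linarith) (hWK.imp neg_ne_zero.2 neg_ne_zero.2))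
    · rcases hW.eq_or_lt with h | h
      · exact case1 W K h.ge hK.le hWK
      · exact neg W K (case2 _ _ (by linarith) (by linarith))

theorem exists_p (n C : ℝ) : ∃ p : ℝ → ℝ, p 0 = 0 ∧ ∀ s, 0 < 1 + n * s →
    HasDerivAt p (Real.exp (C * Lg n s) / (1 + n * s) ^ 2) s ∧
      Real.exp (C * Lg n s) / (1 + n * s) = 1 + (C - n) * p s := by
  rcases eq_or_ne C n with rfl | h
  · refine ⟨Lg C, Lg_zero C, fun s hs => ?_⟩
    rw [exp_mul_Lg hs]
    refine ⟨(hasDerivAt_Lg hs).congr_deriv ?_, ?_⟩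
    · field_simp
    · rw [div_self hs.ne']; ring
  · have h' : C - n ≠ 0 := sub_ne_zero.2 h
    refine ⟨fun s => (Real.exp (C * Lg n s) / (1 + n * s) - 1) / (C - n), by simp [Lg_zero],
      fun s hs => ⟨?_, by field_simp; ring⟩⟩
    have h1 := ((((hasDerivAt_Lg hs).const_mul C).exp.div
      (((hasDerivAt_id s).const_mul n).const_add 1) hs.ne').sub_const 1).div_const (C - n)
    refine h1.congr_deriv ?_
    have := hs.ne'
    simp only [id, mul_one]
    field_simp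

theorem exists_anti {f : ℝ → ℝ} {M : ℝ} (hM : 0 ≤ M) (hf : ContinuousOn f (Icc 0 M)) :
    ∃ g : ℝ → ℝ, g 0 = 0 ∧ ∀ s ∈ Icc 0 M, HasDerivAt g (f s) s := by
  have hc : Continuous fun u => f (projIcc 0 M hM u) :=
    hf.comp_continuous (continuous_subtype_val.comp continuous_projIcc) fun u => (projIcc 0 M hM u).2
  refine ⟨fun t => ∫ u in (0 : ℝ)..t, f (projIcc 0 M hM u), by simp, fun s hs => ?_⟩
  have := hasDerivAt_integral_from hc 0 s
  rwa [projIcc_of_mem hM hs] at this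

theorem intg {γ : ℝ → ℝ × ℝ} (hγ : Continuous γ) (hi : Integrable fun t => ‖γ t‖)
    {E : Type} [TopologicalSpace E] {δ : ℝ → E} {e : E} (hδ : Continuous δ)
    (h1 : Tendsto δ atBot (𝓝 e)) (h2 : Tendsto δ atTop (𝓝 e)) (Ψ₁ Ψ₂ : E → ℝ)
    (c₁ : Continuous Ψ₁) (c₂ : Continuous Ψ₂) {u : ℝ → ℝ}
    (hu : ∀ t, u t = Ψ₁ (δ t) * (γ t).1 + Ψ₂ (δ t) * (γ t).2) : Integrable u ∧ Continuous u := by
  have hK : IsCompact (insert e (range δ)) :=
    Tendsto.isCompact_insert_range_of_cocompact (by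
      rw [cocompact_eq_atBot_atTop]; exact tendsto_sup.2 ⟨h1, h2⟩) hδ
  obtain ⟨B₁, hB₁⟩ := hK.exists_bound_of_continuousOn c₁.continuousOn
  obtain ⟨B₂, hB₂⟩ := hK.exists_bound_of_continuousOn c₂.continuousOn
  have hc : Continuous u := by
    rw [funext hu]; fun_prop
  refine ⟨(hi.const_mul (B₁ + B₂)).mono' hc.aestronglyMeasurable (ae_of_all _ fun t => ?_), hc⟩
  have a1 := hB₁ _ (mem_insert_of_mem _ (mem_range_self t))
  have a2 := hB₂ _ (mem_insert_of_mem _ (mem_range_self t))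
  rw [hu, add_mul]
  refine (norm_add_le _ _).trans (add_le_add ?_ ?_) <;> rw [norm_mul]
  · exact mul_le_mul a1 (norm_fst_le _) (norm_nonneg _) ((norm_nonneg _).trans a1)
  · exact mul_le_mul a2 (norm_snd_le _) (norm_nonneg _) ((norm_nonneg _).trans a2)

end N3

open N3 in
theorem N3LN {q : LN} {γ : ℝ → ℝ × ℝ} (h : q.Loop γ) {tM ξh : ℝ} (hg : q.Geom γ tM ξh)
    (hm : q.m = 0) (hB : q.B = 0) (hd : q.A + q.C - q.n ≠ 0) {w κ₁ κ₂ : ℝ}
    (hrel : 3 * κ₁ + κ₂ = -(q.n + 2 * q.C) * w / 2) (hne : w ≠ 0 ∨ κ₁ ≠ 0 ∨ κ₂ ≠ 0)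
    (I1 : ∫ t, (w / 2 * (γ t).1 +
      (κ₁ * (γ t).1 ^ 2 + κ₂ * (γ t).2 ^ 2) / (1 + q.n * (γ t).1)) = 0)
    (I2 : ∫ t, Real.exp (-(q.n + 2 * q.C) * Lg q.n (γ t).1) *
      (w / 2 * (γ t).1 * (γ t).2 +
        (κ₁ * (γ t).1 ^ 2 * (γ t).2 + κ₂ * (γ t).2 ^ 3 / 3) / (1 + q.n * (γ t).1)) *
      (q.V (γ t)).1 = 0) : False := by
  obtain ⟨n, m, A, B, C⟩ := q
  simp only at hm hB hd hrel I1 I2
  subst hm hB
  obtain ⟨g1, g2, -, g4, -, g6, g7, -, g9, -⟩ := hg
  simp only [LN.V, LN.h] at g1 g4 g9 I2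
  set M := (γ tM).1 with hMdef
  have hM0 : 0 < M := g6.trans g7
  have hl : ∀ s ∈ Icc 0 M, 0 < 1 + n * s := fun s hs => by
    have := g1 tM
    rcases le_total 0 n with h | h
    · nlinarith [hs.1]
    · nlinarith [hs.2]
  have hA : 1 + A * ξh = 0 := by
    have h1 := (hl ξh ⟨g6.le, g7.le⟩).ne'
    have h2 : (1 + n * ξh) ^ 2 * (1 + A * ξh) = 0 := by linarith
    exact (mul_eq_zero.1 h2).resolve_left (pow_ne_zero _ h1)
  have hA0 : A ≠ 0 := by
    rintro rfl
    simp at hA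
  have hξ : ∀ t, (γ t).1 ∈ Icc 0 M := fun t => ⟨(h.pos t).le, g2 t⟩
  set X : ℝ → ℝ := fun s => Real.exp (C * Lg n s) with hXdef
  have hX0 : ∀ s, 0 < X s := fun s => Real.exp_pos _
  have hX00 : X 0 = 1 := by simp [hXdef, Lg_zero]
  have hX : ∀ s ∈ Icc 0 M, HasDerivAt X (C * X s / (1 + n * s)) s := fun s hs =>
    ((hasDerivAt_Lg (hl s hs)).const_mul C).exp.congr_deriv (by simp only [hXdef]; ring)
  obtain ⟨p, hp0, hp⟩ := exists_p n C
  obtain ⟨g, hg0, hgd⟩ := exists_anti (f := fun s => s * (1 + A * s) / ((1 + n * s) * X s ^ 2))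
    hM0.le (fun s hs => by
      have h1 := (hX s hs).continuousAt
      have h2 : (1 + n * s) * X s ^ 2 ≠ 0 := (mul_pos (hl s hs) (pow_pos (hX0 s) 2)).ne'
      exact ContinuousAt.continuousWithinAt (by fun_prop (disch := assumption)))
  have dξ : ∀ t, HasDerivAt (fun t => (γ t).1) ((γ t).2 * (1 + n * (γ t).1)) t := fun t =>
    (h.sol.fst t).congr_deriv (by simp [LN.V])
  have dη : ∀ t, HasDerivAt (fun t => (γ t).2)
      ((γ t).1 * (1 + A * (γ t).1) + C * (γ t).2 ^ 2) t := fun t =>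
    (h.sol.snd t).congr_deriv (by simp only [LN.V]; ring)
  set Z : ℝ → ℝ := fun t => (γ t).2 / X (γ t).1 with hZdef
  set G : ℝ → ℝ := fun t => (γ t).1 * (1 + A * (γ t).1) / X (γ t).1 with hGdef
  set P : ℝ → ℝ := fun t => p (γ t).1 with hPdef
  have dZ : ∀ t, HasDerivAt Z (G t) t := fun t => by
    have h0 := (hX _ (hξ t)).comp t (dξ t)
    have h1 := (dη t).div h0 (hX0 (γ t).1).ne'
    refine h1.congr_deriv ?_
    have h2 := (hX0 (γ t).1).ne'
    have h3 := (g1 t).ne'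
    have h3' : 1 + (γ t).1 * n ≠ 0 := by rwa [mul_comm]
    simp only [hGdef, Function.comp]
    field_simp
    ring
  have dP : ∀ t, HasDerivAt P (X (γ t).1 * (γ t).2 / (1 + n * (γ t).1)) t := fun t => by
    have h1 := ((hp _ (g1 t)).1).comp t (dξ t)
    refine h1.congr_deriv ?_
    have h3 := (g1 t).ne'
    have h3' : 1 + (γ t).1 * n ≠ 0 := by rwa [mul_comm]
    simp only [hXdef]
    field_simp
  have cγ := h.sol.continuous
  have lim : ∀ {F : Filter ℝ}, Tendsto γ F (𝓝 0) →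
      Tendsto (fun t => ((γ t).1, (γ t).2, (X (γ t).1)⁻¹, (1 + n * (γ t).1)⁻¹, P t)) F
        (𝓝 ((0 : ℝ), (0 : ℝ), (1 : ℝ), (1 : ℝ), (0 : ℝ))) ∧ Tendsto (fun t => g (γ t).1) F (𝓝 0) := by
    intro F hF
    have h1 : Tendsto (fun t => (γ t).1) F (𝓝 0) := (continuous_fst.tendsto _).comp hF
    have h2 : Tendsto (fun t => (γ t).2) F (𝓝 0) := (continuous_snd.tendsto _).comp hF
    have h0 : (0 : ℝ) ∈ Icc 0 M := ⟨le_rfl, hM0.le⟩
    have h3 := ((hX 0 h0).continuousAt.tendsto.comp h1).inv₀ (hX0 0).ne'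
    have h4 := ((h1.const_mul n).const_add 1).inv₀ (by simp)
    have h5 := (hp 0 (by simp)).1.continuousAt.tendsto.comp h1
    have h6 := (hgd 0 h0).continuousAt.tendsto.comp h1
    rw [hX00, inv_one] at h3
    rw [mul_zero, add_zero, inv_one] at h4
    rw [hp0] at h5
    rw [hg0] at h6
    exact ⟨h1.prodMk_nhds (h2.prodMk_nhds (h3.prodMk_nhds (h4.prodMk_nhds h5))), h6⟩
  set δ : ℝ → ℝ × ℝ × ℝ × ℝ × ℝ :=
    fun t => ((γ t).1, (γ t).2, (X (γ t).1)⁻¹, (1 + n * (γ t).1)⁻¹, P t) with hδ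
  have cδ : Continuous δ := by
    have c1 : Continuous fun t => X (γ t).1 := continuous_iff_continuousAt.2 fun t => by
      have := ((hX _ (hξ t)).comp t (dξ t)).continuousAt
      exact this
    have c2 : Continuous P := continuous_iff_continuousAt.2 fun t => (dP t).continuousAt
    refine cγ.fst.prodMk (cγ.snd.prodMk ((c1.inv₀ fun t => (hX0 _).ne').prodMk
      ((Continuous.inv₀ (by fun_prop) fun t => (g1 t).ne').prodMk c2)))
  have limP : ∀ {F : Filter ℝ}, Tendsto γ F (𝓝 0) → ∀ Ψ : ℝ × ℝ × ℝ × ℝ × ℝ → ℝ, Continuous Ψ →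
      Ψ (0, 0, 1, 1, 0) = 0 → ∀ {u : ℝ → ℝ}, (∀ t, u t = Ψ (δ t)) → Tendsto u F (𝓝 0) := by
    intro F hF Ψ hΨ h0 u hu
    rw [funext hu, ← h0]
    exact (hΨ.tendsto _).comp (lim hF).1
  have IG := fun (Ψ₁ Ψ₂ : ℝ × ℝ × ℝ × ℝ × ℝ → ℝ) (c₁ : Continuous Ψ₁) (c₂ : Continuous Ψ₂)
    (u : ℝ → ℝ) (hu : ∀ t, u t = Ψ₁ (δ t) * (γ t).1 + Ψ₂ (δ t) * (γ t).2) =>
    intg cγ h.int cδ (lim h.bot).1 (lim h.top).1 Ψ₁ Ψ₂ c₁ c₂ hu
  have exact0 : ∀ (f f' : ℝ → ℝ), (∀ t, HasDerivAt f (f' t) t) → Integrable f' →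
      ∀ Ψ : ℝ × ℝ × ℝ × ℝ × ℝ → ℝ, Continuous Ψ → Ψ (0, 0, 1, 1, 0) = 0 →
      (∀ t, f t = Ψ (δ t)) → ∫ t, f' t = 0 := by
    intro f f' h1 h2 Ψ hΨ h0 hf
    have := integral_of_hasDerivAt_of_tendsto h1 h2 (limP h.bot Ψ hΨ h0 hf)
      (limP h.top Ψ hΨ h0 hf)
    simpa using this
  -- the energy
  have hZg : ∀ t, Z t ^ 2 = 2 * g (γ t).1 := by
    have h1 : ∀ t, HasDerivAt (fun t => Z t ^ 2 - 2 * g (γ t).1) 0 t := fun t => by
      have h2 := ((dZ t).pow 2).sub (((hgd _ (hξ t)).comp t (dξ t)).const_mul 2)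
      refine h2.congr_deriv ?_
      have h2 := (hX0 (γ t).1).ne'
      have h3 := (g1 t).ne'
      have h3' : 1 + (γ t).1 * n ≠ 0 := by rwa [mul_comm]
      simp only [hZdef, hGdef, Nat.add_one_sub_one, pow_one]
      field_simp
      ring
    have h2 : ∀ t, Z t ^ 2 - 2 * g (γ t).1 = Z 0 ^ 2 - 2 * g (γ 0).1 := fun t =>
      is_const_of_deriv_eq_zero (fun t => (h1 t).differentiableAt) (fun t => (h1 t).deriv) t 0
    have h3 : Tendsto (fun t => Z t ^ 2 - 2 * g (γ t).1) atTop (𝓝 0) := by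
      have h4 := (limP h.top (fun x => (x.2.1 * x.2.2.1) ^ 2) (by fun_prop) (by simp)
        (u := fun t => Z t ^ 2) (fun t => by simp only [hZdef, hδ, div_eq_mul_inv])).sub
        ((lim h.top).2.const_mul 2)
      simpa using h4
    have h4 : Z 0 ^ 2 - 2 * g (γ 0).1 = 0 := by
      rw [funext h2] at h3
      exact tendsto_const_nhds_iff.1 h3
    intro t
    linarith [h2 t]
  have hgM : g 0 = g M := by
    have h1 := hZg tM
    have h2 : (γ tM).2 = 0 := by
      have h3 : (γ tM).2 * (1 + n * M) = 0 := by linarith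
      exact (mul_eq_zero.1 h3).resolve_right (g1 tM).ne'
    simp only [hZdef, h2] at h1
    rw [hg0]
    norm_num at h1
    exact h1.symm
  set β := (n * w / 2 + κ₁) / A with hβ
  have hβA : β * A = n * w / 2 + κ₁ := by rw [hβ]; field_simp
  have hWK : w / 2 - β ≠ 0 ∨ β * (C - n) - κ₂ ≠ 0 := by
    by_contra hc
    push Not at hc
    obtain ⟨h1, h2⟩ := hc
    have h3 : β = w / 2 := by linarith
    rw [h3] at hβA h2
    have h4 : w * (A + C - n) = 0 := by linarith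
    have h5 : w = 0 := (mul_eq_zero.1 h4).resolve_right hd
    subst h5
    rcases hne with h | h | h
    · exact h rfl
    · exact h (by linarith)
    · exact h (by linarith)
  obtain ⟨k, lam, z, hF, s0, hs0, hF0⟩ := one_var g6 g7 hA hl hX0 hX
    (fun s hs => (hp s (hl s hs)).1) hp0 (fun s hs => (hp s (hl s hs)).2) hgd hgM hWK
  -- six integrable functions
  set J1 : ℝ → ℝ := fun t => w / 2 * (γ t).1 +
    (κ₁ * (γ t).1 ^ 2 + κ₂ * (γ t).2 ^ 2) / (1 + n * (γ t).1) with hJ1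
  set J2 : ℝ → ℝ := fun t => Z t ^ 2 * (w / 2 * (γ t).1 +
    (κ₁ * (γ t).1 ^ 2 + κ₂ * (γ t).2 ^ 2 / 3) / (1 + n * (γ t).1)) with hJ2
  set J3 : ℝ → ℝ := fun t => G t * P t + (γ t).2 ^ 2 / (1 + n * (γ t).1) with hJ3
  set J4 : ℝ → ℝ := fun t => Z t ^ 2 * (G t * P t + (γ t).2 ^ 2 / 3 / (1 + n * (γ t).1)) with hJ4
  set J5 : ℝ → ℝ := fun t => Z t ^ 2 * G t with hJ5
  have i1 := IG (fun x => w / 2 + κ₁ * x.1 * x.2.2.2.1) (fun x => κ₂ * x.2.1 * x.2.2.2.1)
    (by fun_prop) (by fun_prop) J1 (fun t => by simp only [hJ1, hδ, div_eq_mul_inv]; ring)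
  have i2 := IG (fun x => (x.2.1 * x.2.2.1) ^ 2 * (w / 2 + κ₁ * x.1 * x.2.2.2.1))
    (fun x => (x.2.1 * x.2.2.1) ^ 2 * (κ₂ / 3 * x.2.1 * x.2.2.2.1))
    (by fun_prop) (by fun_prop) J2 (fun t => by simp only [hJ2, hZdef, hδ, div_eq_mul_inv]; ring)
  have i3 := IG (fun x => (1 + A * x.1) * x.2.2.1 * x.2.2.2.2) (fun x => x.2.1 * x.2.2.2.1)
    (by fun_prop) (by fun_prop) J3 (fun t => by simp only [hJ3, hGdef, hδ, div_eq_mul_inv]; ring)
  have i4 := IG (fun x => (x.2.1 * x.2.2.1) ^ 2 * ((1 + A * x.1) * x.2.2.1 * x.2.2.2.2))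
    (fun x => (x.2.1 * x.2.2.1) ^ 2 * (x.2.1 / 3 * x.2.2.2.1))
    (by fun_prop) (by fun_prop) J4
    (fun t => by simp only [hJ4, hZdef, hGdef, hδ, div_eq_mul_inv]; ring)
  have i5 := IG (fun x => (x.2.1 * x.2.2.1) ^ 2 * ((1 + A * x.1) * x.2.2.1)) (fun _ => 0)
    (by fun_prop) (by fun_prop) J5
    (fun t => by simp only [hJ5, hZdef, hGdef, hδ, div_eq_mul_inv]; ring)
  have i6 := IG (fun x => (1 + A * x.1) * x.2.2.1) (fun _ => 0)
    (by fun_prop) (by fun_prop) G (fun t => by simp only [hGdef, hδ, div_eq_mul_inv]; ring)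
  have z2 : ∫ t, J2 t = 0 := by
    rw [← I2]
    refine integral_congr_ae (ae_of_all _ fun t => ?_)
    have h2 := (hX0 (γ t).1).ne'
    have h3 := (g1 t).ne'
    have h3' : 1 + (γ t).1 * n ≠ 0 := by rwa [mul_comm]
    have e : Real.exp (-(n + 2 * C) * Lg n (γ t).1) = ((1 + n * (γ t).1) * X (γ t).1 ^ 2)⁻¹ := by
      rw [← exp_mul_Lg (g1 t), hXdef]
      simp only
      rw [sq, ← Real.exp_add, ← Real.exp_add, ← Real.exp_neg]
      congr 1; ring
    simp only [hJ2, hZdef, e]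
    field_simp
    ring
  have z3 : ∫ t, J3 t = 0 := exact0 (fun t => Z t * P t) J3 (fun t => by
      refine ((dZ t).mul (dP t)).congr_deriv ?_
      have h2 := (hX0 (γ t).1).ne'
      have h3 := (g1 t).ne'
      have h3' : 1 + (γ t).1 * n ≠ 0 := by rwa [mul_comm]
      simp only [hJ3, hZdef]
      field_simp) i3.1 (fun x => x.2.1 * x.2.2.1 * x.2.2.2.2) (by fun_prop) (by simp)
    (fun t => by simp only [hZdef, hδ, div_eq_mul_inv])
  have z4 : ∫ t, J4 t = 0 := exact0 (fun t => Z t ^ 3 * P t / 3) J4 (fun t => by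
      refine ((((dZ t).pow 3).mul (dP t)).div_const 3).congr_deriv ?_
      have h2 := (hX0 (γ t).1).ne'
      have h3 := (g1 t).ne'
      have h3' : 1 + (γ t).1 * n ≠ 0 := by rwa [mul_comm]
      simp only [hJ4, hZdef, Pi.pow_apply, Nat.add_one_sub_one]
      field_simp
      ring) i4.1 (fun x => (x.2.1 * x.2.2.1) ^ 3 * x.2.2.2.2 / 3) (by fun_prop) (by simp)
    (fun t => by simp only [hZdef, hδ, div_eq_mul_inv])
  have z5 : ∫ t, J5 t = 0 := exact0 (fun t => Z t ^ 3 / 3) J5 (fun t => by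
      refine (((dZ t).pow 3).div_const 3).congr_deriv ?_
      simp only [hJ5]
      ring) i5.1 (fun x => (x.2.1 * x.2.2.1) ^ 3 / 3) (by fun_prop) (by simp)
    (fun t => by simp only [hZdef, hδ, div_eq_mul_inv])
  have z6 : ∫ t, G t = 0 := exact0 Z G dZ i6.1 (fun x => x.2.1 * x.2.2.1) (by fun_prop) (by simp)
    (fun t => by simp only [hZdef, hδ, div_eq_mul_inv])
  set F : ℝ → ℝ := fun t => (lam / 2 * J2 t - lam / 2 * κ₂ * J4 t - lam / 2 * (β + k) * J5 t)
    - (z * J1 t - z * κ₂ * J3 t - z * (β + k) * G t) with hFdef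
  have hFe : ∀ t, F t = ((w / 2 - β) * (γ t).1 / (1 + n * (γ t).1) + (β * (C - n) - κ₂) *
      ((γ t).1 * (1 + A * (γ t).1) / X (γ t).1) * p (γ t).1
        - k * ((γ t).1 * (1 + A * (γ t).1) / X (γ t).1)) * (lam * g (γ t).1 - z) := fun t => by
    have h2 := (hX0 (γ t).1).ne'
    have h3 := (g1 t).ne'
    have h3' : 1 + (γ t).1 * n ≠ 0 := by rwa [mul_comm]
    have h4 : X (γ t).1 / (1 + n * (γ t).1) = 1 + (C - n) * p (γ t).1 := (hp _ (g1 t)).2
    have h5 : w / 2 * (γ t).1 + κ₁ * (γ t).1 ^ 2 / (1 + n * (γ t).1) =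
        (w / 2 - β) * (γ t).1 / (1 + n * (γ t).1) + β * G t * (1 + (C - n) * P t) := by
      simp only [hGdef, hPdef]
      rw [← h4, show κ₁ = β * A - n * w / 2 by linarith]
      field_simp
      ring
    have h6 : g (γ t).1 = Z t ^ 2 / 2 := by linarith [hZg t]
    rw [h6]
    simp only [hFdef, hJ1, hJ2, hJ3, hJ4, hJ5]
    change _ = ((w / 2 - β) * (γ t).1 / (1 + n * (γ t).1) + (β * (C - n) - κ₂) * G t * P t
      - k * G t) * _
    linear_combination (lam / 2 * Z t ^ 2 - z) * h5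
  have iF : Integrable F :=
    (((i2.1.const_mul _).sub (i4.1.const_mul _)).sub (i5.1.const_mul _)).sub
      (((i1.1.const_mul _).sub (i3.1.const_mul _)).sub (i6.1.const_mul _))
  have cF : Continuous F := by
    have := i1.2; have := i2.2; have := i3.2; have := i4.2; have := i5.2; have := i6.2
    simp only [hFdef]
    fun_prop
  have zF : ∫ t, F t = 0 := by
    have aux : ∀ (a b c : ℝ) (u v y : ℝ → ℝ), Integrable u → Integrable v → Integrable y →
        ∫ t, u t = 0 → ∫ t, v t = 0 → ∫ t, y t = 0 → ∫ t, (a * u t - b * v t - c * y t) = 0 := by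
      intro a b c u v y hu hv hy zu zv zy
      have e1 := integral_sub ((hu.const_mul a).sub (hv.const_mul b)) (hy.const_mul c)
      have e2 := integral_sub (hu.const_mul a) (hv.const_mul b)
      simp only [Pi.sub_apply] at e1
      rw [e1, e2]
      simp only [integral_const_mul, zu, zv, zy]
      ring
    have e1 := integral_sub
      (((i2.1.const_mul (lam / 2)).sub (i4.1.const_mul (lam / 2 * κ₂))).sub
        (i5.1.const_mul (lam / 2 * (β + k))))
      (((i1.1.const_mul z).sub (i3.1.const_mul (z * κ₂))).sub (i6.1.const_mul (z * (β + k))))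
    simp only [Pi.sub_apply] at e1
    simp only [hFdef]
    rw [e1, aux _ _ _ _ _ _ i2.1 i4.1 i5.1 z2 z4 z5, aux _ _ _ _ _ _ i1.1 i3.1 i6.1 I1 z3 z6]
    ring
  have hF' : 0 ≤ F := fun t => by
    rw [hFe]
    exact hF _ ⟨h.pos t, g2 t⟩
  have hz : F = 0 :=
    (cF.ae_eq_iff_eq volume continuous_zero).1 ((integral_eq_zero_iff_of_nonneg hF' iF).1 zF)
  obtain ⟨t1, ht1⟩ := (((continuous_fst.tendsto _).comp h.top).eventually
    (gt_mem_nhds (show (0 : ℝ × ℝ).1 < s0 from hs0.1))).exists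
  obtain ⟨t0, ht0⟩ := intermediate_value_univ t1 tM cγ.fst ⟨le_of_lt ht1, hs0.2⟩
  have := hFe t0
  simp only at ht0
  rw [hz, ht0] at this
  exact hF0.ne this

end Pool.Agent.Lib.MP_bf91d6_an
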