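import Pool.Agent.Lib.MP_bf91d6_an.T0
import Pool.Agent.Lib.MP_bf91d6_an.LG
import Pool.Agent.Lib.MP_bf91d6_an.N2
import Pool.Agent.Lib.MP_bf91d6_an.N3

set_option autoImplicit false

namespace Pool.Agent.Lib.MP_bf91d6_an

open Set Filter Topology Metric MeasureTheory

theorem N2 {q : NF} {γ : ℝ → ℝ × ℝ} (h : q.Loop γ) (h1 : q.l1 = 1) (h2 : q.l2 = 1)
    {U W θ : ℝ} (hne : U ≠ 0 ∨ W ≠ 0) (hu : 2 * q.a + q.e = θ * U) (hv : q.b + 2 * q.f = θ * W)
    (I1 : ∫ t, (U * (γ t).1 + W * (γ t).2) = 0)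
    (I2 : ∫ t, (U * (γ t).1 ^ 2 / 2 + W * (γ t).1 * (γ t).2) * (q.V (γ t)).2 = 0) :
    q.a + q.f = 0 ∧ q.b + q.e = 0 := by
  obtain ⟨τ, hτ, hr, hgood⟩ := T.exists_good_root (q.e - q.a) (q.f - q.b)
  have hτ' := hτ.ne'
  have hL := h.toLN h1 h2 hτ hr
  obtain ⟨tM, ξh, hg⟩ := hL.geom
  set U' : ℝ := (U / τ - W) / 2 with hU'
  set W' : ℝ := (U / τ + W) / 2 with hW'
  have hU : U = τ * (W' + U') := by rw [hU', hW']; field_simp; ring
  have hW : W = W' - U' := by rw [hU', hW']; ring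
  have key := N2LN hL hg (U := U') (W := W') (θ := θ) ?_ ?_ ?_ ?_ ?_ ?_
  · obtain ⟨k, k1, k2, k3⟩ := key
    simp only [NF.toLN] at k1 k2 k3
    field_simp at k1 k2 k3
    have e3 : (τ * (1 + k)) ^ 3 = (1 - k) ^ 3 := by
      linear_combination (-1 / 8) * k3 - (1 + 3 * k ^ 2) / 4 * hr
    have e4 : τ * (1 + k) = 1 - k := (Odd.pow_inj (by decide : Odd 3)).1 e3
    have hk : 1 + k ≠ 0 := by
      intro h0
      rw [h0] at e4
      linarith
    constructor
    · apply mul_left_cancel₀ (mul_ne_zero (pow_ne_zero 2 hτ') hk)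
      linear_combination (1 / 8) * k1 + (1 / 4) * hr + q.a * τ * e4
    · apply mul_left_cancel₀ (mul_ne_zero (pow_ne_zero 2 hτ') hk)
      linear_combination (1 / 2) * k2 - (1 / 2) * hr + q.e * τ * e4
  · by_contra hn
    push Not at hn
    rcases hne with h0 | h0
    · exact h0 (by rw [hU, hn.1, hn.2]; ring)
    · exact h0 (by rw [hW, hn.1, hn.2]; ring)
  · simp only [NF.toLN, hW']
    field_simp
    linear_combination 4 * τ * hu + 4 * τ ^ 2 * hv
  · simp only [NF.toLN, hU']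
    field_simp
    linear_combination 4 * τ * hu - 4 * τ ^ 2 * hv
  · intro hs
    simp only [NF.toLN] at hs ⊢
    field_simp at hs ⊢
    have h3 := hgood (by linear_combination (-1 / 4) * hs + (1 / 2) * hr)
    linear_combination 8 * h3 + 2 * hr
  · rw [← I1]
    congr 1
    funext t
    rw [hU, hW]
    ring
  · set S : ℝ × ℝ → ℝ := fun p =>
      ((τ * p.1 + p.2) * (W' * (τ * p.1 + p.2) * (τ * p.1 - p.2) + U' * (τ * p.1 - p.2) ^ 2 / 2) -
        2 * τ * p.2 * (U * p.1 ^ 2 / 2 + W * p.1 * p.2)) / 3 with hS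
    set P : ℝ × ℝ → ℝ := fun p =>
      (W' * (τ * p.1 + p.2) * (τ * p.1 - p.2) + U' * (τ * p.1 - p.2) ^ 2 / 2) *
        (τ * (q.V p).1 + (q.V p).2) with hP
    set Q : ℝ × ℝ → ℝ := fun p => (U * p.1 ^ 2 / 2 + W * p.1 * p.2) * (q.V p).2 with hQ
    have hV := q.contDiff_V
    have iP : Integrable fun t => P (γ t) :=
      T.integrable_comp h (by rw [hP]; fun_prop) (by simp [hP])
    have iQ : Integrable fun t => Q (γ t) :=
      T.integrable_comp h (by rw [hQ]; fun_prop) (by simp [hQ])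
    have hd : ∀ t, HasDerivAt (fun t => S (γ t)) (P (γ t) - 2 * τ * Q (γ t)) t := by
      intro t
      have x := h.sol.fst t
      have y := h.sol.snd t
      have ξ := (x.const_mul τ).fun_add y
      have η := (x.const_mul τ).fun_sub y
      have := ((ξ.fun_mul (((ξ.const_mul W').fun_mul η).fun_add
        (((η.fun_pow 2).const_mul U').div_const 2))).fun_sub
        ((y.const_mul (2 * τ)).fun_mul ((((x.fun_pow 2).const_mul U).div_const 2).fun_add
          ((x.const_mul W).fun_mul y)))).div_const 3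
      refine this.congr_deriv ?_
      simp only [hP, hQ]
      rw [hU, hW]
      simp only [Nat.cast_ofNat, Nat.add_one_sub_one, pow_one]
      ring
    have hSc : Continuous S := by rw [hS]; fun_prop
    have hS0 : S 0 = 0 := by simp [hS]
    have hI := integral_of_hasDerivAt_of_tendsto hd (iP.sub (iQ.const_mul _))
      ((hSc.tendsto 0).comp h.bot) ((hSc.tendsto 0).comp h.top)
    rw [integral_sub iP (iQ.const_mul _), integral_const_mul, show ∫ t, Q (γ t) = 0 from I2] at hI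
    simp only [T.V_toLN q h1 h2 hτ hr]
    simpa using hI

theorem ell_pos {q : NF} {γ : ℝ → ℝ × ℝ} (h : q.Loop γ) (h1 : q.l1 = 1) (h2 : q.l2 = 1)
    (hp : q.a + q.f = 0) (hw : q.b + q.e = 0) (t : ℝ) :
    0 < 1 + (1 + q.a) * ((γ t).1 + (γ t).2) := by
  obtain ⟨tM, ξh, hg⟩ := (h.toLN h1 h2 one_pos (by linear_combination hp - hw)).geom
  have hn : (q.toLN 1).n = 1 + q.a := by
    simp only [NF.toLN]; linear_combination (-1 / 2) * hp
  simpa [hn] using hg.1 t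

theorem N3 {q : NF} {γ : ℝ → ℝ × ℝ} (h : q.Loop γ) (h1 : q.l1 = 1) (h2 : q.l2 = 1)
    (hp : q.a + q.f = 0) (hw : q.b + q.e = 0) {w κ₁ κ₂ : ℝ}
    (hrel : 3 * κ₁ + κ₂ = -(2 * q.a - q.b) * w / 2) (hne : w ≠ 0 ∨ κ₁ ≠ 0 ∨ κ₂ ≠ 0)
    (I1 : ∫ t, (w / 2 * ((γ t).1 + (γ t).2) +
      (κ₁ * ((γ t).1 + (γ t).2) ^ 2 + κ₂ * ((γ t).1 - (γ t).2) ^ 2) /
        (1 + (1 + q.a) * ((γ t).1 + (γ t).2))) = 0)
    (I2 : ∫ t, Real.exp (-(2 * q.a - q.b) * Lg (1 + q.a) ((γ t).1 + (γ t).2)) *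
      (w / 2 * ((γ t).1 + (γ t).2) * ((γ t).1 - (γ t).2) +
        (κ₁ * ((γ t).1 + (γ t).2) ^ 2 * ((γ t).1 - (γ t).2) +
          κ₂ * ((γ t).1 - (γ t).2) ^ 3 / 3) / (1 + (1 + q.a) * ((γ t).1 + (γ t).2))) *
      ((q.V (γ t)).1 + (q.V (γ t)).2) = 0) : False := by
  have hr : 1 - (q.e - q.a) * 1 + (q.f - q.b) * 1 ^ 2 - 1 ^ 3 = 0 := by
    linear_combination hp - hw
  have hL := h.toLN h1 h2 one_pos hr
  obtain ⟨tM, ξh, hg⟩ := hL.geom
  have hn : (q.toLN 1).n = 1 + q.a := by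
    simp only [NF.toLN]; linear_combination (-1 / 2) * hp
  have hC : (q.toLN 1).n + 2 * (q.toLN 1).C = 2 * q.a - q.b := by
    simp only [NF.toLN]; linear_combination (-1) * hp + (1 / 2) * hw
  refine N3LN hL hg ?_ ?_ ?_ (w := w) (κ₁ := κ₁) (κ₂ := κ₂) (by rw [hC]; exact hrel) hne ?_ ?_
  · simp only [NF.toLN]; linear_combination (1 / 4) * hp + (1 / 4) * hw
  · simp only [NF.toLN]; linear_combination (1 / 2) * hp
  · have : (q.toLN 1).A + (q.toLN 1).C - (q.toLN 1).n = -2 := by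
      simp only [NF.toLN]; ring
    rw [this]; norm_num
  · simpa only [hn, one_mul] using I1
  · simp only [T.V_toLN q h1 h2 one_pos hr]
    rw [hC]
    simpa only [hn, one_mul] using I2

end Pool.Agent.Lib.MP_bf91d6_an
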