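import Pool.Agent.Lib.MP_bf91d6_an.C2b
import Pool.Agent.Lib.MP_bf91d6_an.C1
import Pool.Agent.Lib.MP_bf91d6_an.T

set_option autoImplicit false

namespace Pool.Agent.Lib.MP_bf91d6_an

open Set Filter Topology Metric MeasureTheory

theorem NF.tendsto_V {ι : Type} {l : Filter ι} {q : ι → NF} {q₀ : NF} {p : ι → ℝ × ℝ}
    {p₀ : ℝ × ℝ} (hq : Tendsto (fun i => (q i).dist q₀) l (𝓝 0)) (hp : Tendsto p l (𝓝 p₀)) :
    Tendsto (fun i => (q i).V (p i)) l (𝓝 (q₀.V p₀)) := by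
  have h1 : Tendsto (fun i => (q i).V (p i) - q₀.V (p i)) l (𝓝 0) := by
    refine squeeze_zero_norm (fun i => NF.V_param (q i) q₀ (le_refl ‖p i‖)) ?_
    simpa using hq.mul (hp.norm.add (hp.norm.pow 2))
  simpa using h1.add ((q₀.contDiff_V.continuous.tendsto p₀).comp hp)

theorem tendsto_Ef {ι : Type} {l : Filter ι} {n : ι → ℝ} {A : ι → Fin 6 → ℝ} {p : ι → ℝ × ℝ}
    {n₀ : ℝ} {A₀ : Fin 6 → ℝ} {p₀ : ℝ × ℝ} (h : 0 < 1 + n₀ * (p₀.1 + p₀.2))
    (hn : Tendsto n l (𝓝 n₀)) (hA : Tendsto A l (𝓝 A₀)) (hp : Tendsto p l (𝓝 p₀)) :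
    Tendsto (fun i => Ef (n i) (A i) (p i)) l (𝓝 (Ef n₀ A₀ p₀)) := by
  have := (continuousAt_Ef h).tendsto.comp (hn.prodMk_nhds (hA.prodMk_nhds hp))
  exact this

theorem tendsto_Xi {ι : Type} {l : Filter ι} {n u : ι → ℝ} {A : ι → Fin 6 → ℝ} {p : ι → ℝ × ℝ}
    {n₀ u₀ : ℝ} {A₀ : Fin 6 → ℝ} {p₀ : ℝ × ℝ} (h : 0 < 1 + n₀ * (p₀.1 + p₀.2))
    (hn : Tendsto n l (𝓝 n₀)) (hu : Tendsto u l (𝓝 u₀)) (hA : Tendsto A l (𝓝 A₀))
    (hp : Tendsto p l (𝓝 p₀)) :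
    Tendsto (fun i => Xi (n i) (u i) (A i) (p i)) l (𝓝 (Xi n₀ u₀ A₀ p₀)) := by
  have := (continuousAt_Xi h).tendsto.comp ((hn.prodMk_nhds hu).prodMk_nhds (hA.prodMk_nhds hp))
  exact this

theorem Setup.I_const_mul (S : Setup) (c : ℝ) (F : ℝ × ℝ → ℝ) (q : NF) (r : ℝ) :
    S.I (fun p => c * F p) q r = c * S.I F q r := intervalIntegral.integral_const_mul _ _

theorem Setup.I_Dv (S : Setup) {n : ℝ} (A : Fin 6 → ℝ) {q : NF} {r : ℝ} (hT : 0 ≤ S.T q r)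
    (hl : ∀ t ∈ Icc 0 (S.T q r), 0 < 1 + n * ((S.P q r t).1 + (S.P q r t).2)) :
    S.I (Dv n A) q r = A 0 * S.T q r + S.I (Ef n A) q r := by
  have h1 : ContinuousOn (fun t => Ef n A (S.P q r t)) (uIcc 0 (S.T q r)) := by
    rw [uIcc_of_le hT]
    intro t ht
    exact (ContinuousAt.comp (f := fun t => (n, A, S.P q r t)) (continuousAt_Ef (hl t ht))
      (continuousAt_const.prodMk (continuousAt_const.prodMk
        (S.P_sol q r).continuous.continuousAt))).continuousWithinAt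
  unfold Setup.I Dv
  rw [intervalIntegral.integral_add (by simp) h1.intervalIntegrable]
  simp [mul_comm]

namespace Pair

variable (Z : Pair)

theorem limit {κ c₀ C₃ n₀ u₀ : ℝ} (hκ : 0 < κ) (hκ1 : κ ≤ 1) (hc : 0 < c₀)
    (hl : ∀ n, |n - n₀| ≤ κ → ∀ p ∈ thickening κ Z.S.Γ, c₀ ≤ 1 + n * (p.1 + p.2))
    {q : ℕ → NF} {n u b z : ℕ → ℝ} {A₀ : Fin 6 → ℝ}
    (hq : Tendsto (fun k => (q k).dist Z.S.q₀) atTop (𝓝 0)) (hn : Tendsto n atTop (𝓝 n₀))
    (hu : Tendsto u atTop (𝓝 u₀)) (hz : Tendsto z atTop (𝓝 0)) (hb : ∀ k, b k ∈ Ioo 0 (z k))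
    (hBb : ∀ k, Z.Both (q k) (b k) ∧ Z.Arcs κ (q k) (b k))
    (hBz : ∀ k, Z.Both (q k) (z k) ∧ Z.Arcs κ (q k) (z k))
    (hσ : ∀ k, |(q k).A (n k) (u k) 0| ≤ C₃ * b k * ‖(q k).A (n k) (u k)‖)
    (hI : ∀ k, Z.S.I (Dv (n k) ((q k).A (n k) (u k))) (q k) (b k) =
      Z.S'.I (Dv (n k) ((q k).star.A (n k) (u k))) (q k).star (b k))
    (hg : ∀ k, Z.gap (q k) (z k) = 0)
    (hA : Tendsto (fun k => ‖(q k).A (n k) (u k)‖⁻¹ • (q k).A (n k) (u k)) atTop (𝓝 A₀)) :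
    A₀ 0 = 0 ∧ ∫ t, Ef n₀ A₀ (Z.S.γ t) = 0 ∧
      ∫ t, Xi n₀ u₀ A₀ (Z.S.γ t) * ((Z.S.q₀.V (Z.S.γ t)).1 + (Z.S.q₀.V (Z.S.γ t)).2) = 0 := by
  set A : ℕ → Fin 6 → ℝ := fun k => ‖(q k).A (n k) (u k)‖⁻¹ • (q k).A (n k) (u k) with hAd
  have hA1 : ∀ k, ‖A k‖ ≤ 1 := fun k => by
    rw [hAd, norm_smul, norm_inv, norm_norm]
    exact inv_mul_le_one
  have hA01 : ‖A₀‖ ≤ 1 := le_of_tendsto' hA.norm hA1
  have hb0 : Tendsto b atTop (𝓝 0) :=
    squeeze_zero (fun k => (hb k).1.le) (fun k => (hb k).2.le) hz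
  have hσ' : ∀ k, |A k 0| ≤ |C₃| * b k := fun k => by
    simp only [hAd, Pi.smul_apply, smul_eq_mul, abs_mul, abs_inv, abs_norm]
    refine inv_mul_le_of_le_mul₀ (norm_nonneg _) (mul_nonneg (abs_nonneg _) (hb k).1.le) ?_
    have := mul_le_mul_of_nonneg_right (le_abs_self C₃)
      (mul_nonneg (hb k).1.le (norm_nonneg ((q k).A (n k) (u k))))
    linarith [hσ k]
  have hnκ : ∀ᶠ k in atTop, |n k - n₀| ≤ κ := by
    filter_upwards [Metric.tendsto_nhds.1 hn κ hκ] with k hk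
    exact hk.le
  have hγΩ : ∀ t, Z.S.γ t ∈ thickening κ Z.S.Γ := fun t =>
    self_subset_thickening hκ _ (mem_insert_of_mem _ ⟨t, rfl⟩)
  have hl₀ : ∀ t, 0 < 1 + n₀ * ((Z.S.γ t).1 + (Z.S.γ t).2) := fun t =>
    hc.trans_le (hl n₀ (by simpa using hκ.le) _ (hγΩ t))
  have hγc := Z.S.loop.sol.continuous
  have hRΩ : ∀ p ∈ thickening κ Z.S.Γ, ‖p‖ ≤ Z.S.R := fun p hp => by
    linarith [Z.S.norm_le_of_thick hκ1 hp]
  have habs : ∀ m, |m - n₀| ≤ κ → |m| ≤ |n₀| + 1 := fun m hm => by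
    linarith [abs_sub_abs_le_abs_sub m n₀]
  refine ⟨?_, ?_, ?_⟩
  · refine tendsto_nhds_unique (((continuous_apply 0).tendsto A₀).comp hA) ?_
    exact squeeze_zero_norm hσ' (by simpa using hb0.const_mul |C₃|)
  · obtain ⟨Cm, hCm, hm⟩ := Ef_bounds hc Z.S.R_pos.le (show 0 ≤ |n₀| + 1 by positivity)
    have hbd : ∀ m (B : Fin 6 → ℝ), |m - n₀| ≤ κ → ‖B‖ ≤ 1 → ∀ p ∈ thickening κ Z.S.Γ,
        |Ef m B p| ≤ Cm * ‖p‖ := fun m B h1 h2 p hp =>
      (hm m B p (habs m h1) (hRΩ p hp) (hl m h1 p hp)).1.trans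
        (mul_le_mul_of_nonneg_right (mul_le_of_le_one_right hCm.le h2) (norm_nonneg _))
    have h1 := Z.lim2 (l := atTop) (κ := κ) (B := Cm) (F := fun k => Ef (n k) (A k))
      (F₀ := Ef n₀ A₀) (Eventually.of_forall hBb) hq hb0
      (hnκ.mono fun k hk => ⟨fun p hp => (ContinuousAt.comp (f := fun p => (n k, A k, p))
        (continuousAt_Ef (hc.trans_le (hl _ hk p hp)))
        (continuousAt_const.prodMk (continuousAt_const.prodMk continuousAt_id))).continuousWithinAt,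
        hbd _ _ hk (hA1 k)⟩)
      (fun t p hp => tendsto_Ef (hl₀ t) hn hA hp)
      (Integrable.mono' (Z.S.loop.integrable.const_mul Cm)
        (continuous_iff_continuousAt.2 fun t => ContinuousAt.comp
          (f := fun t => (n₀, A₀, Z.S.γ t)) (continuousAt_Ef (hl₀ t))
          (continuousAt_const.prodMk (continuousAt_const.prodMk
            hγc.continuousAt))).aestronglyMeasurable
        (Eventually.of_forall fun t => hbd _ _ (by simpa using hκ.le) hA01 _ (hγΩ t)))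
    refine tendsto_nhds_unique h1 ?_
    have h2 : Tendsto (fun k => |C₃| * ((Z.C + Z.C') * b k -
        (Z.C + Z.C') * (b k * Real.log (b k)))) atTop (𝓝 0) := by
      have := ((hb0.const_mul (Z.C + Z.C')).sub (((Real.continuous_mul_log.tendsto 0).comp
        hb0).const_mul (Z.C + Z.C'))).const_mul |C₃|
      simpa using this
    refine squeeze_zero_norm' ?_ h2
    filter_upwards [hnκ] with k hk
    have hE := (hBb k).2.ell hκ hc (hl _ hk)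
    have t1 := (hBb k).1.1.hit.1.le
    have t2 := (hBb k).1.2.hit.1.le
    have e1 := hI k
    rw [Z.S.I_Dv _ t1 hE.1, Z.S'.I_Dv _ t2 hE.2.1] at e1
    have e2 : (q k).star.A (n k) (u k) 0 = -(q k).A (n k) (u k) 0 := by rw [NF.A_star]; rfl
    have e3 : Z.S'.I (Ef (n k) ((q k).star.A (n k) (u k))) (q k).star (b k) =
        -1 * Z.S'.I (fun p => Ef (n k) ((q k).A (n k) (u k)) p.swap) (q k).star (b k) := by
      rw [← Setup.I_const_mul]
      congr 1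
      funext p
      rw [NF.Ef_star]
      ring
    have e4 : Z.S.I (Ef (n k) (A k)) (q k) (b k) +
        Z.S'.I (fun p => Ef (n k) (A k) p.swap) (q k).star (b k) =
        -(A k 0 * (Z.S.T (q k) (b k) + Z.S'.T (q k).star (b k))) := by
      have f1 : Ef (n k) (A k) = fun p => ‖(q k).A (n k) (u k)‖⁻¹ *
        Ef (n k) ((q k).A (n k) (u k)) p := funext fun p => Ef_smul _ _ _ _
      rw [f1, Setup.I_const_mul, Setup.I_const_mul]
      simp only [hAd, Pi.smul_apply, smul_eq_mul]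
      rw [e2, e3] at e1
      linear_combination ‖(q k).A (n k) (u k)‖⁻¹ * e1
    rw [e4, norm_neg, Real.norm_eq_abs, abs_mul, abs_of_nonneg (add_nonneg t1 t2)]
    have e5 := mul_le_mul (hσ' k) (add_le_add (hBb k).1.1.Tup (hBb k).1.2.Tup)
      (add_nonneg t1 t2) (mul_nonneg (abs_nonneg _) (hb k).1.le)
    linarith
  · have hK : IsCompact ((Icc (n₀ - κ) (n₀ + κ) ×ˢ Icc (u₀ - 1) (u₀ + 1)) ×ˢ
        closedBall (0 : Fin 6 → ℝ) 1 ×ˢ closure (thickening κ Z.S.Γ)) := by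
      refine (isCompact_Icc.prod isCompact_Icc).prod ((isCompact_closedBall _ _).prod ?_)
      refine (isCompact_closedBall (0 : ℝ × ℝ) Z.S.R).of_isClosed_subset isClosed_closure ?_
      exact closure_minimal (fun p hp => mem_closedBall_zero_iff.2 (hRΩ p hp)) isClosed_closedBall
    have hl' : ∀ m, |m - n₀| ≤ κ → ∀ p ∈ closure (thickening κ Z.S.Γ),
        0 < 1 + m * (p.1 + p.2) := fun m hm p hp =>
      hc.trans_le (closure_minimal (t := {p : ℝ × ℝ | c₀ ≤ 1 + m * (p.1 + p.2)}) (hl m hm)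
        (isClosed_le continuous_const (by fun_prop)) hp)
    obtain ⟨Bx, hBx⟩ := hK.exists_bound_of_continuousOn
      (f := fun w : (ℝ × ℝ) × (Fin 6 → ℝ) × (ℝ × ℝ) => Xi w.1.1 w.1.2 w.2.1 w.2.2)
      (fun w hw => (continuousAt_Xi (hl' w.1.1
        (abs_le.2 ⟨by linarith [hw.1.1.1], by linarith [hw.1.1.2]⟩) _ hw.2.2)).continuousWithinAt)
    have hbd : ∀ (q' : NF) m v (B : Fin 6 → ℝ), q'.size ≤ Z.S.M → |m - n₀| ≤ κ → |v - u₀| ≤ 1 →
        ‖B‖ ≤ 1 → ∀ p ∈ thickening κ Z.S.Γ, |Xi m v B p * ((q'.V p).1 + (q'.V p).2)| ≤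
          Bx * (2 * (Z.S.M * (1 + 2 * Z.S.R))) * ‖p‖ := fun q' m v B h0 h1 h2 h3 p hp => by
      have a1 : |Xi m v B p| ≤ Bx := hBx ((m, v), B, p)
        ⟨⟨⟨by linarith [(abs_le.1 h1).1], by linarith [(abs_le.1 h1).2]⟩,
          ⟨by linarith [(abs_le.1 h2).1], by linarith [(abs_le.1 h2).2]⟩⟩,
          mem_closedBall_zero_iff.2 h3, subset_closure hp⟩
      have a2 := NF.V_le h0 (hRΩ p hp)
      have a3 : |(q'.V p).1 + (q'.V p).2| ≤ 2 * (Z.S.M * (1 + 2 * Z.S.R)) * ‖p‖ := by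
        linarith [abs_add_le (q'.V p).1 (q'.V p).2, abs_fst_le (q'.V p), abs_snd_le (q'.V p)]
      linarith [abs_mul_le a1 a3]
    have hcont : ∀ (q' : NF) m v (B : Fin 6 → ℝ) (p : ℝ × ℝ), 0 < 1 + m * (p.1 + p.2) →
        ContinuousAt (fun p => Xi m v B p * ((q'.V p).1 + (q'.V p).2)) p := fun q' m v B p h => by
      have a1 := q'.contDiff_V.continuous
      exact (ContinuousAt.comp (f := fun p => ((m, v), B, p)) (continuousAt_Xi h)
        (continuousAt_const.prodMk (continuousAt_const.prodMk continuousAt_id))).mul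
        (a1.fst.add a1.snd).continuousAt
    have hu1 : ∀ᶠ k in atTop, |u k - u₀| ≤ 1 := by
      filter_upwards [Metric.tendsto_nhds.1 hu 1 one_pos] with k hk
      exact hk.le
    have h1 := Z.lim2 (l := atTop) (κ := κ) (B := Bx * (2 * (Z.S.M * (1 + 2 * Z.S.R))))
      (F := fun k p => Xi (n k) (u k) (A k) p * (((q k).V p).1 + ((q k).V p).2))
      (F₀ := fun p => Xi n₀ u₀ A₀ p * ((Z.S.q₀.V p).1 + (Z.S.q₀.V p).2))
      (Eventually.of_forall hBz) hq hz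
      ((hnκ.and hu1).mono fun k hk => ⟨fun p hp =>
        (hcont _ _ _ _ _ (hc.trans_le (hl _ hk.1 p hp))).continuousWithinAt,
        hbd _ _ _ _ (Z.S.good _ (hBz k).1.1.near).size hk.1 hk.2 (hA1 k)⟩)
      (fun t p hp => (tendsto_Xi (hl₀ t) hn hu hA hp).mul
        ((NF.tendsto_V hq hp).fst_nhds.add (NF.tendsto_V hq hp).snd_nhds))
      (Integrable.mono' (Z.S.loop.integrable.const_mul _)
        (continuous_iff_continuousAt.2 fun t => ContinuousAt.comp (f := Z.S.γ)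
          (hcont Z.S.q₀ n₀ u₀ A₀ _ (hl₀ t)) hγc.continuousAt).aestronglyMeasurable
        (Eventually.of_forall fun t => hbd _ _ _ _ Z.S.good₀.size (by simpa using hκ.le)
          (by simp) hA01 _ (hγΩ t)))
    refine tendsto_nhds_unique h1 (tendsto_const_nhds.congr' ?_)
    filter_upwards [hnκ] with k hk
    have e1 := Z.closed (u := u k) (hBz k).1 ((hBz k).2.ell hκ hc (hl _ hk)) (hg k)
    simp only [hAd, Xi_smul, mul_assoc, Setup.I_const_mul]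
    rw [← mul_add, e1, mul_zero]

theorem gap_zero {q : NF} {r₀ n u : ℝ} (h : ∀ r ∈ Ioo 0 r₀, Z.Both q r)
    (hl : ∀ r ∈ Ioo 0 r₀, Z.Ell q n r) (hA : q.A n u = 0) {x : ℝ} (hx : x ∈ Ioo 0 r₀)
    (hg : Z.gap q x = 0) : ∀ r ∈ Ioo 0 r₀, Z.gap q r = 0 := by
  obtain ⟨fl, hfl⟩ := Z.flux (u := u) h hl
  have hA' : q.star.A n u = 0 := norm_le_zero_iff.1 (by simpa [hA] using q.norm_A_star n u)
  have hD : Dv n 0 = fun _ => 0 := by funext p; simp [Dv, Ef]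
  have hd : ∀ r ∈ Ioo 0 r₀, HasDerivAt fl 0 r := fun r hr => by
    obtain ⟨e1, e2⟩ := Z.I_eq (u := u) (h r hr) (hl r hr)
    have := (hfl r hr).1
    rw [e1, e2, hA, hA', hD] at this
    simpa [Setup.I] using this
  have iff0 : ∀ r ∈ Ioo 0 r₀, (Z.gap q r = 0 ↔ fl r = 0) := fun r hr => by
    obtain ⟨-, a1, a2⟩ := hfl r hr
    constructor <;> intro h0 <;> rw [h0] at a1 a2
    · exact le_antisymm (not_lt.1 fun h => lt_irrefl _ (a1.2 h))
        (not_lt.1 fun h => lt_irrefl _ (a2.2 h))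
    · exact le_antisymm (not_lt.1 fun h => lt_irrefl _ (a1.1 h))
        (not_lt.1 fun h => lt_irrefl _ (a2.1 h))
  have hc : ∀ a ∈ Ioo 0 r₀, ∀ b ∈ Ioo 0 r₀, a ≤ b → fl a = fl b := fun a ha b hb hab =>
    le_antisymm
      (le_of_deriv_nonneg hab (fun t ht => hd t ⟨ha.1.trans_le ht.1, ht.2.trans_lt hb.2⟩)
        fun _ _ => le_rfl)
      (le_of_deriv_nonpos hab (fun t ht => hd t ⟨ha.1.trans_le ht.1, ht.2.trans_lt hb.2⟩)
        fun _ _ => le_rfl)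
  intro r hr
  rw [iff0 r hr, ← (iff0 x hx).1 hg]
  rcases le_total r x with h1 | h1
  · exact hc r hr x hx h1
  · exact (hc x hx r hr h1).symm

end Pair

theorem sort3 {p : ℝ → Prop} {a b c : ℝ} (ha : p a) (hb : p b) (hc : p c) (hab : a ≠ b)
    (hac : a ≠ c) (hbc : b ≠ c) : ∃ x y z, x < y ∧ y < z ∧ p x ∧ p y ∧ p z := by
  rcases lt_or_gt_of_ne hab with h1 | h1 <;> rcases lt_or_gt_of_ne hac with h2 | h2 <;>
    rcases lt_or_gt_of_ne hbc with h3 | h3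
  · exact ⟨a, b, c, h1, h3, ha, hb, hc⟩
  · exact ⟨a, c, b, h2, h3, ha, hc, hb⟩
  · exact absurd (h1.trans h3) (not_lt.2 h2.le)
  · exact ⟨c, a, b, h2, h1, hc, ha, hb⟩
  · exact ⟨b, a, c, h1, h2, hb, ha, hc⟩
  · exact absurd (h2.trans h3) (not_lt.2 h1.le)
  · exact ⟨b, c, a, h3, h2, hb, hc, ha⟩
  · exact ⟨c, b, a, h3, h1, hc, hb, ha⟩

theorem Pair.key (Z : Pair) {nF uF : NF → ℝ} {n₀ u₀ : ℝ}
    (hn : ∀ q : NF, |nF q - n₀| ≤ q.dist Z.S.q₀) (hu : ∀ q : NF, |uF q - u₀| ≤ q.dist Z.S.q₀)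
    (hl₀ : ∀ t, 0 < 1 + n₀ * ((Z.S.γ t).1 + (Z.S.γ t).2))
    (H : ∀ (q : ℕ → NF) (A₀ : Fin 6 → ℝ), (∀ k, (q k).l2 = 1) →
      Tendsto (fun k => (q k).dist Z.S.q₀) atTop (𝓝 0) →
      Tendsto (fun k => ‖(q k).A (nF (q k)) (uF (q k))‖⁻¹ • (q k).A (nF (q k)) (uF (q k))) atTop
        (𝓝 A₀) → (∀ k, (q k).A (nF (q k)) (uF (q k)) ≠ 0) → ‖A₀‖ = 1 → A₀ 0 = 0 →
      ∫ t, Ef n₀ A₀ (Z.S.γ t) = 0 →
      ∫ t, Xi n₀ u₀ A₀ (Z.S.γ t) * ((Z.S.q₀.V (Z.S.γ t)).1 + (Z.S.q₀.V (Z.S.γ t)).2) = 0 → False) :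
    ∃ ε > (0 : ℝ), ∃ ρ > (0 : ℝ), ∀ q : NF, q.l2 = 1 → q.dist Z.S.q₀ < ρ →
      {O | IsPeriodicOrbit q.V O ∧ O ⊆ thickening ε Z.S.Γ}.encard ≤ 2 ∨
        (cyclesNear q.V Z.S.Γ ε = ∅ ∧ q.A (nF q) (uF q) = 0) := by
  obtain ⟨c₀, hc, κ, hκ, hκ1, hl⟩ := Z.S.ell_lower hl₀
  obtain ⟨ρ₀, hρ₀, r₀, hr₀, hB⟩ := Z.exists_arcs hκ
  obtain ⟨C₃, -, r₁, hr₁, hstep⟩ := Z.step1 hκ hκ1 hc (show 0 ≤ |n₀| + 1 by positivity)
  by_contra hcon
  push Not at hcon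
  have main : ∀ k : ℕ, ∃ (q : NF) (b z : ℝ), q.l2 = 1 ∧ q.dist Z.S.q₀ ≤ 1 / ((k : ℝ) + 1) ∧
      z ≤ 1 / ((k : ℝ) + 1) ∧ b ∈ Ioo 0 z ∧ (Z.Both q b ∧ Z.Arcs κ q b) ∧
      (Z.Both q z ∧ Z.Arcs κ q z) ∧ q.A (nF q) (uF q) ≠ 0 ∧
      |q.A (nF q) (uF q) 0| ≤ C₃ * b * ‖q.A (nF q) (uF q)‖ ∧
      Z.S.I (Dv (nF q) (q.A (nF q) (uF q))) q b =
        Z.S'.I (Dv (nF q) (q.star.A (nF q) (uF q))) q.star b ∧ Z.gap q z = 0 := fun k => by
    have hk : 0 < 1 / ((k : ℝ) + 1) := by positivity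
    set r₂ := min (min r₀ r₁) (1 / ((k : ℝ) + 1)) with hr₂
    have s0 : r₂ ≤ r₀ := (min_le_left _ _).trans (min_le_left _ _)
    have s1 : r₂ ≤ r₁ := (min_le_left _ _).trans (min_le_right _ _)
    obtain ⟨ε, hε, ρ, hρ, hgo⟩ := Z.gap_of_orbit (r₁ := r₂) (lt_min (lt_min hr₀ hr₁) hk)
    obtain ⟨q, h2, hq, h3, h4⟩ := hcon ε hε (min (min ρ ρ₀) (min κ (1 / ((k : ℝ) + 1))))
      (by positivity)
    have q1 : q.dist Z.S.q₀ ≤ ρ := hq.le.trans ((min_le_left _ _).trans (min_le_left _ _))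
    have q2 : q.dist Z.S.q₀ ≤ ρ₀ := hq.le.trans ((min_le_left _ _).trans (min_le_right _ _))
    have q3 : |nF q - n₀| ≤ κ :=
      (hn q).trans (hq.le.trans ((min_le_right _ _).trans (min_le_left _ _)))
    have hB' : ∀ r ∈ Ioo 0 r₂, Z.Both q r ∧ Z.Arcs κ q r := fun r hr =>
      hB q q2 r ⟨hr.1, hr.2.trans_le s0⟩
    obtain ⟨t, ht, ht3⟩ := exists_subset_encard_eq (k := 3) (Order.add_one_le_of_lt h3)
    obtain ⟨O₁, O₂, O₃, d1, d2, d3, rfl⟩ := encard_eq_three.1 ht3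
    obtain ⟨a₁, m1, e1, g1⟩ := hgo q q1 O₁ (ht (by simp)).1 (ht (by simp)).2
    obtain ⟨a₂, m2, e2, g2⟩ := hgo q q1 O₂ (ht (by simp)).1 (ht (by simp)).2
    obtain ⟨a₃, m3, e3, g3⟩ := hgo q q1 O₃ (ht (by simp)).1 (ht (by simp)).2
    have hA : q.A (nF q) (uF q) ≠ 0 := fun hA => by
      refine h4 (eq_empty_of_forall_notMem fun O hO => ?_) hA
      obtain ⟨r, hr, he, -⟩ := hgo q q1 O hO.1.1 hO.2
      exact Z.not_isolated (fun r hr => (hB' r hr).1)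
        (Z.gap_zero (fun r hr => (hB' r hr).1) (fun r hr => (hB' r hr).2.ell hκ hc (hl _ q3)) hA
          m1 g1) hr (he ▸ hO.1)
    obtain ⟨x, y, z, hxy, hyz, px, py, pz⟩ := sort3 (p := fun r => r ∈ Ioo 0 r₂ ∧ Z.gap q r = 0)
      ⟨m1, g1⟩ ⟨m2, g2⟩ ⟨m3, g3⟩ (fun h => d1 (by rw [e1, e2, h])) (fun h => d2 (by rw [e1, e3, h]))
      (fun h => d3 (by rw [e2, e3, h]))
    obtain ⟨b, hb, b1, b2⟩ := hstep q (nF q) (uF q) r₂ s1
      (by linarith [abs_sub_abs_le_abs_sub (nF q) n₀]) (hl _ q3) hB' x y z px.1.1 hxy hyz pz.1.2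
      px.2 py.2 pz.2
    exact ⟨q, b, z, h2, hq.le.trans ((min_le_right _ _).trans (min_le_right _ _)),
      pz.1.2.le.trans (min_le_right _ _), hb, hB' b ⟨hb.1, hb.2.trans pz.1.2⟩, hB' z pz.1, hA,
      b1, b2, pz.2⟩
  choose q b z h1 h2 h3 h4 h5 h6 h7 h8 h9 h10 using main
  obtain ⟨A₀, hA₀, φ, hφ, hlim⟩ := (isCompact_sphere (0 : Fin 6 → ℝ) 1).tendsto_subseq
    (x := fun k => ‖(q k).A (nF (q k)) (uF (q k))‖⁻¹ • (q k).A (nF (q k)) (uF (q k)))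
    (fun k => by
      rw [mem_sphere_zero_iff_norm, norm_smul, norm_inv, norm_norm]
      exact inv_mul_cancel₀ (norm_ne_zero_iff.2 (h7 k)))
  have t0 : Tendsto (fun k : ℕ => 1 / (((φ k : ℕ) : ℝ) + 1)) atTop (𝓝 0) :=
    tendsto_one_div_add_atTop_nhds_zero_nat.comp hφ.tendsto_atTop
  have t1 : Tendsto (fun k => (q (φ k)).dist Z.S.q₀) atTop (𝓝 0) :=
    squeeze_zero (fun k => NF.dist_nonneg _ _) (fun k => h2 _) t0
  obtain ⟨l1, l2, l3⟩ := Z.limit (C₃ := C₃) hκ hκ1 hc hl (q := fun k => q (φ k))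
    (n := fun k => nF (q (φ k))) (u := fun k => uF (q (φ k))) (b := fun k => b (φ k))
    (z := fun k => z (φ k)) (A₀ := A₀) (u₀ := u₀) t1
    (tendsto_sub_nhds_zero_iff.1 (squeeze_zero_norm (fun k => hn _) t1))
    (tendsto_sub_nhds_zero_iff.1 (squeeze_zero_norm (fun k => hu _) t1))
    (squeeze_zero (fun k => ((h4 _).1.trans (h4 _).2).le) (fun k => h3 _) t0)
    (fun k => h4 _) (fun k => h5 _) (fun k => h6 _) (fun k => h8 _) (fun k => h9 _)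
    (fun k => h10 _) hlim
  exact H (fun k => q (φ k)) A₀ (fun k => h1 _) t1 hlim (fun k => h7 _)
    (mem_sphere_zero_iff_norm.1 hA₀) l1 l2 l3

theorem NF.coord_le (q q' : NF) : |q.l1 - q'.l1| ≤ q.dist q' ∧ |q.l2 - q'.l2| ≤ q.dist q' ∧
    |q.a - q'.a| + |q.b - q'.b| + |q.e - q'.e| + |q.f - q'.f| ≤ q.dist q' := by
  unfold NF.dist
  have := abs_nonneg (q.l1 - q'.l1)
  have := abs_nonneg (q.l2 - q'.l2)
  have := abs_nonneg (q.a - q'.a)
  have := abs_nonneg (q.b - q'.b)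
  have := abs_nonneg (q.e - q'.e)
  have := abs_nonneg (q.f - q'.f)
  refine ⟨by linarith, by linarith, by linarith⟩

theorem NF.tendsto_A0 {q : ℕ → NF} {q₀ : NF} (hq : Tendsto (fun k => (q k).dist q₀) atTop (𝓝 0)) :
    Tendsto (fun k => (q k).A 0 0) atTop (𝓝 (q₀.A 0 0)) := by
  rw [← tendsto_sub_nhds_zero_iff]
  refine squeeze_zero_norm (a := fun k => 2 * (q k).dist q₀) (fun k => ?_)
    (by simpa using hq.const_mul 2)
  obtain ⟨h1, h2, h3⟩ := (q k).coord_le q₀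
  have h0 := (q k).dist_nonneg q₀
  have a1 := abs_le.1 (le_refl |(q k).a - q₀.a|)
  have a2 := abs_le.1 (le_refl |(q k).b - q₀.b|)
  have a3 := abs_le.1 (le_refl |(q k).e - q₀.e|)
  have a4 := abs_le.1 (le_refl |(q k).f - q₀.f|)
  rw [abs_le] at h1 h2
  rw [pi_norm_le_iff_of_nonneg (by linarith)]
  intro i
  rw [Real.norm_eq_abs, abs_le]
  fin_cases i <;> simp [NF.A] <;> (try constructor) <;>
    linarith [h1.1, h1.2, h2.1, h2.2, a1.1, a1.2, a2.1, a2.2, a3.1, a3.2, a4.1, a4.2]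

theorem fin6_eq_zero {A : Fin 6 → ℝ} (h0 : A 0 = 0) (h1 : A 1 = 0) (h2 : A 2 = 0) (h3 : A 3 = 0)
    (h4 : A 4 = 0) (h5 : A 5 = 0) : A = 0 := by
  funext i
  fin_cases i <;> assumption

theorem area_form {q : NF} {γ : ℝ → ℝ × ℝ} (h : q.Loop γ) (a₁ a₂ : ℝ) :
    ∫ t, (a₁ * ((γ t).1 + (γ t).2) * ((γ t).1 - (γ t).2) + a₂ * ((γ t).1 - (γ t).2) ^ 2 / 2) *
      ((q.V (γ t)).1 + (q.V (γ t)).2) =
      2 * ∫ t, ((a₁ + a₂) * (γ t).1 ^ 2 / 2 + (a₁ - a₂) * (γ t).1 * (γ t).2) * (q.V (γ t)).2 := by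
  have i1 := T.integrable_comp h (F := fun p : ℝ × ℝ =>
    (a₁ * (p.1 + p.2) * (p.1 - p.2) + a₂ * (p.1 - p.2) ^ 2 / 2) * ((q.V p).1 + (q.V p).2))
    (by unfold NF.V; fun_prop) (by simp)
  have i2 := T.integrable_comp h (F := fun p : ℝ × ℝ =>
    ((a₁ + a₂) * p.1 ^ 2 / 2 + (a₁ - a₂) * p.1 * p.2) * (q.V p).2)
    (by unfold NF.V; fun_prop) (by simp)
  set Sf : ℝ × ℝ → ℝ := fun p => (a₁ + a₂ / 2) * p.1 ^ 3 / 3 - a₂ / 2 * p.1 ^ 2 * p.2 +
    (a₂ / 2 - a₁) * p.1 * p.2 ^ 2 + (a₂ / 2 - a₁) * p.2 ^ 3 / 3 with hS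
  have hc : Continuous Sf := by rw [hS]; fun_prop
  have h0 : Sf 0 = 0 := by simp [hS]
  have key := integral_of_hasDerivAt_of_tendsto (f := fun t => Sf (γ t)) (fun t => by
      have hx := h.sol.fst t
      have hy := h.sol.snd t
      refine (((((((hx.fun_pow 3).const_mul (a₁ + a₂ / 2)).div_const 3).fun_sub
        (((hx.fun_pow 2).const_mul (a₂ / 2)).fun_mul hy)).fun_add
        ((hx.const_mul (a₂ / 2 - a₁)).fun_mul (hy.fun_pow 2))).fun_add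
        (((hy.fun_pow 3).const_mul (a₂ / 2 - a₁)).div_const 3))).congr_deriv ?_
      simp only [Pi.sub_apply]
      push_cast
      ring)
    (i1.sub (i2.const_mul 2)) (h0 ▸ (hc.tendsto 0).comp h.bot) (h0 ▸ (hc.tendsto 0).comp h.top)
  have e := integral_sub i1 (i2.const_mul 2)
  rw [integral_const_mul] at e
  simp only [Pi.sub_apply, sub_self] at key
  linarith

theorem core2 {q₀ : NF} {γ : ℝ → ℝ × ℝ} (h : q₀.Loop γ) (h2 : q₀.l2 = 1) :
    ∃ ε > (0 : ℝ), ∃ ρ > (0 : ℝ), ∀ q : NF, q.l2 = 1 → q.dist q₀ < ρ →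
      {O | IsPeriodicOrbit q.V O ∧ O ⊆ thickening ε (insert 0 (range γ))}.encard ≤ 2 ∨
        (cyclesNear q.V (insert 0 (range γ)) ε = ∅ ∧
          (q₀.a + q₀.f ≠ 0 → q.l1 = 1 ∧ 2 * q.a + q.e = 0 ∧ q.b + 2 * q.f = 0)) := by
  obtain ⟨Z, rfl, rfl⟩ := exists_pair h
  have comp : ∀ {A : ℕ → Fin 6 → ℝ} {A₀ : Fin 6 → ℝ}, Tendsto A atTop (𝓝 A₀) →
      ∀ i, Tendsto (fun k => A k i) atTop (𝓝 (A₀ i)) := fun hA i => tendsto_pi_nhds.1 hA i
  by_cases hrev : Z.S.q₀.l1 = 1 ∧ Z.S.q₀.a + Z.S.q₀.f = 0 ∧ Z.S.q₀.b + Z.S.q₀.e = 0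
  · obtain ⟨h1, hp, hw⟩ := hrev
    have hn : ∀ q : NF, |1 + (q.a - q.f) / 2 - (1 + Z.S.q₀.a)| ≤ q.dist Z.S.q₀ := fun q => by
      obtain ⟨-, -, h3⟩ := q.coord_le Z.S.q₀
      have a1 := abs_le.1 (le_refl |q.a - Z.S.q₀.a|)
      have a4 := abs_le.1 (le_refl |q.f - Z.S.q₀.f|)
      have := abs_nonneg (q.b - Z.S.q₀.b)
      have := abs_nonneg (q.e - Z.S.q₀.e)
      rw [abs_le]
      constructor <;> linarith [a1.1, a1.2, a4.1, a4.2]
    have hu : ∀ q : NF, |(2 * q.a + q.e - q.b - 2 * q.f) / 2 - (2 * Z.S.q₀.a - Z.S.q₀.b)| ≤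
        q.dist Z.S.q₀ := fun q => by
      obtain ⟨-, -, h3⟩ := q.coord_le Z.S.q₀
      have a1 := abs_le.1 (le_refl |q.a - Z.S.q₀.a|)
      have a2 := abs_le.1 (le_refl |q.b - Z.S.q₀.b|)
      have a3 := abs_le.1 (le_refl |q.e - Z.S.q₀.e|)
      have a4 := abs_le.1 (le_refl |q.f - Z.S.q₀.f|)
      rw [abs_le]
      constructor <;> linarith [a1.1, a1.2, a2.1, a2.2, a3.1, a3.2, a4.1, a4.2]
    have hell := ell_pos h h1 h2 hp hw
    obtain ⟨ε, hε, ρ, hρ, key⟩ := Z.key (nF := fun q => 1 + (q.a - q.f) / 2)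
      (uF := fun q => (2 * q.a + q.e - q.b - 2 * q.f) / 2) hn hu hell
      (fun q A₀ hl hq hA _ hA1 z0 I1 I2 => by
        have tn : Tendsto (fun k => 1 + ((q k).a - (q k).f) / 2) atTop (𝓝 (1 + Z.S.q₀.a)) :=
          tendsto_sub_nhds_zero_iff.1 (squeeze_zero_norm (fun k => hn (q k)) hq)
        have tu : Tendsto (fun k => (2 * (q k).a + (q k).e - (q k).b - 2 * (q k).f) / 2) atTop
            (𝓝 (2 * Z.S.q₀.a - Z.S.q₀.b)) :=
          tendsto_sub_nhds_zero_iff.1 (squeeze_zero_norm (fun k => hu (q k)) hq)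
        have z2 : A₀ 2 = -((2 * Z.S.q₀.a - Z.S.q₀.b) * A₀ 0) / 2 :=
          tendsto_nhds_unique (comp hA 2) (((tu.mul (comp hA 0)).neg.div_const 2).congr fun k => by
            simp [NF.A, hl k]; ring)
        rw [z0, mul_zero, neg_zero, zero_div] at z2
        have z4 : A₀ 4 = 0 :=
          tendsto_nhds_unique (comp hA 4) (tendsto_const_nhds.congr fun k => by
            simp only [NF.A, Pi.smul_apply, smul_eq_mul, Matrix.cons_val]; ring)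
        have z5 : A₀ 5 = -(2 * Z.S.q₀.a - Z.S.q₀.b) * (A₀ 1 - A₀ 2) -
            3 * (A₀ 3 - (1 + Z.S.q₀.a) * (A₀ 1 - A₀ 2)) :=
          tendsto_nhds_unique (comp hA 5) (((tu.neg.mul ((comp hA 1).sub (comp hA 2))).sub
            (((comp hA 3).sub (tn.mul ((comp hA 1).sub (comp hA 2)))).const_mul 3)).congr
            fun k => by
              simp only [NF.A, hl k, Pi.smul_apply, smul_eq_mul, Matrix.cons_val,
                Matrix.cons_val_one, Matrix.cons_val_zero]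
              ring)
        rw [z2, sub_zero] at z5
        refine N3 h h1 h2 hp hw (w := 2 * A₀ 1) (κ₁ := A₀ 3 - (1 + Z.S.q₀.a) * A₀ 1) (κ₂ := A₀ 5)
          (by rw [z5]; ring) ?_ ?_ ?_
        · by_contra hn
          push Not at hn
          obtain ⟨a1, a2, a3⟩ := hn
          have a4 : A₀ 1 = 0 := by linarith
          rw [a4, mul_zero, sub_zero] at a2
          rw [fin6_eq_zero z0 a4 z2 a2 z4 a3, norm_zero] at hA1
          exact zero_ne_one hA1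
        · rw [← I1]
          congr 1
          funext t
          have := (hell t).ne'
          simp only [Ef, z2, z4]
          rw [add_div' _ _ _ this]
          congr 1
          ring
        · rw [← I2]
          congr 1
          funext t
          have := (hell t).ne'
          simp only [Xi, Bf, z0, z2, z4]
          field_simp
          ring)
    exact ⟨ε, hε, ρ, hρ, fun q h3 h4 => (key q h3 h4).imp id fun h5 =>
      ⟨h5.1, fun h6 => absurd hp h6⟩⟩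
  · obtain ⟨ε, hε, ρ, hρ, key⟩ := Z.key (nF := fun _ => 0) (uF := fun _ => 0) (n₀ := 0) (u₀ := 0)
      (fun q => by simpa using q.dist_nonneg _) (fun q => by simpa using q.dist_nonneg _)
      (fun t => by simp)
      (fun q A₀ hl hq hA hne hA1 z0 I1 I2 => by
        have tA := NF.tendsto_A0 hq
        have e0 : Z.S.q₀.A 0 0 = ‖Z.S.q₀.A 0 0‖ • A₀ :=
          tendsto_nhds_unique tA ((tA.norm.smul hA).congr fun k => by
            rw [smul_smul, mul_inv_cancel₀ (norm_ne_zero_iff.2 (hne k)), one_smul])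
        have e1 := congrFun e0 0
        have e2 := congrFun e0 1
        have e3 := congrFun e0 2
        generalize ‖Z.S.q₀.A 0 0‖ = θ at e1 e2 e3
        simp only [NF.A, Pi.smul_apply, smul_eq_mul, Matrix.cons_val, Matrix.cons_val_one,
          Matrix.cons_val_zero, z0] at e1 e2 e3
        have z3 : A₀ 3 = 0 :=
          tendsto_nhds_unique (comp hA 3) (tendsto_const_nhds.congr fun k => by simp [NF.A])
        have z4 : A₀ 4 = 0 :=
          tendsto_nhds_unique (comp hA 4) (tendsto_const_nhds.congr fun k => by simp [NF.A])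
        have z5 : A₀ 5 = 0 :=
          tendsto_nhds_unique (comp hA 5) (tendsto_const_nhds.congr fun k => by simp [NF.A])
        have h1 : Z.S.q₀.l1 = 1 := by linarith
        refine hrev ⟨h1, N2 h h1 h2 (U := A₀ 1 + A₀ 2) (W := A₀ 1 - A₀ 2) (θ := θ) ?_
          (by linarith) (by linarith) ?_ ?_⟩
        · by_contra hn
          push Not at hn
          rw [fin6_eq_zero z0 (by linarith [hn.1, hn.2]) (by linarith [hn.1, hn.2]) z3 z4 z5,
            norm_zero] at hA1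
          exact zero_ne_one hA1
        · rw [← I1]
          congr 1
          funext t
          simp only [Ef, z3, z4, z5]
          ring
        · have := area_form h (A₀ 1) (A₀ 2)
          rw [show (fun t => (A₀ 1 * ((Z.S.γ t).1 + (Z.S.γ t).2) * ((Z.S.γ t).1 - (Z.S.γ t).2) +
            A₀ 2 * ((Z.S.γ t).1 - (Z.S.γ t).2) ^ 2 / 2) *
              ((Z.S.q₀.V (Z.S.γ t)).1 + (Z.S.q₀.V (Z.S.γ t)).2)) = fun t => Xi 0 0 A₀ (Z.S.γ t) *
              ((Z.S.q₀.V (Z.S.γ t)).1 + (Z.S.q₀.V (Z.S.γ t)).2) from funext fun t => by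
            simp [Xi, Bf, z0, z3, z4, z5], I2] at this
          linarith)
    refine ⟨ε, hε, ρ, hρ, fun q h3 h4 => (key q h3 h4).imp id fun h5 => ⟨h5.1, fun _ => ?_⟩⟩
    have e1 := congrFun h5.2 0
    have e2 := congrFun h5.2 1
    have e3 := congrFun h5.2 2
    simp only [NF.A, Matrix.cons_val, Matrix.cons_val_one, Matrix.cons_val_zero,
      Pi.zero_apply] at e1 e2 e3
    exact ⟨by linarith, by linarith, by linarith⟩

end Pool.Agent.Lib.MP_bf91d6_an
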