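import Pool.Agent.Lib.MP_bf91d6_an.H3a

set_option autoImplicit false

namespace Pool.Agent.Lib.MP_bf91d6_an

open Set Filter Topology Metric MeasureTheory

/-- The two halves of a loop. -/
structure Pair where
  S : Setup
  S' : Setup
  C : ℝ
  c : ℝ
  C' : ℝ
  c' : ℝ
  hq : S'.q₀ = S.q₀.star
  hγ : S'.γ = fun t => (S.γ (-t)).swap
  hR : S'.R = S.R
  C_pos : 0 < C
  c_pos : 0 < c
  C'_pos : 0 < C'
  c'_pos : 0 < c'
  facts : ∀ η > (0 : ℝ), ∃ ρ > (0 : ℝ), ∃ r₀ > (0 : ℝ), ∀ q : NF, q.dist S.q₀ ≤ ρ →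
    ∀ r ∈ Ioo 0 r₀, (S.Facts C c q r ∧ S'.Facts C' c' q.star r) ∧
      ‖S.P q r (S.T q r) - S.z₀‖ ≤ η ∧ ‖S'.P q.star r (S'.T q.star r) - S'.z₀‖ ≤ η

/-- The divergence corrected by an exact derivative. -/
noncomputable def NF.D (q : NF) (n u : ℝ) (p : ℝ × ℝ) : ℝ :=
  q.div p - u * ((q.V p).1 + (q.V p).2) / (1 + n * (p.1 + p.2))

/-- The integrating factor. -/
noncomputable def Bf (n u ξ : ℝ) : ℝ := Real.exp (-u * Lg n ξ)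

/-- `(A₁ ξ + A₂ η + A₃ ξ² + A₄ ξ η + A₅ η²) / (1 + n ξ)` with `ξ = x + y`, `η = x - y`. -/
noncomputable def Ef (n : ℝ) (A : Fin 6 → ℝ) (p : ℝ × ℝ) : ℝ :=
  (A 1 * (p.1 + p.2) + A 2 * (p.1 - p.2) + A 3 * (p.1 + p.2) ^ 2 +
    A 4 * (p.1 + p.2) * (p.1 - p.2) + A 5 * (p.1 - p.2) ^ 2) / (1 + n * (p.1 + p.2))

/-- The primitive in `η` of `B (A₀ + E)`. -/
noncomputable def Xi (n u : ℝ) (A : Fin 6 → ℝ) (p : ℝ × ℝ) : ℝ :=
  Bf n u (p.1 + p.2) * (A 0 * (p.1 - p.2) +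
    (A 1 * (p.1 + p.2) * (p.1 - p.2) + A 2 * (p.1 - p.2) ^ 2 / 2 +
      A 3 * (p.1 + p.2) ^ 2 * (p.1 - p.2) + A 4 * (p.1 + p.2) * (p.1 - p.2) ^ 2 / 2 +
      A 5 * (p.1 - p.2) ^ 3 / 3) / (1 + n * (p.1 + p.2)))

/-- The coefficients of `q.D n u`. -/
noncomputable def NF.A (q : NF) (n u : ℝ) : Fin 6 → ℝ :=
  ![q.l1 - q.l2,
    ((2 * q.a + q.e - u * q.l1) + (q.b + 2 * q.f + u * q.l2)) / 2,
    ((2 * q.a + q.e - u * q.l1) - (q.b + 2 * q.f + u * q.l2)) / 2,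
    (n * (2 * q.a + q.e + q.b + 2 * q.f) * 2 - u * (q.a + q.b + q.e + q.f)) / 4,
    (n * (2 * q.a + q.e - q.b - 2 * q.f) - u * (q.a + 2 - q.f)) / 2,
    -u * (q.a - q.b - q.e + q.f) / 4]

theorem NF.D_eq (q : NF) (n u : ℝ) {p : ℝ × ℝ} (h : 1 + n * (p.1 + p.2) ≠ 0) :
    q.D n u p = q.A n u 0 + Ef n (q.A n u) p := by
  simp only [NF.D, NF.div, NF.V, NF.A, Ef, Matrix.cons_val_zero, Matrix.cons_val_one,
    Matrix.cons_val]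
  field_simp
  ring

theorem NF.D_star (q : NF) (n u : ℝ) (p : ℝ × ℝ) : q.star.D n u p = -q.D n u p.swap := by
  simp only [NF.D, NF.div, NF.V, NF.star, Prod.fst_swap, Prod.snd_swap, add_comm p.2 p.1]
  ring

namespace Pair

variable (Z : Pair)

def Both (q : NF) (r : ℝ) : Prop := Z.S.Facts Z.C Z.c q r ∧ Z.S'.Facts Z.C' Z.c' q.star r

noncomputable def gap (q : NF) (r : ℝ) : ℝ := Z.S.s q r - Z.S'.s q.star r

/-- `1 + n ξ > 0` along both arcs and at the base point of the section. -/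
def Ell (q : NF) (n r : ℝ) : Prop :=
  (∀ t ∈ Icc 0 (Z.S.T q r), 0 < 1 + n * ((Z.S.P q r t).1 + (Z.S.P q r t).2)) ∧
    (∀ t ∈ Icc 0 (Z.S'.T q.star r),
      0 < 1 + n * ((Z.S'.P q.star r t).1 + (Z.S'.P q.star r t).2)) ∧
    0 < 1 + n * (Z.S.z₀.1 + Z.S.z₀.2)

theorem z₀_eq : Z.S'.z₀ = Z.S.z₀.swap := by simp [Setup.z₀, Z.hγ]

theorem X₀_eq : Z.S'.X₀ = -Z.S.X₀.swap := by
  simp [Setup.X₀, Z.hγ, Z.hq, NF.star_V]

theorem L_eq (p : ℝ × ℝ) : Z.S'.L p.swap = -Z.S.L p := by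
  simp only [Setup.L, z₀_eq, X₀_eq, dot, Prod.fst_neg, Prod.snd_neg, Prod.fst_swap, Prod.snd_swap,
    Prod.fst_sub, Prod.snd_sub]
  ring

theorem z_eq (s : ℝ) : Z.S'.z s = (Z.S.z s).swap := by
  ext <;> simp [Setup.z, z₀_eq, X₀_eq, rot]

theorem Γ_eq (p : ℝ × ℝ) : p.swap ∈ Z.S'.Γ ↔ p ∈ Z.S.Γ := by
  simp only [Setup.Γ, Z.hγ, mem_insert_iff, mem_range]
  constructor
  · rintro (h | ⟨t, h⟩)
    · exact Or.inl (by simpa using congrArg Prod.swap h)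
    · exact Or.inr ⟨-t, by simpa using congrArg Prod.swap h⟩
  · rintro (h | ⟨t, h⟩)
    · exact Or.inl (by simp [h])
    · exact Or.inr ⟨-t, by simp [h]⟩

theorem thick_eq {ε : ℝ} {p : ℝ × ℝ} :
    p.swap ∈ thickening ε Z.S'.Γ ↔ p ∈ thickening ε Z.S.Γ := by
  simp only [mem_thickening_iff, dist_eq_norm]
  constructor
  · rintro ⟨g, hg, h⟩
    refine ⟨g.swap, (Z.Γ_eq _).1 (by simpa using hg), ?_⟩
    rwa [← norm_swap, Prod.swap_sub, Prod.swap_swap]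
  · rintro ⟨g, hg, h⟩
    exact ⟨g.swap, (Z.Γ_eq _).2 hg, by rwa [← Prod.swap_sub, norm_swap]⟩

theorem P'_eq (q : NF) (r t : ℝ) : Z.S'.P q.star r t = (Z.S.P q r (-t)).swap := by
  simp only [Setup.P, Z.hR]
  exact q.flow_star Z.S.R (r, r) t

theorem dist_eq (q : NF) : q.star.dist Z.S'.q₀ = q.dist Z.S.q₀ := by rw [Z.hq, NF.dist_star]

end Pair

end Pool.Agent.Lib.MP_bf91d6_an
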