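import Mathlib

set_option autoImplicit false

namespace Pool.Agent.Lib.MP_bf91d6_an

open Set Filter Topology Metric

/-- The planar polynomial vector field of degree at most two with coefficient vector `c`. -/
def field (c : Fin 12 → ℝ) (p : ℝ × ℝ) : ℝ × ℝ :=
  (c 0 + c 1 * p.1 + c 2 * p.2 + c 3 * p.1 ^ 2 + c 4 * p.1 * p.2 + c 5 * p.2 ^ 2,
    c 6 + c 7 * p.1 + c 8 * p.2 + c 9 * p.1 ^ 2 + c 10 * p.1 * p.2 + c 11 * p.2 ^ 2)

/-- The system has degree exactly two. -/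
def IsQuadratic (c : Fin 12 → ℝ) : Prop :=
  c 3 ≠ 0 ∨ c 4 ≠ 0 ∨ c 5 ≠ 0 ∨ c 9 ≠ 0 ∨ c 10 ≠ 0 ∨ c 11 ≠ 0

/-- `γ` is a solution, defined for all times, of the system `p' = V p`. -/
def IsSol (V : ℝ × ℝ → ℝ × ℝ) (γ : ℝ → ℝ × ℝ) : Prop :=
  ∀ t, HasDerivAt γ (V (γ t)) t

/-- A periodic orbit: the image of a non-constant periodic solution. -/
def IsPeriodicOrbit (V : ℝ × ℝ → ℝ × ℝ) (O : Set (ℝ × ℝ)) : Prop :=
  ∃ (γ : ℝ → ℝ × ℝ) (T : ℝ), IsSol V γ ∧ 0 < T ∧ Function.Periodic γ T ∧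
    (∃ s t, γ s ≠ γ t) ∧ O = range γ

/-- A limit cycle: a periodic orbit with a neighbourhood containing no other periodic orbit. -/
def IsLimitCycle (V : ℝ × ℝ → ℝ × ℝ) (O : Set (ℝ × ℝ)) : Prop :=
  IsPeriodicOrbit V O ∧
    ∃ U, IsOpen U ∧ O ⊆ U ∧ ∀ O', IsPeriodicOrbit V O' → O' ⊆ U → O' = O

/-- A (hyperbolic) saddle: a zero of the field at which the Jacobian determinant is negative. -/
def IsSaddle (c : Fin 12 → ℝ) (s : ℝ × ℝ) : Prop :=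
  field c s = 0 ∧
    (c 1 + 2 * c 3 * s.1 + c 4 * s.2) * (c 8 + c 10 * s.1 + 2 * c 11 * s.2) -
      (c 2 + c 4 * s.1 + 2 * c 5 * s.2) * (c 7 + 2 * c 9 * s.1 + c 10 * s.2) < 0

/-- A homoclinic loop: a saddle `s` together with a non-stationary orbit whose alpha- and
omega-limit sets (sets of cluster points as time tends to `-∞`, `+∞`) both equal `{s}`. -/
def IsLoop (c : Fin 12 → ℝ) (Γ : Set (ℝ × ℝ)) : Prop :=
  ∃ (s : ℝ × ℝ) (γ : ℝ → ℝ × ℝ), IsSaddle c s ∧ IsSol (field c) γ ∧ (∃ t u, γ t ≠ γ u) ∧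
    {p | MapClusterPt p atBot γ} = {s} ∧ {p | MapClusterPt p atTop γ} = {s} ∧
    Γ = insert s (range γ)

/-- The limit cycles of `V` lying in the `ε`-neighbourhood of `Γ`. -/
def cyclesNear (V : ℝ × ℝ → ℝ × ℝ) (Γ : Set (ℝ × ℝ)) (ε : ℝ) : Set (Set (ℝ × ℝ)) :=
  {O | IsLimitCycle V O ∧ O ⊆ thickening ε Γ}

/-- The cyclicity of `Γ` within the quadratic family (`⊤` if there is no finite bound). -/
noncomputable def cyclicity (c : Fin 12 → ℝ) (Γ : Set (ℝ × ℝ)) : ℕ∞ :=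
  sInf {k : ℕ∞ | ∃ ε > (0 : ℝ), ∃ U ∈ 𝓝 c, ∀ c' ∈ U, IsQuadratic c' →
    (cyclesNear (field c') Γ ε).encard ≤ k}

/-- The supremum of the cyclicities of all homoclinic loops of all quadratic systems. -/
noncomputable def Nbif : ℕ∞ :=
  ⨆ (c : Fin 12 → ℝ) (Γ : Set (ℝ × ℝ)) (_ : IsQuadratic c ∧ IsLoop c Γ), cyclicity c Γ

end Pool.Agent.Lib.MP_bf91d6_an
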