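import Pool.Agent.Lib.MP_bf91d6_an.NF

set_option autoImplicit false

namespace Pool.Agent.Lib.MP_bf91d6_an

open Set Filter Topology Metric MeasureTheory

variable {q : NF} {γ : ℝ → ℝ × ℝ}

theorem NF.V_zero (q : NF) : q.V 0 = 0 := by simp [NF.V]

theorem NF.Loop.nonsing (h : q.Loop γ) (t : ℝ) : q.V (γ t) ≠ 0 := by
  intro h0
  have hc : γ = fun _ => γ t := funext (h.sol.const_of_zero q.contDiff_V h0)
  have h1 := h.top
  rw [hc] at h1
  have h2 : γ t = 0 := tendsto_nhds_unique tendsto_const_nhds h1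
  exact h.ne (by rw [hc]; exact h2)

theorem NF.Loop.ne_zero (h : q.Loop γ) (t : ℝ) : γ t ≠ 0 := fun h0 =>
  h.nonsing t (by rw [h0, NF.V_zero])

theorem NF.Loop.inj (h : q.Loop γ) : Function.Injective γ := by
  have key : ∀ s t, s < t → γ s ≠ γ t := by
    intro s t hst he
    have hp := h.sol.periodic_of_eq q.contDiff_V he
    have h1 : Tendsto (fun n : ℕ => γ (0 + n * (t - s))) atTop (𝓝 0) :=
      h.top.comp (tendsto_atTop_add_const_left _ _
        (tendsto_natCast_atTop_atTop.atTop_mul_const (sub_pos.2 hst)))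
    have h2 : (fun n : ℕ => γ (0 + n * (t - s))) = fun _ => γ 0 :=
      funext fun n => (hp.nat_mul n) 0
    rw [h2] at h1
    exact h.ne (tendsto_nhds_unique tendsto_const_nhds h1)
  intro s t he
  rcases lt_trichotomy s t with h1 | h1 | h1
  · exact absurd he (key s t h1)
  · exact h1
  · exact absurd he.symm (key t s h1)

theorem NF.Loop.tend1 (h : q.Loop γ) : Tendsto (fun t => (γ t).1) atBot (𝓝 0) :=
  (continuous_fst.tendsto (0 : ℝ × ℝ)).comp h.bot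

theorem NF.Loop.tend2 (h : q.Loop γ) : Tendsto (fun t => (γ t).2) atBot (𝓝 0) :=
  (continuous_snd.tendsto (0 : ℝ × ℝ)).comp h.bot

/-- A function that is nondecreasing near `-∞` and tends to `0` there is nonnegative. -/
theorem nonneg_of_atBot {g g' : ℝ → ℝ} {S : ℝ} (hg : ∀ t ≤ S, HasDerivAt g (g' t) t)
    (h0 : ∀ t ≤ S, 0 ≤ g' t) (hl : Tendsto g atBot (𝓝 0)) {t : ℝ} (ht : t ≤ S) : 0 ≤ g t := by
  refine le_of_tendsto hl ?_
  filter_upwards [eventually_le_atBot t] with s hs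
  exact le_of_deriv_nonneg hs (fun u hu => hg u (hu.2.trans ht)) (fun u hu => h0 u (hu.2.trans ht))

theorem NF.Loop.pos2 (h : q.Loop γ) (t₀ : ℝ) : 0 < (γ t₀).2 := by
  by_contra hn
  have hc := h.sol.continuous
  set k : ℝ → ℝ := fun t => -q.l2 + q.e * (γ t).1 + q.f * (γ t).2 with hk
  have hkc : Continuous k := by simp only [hk]; fun_prop
  have hd : ∀ t, (q.V (γ t)).2 = k t * (γ t).2 + (γ t).1 ^ 2 := fun t => by
    simp only [NF.V, hk]; ring
  have h1 : ∀ t ≤ t₀, (γ t).2 ≤ 0 := fun t ht => by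
    by_contra hp
    exact hn (pos_fwd (φ := fun t => (γ t).2) ht hkc (fun s _ => h.sol.snd s)
      (fun s _ => by rw [hd]; nlinarith [sq_nonneg (γ s).1]) (not_le.1 hp))
  have hkl : Tendsto k atBot (𝓝 (-q.l2 + q.e * 0 + q.f * 0)) :=
    (tendsto_const_nhds.add (h.tend1.const_mul _)).add (h.tend2.const_mul _)
  have h2 : ∀ᶠ t in atBot, k t < 0 := hkl.eventually (gt_mem_nhds (by simpa using h.l2))
  obtain ⟨S, hS⟩ := eventually_atBot.1 (h2.and (eventually_le_atBot t₀))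
  have h3 : ∀ t ≤ S, (γ t).2 = 0 := fun t ht =>
    le_antisymm (h1 t (hS t ht).2) (nonneg_of_atBot (fun s _ => h.sol.snd s)
      (fun s hs => by
        rw [hd]
        nlinarith [sq_nonneg (γ s).1, mul_nonneg_of_nonpos_of_nonpos (hS s hs).1.le
          (h1 s (hS s hs).2)]) h.tend2 ht)
  have h4 : HasDerivAt (fun t => (γ t).2) 0 (S - 1) := by
    refine (hasDerivAt_const (S - 1) (0 : ℝ)).congr_of_eventuallyEq ?_
    filter_upwards [Iio_mem_nhds (show S - 1 < S by linarith)] with t ht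
    exact h3 t (le_of_lt ht)
  have h5 := (h.sol.snd (S - 1)).unique h4
  rw [hd, h3 _ (by linarith)] at h5
  apply h.ne_zero (S - 1)
  ext
  · simpa using h5
  · exact h3 _ (by linarith)

theorem NF.Loop.pos (h : q.Loop γ) (t : ℝ) : 0 < (γ t).1 ∧ 0 < (γ t).2 :=
  ⟨by simpa using h.star.pos2 (-t), h.pos2 t⟩

theorem NF.Loop.unst (h : q.Loop γ) : ∃ S ≤ (-1 : ℝ), ∀ t ≤ S,
    (γ t).2 ≤ (γ t).1 / 2 ∧ q.l1 / 2 * (γ t).1 ≤ (q.V (γ t)).1 := by
  have e1 : ∀ᶠ t in atBot, 0 < q.l1 + (q.a - 2) * (γ t).1 + (q.b - 2 * q.e) * (γ t).2 := by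
    have := (tendsto_const_nhds (x := q.l1).add (h.tend1.const_mul (q.a - 2))).add
      (h.tend2.const_mul (q.b - 2 * q.e))
    exact this.eventually (lt_mem_nhds (by simpa using h.l1))
  have e2 : ∀ᶠ t in atBot, 0 < 2 * q.l2 - (1 + 2 * q.f) * (γ t).2 := by
    have := (tendsto_const_nhds (x := 2 * q.l2).sub (h.tend2.const_mul (1 + 2 * q.f)))
    exact this.eventually (lt_mem_nhds (by simpa using h.l2))
  have e3 : ∀ᶠ t in atBot, 0 < q.l1 / 2 + q.a * (γ t).1 + (q.b - 1 / 2) * (γ t).2 := by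
    have := (tendsto_const_nhds (x := q.l1 / 2).add (h.tend1.const_mul q.a)).add
      (h.tend2.const_mul (q.b - 1 / 2))
    exact this.eventually (lt_mem_nhds (by simpa using h.l1))
  obtain ⟨S, hS⟩ := eventually_atBot.1 (((e1.and e2).and e3).and (eventually_le_atBot (-1)))
  refine ⟨S, (hS S le_rfl).2, fun t ht => ?_⟩
  have h1 : 0 ≤ (γ t).1 - 2 * (γ t).2 := by
    refine nonneg_of_atBot (g := fun t => (γ t).1 - 2 * (γ t).2) (S := S)
      (fun s _ => (h.sol.fst s).sub ((h.sol.snd s).const_mul 2)) (fun s hs => ?_)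
      (by simpa using h.tend1.sub (h.tend2.const_mul 2)) ht
    obtain ⟨⟨⟨a1, a2⟩, -⟩, -⟩ := hS s hs
    have := mul_pos a1 (h.pos s).1
    have := mul_pos a2 (h.pos s).2
    simp only [NF.V]
    nlinarith
  refine ⟨by linarith, ?_⟩
  obtain ⟨⟨-, a3⟩, -⟩ := hS t ht
  have := mul_pos a3 (h.pos t).1
  have := mul_nonneg h1 (h.pos t).2.le
  simp only [NF.V]
  nlinarith

theorem norm_eq_fst {p : ℝ × ℝ} (h2 : 0 ≤ p.2) (h : p.2 ≤ p.1) : ‖p‖ = p.1 := by
  rw [Prod.norm_def, Real.norm_eq_abs, Real.norm_eq_abs, abs_of_nonneg h2,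
    abs_of_nonneg (h2.trans h), max_eq_left h]

theorem abs_fst_le (p : ℝ × ℝ) : |p.1| ≤ ‖p‖ := norm_fst_le p

theorem abs_snd_le (p : ℝ × ℝ) : |p.2| ≤ ‖p‖ := norm_snd_le p

theorem NF.Loop.integrableOn_Iic (h : q.Loop γ) : IntegrableOn (fun t => ‖γ t‖) (Iic 0) := by
  obtain ⟨S, hS, hb⟩ := h.unst
  have hc : Continuous fun t => ‖γ t‖ := h.sol.continuous.norm
  have h1 : IntegrableOn (fun t => ‖γ t‖) (Iic S) := by
    have hl : 0 < q.l1 / 2 := half_pos h.l1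
    refine Integrable.mono' (((integrableOn_exp_mul_Iic hl S).const_mul
      ((γ S).1 * Real.exp (-(q.l1 / 2 * S))))) hc.aestronglyMeasurable ?_
    refine (ae_restrict_mem measurableSet_Iic).mono fun t ht => ?_
    have h2 := exp_le_of_deriv_const (φ := fun t => (γ t).1) (k := q.l1 / 2) ht
      (fun s _ => h.sol.fst s) (fun s hs => (hb s hs.2).2)
    rw [norm_norm, norm_eq_fst (h.pos t).2.le (by linarith [(hb t ht).1, (h.pos t).2])]
    calc (γ t).1 = (γ t).1 * Real.exp (q.l1 / 2 * (S - t)) *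
          (Real.exp (-(q.l1 / 2 * S)) * Real.exp (q.l1 / 2 * t)) := by
          rw [mul_assoc, ← Real.exp_add, ← Real.exp_add]
          ring_nf
          simp
      _ ≤ (γ S).1 * (Real.exp (-(q.l1 / 2 * S)) * Real.exp (q.l1 / 2 * t)) :=
          mul_le_mul_of_nonneg_right h2 (by positivity)
      _ = _ := by ring
  have h2 : IntegrableOn (fun t => ‖γ t‖) (Icc S 0) := hc.integrableOn_Icc
  refine (h1.union h2).mono_set fun t ht => ?_
  rcases le_total t S with h3 | h3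
  · exact Or.inl h3
  · exact Or.inr ⟨h3, ht⟩

theorem norm_swap (p : ℝ × ℝ) : ‖p.swap‖ = ‖p‖ := by
  simp [Prod.norm_def, max_comm]

theorem NF.Loop.integrable (h : q.Loop γ) : Integrable (fun t => ‖γ t‖) := by
  have h1 := h.integrableOn_Iic
  have h2 : IntegrableOn (fun t => ‖γ t‖) (Ici 0) := by
    have := h.star.integrableOn_Iic
    simp only [norm_swap] at this
    have h3 := IntegrableOn.comp_neg_Ici (f := fun t => ‖γ (-t)‖) (c := (0 : ℝ))
      (μ := volume) (by simpa using this)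
    simpa using h3
  rw [← integrableOn_univ, ← Iic_union_Ici (a := (0 : ℝ))]
  exact h1.union h2

theorem NF.Loop.exists_min (h : q.Loop γ) (a b : ℝ) :
    ∃ m > (0 : ℝ), ∀ t ∈ Icc a b, m ≤ ‖γ t‖ := by
  rcases lt_or_ge b a with hab | hab
  · exact ⟨1, one_pos, fun t ht => absurd (ht.1.trans ht.2) (not_le.2 hab)⟩
  obtain ⟨t, -, ht⟩ := isCompact_Icc.exists_isMinOn (nonempty_Icc.2 hab)
    h.sol.continuous.norm.continuousOn
  exact ⟨‖γ t‖, norm_pos_iff.2 (h.ne_zero t), fun s hs => ht hs⟩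

theorem NF.Loop.branch (h : q.Loop γ) : ∃ δ₀ > (0 : ℝ), ∀ δ ∈ Ioc 0 δ₀, ∃ t₀ ≤ (-1 : ℝ),
    (γ t₀).1 = δ ∧ (∀ t ≤ t₀, (γ t).2 ≤ (γ t).1 / 2 ∧ (γ t).1 ≤ δ) ∧ (γ (t₀ - 1)).1 < δ ∧
      ∀ t ∈ Icc t₀ 1, δ ≤ ‖γ t‖ := by
  obtain ⟨S, hS, hb⟩ := h.unst
  obtain ⟨m, hm, hmin⟩ := h.exists_min S 1
  have hmono : ∀ s t, s < t → t ≤ S → (γ s).1 < (γ t).1 := fun s t hst ht =>
    lt_of_deriv_pos (g := fun t => (γ t).1) hst (fun u _ => h.sol.fst u)
      (fun u hu => lt_of_lt_of_le (mul_pos (half_pos h.l1) (h.pos u).1)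
        (hb u (hu.2.le.trans ht)).2)
  refine ⟨min m (γ S).1, lt_min hm (h.pos S).1, fun δ hδ => ?_⟩
  obtain ⟨s, hs1, hs2⟩ := ((h.tend1.eventually (gt_mem_nhds hδ.1)).and
    (eventually_le_atBot S)).exists
  obtain ⟨t₀, ht₀, he⟩ := intermediate_value_Icc hs2
    (f := fun t => (γ t).1) h.sol.continuous.fst.continuousOn
    (show δ ∈ Icc _ _ from ⟨hs1.le, hδ.2.trans (min_le_right _ _)⟩)
  simp only at he
  refine ⟨t₀, ht₀.2.trans hS, he, fun t ht => ⟨(hb t (ht.trans ht₀.2)).1, ?_⟩, ?_, fun t ht => ?_⟩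
  · rcases ht.eq_or_lt with h1 | h1
    · rw [h1, he]
    · exact he ▸ (hmono t t₀ h1 ht₀.2).le
  · exact he ▸ hmono _ _ (by linarith) ht₀.2
  · rcases le_total t S with h1 | h1
    · refine le_trans ?_ ((le_abs_self _).trans (abs_fst_le _))
      rcases ht.1.eq_or_lt with h2 | h2
      · rw [← h2, he]
      · exact he ▸ (hmono t₀ t h2 h1).le
    · exact (hδ.2.trans (min_le_left _ _)).trans (hmin t ⟨h1, ht.2⟩)

theorem NF.Loop.cone (h : q.Loop γ) : ∃ δ₀ > (0 : ℝ), ∀ t, ‖γ t‖ ≤ δ₀ →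
    (γ t).2 ≤ (γ t).1 / 2 ∨ (γ t).1 ≤ (γ t).2 / 2 := by
  obtain ⟨S, -, hb⟩ := h.unst
  obtain ⟨S', -, hb'⟩ := h.star.unst
  obtain ⟨m, hm, hmin⟩ := h.exists_min S (-S')
  refine ⟨m / 2, half_pos hm, fun t ht => ?_⟩
  by_cases h1 : t ≤ S
  · exact Or.inl (hb t h1).1
  by_cases h2 : -t ≤ S'
  · right
    simpa using (hb' (-t) h2).1
  have := hmin t ⟨by linarith, by linarith⟩
  linarith

theorem NF.Loop.bdd (h : q.Loop γ) : ∃ R > (0 : ℝ), ∀ t, ‖γ t‖ ≤ R := by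
  obtain ⟨S, hS⟩ := eventually_atBot.1 (h.bot.norm.eventually
    (gt_mem_nhds (show ‖(0 : ℝ × ℝ)‖ < 1 by simp)))
  obtain ⟨S', hS'⟩ := eventually_atTop.1 (h.top.norm.eventually
    (gt_mem_nhds (show ‖(0 : ℝ × ℝ)‖ < 1 by simp)))
  obtain ⟨C, hC⟩ := isCompact_Icc.exists_bound_of_continuousOn (s := Icc S S')
    h.sol.continuous.continuousOn
  refine ⟨max C 1, lt_max_of_lt_right one_pos, fun t => ?_⟩
  rcases le_total t S with h1 | h1
  · exact (hS t h1).le.trans (le_max_right _ _)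
  rcases le_total S' t with h2 | h2
  · exact (hS' t h2).le.trans (le_max_right _ _)
  exact (hC t ⟨h1, h2⟩).trans (le_max_left _ _)

end Pool.Agent.Lib.MP_bf91d6_an
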