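import Pool.Agent.Lib.MP_bf91d6_an.G

set_option autoImplicit false

namespace Pool.Agent.Lib.MP_bf91d6_an

open Set Filter Topology Metric MeasureTheory
open scoped NNReal

section Flow

variable {E : Type} [NormedAddCommGroup E] [NormedSpace ℝ E]

theorem exists_sol_Ioo [CompleteSpace E] {v : E → E} {K L : ℝ≥0} (hK : LipschitzWith K v)
    (hL : ∀ x, ‖v x‖ ≤ L) (x : E) (n : ℕ) :
    ∃ α : ℝ → E, α 0 = x ∧ ∀ t ∈ Ioo (-((n : ℝ) + 1)) ((n : ℝ) + 1),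
      HasDerivAt α (v (α t)) t := by
  have hn : (0 : ℝ) < (n : ℝ) + 1 := by positivity
  have h : IsPicardLindelof (fun _ : ℝ => v) (tmin := -((n : ℝ) + 1)) (tmax := (n : ℝ) + 1)
      ⟨0, by constructor <;> linarith⟩ x (L * ((n : ℝ≥0) + 1)) 0 L K :=
    { lipschitzOnWith := fun _ _ => hK.lipschitzOnWith
      continuousOn := fun _ _ => continuousOn_const
      norm_le := fun _ _ y _ => hL y
      mul_max_le := by simp }
  obtain ⟨α, h0, hα⟩ := h.exists_eq_forall_mem_Icc_hasDerivWithinAt₀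
  exact ⟨α, h0, fun t ht => (hα t (Ioo_subset_Icc_self ht)).hasDerivAt (Icc_mem_nhds ht.1 ht.2)⟩

theorem exists_global_sol [CompleteSpace E] {v : E → E} {K L : ℝ≥0} (hK : LipschitzWith K v)
    (hL : ∀ x, ‖v x‖ ≤ L) (x : E) :
    ∃ Φ : ℝ → E, Φ 0 = x ∧ ∀ t, HasDerivAt Φ (v (Φ t)) t := by
  choose α h0 hα using exists_sol_Ioo hK hL x
  have hmem : ∀ (n : ℕ) (t : ℝ), |t| < n + 1 → t ∈ Ioo (-((n : ℝ) + 1)) ((n : ℝ) + 1) :=
    fun n t h => ⟨(abs_lt.1 h).1, (abs_lt.1 h).2⟩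
  have huniq : ∀ (n m : ℕ), n ≤ m → ∀ t : ℝ, |t| < n + 1 → α n t = α m t := by
    intro n m hnm t ht
    have hnm' : (n : ℝ) ≤ m := Nat.cast_le.2 hnm
    refine ODE_solution_unique_of_mem_Ioo (v := fun _ => v) (s := fun _ => univ) (K := K)
      (a := -((n : ℝ) + 1)) (b := (n : ℝ) + 1) (t₀ := 0)
      (fun _ _ => hK.lipschitzOnWith) (hmem n 0 (by simp; positivity))
      (fun s hs => ⟨hα n s hs, trivial⟩)
      (fun s hs => ⟨hα m s ⟨by linarith [hs.1], by linarith [hs.2]⟩, trivial⟩)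
      (by rw [h0, h0]) (hmem n t ht)
  have hceil : ∀ t : ℝ, |t| < (⌈|t|⌉₊ : ℝ) + 1 := fun t => by linarith [Nat.le_ceil |t|]
  set Φ : ℝ → E := fun t => α ⌈|t|⌉₊ t with hΦ
  have hloc : ∀ (n : ℕ) (t : ℝ), |t| < n + 1 → Φ t = α n t := by
    intro n t ht
    rcases le_total n ⌈|t|⌉₊ with h | h
    · exact (huniq _ _ h t ht).symm
    · exact huniq _ _ h t (hceil t)
  refine ⟨Φ, h0 _, fun t => ?_⟩
  have h1 := hα ⌈|t|⌉₊ t (hmem _ t (hceil t))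
  refine h1.congr_of_eventuallyEq ?_
  have : ∀ᶠ s in 𝓝 t, |s| < (⌈|t|⌉₊ : ℝ) + 1 :=
    (continuous_abs.tendsto t).eventually (gt_mem_nhds (hceil t))
  exact this.mono fun s hs => hloc _ s hs

end Flow

def cl (R x : ℝ) : ℝ := max (-R) (min R x)

def clamp (R : ℝ) (p : ℝ × ℝ) : ℝ × ℝ := (cl R p.1, cl R p.2)

theorem cl_eq {R x : ℝ} (h : |x| ≤ R) : cl R x = x := by
  rw [cl, min_eq_right (abs_le.1 h).2, max_eq_right (abs_le.1 h).1]

theorem abs_cl_le (R x : ℝ) : |cl R x| ≤ |R| := by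
  unfold cl
  rw [abs_le]
  constructor
  · exact le_trans (by linarith [le_abs_self R]) (le_max_left _ _)
  · exact max_le (neg_le_abs R) ((min_le_left _ _).trans (le_abs_self R))

theorem abs_cl_sub (R x y : ℝ) : |cl R x - cl R y| ≤ |x - y| := by
  unfold cl
  refine (abs_max_sub_max_le_max _ _ _ _).trans (max_le (by simp) ?_)
  exact (abs_min_sub_min_le_max _ _ _ _).trans (max_le (by simp) le_rfl)

theorem clamp_eq {R : ℝ} {p : ℝ × ℝ} (h : ‖p‖ ≤ R) : clamp R p = p := by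
  rw [clamp, cl_eq ((abs_fst_le p).trans h), cl_eq ((abs_snd_le p).trans h)]

theorem norm_le_of_abs {p : ℝ × ℝ} {c : ℝ} (h1 : |p.1| ≤ c) (h2 : |p.2| ≤ c) : ‖p‖ ≤ c := by
  rw [Prod.norm_def]
  exact max_le h1 h2

theorem norm_clamp_le (R : ℝ) (p : ℝ × ℝ) : ‖clamp R p‖ ≤ |R| :=
  norm_le_of_abs (abs_cl_le _ _) (abs_cl_le _ _)

theorem norm_clamp_sub (R : ℝ) (p p' : ℝ × ℝ) : ‖clamp R p - clamp R p'‖ ≤ ‖p - p'‖ :=
  norm_le_of_abs ((abs_cl_sub _ _ _).trans (abs_fst_le (p - p')))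
    ((abs_cl_sub _ _ _).trans (abs_snd_le (p - p')))

theorem clamp_swap (R : ℝ) (p : ℝ × ℝ) : clamp R p.swap = (clamp R p).swap := rfl

/-- A bound for the coefficients. -/
def NF.size (q : NF) : ℝ := |q.l1| + |q.l2| + |q.a| + |q.b| + |q.e| + |q.f| + 1

theorem NF.one_le_size (q : NF) : 1 ≤ q.size := by
  unfold NF.size
  linarith [abs_nonneg q.l1, abs_nonneg q.l2, abs_nonneg q.a, abs_nonneg q.b, abs_nonneg q.e,
    abs_nonneg q.f]

theorem NF.size_star (q : NF) : q.star.size = q.size := by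
  simp only [NF.size, NF.star, abs_neg]
  ring

theorem NF.size_le (q q' : NF) : q.size ≤ q'.size + q.dist q' := by
  unfold NF.size NF.dist
  linarith [abs_sub_abs_le_abs_sub q.l1 q'.l1, abs_sub_abs_le_abs_sub q.l2 q'.l2,
    abs_sub_abs_le_abs_sub q.a q'.a, abs_sub_abs_le_abs_sub q.b q'.b,
    abs_sub_abs_le_abs_sub q.e q'.e, abs_sub_abs_le_abs_sub q.f q'.f]

theorem abs_mul_le {a b A B : ℝ} (ha : |a| ≤ A) (hb : |b| ≤ B) : |a * b| ≤ A * B := by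
  rw [abs_mul]
  exact mul_le_mul ha hb (abs_nonneg _) ((abs_nonneg _).trans ha)

/-- The quadratic form `a x² + b x y + c y²` is Lipschitz on a ball. -/
theorem quad_sub_le (a b c : ℝ) {R : ℝ} {p p' : ℝ × ℝ} (h : ‖p‖ ≤ R) (h' : ‖p'‖ ≤ R) :
    |(a * p.1 ^ 2 + b * p.1 * p.2 + c * p.2 ^ 2) - (a * p'.1 ^ 2 + b * p'.1 * p'.2 + c * p'.2 ^ 2)|
      ≤ (|a| + |b| + |c|) * (2 * R) * ‖p - p'‖ := by
  have x1 := (abs_fst_le p).trans h
  have y1 := (abs_snd_le p).trans h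
  have x2 := (abs_fst_le p').trans h'
  have y2 := (abs_snd_le p').trans h'
  have dx : |p.1 - p'.1| ≤ ‖p - p'‖ := abs_fst_le (p - p')
  have dy : |p.2 - p'.2| ≤ ‖p - p'‖ := abs_snd_le (p - p')
  have e1 : |a * ((p.1 + p'.1) * (p.1 - p'.1))| ≤ |a| * ((R + R) * ‖p - p'‖) :=
    abs_mul_le le_rfl (abs_mul_le ((abs_add_le _ _).trans (add_le_add x1 x2)) dx)
  have e2 : |b * (p.1 * (p.2 - p'.2))| ≤ |b| * (R * ‖p - p'‖) :=
    abs_mul_le le_rfl (abs_mul_le x1 dy)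
  have e3 : |b * (p'.2 * (p.1 - p'.1))| ≤ |b| * (R * ‖p - p'‖) :=
    abs_mul_le le_rfl (abs_mul_le y2 dx)
  have e4 : |c * ((p.2 + p'.2) * (p.2 - p'.2))| ≤ |c| * ((R + R) * ‖p - p'‖) :=
    abs_mul_le le_rfl (abs_mul_le ((abs_add_le _ _).trans (add_le_add y1 y2)) dy)
  rw [abs_le] at *
  constructor <;> nlinarith

theorem quad_le (a b c : ℝ) (p : ℝ × ℝ) :
    |a * p.1 ^ 2 + b * p.1 * p.2 + c * p.2 ^ 2| ≤ (|a| + |b| + |c|) * ‖p‖ ^ 2 := by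
  have x1 := abs_fst_le p
  have y1 := abs_snd_le p
  have e1 : |a * (p.1 * p.1)| ≤ |a| * (‖p‖ * ‖p‖) := abs_mul_le le_rfl (abs_mul_le x1 x1)
  have e2 : |b * (p.1 * p.2)| ≤ |b| * (‖p‖ * ‖p‖) := abs_mul_le le_rfl (abs_mul_le x1 y1)
  have e3 : |c * (p.2 * p.2)| ≤ |c| * (‖p‖ * ‖p‖) := abs_mul_le le_rfl (abs_mul_le y1 y1)
  rw [abs_le] at *
  constructor <;> nlinarith

/-- The quadratic parts of the two components. -/
def NF.Q1 (q : NF) (p : ℝ × ℝ) : ℝ := q.a * p.1 ^ 2 + q.b * p.1 * p.2 + (-1) * p.2 ^ 2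

def NF.Q2 (q : NF) (p : ℝ × ℝ) : ℝ := 1 * p.1 ^ 2 + q.e * p.1 * p.2 + q.f * p.2 ^ 2

theorem NF.V_fst (q : NF) (p : ℝ × ℝ) : (q.V p).1 = q.l1 * p.1 + q.Q1 p := by
  simp only [NF.V, NF.Q1]; ring

theorem NF.V_snd (q : NF) (p : ℝ × ℝ) : (q.V p).2 = -q.l2 * p.2 + q.Q2 p := by
  simp only [NF.V, NF.Q2]; ring

theorem NF.c1_le (q : NF) : |q.a| + |q.b| + |(-1 : ℝ)| ≤ q.size := by
  simp only [NF.size, abs_neg, abs_one]
  linarith [abs_nonneg q.l1, abs_nonneg q.l2, abs_nonneg q.e, abs_nonneg q.f]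

theorem NF.c2_le (q : NF) : |(1 : ℝ)| + |q.e| + |q.f| ≤ q.size := by
  simp only [NF.size, abs_one]
  linarith [abs_nonneg q.l1, abs_nonneg q.l2, abs_nonneg q.a, abs_nonneg q.b]

theorem NF.l1_le (q : NF) : |q.l1| ≤ q.size := by
  simp only [NF.size]
  linarith [abs_nonneg q.l2, abs_nonneg q.a, abs_nonneg q.b, abs_nonneg q.e, abs_nonneg q.f]

theorem NF.l2_le (q : NF) : |q.l2| ≤ q.size := by
  simp only [NF.size]
  linarith [abs_nonneg q.l1, abs_nonneg q.a, abs_nonneg q.b, abs_nonneg q.e, abs_nonneg q.f]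

variable {q q' : NF} {M R : ℝ}

theorem NF.Q1_le (hM : q.size ≤ M) (p : ℝ × ℝ) : |q.Q1 p| ≤ M * ‖p‖ ^ 2 :=
  (quad_le _ _ _ p).trans (mul_le_mul_of_nonneg_right (q.c1_le.trans hM) (sq_nonneg _))

theorem NF.Q2_le (hM : q.size ≤ M) (p : ℝ × ℝ) : |q.Q2 p| ≤ M * ‖p‖ ^ 2 :=
  (quad_le _ _ _ p).trans (mul_le_mul_of_nonneg_right (q.c2_le.trans hM) (sq_nonneg _))

theorem NF.Q1_sub_le (hM : q.size ≤ M) {p p' : ℝ × ℝ} (h : ‖p‖ ≤ R) (h' : ‖p'‖ ≤ R) :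
    |q.Q1 p - q.Q1 p'| ≤ M * (2 * R) * ‖p - p'‖ :=
  (quad_sub_le _ _ _ h h').trans (mul_le_mul_of_nonneg_right (mul_le_mul_of_nonneg_right
    (q.c1_le.trans hM) (by linarith [norm_nonneg p])) (norm_nonneg _))

theorem NF.Q2_sub_le (hM : q.size ≤ M) {p p' : ℝ × ℝ} (h : ‖p‖ ≤ R) (h' : ‖p'‖ ≤ R) :
    |q.Q2 p - q.Q2 p'| ≤ M * (2 * R) * ‖p - p'‖ :=
  (quad_sub_le _ _ _ h h').trans (mul_le_mul_of_nonneg_right (mul_le_mul_of_nonneg_right
    (q.c2_le.trans hM) (by linarith [norm_nonneg p])) (norm_nonneg _))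

theorem NF.V_sub_le (hM : q.size ≤ M) {p p' : ℝ × ℝ} (h : ‖p‖ ≤ R) (h' : ‖p'‖ ≤ R) :
    ‖q.V p - q.V p'‖ ≤ M * (1 + 2 * R) * ‖p - p'‖ := by
  have e1 := NF.Q1_sub_le hM h h'
  have e2 := NF.Q2_sub_le hM h h'
  have e3 : |q.l1 * (p.1 - p'.1)| ≤ M * ‖p - p'‖ :=
    abs_mul_le (q.l1_le.trans hM) (abs_fst_le (p - p'))
  have e4 : |q.l2 * (p.2 - p'.2)| ≤ M * ‖p - p'‖ :=
    abs_mul_le (q.l2_le.trans hM) (abs_snd_le (p - p'))
  refine norm_le_of_abs ?_ ?_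
  · rw [Prod.fst_sub, NF.V_fst, NF.V_fst]
    rw [abs_le] at *
    constructor <;> nlinarith
  · rw [Prod.snd_sub, NF.V_snd, NF.V_snd]
    rw [abs_le] at *
    constructor <;> nlinarith

theorem NF.V_le (hM : q.size ≤ M) {p : ℝ × ℝ} (h : ‖p‖ ≤ R) :
    ‖q.V p‖ ≤ M * (1 + 2 * R) * ‖p‖ := by
  simpa [NF.V_zero] using NF.V_sub_le hM h (p' := 0) (by simpa using (norm_nonneg p).trans h)

theorem NF.V_param (q q' : NF) {p : ℝ × ℝ} (h : ‖p‖ ≤ R) :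
    ‖q.V p - q'.V p‖ ≤ q.dist q' * (R + R ^ 2) := by
  have hR : 0 ≤ R := (norm_nonneg p).trans h
  have x1 := (abs_fst_le p).trans h
  have y1 := (abs_snd_le p).trans h
  have e1 := abs_mul_le (le_refl |q.l1 - q'.l1|) x1
  have e2 := abs_mul_le (le_refl |q.l2 - q'.l2|) y1
  have e3 := abs_mul_le (le_refl |q.a - q'.a|) (abs_mul_le x1 x1)
  have e4 := abs_mul_le (le_refl |q.b - q'.b|) (abs_mul_le x1 y1)
  have e5 := abs_mul_le (le_refl |q.e - q'.e|) (abs_mul_le x1 y1)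
  have e6 := abs_mul_le (le_refl |q.f - q'.f|) (abs_mul_le y1 y1)
  have hRR : 0 ≤ R * R := mul_nonneg hR hR
  have p1 := mul_nonneg (abs_nonneg (q.l1 - q'.l1)) hR
  have p2 := mul_nonneg (abs_nonneg (q.l2 - q'.l2)) hR
  have p3 := mul_nonneg (abs_nonneg (q.a - q'.a)) hR
  have p4 := mul_nonneg (abs_nonneg (q.b - q'.b)) hR
  have p5 := mul_nonneg (abs_nonneg (q.e - q'.e)) hR
  have p6 := mul_nonneg (abs_nonneg (q.f - q'.f)) hR
  have r1 := mul_nonneg (abs_nonneg (q.l1 - q'.l1)) hRR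
  have r2 := mul_nonneg (abs_nonneg (q.l2 - q'.l2)) hRR
  have r3 := mul_nonneg (abs_nonneg (q.a - q'.a)) hRR
  have r4 := mul_nonneg (abs_nonneg (q.b - q'.b)) hRR
  have r5 := mul_nonneg (abs_nonneg (q.e - q'.e)) hRR
  have r6 := mul_nonneg (abs_nonneg (q.f - q'.f)) hRR
  refine norm_le_of_abs ?_ ?_
  · simp only [NF.V, NF.dist, Prod.fst_sub]
    rw [abs_le] at e1 e3 e4 ⊢
    constructor <;> linarith [e1.1, e1.2, e3.1, e3.2, e4.1, e4.2]
  · simp only [NF.V, NF.dist, Prod.snd_sub]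
    rw [abs_le] at e2 e5 e6 ⊢
    constructor <;> linarith [e2.1, e2.2, e5.1, e5.2, e6.1, e6.2]

/-- The field cut off outside the ball of radius `R`. -/
def NF.W (q : NF) (R : ℝ) (p : ℝ × ℝ) : ℝ × ℝ := q.V (clamp R p)

theorem NF.W_eq (q : NF) {p : ℝ × ℝ} (h : ‖p‖ ≤ R) : q.W R p = q.V p := by
  rw [NF.W, clamp_eq h]

theorem NF.W_sub_le (hM : q.size ≤ M) (R : ℝ) (p p' : ℝ × ℝ) :
    ‖q.W R p - q.W R p'‖ ≤ M * (1 + 2 * |R|) * ‖p - p'‖ :=
  (NF.V_sub_le hM (norm_clamp_le R p) (norm_clamp_le R p')).trans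
    (mul_le_mul_of_nonneg_left (norm_clamp_sub R p p')
      (mul_nonneg (by linarith [q.one_le_size]) (by positivity)))

theorem NF.W_le (hM : q.size ≤ M) (R : ℝ) (p : ℝ × ℝ) :
    ‖q.W R p‖ ≤ M * (1 + 2 * |R|) * |R| :=
  (NF.V_le hM (norm_clamp_le R p)).trans (mul_le_mul_of_nonneg_left (norm_clamp_le R p)
    (mul_nonneg (by linarith [q.one_le_size]) (by positivity)))

theorem NF.W_lip (hM : q.size ≤ M) (R : ℝ) :
    LipschitzWith (Real.toNNReal (M * (1 + 2 * |R|))) (q.W R) :=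
  LipschitzWith.of_dist_le' fun p p' => by
    rw [dist_eq_norm, dist_eq_norm]
    exact NF.W_sub_le hM R p p'

theorem NF.continuous_W (q : NF) (R : ℝ) : Continuous (q.W R) :=
  (NF.W_lip (le_refl q.size) R).continuous

theorem NF.exists_flow (q : NF) (R : ℝ) (p : ℝ × ℝ) :
    ∃ Φ : ℝ → ℝ × ℝ, Φ 0 = p ∧ IsSol (q.W R) Φ :=
  exists_global_sol (NF.W_lip (le_refl q.size) R)
    (L := Real.toNNReal (q.size * (1 + 2 * |R|) * |R|))
    (fun x => (NF.W_le le_rfl R x).trans (Real.le_coe_toNNReal _)) p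

/-- The global flow of the cut-off field. -/
noncomputable def NF.flow (q : NF) (R : ℝ) (p : ℝ × ℝ) : ℝ → ℝ × ℝ := (q.exists_flow R p).choose

theorem NF.flow_zero (q : NF) (R : ℝ) (p : ℝ × ℝ) : q.flow R p 0 = p :=
  (q.exists_flow R p).choose_spec.1

theorem NF.flow_sol (q : NF) (R : ℝ) (p : ℝ × ℝ) : IsSol (q.W R) (q.flow R p) :=
  (q.exists_flow R p).choose_spec.2

theorem IsSol.uniqueW {p p' : ℝ → ℝ × ℝ} (h : IsSol (q.W R) p) (h' : IsSol (q.W R) p') {t₀ : ℝ}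
    (he : p t₀ = p' t₀) : p = p' :=
  ODE_solution_unique_univ (v := fun _ => q.W R) (s := fun _ => univ)
    (fun _ => (NF.W_lip (le_refl q.size) R).lipschitzOnWith) (fun t => ⟨h t, trivial⟩)
    (fun t => ⟨h' t, trivial⟩) he

theorem IsSol.eq_flow {p : ℝ → ℝ × ℝ} (h : IsSol (q.W R) p) (θ t : ℝ) :
    q.flow R (p θ) t = p (t + θ) :=
  congrFun ((q.flow_sol R (p θ)).uniqueW (h.shift θ) (t₀ := 0) (by simp [NF.flow_zero])) t

theorem IsSol.toW {p : ℝ → ℝ × ℝ} (h : IsSol q.V p) (hb : ∀ t, ‖p t‖ ≤ R) :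
    IsSol (q.W R) p := fun t => by
  rw [q.W_eq (hb t)]
  exact h t

theorem IsSol.ofW {p : ℝ → ℝ × ℝ} (h : IsSol (q.W R) p) {t : ℝ} (hb : ‖p t‖ ≤ R) :
    HasDerivAt p (q.V (p t)) t := by
  rw [← q.W_eq hb]
  exact h t

theorem IsSol.starW {p : ℝ → ℝ × ℝ} (h : IsSol (q.W R) p) :
    IsSol (q.star.W R) (fun t => (p (-t)).swap) := fun t => by
  have h1 := (h (-t)).scomp t (hasDerivAt_neg t)
  rw [NF.W, NF.star_V]
  refine (hd_swap h1).congr_deriv ?_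
  ext <;> simp [NF.W, clamp]

theorem NF.flow_star (q : NF) (R : ℝ) (p : ℝ × ℝ) (t : ℝ) :
    q.star.flow R p.swap t = (q.flow R p (-t)).swap :=
  congrFun ((q.star.flow_sol R p.swap).uniqueW (q.flow_sol R p).starW (t₀ := 0)
    (by simp [NF.flow_zero])) t

theorem gron_fwd (hM : q.size ≤ M) (hR : 0 ≤ R) {p p' : ℝ → ℝ × ℝ} (h : IsSol (q.W R) p)
    (h' : IsSol (q'.W R) p') {t : ℝ} (ht : 0 ≤ t) :
    ‖p t - p' t‖ ≤ (‖p 0 - p' 0‖ + q.dist q' * (R + R ^ 2)) * Real.exp (M * (1 + 2 * R) * t) := by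
  have hK : 1 ≤ M * (1 + 2 * R) := by nlinarith [q.one_le_size]
  have hε : 0 ≤ q.dist q' * (R + R ^ 2) := mul_nonneg (q.dist_nonneg q') (by positivity)
  have key := norm_le_gronwallBound_of_norm_deriv_right_le (f := fun t => p t - p' t)
    (f' := fun t => q.W R (p t) - q'.W R (p' t)) (δ := ‖p 0 - p' 0‖) (K := M * (1 + 2 * R))
    (ε := q.dist q' * (R + R ^ 2)) (a := 0) (b := t)
    (h.continuous.sub h'.continuous).continuousOn
    (fun s _ => ((h s).sub (h' s)).hasDerivWithinAt) le_rfl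
    (fun s _ => by
      have e1 := NF.W_sub_le hM R (p s) (p' s)
      have e2 := NF.V_param q q' (norm_clamp_le R (p' s))
      rw [abs_of_nonneg hR] at e1 e2
      have e3 := norm_sub_le_norm_sub_add_norm_sub (q.W R (p s)) (q.W R (p' s)) (q'.W R (p' s))
      simp only [NF.W] at e1 e3 ⊢
      linarith) t ⟨ht, le_rfl⟩
  rw [gronwallBound_of_K_ne_0 (by linarith), sub_zero] at key
  have e1 : q.dist q' * (R + R ^ 2) / (M * (1 + 2 * R)) ≤ q.dist q' * (R + R ^ 2) :=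
    div_le_self hε hK
  have e2 : 0 ≤ q.dist q' * (R + R ^ 2) / (M * (1 + 2 * R)) := div_nonneg hε (by linarith)
  have e3 := Real.exp_pos (M * (1 + 2 * R) * t)
  simp only at key
  nlinarith

/-- Gronwall estimate in both time directions, for two nearby fields. -/
theorem gron (hM : q.size ≤ M) (hR : 0 ≤ R) {p p' : ℝ → ℝ × ℝ} (h : IsSol (q.W R) p)
    (h' : IsSol (q'.W R) p') (θ θ' t : ℝ) :
    ‖p (t + θ) - p' (t + θ')‖ ≤
      (‖p θ - p' θ'‖ + q.dist q' * (R + R ^ 2)) * Real.exp (M * (1 + 2 * R) * |t|) := by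
  rcases le_total 0 t with ht | ht
  · simpa [abs_of_nonneg ht] using gron_fwd hM hR (h.shift θ) (h'.shift θ') ht
  · have := gron_fwd (q := q.star) (q' := q'.star) (M := M) (by rwa [NF.size_star]) hR
      (h.shift θ).starW (h'.shift θ').starW (t := -t) (by linarith)
    rw [NF.dist_star] at this
    simp only [neg_neg, neg_zero, zero_add, ← Prod.swap_sub, norm_swap] at this
    rwa [abs_of_nonpos ht]

theorem speed (hM : q.size ≤ M) (hR : 0 ≤ R) {p : ℝ → ℝ × ℝ} (h : IsSol (q.W R) p) (s t : ℝ) :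
    ‖p t - p s‖ ≤ M * (1 + 2 * R) * R * |t - s| := by
  have := (convex_univ (𝕜 := ℝ) (E := ℝ)).norm_image_sub_le_of_norm_hasDerivWithin_le
    (f := p) (f' := fun t => q.W R (p t)) (C := M * (1 + 2 * R) * R)
    (fun x _ => (h x).hasDerivWithinAt)
    (fun x _ => by simpa [abs_of_nonneg hR] using NF.W_le hM R (p x)) (mem_univ s) (mem_univ t)
  simpa using this

end Pool.Agent.Lib.MP_bf91d6_an
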