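import Pool.Agent.Lib.MP_bf91d6_an.HDefs

set_option autoImplicit false

namespace Pool.Agent.Lib.MP_bf91d6_an

open Set Filter Topology Metric MeasureTheory

variable {q q' : NF} {lam M δ : ℝ}

theorem Good.one_le (h : Good q lam M) : 1 ≤ M := q.one_le_size.trans h.size

theorem Good.l1_le (h : Good q lam M) : q.l1 ≤ M := (le_abs_self _).trans (q.l1_le.trans h.size)

theorem Good.l2_le (h : Good q lam M) : q.l2 ≤ M := (le_abs_self _).trans (q.l2_le.trans h.size)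

theorem Good.coef (h : Good q lam M) : |q.a| + |q.b| + |q.e| + |q.f| + 1 ≤ M := by
  have := h.size
  unfold NF.size at this
  linarith [abs_nonneg q.l1, abs_nonneg q.l2]

theorem Good.star (h : Good q lam M) : Good q.star lam M :=
  ⟨h.l2, h.l1, by rw [NF.size_star]; exact h.size⟩

theorem norm_sq_le (p : ℝ × ℝ) : ‖p‖ ^ 2 ≤ p.1 ^ 2 + p.2 ^ 2 := by
  rw [Prod.norm_def, Real.norm_eq_abs, Real.norm_eq_abs]
  rcases le_total |p.1| |p.2| with h | h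
  · rw [max_eq_right h, sq_abs]; nlinarith [sq_nonneg p.1]
  · rw [max_eq_left h, sq_abs]; nlinarith [sq_nonneg p.2]

/-- In the box the quadratic terms are small. -/
theorem Good.Q1_box (h : Good q lam M) (hδ : 100 * M * δ ≤ lam) {p : ℝ × ℝ} (hp : ‖p‖ ≤ δ) :
    |q.Q1 p| ≤ lam / 100 * ‖p‖ := by
  have h1 := NF.Q1_le h.size p
  have h2 : M * ‖p‖ ≤ M * δ := mul_le_mul_of_nonneg_left hp (by linarith [h.one_le])
  nlinarith [norm_nonneg p]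

theorem Good.Q2_box (h : Good q lam M) (hδ : 100 * M * δ ≤ lam) {p : ℝ × ℝ} (hp : ‖p‖ ≤ δ) :
    |q.Q2 p| ≤ lam / 100 * ‖p‖ := by
  have h1 := NF.Q2_le h.size p
  have h2 : M * ‖p‖ ≤ M * δ := mul_le_mul_of_nonneg_left hp (by linarith [h.one_le])
  nlinarith [norm_nonneg p]

theorem Good.box_V (h : Good q lam M) (hl : 0 < lam) (hδ : 100 * M * δ ≤ lam) {p : ℝ × ℝ}
    (hp : ‖p‖ ≤ δ) : lam * ‖p‖ ^ 2 ≤ 2 * p.1 * (q.V p).1 - 2 * p.2 * (q.V p).2 := by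
  have e1 := abs_le.1 (abs_mul_le (abs_fst_le p) (h.Q1_box hδ hp))
  have e2 := abs_le.1 (abs_mul_le (abs_snd_le p) (h.Q2_box hδ hp))
  have e3 := mul_le_mul_of_nonneg_right h.l1 (sq_nonneg p.1)
  have e4 := mul_le_mul_of_nonneg_right h.l2 (sq_nonneg p.2)
  have e5 := mul_le_mul_of_nonneg_left (norm_sq_le p) hl.le
  have e6 := mul_nonneg hl.le (sq_nonneg ‖p‖)
  rw [NF.V_fst, NF.V_snd]
  nlinarith [e1.1, e2.2]

theorem Good.box_norm (h : Good q lam M) (hl : 0 < lam) (hδ : 100 * M * δ ≤ lam) {p : ℝ × ℝ}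
    (hp : ‖p‖ ≤ δ) : lam / 2 * ‖p‖ ≤ ‖q.V p‖ := by
  have e1 := h.Q1_box hδ hp
  have e2 := h.Q2_box hδ hp
  have e3 := abs_fst_le (q.V p)
  have e4 := abs_snd_le (q.V p)
  have e5 : |q.l1 * p.1| ≤ |(q.V p).1| + |q.Q1 p| := by
    rw [NF.V_fst]
    simpa using abs_sub (q.l1 * p.1 + q.Q1 p) (q.Q1 p)
  have e6 : |q.l2 * p.2| ≤ |(q.V p).2| + |q.Q2 p| := by
    rw [NF.V_snd]
    have := abs_sub (-q.l2 * p.2 + q.Q2 p) (q.Q2 p)
    rw [add_sub_cancel_right] at this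
    rwa [← abs_neg (q.l2 * p.2), ← neg_mul]
  rw [abs_mul, abs_of_pos (hl.trans_le h.l1)] at e5
  rw [abs_mul, abs_of_pos (hl.trans_le h.l2)] at e6
  have e7 := mul_le_mul_of_nonneg_right h.l1 (abs_nonneg p.1)
  have e8 := mul_le_mul_of_nonneg_right h.l2 (abs_nonneg p.2)
  have e9 : ‖p‖ = |p.1| ∨ ‖p‖ = |p.2| := by
    rw [Prod.norm_def]
    exact max_choice _ _
  have := mul_nonneg hl.le (norm_nonneg p)
  rcases e9 with e | e
  · rw [← e] at e5 e7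
    linarith
  · rw [← e] at e6 e8
    linarith

theorem Good.box_x (h : Good q lam M) (hl : 0 < lam) (hδ : 100 * M * δ ≤ lam) {p : ℝ × ℝ}
    (hp : ‖p‖ ≤ δ) (he : ‖p‖ = p.1) :
    lam / 2 * p.1 ≤ (q.V p).1 ∧ (q.V p).1 ≤ 2 * M * p.1 := by
  have e1 := abs_le.1 (h.Q1_box hδ hp)
  have h0 : 0 ≤ p.1 := he ▸ norm_nonneg p
  have e2 := mul_le_mul_of_nonneg_right h.l1 h0
  have e3 := mul_le_mul_of_nonneg_right h.l1_le h0
  have e4 := mul_le_mul_of_nonneg_right (h.l1.trans h.l1_le) h0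
  have e5 := mul_nonneg hl.le h0
  have e6 := mul_nonneg (by linarith [h.one_le] : 0 ≤ M) h0
  rw [he] at e1
  rw [NF.V_fst]
  constructor <;> linarith [e1.1, e1.2]

theorem Good.box_y (h : Good q lam M) (hl : 0 < lam) (hδ : 100 * M * δ ≤ lam) {p : ℝ × ℝ}
    (hp : ‖p‖ ≤ δ) (he : ‖p‖ = p.2) : (q.V p).2 ≤ -(lam / 2) * p.2 := by
  have e1 := abs_le.1 (h.Q2_box hδ hp)
  have h0 : 0 ≤ p.2 := he ▸ norm_nonneg p
  have e2 := mul_le_mul_of_nonneg_right h.l2 h0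
  have e5 := mul_nonneg hl.le h0
  rw [he] at e1
  rw [NF.V_snd]
  linarith [e1.2]

theorem Good.div_sub (h : Good q lam M) (p : ℝ × ℝ) :
    |q.div p - (q.l1 - q.l2)| ≤ 2 * M * ‖p‖ := by
  have e1 := abs_mul_le (le_refl |q.a|) (abs_fst_le p)
  have e2 := abs_mul_le (le_refl |q.e|) (abs_fst_le p)
  have e3 := abs_mul_le (le_refl |q.b|) (abs_snd_le p)
  have e4 := abs_mul_le (le_refl |q.f|) (abs_snd_le p)
  have e5 := mul_le_mul_of_nonneg_right h.coef (norm_nonneg p)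
  have p1 := mul_nonneg (abs_nonneg q.e) (norm_nonneg p)
  have p2 := mul_nonneg (abs_nonneg q.b) (norm_nonneg p)
  have p3 := norm_nonneg p
  rw [abs_le] at *
  simp only [NF.div]
  constructor <;> linarith [e1.1, e1.2, e2.1, e2.2, e3.1, e3.2, e4.1, e4.2]

theorem Good.div_le (h : Good q lam M) (hl : 0 < lam) {R : ℝ} {p : ℝ × ℝ} (hp : ‖p‖ ≤ R) :
    |q.div p| ≤ M * (1 + 2 * R) := by
  have e1 := abs_le.1 (h.div_sub p)
  have e2 : M * ‖p‖ ≤ M * R := mul_le_mul_of_nonneg_left hp (by linarith [h.one_le])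
  rw [abs_le]
  constructor <;> linarith [e1.1, e1.2, h.l1, h.l2, h.l1_le, h.l2_le]

theorem Good.box_div (h : Good q lam M) (hl : 0 < lam) (hδ : 100 * M * δ ≤ lam) {p : ℝ × ℝ}
    (hp : ‖p‖ ≤ δ) (he : ‖p‖ = p.1) : q.div p * p.1 - (q.V p).1 ≤ -(lam / 2) * p.1 := by
  have e1 := abs_le.1 (h.Q1_box hδ hp)
  have e2 := abs_le.1 (h.div_sub p)
  have h0 : 0 ≤ p.1 := he ▸ norm_nonneg p
  have e3 : M * ‖p‖ ≤ M * δ := mul_le_mul_of_nonneg_left hp (by linarith [h.one_le])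
  have e4 : q.div p ≤ q.l1 - lam + lam / 50 := by linarith [e2.2, h.l2]
  have e5 := mul_le_mul_of_nonneg_right e4 h0
  have e6 := mul_nonneg hl.le h0
  rw [he] at e1
  rw [NF.V_fst]
  linarith [e1.1]

theorem Good.cone (h : Good q lam M) (hl : 0 < lam) (hδ : 100 * M * δ ≤ lam) {p g : ℝ × ℝ}
    (hp : ‖p‖ ≤ δ) (hg : ‖g‖ ≤ δ) (q' : NF) :
    2 * (p.2 - g.2) * ((q.V p).2 - (q'.V g).2) - 2 * (p.1 - g.1) * ((q.V p).1 - (q'.V g).1) ≤
      -lam * ((p.2 - g.2) ^ 2 - (p.1 - g.1) ^ 2 - 8 * q.dist q' ^ 2 / lam ^ 2) := by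
  have hδ0 : 0 ≤ δ := (norm_nonneg p).trans hp
  have hδ1 : δ ≤ 1 / 100 := by nlinarith [h.l1.trans h.l1_le, h.one_le]
  have hρ := q.dist_nonneg q'
  set ρ := q.dist q' with hρd
  set n := ‖p - g‖ with hn
  have hn0 : 0 ≤ n := norm_nonneg _
  have e0 : ‖q.V g - q'.V g‖ ≤ ρ := (NF.V_param q q' hg).trans
    (mul_le_of_le_one_right hρ (by nlinarith))
  have e1 : |q.Q1 p - q.Q1 g| ≤ lam / 50 * n := (NF.Q1_sub_le h.size hp hg).trans (by nlinarith)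
  have e2 : |q.Q2 p - q.Q2 g| ≤ lam / 50 * n := (NF.Q2_sub_le h.size hp hg).trans (by nlinarith)
  have e3 : |(q.V g).1 - (q'.V g).1| ≤ ρ := (abs_fst_le (q.V g - q'.V g)).trans e0
  have e4 : |(q.V g).2 - (q'.V g).2| ≤ ρ := (abs_snd_le (q.V g - q'.V g)).trans e0
  have dx : |p.1 - g.1| ≤ n := abs_fst_le (p - g)
  have dy : |p.2 - g.2| ≤ n := abs_snd_le (p - g)
  have f1 := abs_le.1 (abs_mul_le dx e1)
  have f2 := abs_le.1 (abs_mul_le dy e2)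
  have f3 := abs_le.1 (abs_mul_le dx e3)
  have f4 := abs_le.1 (abs_mul_le dy e4)
  have f5 := mul_le_mul_of_nonneg_right h.l1 (sq_nonneg (p.1 - g.1))
  have f6 := mul_le_mul_of_nonneg_right h.l2 (sq_nonneg (p.2 - g.2))
  have f7 : lam * n ^ 2 ≤ lam * ((p.1 - g.1) ^ 2 + (p.2 - g.2) ^ 2) :=
    mul_le_mul_of_nonneg_left (norm_sq_le (p - g)) hl.le
  have f8 : 4 * n * ρ ≤ lam / 2 * n ^ 2 + lam * (8 * ρ ^ 2 / lam ^ 2) := by
    have : lam / 2 * n ^ 2 + lam * (8 * ρ ^ 2 / lam ^ 2) - 4 * n * ρ =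
        (lam * n - 4 * ρ) ^ 2 / (2 * lam) := by
      field_simp
      ring
    have h2 : 0 ≤ (lam * n - 4 * ρ) ^ 2 / (2 * lam) := by positivity
    linarith
  have f9 := mul_nonneg hl.le (sq_nonneg (p.1 - g.1))
  have f10 := mul_nonneg hl.le (sq_nonneg n)
  have g1 : (q.V p).1 - (q'.V g).1 =
      q.l1 * (p.1 - g.1) + (q.Q1 p - q.Q1 g) + ((q.V g).1 - (q'.V g).1) := by
    rw [NF.V_fst q p, NF.V_fst q g]; ring
  have g2 : (q.V p).2 - (q'.V g).2 =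
      -q.l2 * (p.2 - g.2) + (q.Q2 p - q.Q2 g) + ((q.V g).2 - (q'.V g).2) := by
    rw [NF.V_snd q p, NF.V_snd q g]; ring
  rw [g1, g2]
  nlinarith [f1.1, f2.2, f3.1, f4.2]

/-- First time at which a continuous function reaches a level. -/
theorem exists_first {g : ℝ → ℝ} (hg : Continuous g) {a b c : ℝ} (hab : a ≤ b) (ha : g a < c)
    (hb : c ≤ g b) : ∃ t ∈ Ioc a b, g t = c ∧ ∀ s ∈ Ico a t, g s < c := by
  have hK : IsCompact (Icc a b ∩ {t | c ≤ g t}) :=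
    isCompact_Icc.inter_right (isClosed_le continuous_const hg)
  obtain ⟨t, ⟨ht, htc⟩, hmin⟩ := hK.exists_isLeast ⟨b, ⟨hab, le_rfl⟩, hb⟩
  have h1 : ∀ s ∈ Ico a t, g s < c := fun s hs => by
    by_contra hn
    exact absurd (hmin ⟨⟨hs.1, hs.2.le.trans ht.2⟩, not_lt.1 hn⟩) (not_le.2 hs.2)
  have h2 : a < t := lt_of_le_of_ne ht.1 (by rintro rfl; exact absurd htc (not_le.2 ha))
  refine ⟨t, ⟨h2, ht.2⟩, le_antisymm ?_ htc, h1⟩
  refine le_of_tendsto (hg.continuousAt.tendsto.mono_left (nhdsWithin_le_nhds (s := Iio t))) ?_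
  filter_upwards [Ioo_mem_nhdsLT h2] with s hs
  exact (h1 s ⟨hs.1.le, hs.2⟩).le

theorem y_pos_fwd {p : ℝ → ℝ × ℝ} (hc : Continuous p) {a b : ℝ} (hab : a ≤ b)
    (hd : ∀ t ∈ Icc a b, HasDerivAt p (q.V (p t)) t) (ha : 0 < (p a).2) : 0 < (p b).2 :=
  pos_fwd (φ := fun t => (p t).2) (k := fun t => -q.l2 + q.e * (p t).1 + q.f * (p t).2) hab
    (by fun_prop) (fun t ht => hd_snd (hd t ht))
    (fun t _ => by simp only [NF.V]; nlinarith [sq_nonneg (p t).1]) ha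

theorem x_pos_bwd {p : ℝ → ℝ × ℝ} (hc : Continuous p) {a b : ℝ} (hab : a ≤ b)
    (hd : ∀ t ∈ Icc a b, HasDerivAt p (q.V (p t)) t) (hb : 0 < (p b).1) : 0 < (p a).1 :=
  pos_bwd (φ := fun t => (p t).1) (k := fun t => q.l1 + q.a * (p t).1 + q.b * (p t).2) hab
    (by fun_prop) (fun t ht => hd_fst (hd t ht))
    (fun t _ => by simp only [NF.V]; nlinarith [sq_nonneg (p t).2]) hb

theorem hasDerivAt_Vf {p : ℝ → ℝ × ℝ} {v : ℝ × ℝ} {t : ℝ} (h : HasDerivAt p v t) :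
    HasDerivAt (fun t => (p t).1 ^ 2 - (p t).2 ^ 2) (2 * (p t).1 * v.1 - 2 * (p t).2 * v.2) t := by
  exact (((hd_fst h).fun_pow 2).fun_sub ((hd_snd h).fun_pow 2)).congr_deriv (by simp)

/-- `x² - y²` increases strictly along a nonzero solution in the box. -/
theorem Good.Vf_lt (h : Good q lam M) (hl : 0 < lam) (hδ : 100 * M * δ ≤ lam) {p : ℝ → ℝ × ℝ}
    {a b : ℝ} (hab : a < b) (hd : ∀ t ∈ Icc a b, HasDerivAt p (q.V (p t)) t)
    (hb : ∀ t ∈ Icc a b, ‖p t‖ ≤ δ) (hne : ∀ t ∈ Icc a b, p t ≠ 0) :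
    (p a).1 ^ 2 - (p a).2 ^ 2 < (p b).1 ^ 2 - (p b).2 ^ 2 :=
  lt_of_deriv_pos (g := fun t => (p t).1 ^ 2 - (p t).2 ^ 2) hab
    (fun t ht => hasDerivAt_Vf (hd t ht)) fun t ht =>
      lt_of_lt_of_le (mul_pos hl (pow_pos (norm_pos_iff.2 (hne t (Ioo_subset_Icc_self ht))) 2))
        (h.box_V hl hδ (hb t (Ioo_subset_Icc_self ht)))

/-- An orbit starting on the diagonal, as long as it stays in the box. -/
theorem Good.box_phase (h : Good q lam M) (hl : 0 < lam) (hδ : 100 * M * δ ≤ lam)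
    {p : ℝ → ℝ × ℝ} (hc : Continuous p) {r b : ℝ} (hr : 0 < r) (h0 : p 0 = (r, r))
    (hd : ∀ t ∈ Icc 0 b, HasDerivAt p (q.V (p t)) t) (hb : ∀ t ∈ Icc 0 b, ‖p t‖ ≤ δ)
    {t : ℝ} (ht : t ∈ Icc 0 b) :
    0 < (p t).2 ∧ (p t).2 ≤ (p t).1 ∧ (0 < t → (p t).2 < (p t).1) := by
  have hy : ∀ s ∈ Icc 0 b, 0 < (p s).2 := fun s hs =>
    y_pos_fwd hc hs.1 (fun u hu => hd u ⟨hu.1, hu.2.trans hs.2⟩) (by rw [h0]; exact hr)
  have hV : ∀ s ∈ Ioc 0 b, (p s).2 ^ 2 < (p s).1 ^ 2 := fun s hs => by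
    have := h.Vf_lt hl hδ hs.1 (fun u hu => hd u ⟨hu.1, hu.2.trans hs.2⟩)
      (fun u hu => hb u ⟨hu.1, hu.2.trans hs.2⟩)
      (fun u hu h1 => by simpa [h1] using hy u ⟨hu.1, hu.2.trans hs.2⟩)
    rw [h0] at this
    simp only [sub_self] at this
    linarith
  have hx : 0 < (p t).1 := by
    by_contra hn
    obtain ⟨s, hs, he⟩ := intermediate_value_Icc' ht.1 (f := fun t => (p t).1)
      hc.fst.continuousOn (show (0 : ℝ) ∈ Icc _ _ from ⟨not_lt.1 hn, by simp [h0, hr.le]⟩)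
    simp only at he
    rcases hs.1.eq_or_lt with h1 | h1
    · rw [← h1, h0] at he
      exact hr.ne' he
    · have := hV s ⟨h1, hs.2.trans ht.2⟩
      rw [he] at this
      nlinarith [sq_nonneg (p s).2]
  have hlt : 0 < t → (p t).2 < (p t).1 := fun h1 =>
    lt_of_pow_lt_pow_left₀ 2 hx.le (hV t ⟨h1, ht.2⟩)
  refine ⟨hy t ht, ?_, hlt⟩
  rcases ht.1.eq_or_lt with h1 | h1
  · rw [← h1, h0]
  · exact (hlt h1).le

theorem Good.box_exit (h : Good q lam M) (hl : 0 < lam) (hδ : 100 * M * δ ≤ lam) {R : ℝ}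
    (hR : δ ≤ R) {p : ℝ → ℝ × ℝ} (hp : IsSol (q.W R) p) {r : ℝ} (hr : 0 < r) (hrδ : r < δ)
    (h0 : p 0 = (r, r)) :
    ∃ t₁ > (0 : ℝ), (p t₁).1 = δ ∧ ∀ t ∈ Icc 0 t₁, ‖p t‖ ≤ δ ∧ 0 < (p t).2 ∧ (p t).2 ≤ (p t).1 ∧
      (0 < t → (p t).2 < (p t).1) := by
  have hn0 : ‖p 0‖ = r := by rw [h0, norm_eq_fst hr.le le_rfl]
  have hex : ∃ b ≥ (0 : ℝ), δ ≤ ‖p b‖ := by
    by_contra hn
    push Not at hn
    set b := 2 * δ / (lam * r) with hb
    have hδ0 : 0 < δ := hr.trans hrδ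
    have hb0 : 0 ≤ b := by positivity
    have hd : ∀ t ∈ Icc 0 b, HasDerivAt p (q.V (p t)) t := fun t ht =>
      hp.ofW ((hn t ht.1).le.trans hR)
    have hph := fun t ht => h.box_phase hl hδ hp.continuous hr h0 hd
      (fun t ht => (hn t ht.1).le) (t := t) ht
    have h1 := exp_le_of_deriv_const (φ := fun t => (p t).1) (k := lam / 2) hb0
      (fun t ht => hd_fst (hd t ht))
      (fun t ht => (h.box_x hl hδ (hn t ht.1).le (norm_eq_fst (hph t ht).1.le (hph t ht).2.1)).1)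
    have h2 := Real.add_one_le_exp (lam / 2 * (b - 0))
    have h3 : lam / 2 * (b - 0) = δ / r := by rw [hb]; field_simp; ring
    have h4 := (le_abs_self _).trans (abs_fst_le (p b))
    have h5 := hn b hb0
    simp only [h0] at h1
    rw [h3] at h1 h2
    have h6 : r * (δ / r + 1) ≤ r * Real.exp (δ / r) := mul_le_mul_of_nonneg_left h2 hr.le
    have h7 : r * (δ / r + 1) = δ + r := by field_simp
    linarith
  obtain ⟨b, hb0, hb⟩ := hex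
  obtain ⟨t₁, ht₁, he, hlt⟩ := exists_first hp.continuous.norm hb0 (hn0 ▸ hrδ) hb
  have hle : ∀ t ∈ Icc 0 t₁, ‖p t‖ ≤ δ := fun t ht => by
    rcases ht.2.eq_or_lt with h1 | h1
    · rw [h1]; exact he.le
    · exact (hlt t ⟨ht.1, h1⟩).le
  have hph := fun t ht => h.box_phase hl hδ hp.continuous hr h0
    (fun t ht => hp.ofW ((hle t ht).trans hR)) hle (t := t) ht
  refine ⟨t₁, ht₁.1, ?_, fun t ht => ⟨hle t ht, hph t ht⟩⟩
  have := hph t₁ ⟨ht₁.1.le, le_rfl⟩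
  rw [← norm_eq_fst this.1.le this.2.1]
  exact he

/-- The cone estimate: the exit point is close to the unstable branch. -/
theorem Good.exit_close (h : Good q lam M) (hl : 0 < lam) (hδ : 100 * M * δ ≤ lam)
    {p g : ℝ → ℝ × ℝ} {b : ℝ} (hb : 0 ≤ b) (hd : ∀ t ∈ Icc 0 b, HasDerivAt p (q.V (p t)) t)
    (hd' : ∀ t ∈ Icc 0 b, HasDerivAt g (q'.V (g t)) t) (hp : ∀ t ∈ Icc 0 b, ‖p t‖ ≤ δ)
    (hg : ∀ t ∈ Icc 0 b, ‖g t‖ ≤ δ) (he : (p b).1 = (g b).1) :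
    ‖p b - g b‖ ^ 2 ≤ 8 * q.dist q' ^ 2 / lam ^ 2 + 4 * δ ^ 2 * Real.exp (-lam * b) := by
  have key := le_exp_of_deriv_const (k := -lam)
    (φ := fun t => ((p t).2 - (g t).2) ^ 2 - ((p t).1 - (g t).1) ^ 2 - 8 * q.dist q' ^ 2 / lam ^ 2)
    (φ' := fun t => 2 * ((p t).2 - (g t).2) * ((q.V (p t)).2 - (q'.V (g t)).2) -
      2 * ((p t).1 - (g t).1) * ((q.V (p t)).1 - (q'.V (g t)).1)) hb
    (fun t ht => by
      simpa using (((((hd_snd (hd t ht)).sub (hd_snd (hd' t ht))).pow 2).sub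
        (((hd_fst (hd t ht)).sub (hd_fst (hd' t ht))).pow 2)).sub_const
          (8 * q.dist q' ^ 2 / lam ^ 2)))
    (fun t ht => h.cone hl hδ (hp t ht) (hg t ht) q')
  have h1 := norm_sq_le (p b - g b)
  simp only [Prod.fst_sub, Prod.snd_sub, he, sub_self, sub_zero] at key h1
  have h2 : ((p 0).2 - (g 0).2) ^ 2 ≤ 4 * δ ^ 2 := by
    have a1 := abs_le.1 ((abs_snd_le (p 0)).trans (hp 0 ⟨le_rfl, hb⟩))
    have a2 := abs_le.1 ((abs_snd_le (g 0)).trans (hg 0 ⟨le_rfl, hb⟩))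
    nlinarith [a1.1, a1.2, a2.1, a2.2]
  have h3 : 0 ≤ 8 * q.dist q' ^ 2 / lam ^ 2 := by positivity
  have h4 := mul_le_mul_of_nonneg_right (show ((p 0).2 - (g 0).2) ^ 2 - ((p 0).1 - (g 0).1) ^ 2 -
    8 * q.dist q' ^ 2 / lam ^ 2 ≤ 4 * δ ^ 2 by nlinarith [sq_nonneg ((p 0).1 - (g 0).1)])
    (Real.exp_pos (-lam * b)).le
  nlinarith

end Pool.Agent.Lib.MP_bf91d6_an
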