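import Pool.Agent.Lib.MP_bf91d6_an.H2

set_option autoImplicit false

namespace Pool.Agent.Lib.MP_bf91d6_an

open Set Filter Topology Metric MeasureTheory

theorem exists_small (A : ℝ) {B : ℝ} (hB : 0 < B) :
    ∃ κ > (0 : ℝ), κ ≤ 1 ∧ ∀ x, 0 ≤ x → x ≤ κ → A * x ≤ B := by
  refine ⟨min 1 (B / (|A| + 1)), lt_min one_pos (by positivity), min_le_left _ _,
    fun x h0 hx => ?_⟩
  have h1 : x ≤ B / (|A| + 1) := hx.trans (min_le_right _ _)
  rw [le_div_iff₀ (by positivity)] at h1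
  nlinarith [le_abs_self A, abs_nonneg A]

theorem abs_dot_le (u v : ℝ × ℝ) : |dot u v| ≤ 2 * ‖u‖ * ‖v‖ := by
  have e1 := abs_mul_le (abs_fst_le u) (abs_fst_le v)
  have e2 := abs_mul_le (abs_snd_le u) (abs_snd_le v)
  have := abs_add_le (u.1 * v.1) (u.2 * v.2)
  unfold dot
  linarith

theorem dot_sub (u v w : ℝ × ℝ) : dot u (v - w) = dot u v - dot u w := by
  simp only [dot, Prod.fst_sub, Prod.snd_sub]; ring

theorem NF.dist_comm (q q' : NF) : q.dist q' = q'.dist q := by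
  simp only [NF.dist, abs_sub_comm]

theorem dot_self_pos {u : ℝ × ℝ} (h : u ≠ 0) : 0 < dot u u := by
  unfold dot
  by_contra hn
  apply h
  have h1 : u.1 = 0 := by nlinarith [mul_self_nonneg u.1, mul_self_nonneg u.2]
  have h2 : u.2 = 0 := by nlinarith [mul_self_nonneg u.1, mul_self_nonneg u.2]
  exact Prod.ext h1 h2

theorem exists_setup {q₀ : NF} {γ : ℝ → ℝ × ℝ} (h : q₀.Loop γ) {R : ℝ} (hR : ∀ t, ‖γ t‖ + 2 ≤ R) :
    ∃ S : Setup, S.q₀ = q₀ ∧ S.γ = γ ∧ S.R = R := by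
  set lam := min q₀.l1 q₀.l2 / 2 with hlam
  have hl : 0 < lam := half_pos (lt_min h.l1 h.l2)
  set M := q₀.size + 1 with hM
  have hgood : ∀ q : NF, q.dist q₀ ≤ min 1 lam → Good q lam M := fun q hq => by
    have a1 := hq.trans (min_le_left _ _)
    have a2 := hq.trans (min_le_right _ _)
    have a3 := min_le_left q₀.l1 q₀.l2
    have a4 := min_le_right q₀.l1 q₀.l2
    have a5 := q.size_le q₀
    unfold NF.dist at a2
    have b1 := neg_abs_le (q.l1 - q₀.l1)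
    have b2 := neg_abs_le (q.l2 - q₀.l2)
    have := abs_nonneg (q.l1 - q₀.l1)
    have := abs_nonneg (q.l2 - q₀.l2)
    have := abs_nonneg (q.a - q₀.a)
    have := abs_nonneg (q.b - q₀.b)
    have := abs_nonneg (q.e - q₀.e)
    have := abs_nonneg (q.f - q₀.f)
    exact ⟨by linarith, by linarith, by linarith⟩
  set X := q₀.V (γ 0) with hX
  have hν : 0 < dot X X := dot_self_pos (h.nonsing 0)
  obtain ⟨κ₁, hκ₁, hκ₁1, hκ₁'⟩ := exists_small (2 * ‖X‖ * (M * (1 + 2 * R))) (B := dot X X / 4)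
    (by positivity)
  obtain ⟨ρ, hρ, -, hρ'⟩ := exists_small (2 * ‖X‖ * (R + R ^ 2)) (B := dot X X / 4)
    (by positivity)
  obtain ⟨τ', hτ', hτ''⟩ := Metric.continuousAt_iff.1 (h.sol.continuous.continuousAt (x := 0))
    (κ₁ / 2) (half_pos hκ₁)
  set τ := min (τ' / 2) (1 / 2) with hτ
  have hτ0 : 0 < τ := lt_min (half_pos hτ') (by norm_num)
  have hz : 0 < ‖γ 0‖ := norm_pos_iff.2 h.ne
  obtain ⟨S₀, hS₀⟩ := eventually_atBot.1 ((h.bot.norm.eventually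
    (gt_mem_nhds (show ‖(0 : ℝ × ℝ)‖ < ‖γ 0‖ / 2 by simpa using hz))).and
    (eventually_le_atBot (-τ)))
  obtain ⟨u, hu, hmin⟩ := isCompact_Icc.exists_isMinOn (nonempty_Icc.2 (hS₀ S₀ le_rfl).2)
    (f := fun t => ‖γ t - γ 0‖) (h.sol.continuous.sub continuous_const).norm.continuousOn
  have hm : 0 < ‖γ u - γ 0‖ := norm_pos_iff.2 (sub_ne_zero.2 fun he => by
    have := h.inj he
    linarith [hu.2])
  set κ₀ := min (‖γ u - γ 0‖ / 2) (min (κ₁ / 2) (‖γ 0‖ / 4)) with hκ₀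
  have k1 : κ₀ ≤ ‖γ u - γ 0‖ / 2 := min_le_left _ _
  have k2 : κ₀ ≤ κ₁ / 2 := (min_le_right _ _).trans (min_le_left _ _)
  have k3 : κ₀ ≤ ‖γ 0‖ / 4 := (min_le_right _ _).trans (min_le_right _ _)
  obtain ⟨δ₀, hδ₀, hbr⟩ := h.branch
  obtain ⟨δ₁, hδ₁, hcone⟩ := h.cone
  obtain ⟨δ₂, hδ₂, -, hδ₂'⟩ := exists_small (100 * M) hl
  set δ := min (min δ₀ (δ₁ / 2)) (min δ₂ (‖γ 0‖ / 2)) with hδ
  have d0 : 0 < δ := lt_min (lt_min hδ₀ (half_pos hδ₁)) (lt_min hδ₂ (half_pos hz))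
  have d1 : δ ≤ δ₀ := (min_le_left _ _).trans (min_le_left _ _)
  have d2 : δ ≤ δ₁ / 2 := (min_le_left _ _).trans (min_le_right _ _)
  have d3 : δ ≤ δ₂ := (min_le_right _ _).trans (min_le_left _ _)
  have d4 : δ ≤ ‖γ 0‖ / 2 := (min_le_right _ _).trans (min_le_right _ _)
  obtain ⟨t₀, ht₀, e1, e2, e3, e4⟩ := hbr δ ⟨d0, d1⟩
  refine ⟨{ q₀ := q₀, γ := γ, R := R, M := M, lam := lam, δ := δ, t₀ := t₀, κ₀ := κ₀, κ₁ := κ₁,
            τ := τ, ρ₁ := min (min 1 lam) ρ, loop := h, hR := hR, lam_pos := hl, δ_pos := d0,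
            δ_le := hδ₂' δ d0.le d3, ρ₁_pos := lt_min (lt_min one_pos hl) hρ,
            good := fun q hq => hgood q (hq.trans (min_le_left _ _)), t₀_le := ht₀, x_t₀ := e1,
            br := e2, br1 := e3, far := e4, cone := fun t ht => hcone t (by linarith),
            trans := ?_, τ_pos := hτ0, τ_le := min_le_right _ _, hτ := ?_,
            κ₀_pos := lt_min (half_pos hm) (lt_min (half_pos hκ₁) (by positivity)),
            κ₀_le := k2, κ₁_le := hκ₁1, sep := ?_, sep0 := by linarith }, rfl, rfl, rfl⟩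
  · intro q hq p hp
    have g := hgood q (hq.trans (min_le_left _ _))
    have b0 : ‖γ 0‖ ≤ R := by linarith [hR 0]
    have b1 : ‖p‖ ≤ R := by linarith [hR 0, norm_sub_norm_le p (γ 0)]
    have b2 := NF.V_sub_le g.size b1 b0
    have b3 := NF.V_param q q₀ b0
    have b4 := abs_le.1 (abs_dot_le X (q.V p - q.V (γ 0)))
    have b5 := abs_le.1 (abs_dot_le X (q.V (γ 0) - X))
    have b6 := hκ₁' _ (norm_nonneg _) hp
    have b7 := hρ' _ (q.dist_nonneg q₀) (hq.trans (min_le_right _ _))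
    have b8 := mul_le_mul_of_nonneg_left b2 (show 0 ≤ 2 * ‖X‖ by positivity)
    have b9 := mul_le_mul_of_nonneg_left b3 (show 0 ≤ 2 * ‖X‖ by positivity)
    rw [dot_sub] at b4 b5
    rw [← hX] at b9 ⊢
    linarith [b4.1, b5.1]
  · intro t ht
    rw [← dist_eq_norm]
    refine (hτ'' ?_).le
    rw [Real.dist_eq, sub_zero]
    linarith [min_le_left (τ' / 2) (1 / 2)]
  · intro t ht
    rcases le_total t S₀ with h1 | h1
    · have := (hS₀ t h1).1
      have h2 := norm_sub_norm_le (γ 0) (γ t)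
      rw [norm_sub_rev] at h2
      linarith
    · have := hmin (show t ∈ Icc S₀ (-τ) from ⟨h1, ht⟩)
      simp only [mem_ofPred_eq] at this
      linarith

namespace Setup

variable (S : Setup)

theorem hasDerivAt_L {p : ℝ → ℝ × ℝ} {v : ℝ × ℝ} {t : ℝ} (h : HasDerivAt p v t) :
    HasDerivAt (fun t => S.L (p t)) (dot S.X₀ v) t := by
  unfold L dot
  simpa using (((hd_fst h).sub_const S.z₀.1).const_mul S.X₀.1).fun_add
    (((hd_snd h).sub_const S.z₀.2).const_mul S.X₀.2)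

/-- An orbit shadowing the loop reaches the section. -/
theorem hit : ∃ A > (0 : ℝ), ∃ η₀ > (0 : ℝ), ∀ q : NF, q.dist S.q₀ ≤ S.ρ₁ →
    ∀ p : ℝ → ℝ × ℝ, IsSol (q.W S.R) p → ∀ θ ta η : ℝ, η ≤ η₀ → ta ≤ -1 → 0 ≤ θ + ta →
      (∀ t ∈ Icc ta 1, ‖p (t + θ) - S.γ t‖ ≤ η) → (∀ t ∈ Icc 0 (θ + ta), ‖p t‖ ≤ S.δ) →
      (∃ u, |u - θ| ≤ 1 / 2 ∧ S.Hit p u ∧ ‖p u - S.z₀‖ ≤ A * η) ∧
        (S.L (p θ) = 0 → S.Hit p θ) := by
  have hν := S.X₀_pos
  set ν := dot S.X₀ S.X₀ with hνd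
  set A₀ := 4 * ‖S.X₀‖ / ν with hA₀
  have hA0 : 0 ≤ A₀ := by positivity
  set K := S.M * (1 + 2 * S.R) * S.R with hK
  have hK0 : 0 ≤ K := by
    have := S.one_le_M
    have := S.R_pos
    positivity
  obtain ⟨η₁, hη₁, -, h₁⟩ := exists_small A₀ S.τ_pos
  obtain ⟨η₂, hη₂, -, h₂⟩ := exists_small (1 + K * A₀) (half_pos S.κ₀_pos)
  refine ⟨1 + K * A₀, by positivity, min η₁ η₂, lt_min hη₁ hη₂, ?_⟩
  intro q hq p hp θ ta η hη hta hθ ha hb
  have hη0 : 0 ≤ η := (norm_nonneg _).trans (ha 0 ⟨by linarith, by norm_num⟩)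
  have i1 := h₁ η hη0 (hη.trans (min_le_left _ _))
  have i2 := h₂ η hη0 (hη.trans (min_le_right _ _))
  have i3 : η ≤ S.κ₀ / 2 := by nlinarith [mul_nonneg (mul_nonneg hK0 hA0) hη0]
  have hτ := S.τ_le
  have hτ0 := S.τ_pos
  have hκ := S.κ₀_le
  have hκ0 := S.κ₀_pos
  have hwin : ∀ t ∈ Icc (θ - S.τ) (θ + S.τ),
      HasDerivAt (fun t => S.L (p t)) (dot S.X₀ (q.V (p t))) t ∧
        ν / 2 ≤ dot S.X₀ (q.V (p t)) := fun t ht => by
    have a1 := ha (t - θ) ⟨by linarith [ht.1], by linarith [ht.2]⟩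
    rw [sub_add_cancel] at a1
    have a2 := S.hτ (t - θ) (abs_le.2 ⟨by linarith [ht.1], by linarith [ht.2]⟩)
    have a3 : ‖p t - S.γ 0‖ ≤ S.κ₁ := by
      linarith [norm_sub_le_norm_sub_add_norm_sub (p t) (S.γ (t - θ)) (S.γ 0)]
    have a4 : ‖p t‖ ≤ S.R := by
      linarith [S.hR 0, norm_sub_norm_le (p t) (S.γ 0), S.κ₁_le]
    exact ⟨S.hasDerivAt_L (hp.ofW a4), S.trans q hq _ a3⟩
  have hmono : ∀ a b, θ - S.τ ≤ a → a ≤ b → b ≤ θ + S.τ →
      S.L (p a) + ν / 2 * (b - a) ≤ S.L (p b) := fun a b h1 h2 h3 => by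
    have := le_of_deriv_nonneg (g := fun t => S.L (p t) - ν / 2 * t)
      (g' := fun t => dot S.X₀ (q.V (p t)) - ν / 2) h2
      (fun t ht => by
        simpa using (hwin t ⟨by linarith [ht.1], by linarith [ht.2]⟩).1.fun_sub
          ((hasDerivAt_id' t).const_mul (ν / 2)))
      (fun t ht => by linarith [(hwin t ⟨by linarith [ht.1], by linarith [ht.2]⟩).2])
    linarith
  have h0 : ‖p θ - S.z₀‖ ≤ η := by
    have := ha 0 ⟨by linarith, by norm_num⟩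
    rwa [zero_add] at this
  have hL0 : |S.L (p θ)| ≤ ν / 2 * (A₀ * η) := by
    have a1 := abs_dot_le S.X₀ (p θ - S.z₀)
    have a2 := mul_le_mul_of_nonneg_left h0 (show 0 ≤ 2 * ‖S.X₀‖ by positivity)
    have a3 : ν / 2 * (A₀ * η) = 2 * ‖S.X₀‖ * η := by rw [hA₀]; field_simp; ring
    unfold L
    linarith
  have hA := mul_nonneg hA0 hη0
  have key : ∀ u, |u - θ| ≤ A₀ * η → S.L (p u) = 0 →
      S.Hit p u ∧ ‖p u - S.z₀‖ ≤ (1 + K * A₀) * η := fun u hu hL => by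
    have hu' := abs_le.1 hu
    have a1 := speed (S.good q hq).size S.R_pos.le hp θ u
    have a2 := mul_le_mul_of_nonneg_left hu hK0
    have a3 : ‖p u - S.z₀‖ ≤ (1 + K * A₀) * η := by
      have := norm_sub_le_norm_sub_add_norm_sub (p u) (p θ) S.z₀
      linarith
    refine ⟨⟨by linarith [hu'.1], fun t ht hc => ?_, hL, by linarith⟩, a3⟩
    by_cases c1 : t ≤ θ + ta
    · have b1 := hb t ⟨ht.1, c1⟩
      have b2 := norm_sub_norm_le S.z₀ (p t)
      rw [norm_sub_rev] at b2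
      have b3 : S.δ + 2 * S.κ₀ ≤ ‖S.z₀‖ := S.sep0
      linarith [hc.1]
    by_cases c2 : t ≤ θ - S.τ
    · have b1 := ha (t - θ) ⟨by linarith, by linarith⟩
      rw [sub_add_cancel, norm_sub_rev] at b1
      have b2 : 2 * S.κ₀ ≤ ‖S.γ (t - θ) - S.z₀‖ := S.sep (t - θ) (by linarith)
      linarith [norm_sub_le_norm_sub_add_norm_sub (S.γ (t - θ)) (p t) S.z₀, hc.1]
    · have b1 := hmono t u (by linarith) ht.2.le (by linarith [hu'.2])
      have b2 := mul_pos (half_pos hν) (sub_pos.2 ht.2)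
      linarith [hc.2]
  refine ⟨?_, fun hL => (key θ (by simpa using hA) hL).1⟩
  have a1 := hmono (θ - A₀ * η) θ (by linarith) (by linarith) (by linarith)
  have a2 := hmono θ (θ + A₀ * η) (by linarith) (by linarith) (by linarith)
  have hL' := abs_le.1 hL0
  obtain ⟨u, hu, he⟩ := intermediate_value_Icc (show θ - A₀ * η ≤ θ + A₀ * η by linarith)
    (f := fun t => S.L (p t))
    (fun t ht => (hwin t ⟨by linarith [ht.1], by linarith [ht.2]⟩).1.continuousAt.continuousWithinAt)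
    (show (0 : ℝ) ∈ Icc _ _ from ⟨by nlinarith [hL'.2], by nlinarith [hL'.1]⟩)
  have a3 : |u - θ| ≤ A₀ * η := abs_le.2 ⟨by linarith [hu.1], by linarith [hu.2]⟩
  exact ⟨u, by linarith, key u a3 he⟩

/-- The passage through the box, followed by shadowing of the loop. -/
theorem phase {η : ℝ} (hη : 0 < η) : ∃ ρ > (0 : ℝ), ∃ r₀ > (0 : ℝ), ρ ≤ S.ρ₁ ∧ r₀ ≤ S.δ / 2 ∧
    ∀ q : NF, q.dist S.q₀ ≤ ρ → ∀ r ∈ Ioo 0 r₀, ∃ t₁ ≥ (1 : ℝ), (S.P q r t₁).1 = S.δ ∧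
      (∀ t ∈ Icc 0 t₁, ‖S.P q r t‖ ≤ S.δ ∧ 0 < (S.P q r t).2 ∧ (S.P q r t).2 ≤ (S.P q r t).1 ∧
        (0 < t → (S.P q r t).2 < (S.P q r t).1)) ∧
      ∀ t ∈ Icc S.t₀ 2, ‖S.P q r (t + (t₁ - S.t₀)) - S.γ t‖ ≤ η := by
  have hM := S.one_le_M
  have hR := S.R_pos
  have hl := S.lam_pos
  have hδ := S.δ_pos
  set G := Real.exp (S.M * (1 + 2 * S.R) * (2 - S.t₀)) with hG
  have hG0 : 0 < G := Real.exp_pos _
  set ω := η / (2 * G) with hω
  have hω0 : 0 < ω := by positivity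
  obtain ⟨ρ₂, hρ₂, -, h₂⟩ := exists_small (S.R + S.R ^ 2) hω0
  obtain ⟨ρ₃, hρ₃, -, h₃⟩ := exists_small (4 / S.lam) hω0
  have hlim : Tendsto (fun t : ℝ => 4 * S.δ ^ 2 * Real.exp (-S.lam * t)) atTop (𝓝 (_ * 0)) :=
    (Real.tendsto_exp_atBot.comp (tendsto_id.const_mul_atTop_of_neg (by linarith))).const_mul _
  obtain ⟨T₁, hT₁⟩ := eventually_atTop.1 ((hlim.eventually
    (gt_mem_nhds (show _ * (0 : ℝ) < ω ^ 2 / 2 by rw [mul_zero]; positivity))).and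
    (eventually_ge_atTop 1))
  refine ⟨min S.ρ₁ (min ρ₂ ρ₃), lt_min S.ρ₁_pos (lt_min hρ₂ hρ₃),
    min (S.δ / 2) (S.δ * Real.exp (-(2 * S.M * T₁))), lt_min (half_pos hδ) (by positivity),
    min_le_left _ _, min_le_left _ _, fun q hq r hr => ?_⟩
  have g := S.good q (hq.trans (min_le_left _ _))
  have hδR : S.δ ≤ S.R := by linarith [S.δ_small, S.two_le_R]
  have hr1 : r < S.δ / 2 := hr.2.trans_le (min_le_left _ _)
  have hr2 : r < S.δ * Real.exp (-(2 * S.M * T₁)) := hr.2.trans_le (min_le_right _ _)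
  obtain ⟨t₁, ht₁, he, hbox⟩ := g.box_exit hl S.δ_le hδR (S.P_sol q r) hr.1 (by linarith)
    (S.P_zero q r)
  have hd : ∀ t ∈ Icc 0 t₁, HasDerivAt (S.P q r) (q.V (S.P q r t)) t := fun t ht =>
    (S.P_sol q r).ofW ((hbox t ht).1.trans hδR)
  have hT : T₁ ≤ t₁ := by
    have a1 := le_exp_of_deriv_const (φ := fun t => (S.P q r t).1) (k := 2 * S.M) ht₁.le
      (fun t ht => hd_fst (hd t ht))
      (fun t ht => (g.box_x hl S.δ_le (hbox t ht).1
        (norm_eq_fst (hbox t ht).2.1.le (hbox t ht).2.2.1)).2)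
    simp only [he, S.P_zero, sub_zero] at a1
    have a2 := mul_lt_mul_of_pos_right hr2 (Real.exp_pos (2 * S.M * t₁))
    rw [mul_assoc S.δ, ← Real.exp_add] at a2
    have a3 : 1 < Real.exp (-(2 * S.M * T₁) + 2 * S.M * t₁) := by
      by_contra hn
      nlinarith
    have a4 := Real.one_lt_exp_iff.1 a3
    nlinarith
  refine ⟨t₁, (hT₁ t₁ hT).2, he, hbox, fun t ht => ?_⟩
  have hρ0 := q.dist_nonneg S.q₀
  have b1 := g.exit_close hl S.δ_le (q' := S.q₀) (g := fun t => S.γ (t + (S.t₀ - t₁))) ht₁.le hd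
    (fun t _ => S.loop.sol.shift _ t) (fun t ht => (hbox t ht).1)
    (fun t ht => by
      have c1 := S.br (t + (S.t₀ - t₁)) (by linarith [ht.2])
      have c2 := S.loop.pos (t + (S.t₀ - t₁))
      rw [norm_eq_fst c2.2.le (by linarith [c1.1, c2.2])]
      exact c1.2)
    (by simp [he, S.x_t₀])
  simp only [add_sub_cancel] at b1
  have b2 := h₃ _ hρ0 (hq.trans ((min_le_right _ _).trans (min_le_right _ _)))
  have b3 := h₂ _ hρ0 (hq.trans ((min_le_right _ _).trans (min_le_left _ _)))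
  have b4 : 8 * q.dist S.q₀ ^ 2 / S.lam ^ 2 ≤ ω ^ 2 / 2 := by
    have c1 : 8 * q.dist S.q₀ ^ 2 / S.lam ^ 2 = (4 / S.lam * q.dist S.q₀) ^ 2 / 2 := by
      field_simp; ring
    have c2 : (4 / S.lam * q.dist S.q₀) ^ 2 ≤ ω ^ 2 := pow_le_pow_left₀ (by positivity) b2 2
    linarith
  have b5 : ‖S.P q r t₁ - S.γ S.t₀‖ ≤ ω :=
    le_of_sq_le_sq (by linarith [(hT₁ t₁ hT).1]) hω0.le
  have b6 := gron g.size hR.le (S.P_sol q r) S.γ_sol t₁ S.t₀ (t - S.t₀)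
  have b7 : Real.exp (S.M * (1 + 2 * S.R) * |t - S.t₀|) ≤ G := by
    refine Real.exp_le_exp.2 (mul_le_mul_of_nonneg_left ?_ (by positivity))
    rw [abs_of_nonneg (by linarith [ht.1])]
    linarith [ht.2]
  rw [sub_add_cancel, show t - S.t₀ + t₁ = t + (t₁ - S.t₀) by ring] at b6
  have b8 : (ω + ω) * G = η := by rw [hω]; field_simp; ring
  exact b6.trans (b8 ▸ mul_le_mul (by linarith) b7 (Real.exp_pos _).le (by positivity))

end Setup

end Pool.Agent.Lib.MP_bf91d6_an
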