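import Pool.Agent.Lib.MP_bf91d6_an.H1

set_option autoImplicit false

namespace Pool.Agent.Lib.MP_bf91d6_an

open Set Filter Topology Metric MeasureTheory

def dot (u v : ℝ × ℝ) : ℝ := u.1 * v.1 + u.2 * v.2

def rot (u : ℝ × ℝ) : ℝ × ℝ := (-u.2, u.1)

structure Good (q : NF) (lam M : ℝ) : Prop where
  l1 : lam ≤ q.l1
  l2 : lam ≤ q.l2
  size : q.size ≤ M

/-- A loop of a normal form with the constants of the passage from the saddle to a section. -/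
structure Setup where
  q₀ : NF
  γ : ℝ → ℝ × ℝ
  R : ℝ
  M : ℝ
  lam : ℝ
  δ : ℝ
  t₀ : ℝ
  κ₀ : ℝ
  κ₁ : ℝ
  τ : ℝ
  ρ₁ : ℝ
  loop : q₀.Loop γ
  hR : ∀ t, ‖γ t‖ + 2 ≤ R
  lam_pos : 0 < lam
  δ_pos : 0 < δ
  δ_le : 100 * M * δ ≤ lam
  ρ₁_pos : 0 < ρ₁
  good : ∀ q : NF, q.dist q₀ ≤ ρ₁ → Good q lam M
  t₀_le : t₀ ≤ -1
  x_t₀ : (γ t₀).1 = δ
  br : ∀ t ≤ t₀, (γ t).2 ≤ (γ t).1 / 2 ∧ (γ t).1 ≤ δ
  br1 : (γ (t₀ - 1)).1 < δ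
  far : ∀ t ∈ Icc t₀ 1, δ ≤ ‖γ t‖
  cone : ∀ t, ‖γ t‖ ≤ 2 * δ → (γ t).2 ≤ (γ t).1 / 2 ∨ (γ t).1 ≤ (γ t).2 / 2
  trans : ∀ q : NF, q.dist q₀ ≤ ρ₁ → ∀ p, ‖p - γ 0‖ ≤ κ₁ →
    dot (q₀.V (γ 0)) (q₀.V (γ 0)) / 2 ≤ dot (q₀.V (γ 0)) (q.V p)
  τ_pos : 0 < τ
  τ_le : τ ≤ 1 / 2
  hτ : ∀ t, |t| ≤ τ → ‖γ t - γ 0‖ ≤ κ₁ / 2
  κ₀_pos : 0 < κ₀
  κ₀_le : κ₀ ≤ κ₁ / 2
  κ₁_le : κ₁ ≤ 1
  sep : ∀ t ≤ -τ, 2 * κ₀ ≤ ‖γ t - γ 0‖
  sep0 : δ + 2 * κ₀ ≤ ‖γ 0‖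

def NF.div (q : NF) (p : ℝ × ℝ) : ℝ :=
  q.l1 - q.l2 + (2 * q.a + q.e) * p.1 + (q.b + 2 * q.f) * p.2

/-- Normal component of the diagonal direction. -/
def NF.β₀ (q : NF) (r : ℝ) : ℝ := (q.V (r, r)).1 - (q.V (r, r)).2

/-- Tangential component of the diagonal direction. -/
noncomputable def NF.α₀ (q : NF) (r : ℝ) : ℝ :=
  ((q.V (r, r)).1 + (q.V (r, r)).2) / dot (q.V (r, r)) (q.V (r, r))

/-- Numerator of the derivative of the tangential component of a variation. -/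
def NF.N (q : NF) (p : ℝ × ℝ) : ℝ :=
  ((q.b * p.1 - 2 * p.2) + (2 * p.1 + q.e * p.2)) * ((q.V p).1 ^ 2 - (q.V p).2 ^ 2) -
    2 * ((q.l1 + 2 * q.a * p.1 + q.b * p.2) - (-q.l2 + q.e * p.1 + 2 * q.f * p.2)) *
      (q.V p).1 * (q.V p).2

namespace Setup

variable (S : Setup)

def z₀ : ℝ × ℝ := S.γ 0

def X₀ : ℝ × ℝ := S.q₀.V (S.γ 0)

def Γ : Set (ℝ × ℝ) := insert 0 (range S.γ)

/-- The section is `L = 0`. -/
def L (p : ℝ × ℝ) : ℝ := dot S.X₀ (p - S.z₀)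

/-- Coordinate along the section. -/
noncomputable def sc (p : ℝ × ℝ) : ℝ := dot (rot S.X₀) (p - S.z₀) / dot S.X₀ S.X₀

/-- Parametrisation of the section. -/
def z (s : ℝ) : ℝ × ℝ := S.z₀ + s • rot S.X₀

/-- The orbit through the diagonal point `(r, r)`. -/
noncomputable def P (q : NF) (r : ℝ) : ℝ → ℝ × ℝ := q.flow S.R (r, r)

/-- `T` is the first time at which `p` reaches the section. -/
def Hit (p : ℝ → ℝ × ℝ) (T : ℝ) : Prop :=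
  0 < T ∧ (∀ t ∈ Ico 0 T, ¬(‖p t - S.z₀‖ ≤ S.κ₀ ∧ 0 ≤ S.L (p t))) ∧ S.L (p T) = 0 ∧
    ‖p T - S.z₀‖ < S.κ₀

noncomputable def T (q : NF) (r : ℝ) : ℝ := Classical.epsilon (S.Hit (S.P q r))

noncomputable def s (q : NF) (r : ℝ) : ℝ := S.sc (S.P q r (S.T q r))

noncomputable def β (q : NF) (r t : ℝ) : ℝ :=
  q.β₀ r * Real.exp (∫ u in (0 : ℝ)..t, q.div (S.P q r u))

noncomputable def α' (q : NF) (r t : ℝ) : ℝ :=
  S.β q r t * q.N (S.P q r t) / dot (q.V (S.P q r t)) (q.V (S.P q r t)) ^ 2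

noncomputable def α (q : NF) (r t : ℝ) : ℝ := q.α₀ r + ∫ u in (0 : ℝ)..t, S.α' q r u

/-- The derivative of `P q r t` with respect to `r`. -/
noncomputable def v (q : NF) (r t : ℝ) : ℝ × ℝ :=
  S.α q r t • q.V (S.P q r t) +
    (S.β q r t / dot (q.V (S.P q r t)) (q.V (S.P q r t))) • rot (q.V (S.P q r t))

/-- The derivative of `T q r` with respect to `r`. -/
noncomputable def T' (q : NF) (r : ℝ) : ℝ :=
  -S.α q r (S.T q r) - S.β q r (S.T q r) * dot S.X₀ (rot (q.V (S.P q r (S.T q r)))) /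
    (dot (q.V (S.P q r (S.T q r))) (q.V (S.P q r (S.T q r))) *
      dot S.X₀ (q.V (S.P q r (S.T q r))))

/-- The integral of `D` along the arc from the diagonal to the section. -/
noncomputable def I (D : ℝ × ℝ → ℝ) (q : NF) (r : ℝ) : ℝ :=
  ∫ t in (0 : ℝ)..S.T q r, D (S.P q r t)

/-- The derivative of `I D q r` with respect to `r`. -/
noncomputable def I' (D D1 D2 : ℝ × ℝ → ℝ) (q : NF) (r : ℝ) : ℝ :=
  D (S.P q r (S.T q r)) * S.T' q r + ∫ t in (0 : ℝ)..S.T q r,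
    (D1 (S.P q r t) * (S.v q r t).1 + D2 (S.P q r t) * (S.v q r t).2)

structure Facts (C c : ℝ) (q : NF) (r : ℝ) : Prop where
  near : q.dist S.q₀ ≤ S.ρ₁
  r_pos : 0 < r
  r_lt : r < S.δ / 2
  hit : S.Hit (S.P q r) (S.T q r)
  one_le : 1 ≤ S.T q r
  reg : ∀ t ∈ Icc 0 (S.T q r + 1), ‖S.P q r t‖ ≤ S.R - 1 ∧ 0 < (S.P q r t).1 ∧
    0 < (S.P q r t).2 ∧ c * ‖S.P q r t‖ ≤ ‖q.V (S.P q r t)‖
  decay : ∀ t ∈ Icc 0 (S.T q r), ‖S.P q r t‖ ≤ C * Real.exp (-c * (S.T q r - t))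
  Tup : S.T q r ≤ C - C * Real.log r
  Tlow : -c * Real.log r - C ≤ S.T q r
  diag : ∀ t ∈ Ioc 0 (S.T q r), (S.P q r t).2 < (S.P q r t).1 ∨ S.δ / 2 ≤ ‖S.P q r t‖
  beta : ∀ t ∈ Icc 0 (S.T q r),
    S.β q r t ≤ C * ‖S.P q r t‖ * (Real.exp (-c * t) + Real.exp (-c * (S.T q r - t)))
  beta0 : c * r ≤ q.β₀ r
  init : ∀ t ∈ Icc (0 : ℝ) 1, c * r ≤ (S.P q r t).1 ∧ c * r ≤ (S.P q r t).2 ∧
    ‖S.P q r t‖ ≤ C * r ∧ c * r ≤ S.β q r t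

theorem Hit.unique {S : Setup} {p : ℝ → ℝ × ℝ} {T T' : ℝ} (h : S.Hit p T) (h' : S.Hit p T') :
    T = T' := by
  rcases lt_trichotomy T T' with h1 | h1 | h1
  · exact absurd ⟨h.2.2.2.le, h.2.2.1.ge⟩ (h'.2.1 T ⟨h.1.le, h1⟩)
  · exact h1
  · exact absurd ⟨h'.2.2.2.le, h'.2.2.1.ge⟩ (h.2.1 T' ⟨h'.1.le, h1⟩)

theorem Hit.T_eq {S : Setup} {q : NF} {r T : ℝ} (h : S.Hit (S.P q r) T) : S.T q r = T :=
  Hit.unique (Classical.epsilon_spec ⟨T, h⟩) h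

theorem P_zero (q : NF) (r : ℝ) : S.P q r 0 = (r, r) := q.flow_zero _ _

theorem P_sol (q : NF) (r : ℝ) : IsSol (q.W S.R) (S.P q r) := q.flow_sol _ _

theorem R_pos : 0 < S.R := by linarith [S.hR 0, norm_nonneg (S.γ 0)]

theorem two_le_R : 2 ≤ S.R := by linarith [S.hR 0, norm_nonneg (S.γ 0)]

theorem good₀ : Good S.q₀ S.lam S.M := S.good _ (by rw [NF.dist_self]; exact S.ρ₁_pos.le)

theorem one_le_M : 1 ≤ S.M := S.q₀.one_le_size.trans S.good₀.size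

theorem lam_le_M : S.lam ≤ S.M :=
  S.good₀.l1.trans ((le_abs_self _).trans (S.q₀.l1_le.trans S.good₀.size))

theorem δ_small : S.δ ≤ 1 / 100 := by
  nlinarith [S.δ_le, S.lam_le_M, S.one_le_M, S.δ_pos]

theorem γ_sol : IsSol (S.q₀.W S.R) S.γ := S.loop.sol.toW fun t => by linarith [S.hR t]

theorem X₀_pos : 0 < dot S.X₀ S.X₀ := by
  have h := S.loop.nonsing 0
  unfold dot
  by_contra hn
  apply h
  have h1 : S.X₀.1 = 0 := by nlinarith [mul_self_nonneg S.X₀.1, mul_self_nonneg S.X₀.2]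
  have h2 : S.X₀.2 = 0 := by nlinarith [mul_self_nonneg S.X₀.1, mul_self_nonneg S.X₀.2]
  exact Prod.ext h1 h2

theorem z_sc {p : ℝ × ℝ} (h : S.L p = 0) : S.z (S.sc p) = p := by
  have h0 := S.X₀_pos.ne'
  have h1 : S.sc p * dot S.X₀ S.X₀ = dot (rot S.X₀) (p - S.z₀) := div_mul_cancel₀ _ h0
  simp only [L, dot, rot, Prod.fst_sub, Prod.snd_sub] at h h0 h1
  ext
  · simp only [z, rot, Prod.fst_add, Prod.smul_fst, smul_eq_mul]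
    apply mul_right_cancel₀ h0
    linear_combination (-S.X₀.1) * h - S.X₀.2 * h1
  · simp only [z, rot, Prod.snd_add, Prod.smul_snd, smul_eq_mul]
    apply mul_right_cancel₀ h0
    linear_combination (-S.X₀.2) * h + S.X₀.1 * h1

theorem Facts.deriv {S : Setup} {C c : ℝ} {q : NF} {r : ℝ} (h : S.Facts C c q r) {t : ℝ}
    (ht : t ∈ Icc 0 (S.T q r + 1)) : HasDerivAt (S.P q r) (q.V (S.P q r t)) t :=
  (S.P_sol q r).ofW (by linarith [(h.reg t ht).1])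

theorem Facts.z_s {S : Setup} {C c : ℝ} {q : NF} {r : ℝ} (h : S.Facts C c q r) :
    S.z (S.s q r) = S.P q r (S.T q r) := S.z_sc h.hit.2.2.1

theorem Facts.trans {S : Setup} {C c : ℝ} {q : NF} {r : ℝ} (h : S.Facts C c q r) :
    dot S.X₀ S.X₀ / 2 ≤ dot S.X₀ (q.V (S.P q r (S.T q r))) :=
  S.trans q h.near _ (h.hit.2.2.2.le.trans (by linarith [S.κ₀_le, S.κ₀_pos]))

end Setup

/-- `D` is continuously differentiable on `Ω` with gradient `(D1, D2)`. -/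
structure Grad (D D1 D2 : ℝ × ℝ → ℝ) (Ω : Set (ℝ × ℝ)) : Prop where
  deriv : ∀ (g : ℝ → ℝ × ℝ) (v : ℝ × ℝ) (t : ℝ), g t ∈ Ω → HasDerivAt g v t →
    HasDerivAt (fun t => D (g t)) (D1 (g t) * v.1 + D2 (g t) * v.2) t
  cont : ContinuousOn D Ω
  cont1 : ContinuousOn D1 Ω
  cont2 : ContinuousOn D2 Ω

end Pool.Agent.Lib.MP_bf91d6_an
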