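import Pool.Agent.Lib.MP_bf91d6_an.C2b
import Pool.Agent.Lib.MP_bf91d6_an.C1
import Pool.Agent.Lib.MP_bf91d6_an.T

set_option autoImplicit false

namespace Pool.Agent.Lib.MP_bf91d6_an

open Set Filter Topology Metric MeasureTheory

namespace L1

lemma two_zeros {g : ℝ → ℝ → ℝ} {r3 rb ra r1 : ℝ} (h3 : r3 ≤ rb) (hb : rb ≤ ra) (ha : ra ≤ r1)
    (c1 : ∀ r ∈ Icc r3 r1, ContinuousOn (g · r) (Icc (-1) 1))
    (c2 : ∀ s ∈ Icc (-1 : ℝ) 1, ContinuousOn (g s) (Icc r3 r1))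
    (m1 : ∀ s ∈ Icc (-1 : ℝ) 1, 0 ≤ g s ra → 0 < g s r1)
    (m2 : ∀ s ∈ Icc (-1 : ℝ) 1, 0 ≤ g s rb → 0 < g s r3)
    (e1 : g (-1) ra < 0) (e2 : ∀ r ∈ Icc rb ra, 0 ≤ g 1 r) :
    ∃ s ∈ Icc (-1 : ℝ) 1, ∃ x ∈ Icc r3 r1, ∃ y ∈ Icc r3 r1, x < y ∧ g s x = 0 ∧ g s y = 0 := by
  let A := {s ∈ Icc (-1 : ℝ) 1 | ∃ r ∈ Icc rb ra, g s r < 0}
  have ne : A.Nonempty := ⟨-1, by norm_num, ra, ⟨hb, le_rfl⟩, e1⟩
  have bd : BddAbove A := ⟨1, fun s hs => hs.1.2⟩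
  have cl := csSup_mem_closure ne bd
  have sub : A ⊆ Icc (-1) 1 := fun s hs => hs.1
  have hs := closure_minimal sub isClosed_Icc cl
  have key : ∀ r ∈ Icc rb ra, 0 ≤ g (sSup A) r := fun r hr => by
    rcases hs.2.eq_or_lt with e | e
    · rw [e]; exact e2 r hr
    by_contra hn
    have := (((c1 r ⟨h3.trans hr.1, hr.2.trans ha⟩ _ hs).mono_of_mem_nhdsWithin
      (Icc_mem_nhdsGT_of_mem ⟨hs.1, e⟩)).eventually_lt_const (not_le.1 hn))
    obtain ⟨s, ⟨a1, a2⟩, a3⟩ := ((this.and (Icc_mem_nhdsGT_of_mem ⟨hs.1, e⟩)).and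
      self_mem_nhdsWithin).exists
    exact (le_csSup bd ⟨a2, r, hr, a1⟩).not_gt a3
  have h13 : r3 ≤ r1 := h3.trans (hb.trans ha)
  have k1 := ((c1 r1 ⟨h13, le_rfl⟩ _ hs).mono sub).eventually_const_lt
    (m1 _ hs (key ra ⟨hb, le_rfl⟩))
  have k2 := ((c1 r3 ⟨le_rfl, h13⟩ _ hs).mono sub).eventually_const_lt
    (m2 _ hs (key rb ⟨le_rfl, hb⟩))
  have := mem_closure_iff_nhdsWithin_neBot.1 cl
  obtain ⟨s, ⟨a1, a2⟩, a3, r, hr, a4⟩ := ((k1.and k2).and self_mem_nhdsWithin).exists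
  have b1 : r3 ≤ r := h3.trans hr.1
  have b2 : r ≤ r1 := hr.2.trans ha
  obtain ⟨x, hx, ex⟩ := intermediate_value_Ioo' b1 ((c2 s a3).mono (Icc_subset_Icc_right b2))
    (show (0 : ℝ) ∈ _ from ⟨a4, a2⟩)
  obtain ⟨y, hy, ey⟩ := intermediate_value_Ioo b2 ((c2 s a3).mono (Icc_subset_Icc_left b1))
    (show (0 : ℝ) ∈ _ from ⟨a4, a1⟩)
  exact ⟨s, a3, x, ⟨hx.1.le, hx.2.le.trans b2⟩, y, ⟨b1.trans hy.1.le, hy.2.le⟩, hx.2.trans hy.1,
    ex, ey⟩

/-- The integral along both arcs. -/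
noncomputable def J (Z : Pair) (φ : ℝ × ℝ → ℝ) (q : NF) (r : ℝ) : ℝ :=
  Z.S.I φ q r + Z.S'.I (fun p => φ p.swap) q.star r

lemma I_lin (S : Setup) {φ ψ χ : ℝ × ℝ → ℝ} (h1 : Continuous φ) (h2 : Continuous ψ)
    (h3 : Continuous χ) (a b c : ℝ) (q : NF) (r : ℝ) :
    S.I (fun p => a * φ p + b * ψ p + c * χ p) q r =
      a * S.I φ q r + b * S.I ψ q r + c * S.I χ q r := by
  have := (S.P_sol q r).continuous
  simp only [Setup.I]
  rw [intervalIntegral.integral_add, intervalIntegral.integral_add] <;>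
    first | simp | exact Continuous.intervalIntegrable (by fun_prop) _ _

lemma J_lin (Z : Pair) {φ ψ χ : ℝ × ℝ → ℝ} (h1 : Continuous φ) (h2 : Continuous ψ)
    (h3 : Continuous χ) (a b c : ℝ) (q : NF) (r : ℝ) :
    J Z (fun p => a * φ p + b * ψ p + c * χ p) q r =
      a * J Z φ q r + b * J Z ψ q r + c * J Z χ q r := by
  simp only [J]
  rw [I_lin _ h1 h2 h3, I_lin _ (h1.comp' continuous_swap) (h2.comp' continuous_swap)
    (h3.comp' continuous_swap)]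
  ring

lemma unif (Z : Pair) {φ : ℝ × ℝ → ℝ} (hφ : ContDiff ℝ 1 φ) (h0 : φ 0 = 0) :
    ∃ ρ > (0 : ℝ), ∀ q : NF, q.dist Z.S.q₀ ≤ ρ → ∀ r ∈ Ioo 0 ρ,
      |J Z φ q r - ∫ t, φ (Z.S.γ t)| ≤ 1 / 8 := by
  by_contra hn
  push Not at hn
  choose q hq r hr h using fun n : ℕ => hn _ (Nat.one_div_pos_of_nat (n := n))
  have t0 := tendsto_one_div_add_atTop_nhds_zero_nat (𝕜 := ℝ)
  obtain ⟨ρ, hρ, r₀, hr₀, hA⟩ := Z.exists_arcs one_pos
  obtain ⟨K, hK⟩ := hφ.locallyLipschitz.locallyLipschitzOn.exists_lipschitzOnWith_of_compact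
    (isCompact_closedBall (0 : ℝ × ℝ) Z.S.R)
  have := Z.lim2 (l := atTop) (κ := 1) (B := K) (q := q) (r := r) (F := fun _ => φ) (F₀ := φ)
    (by
      filter_upwards [t0.eventually (ge_mem_nhds hρ), t0.eventually (ge_mem_nhds hr₀)] with n a b
      exact hA _ ((hq n).trans a) _ ⟨(hr n).1, (hr n).2.trans_le b⟩)
    (squeeze_zero (fun n => NF.dist_nonneg _ _) hq t0)
    (squeeze_zero (fun n => (hr n).1.le) (fun n => (hr n).2.le) t0)
    (Eventually.of_forall fun _ => ⟨hφ.continuous.continuousOn, fun p hp => by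
      have := hK.dist_le_mul p (mem_closedBall_zero_iff.2 (by
        linarith [Z.S.norm_le_of_thick le_rfl hp])) 0 (mem_closedBall_self Z.S.R_pos.le)
      simpa [h0] using this⟩)
    (fun t p hp => (hφ.continuous.tendsto _).comp hp) (T.integrable_comp Z.S.loop hφ h0)
  obtain ⟨n, hn⟩ := (Metric.tendsto_nhds.1 this (1 / 8) (by norm_num)).exists
  exact (h n).not_gt hn

/-- The linear perturbation of the divergence. -/
def lin (μ p : ℝ × ℝ) : ℝ := μ.1 * p.1 + μ.2 * p.2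

/-- The perturbation of the energy. -/
noncomputable def quad (q : NF) (μ p : ℝ × ℝ) : ℝ :=
  -((μ.1 * p.1 ^ 2 / 2 + μ.2 * p.1 * p.2) * (q.V p).2)

lemma cd_lin (μ : ℝ × ℝ) : ContDiff ℝ 1 (lin μ) := by unfold lin; fun_prop

lemma cd_quad (q : NF) (μ : ℝ × ℝ) : ContDiff ℝ 1 (quad q μ) := by unfold quad NF.V; fun_prop

lemma exists_dirs {q : NF} {γ : ℝ → ℝ × ℝ} (h : q.Loop γ) (h1 : q.l1 = 1) (h2 : q.l2 = 1)
    (hu : 2 * q.a + q.e = 0) (hv : q.b + 2 * q.f = 0) (hp : q.a + q.f ≠ 0) :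
    ∃ μ ν : ℝ × ℝ, ∫ t, lin μ (γ t) = 1 ∧ ∫ t, quad q μ (γ t) = 0 ∧
      ∫ t, lin ν (γ t) = 0 ∧ ∫ t, quad q ν (γ t) = 1 := by
  have i1 : ∀ μ, Integrable fun t => lin μ (γ t) := fun μ =>
    T.integrable_comp h (cd_lin μ) (by simp [lin])
  have i2 : ∀ μ, Integrable fun t => quad q μ (γ t) := fun μ =>
    T.integrable_comp h (cd_quad q μ) (by simp [quad])
  obtain ⟨a, b, e1⟩ : ∃ a b : ℝ, ∀ μ : ℝ × ℝ, ∫ t, lin μ (γ t) = μ.1 * a + μ.2 * b :=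
    ⟨_, _, fun μ => by
      rw [← integral_const_mul, ← integral_const_mul,
        ← integral_add ((i1 (1, 0)).const_mul _) ((i1 (0, 1)).const_mul _)]
      simp [lin]⟩
  obtain ⟨c, d, e2⟩ : ∃ c d : ℝ, ∀ μ : ℝ × ℝ, ∫ t, quad q μ (γ t) = μ.1 * c + μ.2 * d :=
    ⟨_, _, fun μ => by
      rw [← integral_const_mul, ← integral_const_mul,
        ← integral_add ((i2 (1, 0)).const_mul _) ((i2 (0, 1)).const_mul _)]
      congr 1; funext t; simp only [quad]; ring⟩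
  have key : ∀ U W : ℝ, U * a + W * b = 0 → U * c + W * d = 0 → U = 0 ∧ W = 0 := fun U W a1 a2 => by
    by_contra hn
    refine hp (N2 h h1 h2 (θ := 0) (not_and_or.1 hn) (by rw [hu, zero_mul]) (by rw [hv, zero_mul])
      ((e1 (U, W)).trans a1) ?_).1
    rw [← neg_eq_zero, ← integral_neg]
    exact (e2 (U, W)).trans a2
  have hD : a * d - b * c ≠ 0 := fun e => by
    obtain ⟨k1, k2⟩ := key b (-a) (by ring) (by linarith)
    obtain ⟨k3, k4⟩ := key d (-c) (by linarith) (by ring)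
    exact one_ne_zero (key 1 0 (by linarith) (by linarith)).1
  obtain ⟨D, eD⟩ : ∃ D, (a * d - b * c) * D = 1 := ⟨_, mul_inv_cancel₀ hD⟩
  refine ⟨(d * D, -c * D), (-b * D, a * D), ?_, ?_, ?_, ?_⟩ <;> simp only [e1, e2] <;> linarith

/-- The perturbed system. -/
noncomputable def fam (q : NF) (m : ℝ) (μ : ℝ × ℝ) : NF :=
  ⟨1 + m, 1, q.a + μ.1 / 2, q.b + μ.2, q.e, q.f⟩

/-- The energy. -/
noncomputable def H0 (q : NF) (p : ℝ × ℝ) : ℝ :=
  p.1 * p.2 + q.a * p.1 ^ 2 * p.2 - q.f * p.1 * p.2 ^ 2 - p.2 ^ 3 / 3 - p.1 ^ 3 / 3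

section
variable {q : NF} (h1 : q.l1 = 1) (h2 : q.l2 = 1) (hu : 2 * q.a + q.e = 0) (hv : q.b + 2 * q.f = 0)
include h1 h2 hu hv

lemma hd_H0 {p : ℝ → ℝ × ℝ} {v : ℝ × ℝ} {t : ℝ} (hp : HasDerivAt p v t) :
    HasDerivAt (fun t => H0 q (p t)) ((q.V (p t)).1 * v.2 - (q.V (p t)).2 * v.1) t := by
  have x := hd_fst hp
  have y := hd_snd hp
  refine (((((x.fun_mul y).fun_add (((x.fun_pow 2).const_mul q.a).fun_mul y)).fun_sub
    ((x.const_mul q.f).fun_mul (y.fun_pow 2))).fun_sub ((y.fun_pow 3).div_const 3)).fun_sub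
    ((x.fun_pow 3).div_const 3)).congr_deriv ?_
  simp only [NF.V, h1, h2]
  norm_num
  linear_combination ((p t).1 * (p t).2 * v.1) * hu - ((p t).1 * (p t).2 * v.2) * hv

lemma energy (Z : Pair) {m r : ℝ} {μ : ℝ × ℝ} (h : Z.Both (fam q m μ) r) :
    H0 q (Z.S.z (Z.S.s (fam q m μ) r)) - H0 q (Z.S.z (Z.S'.s (fam q m μ).star r)) =
      J Z (fun p => m * -(p.1 * (q.V p).2) + quad q μ p) (fam q m μ) r := by
  have c1 := (Z.S.P_sol (fam q m μ) r).continuous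
  have c2 := (Z.S'.P_sol (fam q m μ).star r).continuous
  have a1 := intervalIntegral.integral_eq_sub_of_hasDerivAt (a := 0) (b := Z.S.T (fam q m μ) r)
    (f' := fun t => m * -((Z.S.P (fam q m μ) r t).1 * (q.V (Z.S.P (fam q m μ) r t)).2) +
      quad q μ (Z.S.P (fam q m μ) r t))
    (fun t ht => by
      rw [uIcc_of_le h.1.hit.1.le] at ht
      refine (hd_H0 h1 h2 hu hv (h.1.deriv ⟨ht.1, by linarith [ht.2]⟩)).congr_deriv ?_
      simp only [quad, NF.V, fam, h1, h2]; ring)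
    (Continuous.intervalIntegrable (by unfold quad NF.V; fun_prop) _ _)
  have a2 := intervalIntegral.integral_eq_sub_of_hasDerivAt (a := 0)
    (b := Z.S'.T (fam q m μ).star r)
    (f' := fun t => m * -((Z.S'.P (fam q m μ).star r t).swap.1 *
      (q.V (Z.S'.P (fam q m μ).star r t).swap).2) + quad q μ (Z.S'.P (fam q m μ).star r t).swap)
    (fun t ht => by
      rw [uIcc_of_le h.2.hit.1.le] at ht
      refine (hd_H0 h1 h2 hu hv (hd_swap
        (h.2.deriv ⟨ht.1, by linarith [ht.2]⟩))).neg.congr_deriv ?_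
      simp only [quad, NF.V, fam, NF.star, h1, h2, Prod.fst_swap, Prod.snd_swap]; ring)
    (Continuous.intervalIntegrable (by unfold quad NF.V; fun_prop) _ _)
  have a3 : Z.S.z (Z.S'.s (fam q m μ).star r) =
      (Z.S'.P (fam q m μ).star r (Z.S'.T (fam q m μ).star r)).swap := by
    rw [← h.2.z_s, Z.z_eq, Prod.swap_swap]
  simp only [J, Setup.I, a1, a2, a3, h.1.z_s, Setup.P_zero, Pi.neg_apply, Prod.swap_prod_mk]
  ring

lemma mono_H0 (S : Setup) (hq : S.q₀ = q) :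
    StrictMonoOn (fun s => H0 q (S.z s)) {s | ‖S.z s - S.z₀‖ ≤ S.κ₁} := by
  have hd : ∀ s, HasDerivAt (fun s => H0 q (S.z s)) (dot S.X₀ (q.V (S.z s))) s := fun s =>
    (hd_H0 h1 h2 hu hv (((hasDerivAt_id s).smul_const (rot S.X₀)).const_add S.z₀)).congr_deriv
      (by simp only [dot, rot, Setup.z, one_smul, id]; ring)
  refine strictMonoOn_of_deriv_pos ?_ (fun s _ => (hd s).continuousAt.continuousWithinAt)
    fun s hs => ?_
  · simpa [Setup.z, preimage] using (convex_closedBall (0 : ℝ × ℝ) S.κ₁).linear_preimage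
      (LinearMap.toSpanSingleton ℝ _ (rot S.X₀))
  · have := interior_subset hs
    rw [(hd s).deriv]
    exact (half_pos S.X₀_pos).trans_le
      (S.trans q (by rw [hq, NF.dist_self]; exact S.ρ₁_pos.le) _ this)

omit h1 h2 in
lemma div_eq (Z : Pair) (m r : ℝ) (μ : ℝ × ℝ) :
    Z.S.I ((fam q m μ).D 0 0) (fam q m μ) r - Z.S'.I ((fam q m μ).star.D 0 0) (fam q m μ).star r =
      J Z (fun p => m + lin μ p) (fam q m μ) r := by
  have e : ∀ p, (fam q m μ).D 0 0 p = m + lin μ p := fun p => by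
    simp only [NF.D, NF.div, fam, lin]
    linear_combination p.1 * hu + p.2 * hv
  simp only [J, Setup.I, NF.D_star, e, intervalIntegral.integral_neg, sub_neg_eq_add]

end

lemma cont_gap (Z : Pair) {Q : ℝ → NF} {A : Set ℝ} {r : ℝ} (h : ∀ s ∈ A, Z.Both (Q s) r)
    (hQ : ∀ s, Continuous fun u => (Q u).dist (Q s)) : ContinuousOn (fun s => Z.gap (Q s) r) A :=
  fun s hs => by
    have a : Tendsto (fun u => (Q u).dist (Q s)) (𝓝[A] s) (𝓝 0) :=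
      ((hQ s).tendsto' s 0 (NF.dist_self _)).mono_left nhdsWithin_le_nhds
    exact (Z.S.T_tendsto (h s hs).1 (eventually_mem_nhdsWithin.mono fun u hu => (h u hu).1.hit) a
      tendsto_const_nhds).2.2.sub (Z.S'.T_tendsto (h s hs).2 (qi := fun u => (Q u).star)
      (eventually_mem_nhdsWithin.mono fun u hu => (h u hu).2.hit)
      (by simpa only [NF.dist_star] using a) tendsto_const_nhds).2.2

end L1

open L1 in
theorem two_orbits {q₀ : NF} {γ : ℝ → ℝ × ℝ} (h : q₀.Loop γ) (h1 : q₀.l1 = 1) (h2 : q₀.l2 = 1)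
    (hu : 2 * q₀.a + q₀.e = 0) (hv : q₀.b + 2 * q₀.f = 0) (hp : q₀.a + q₀.f ≠ 0)
    {ε ρ : ℝ} (hε : 0 < ε) (hρ : 0 < ρ) :
    ∃ q : NF, q.l2 = 1 ∧ q.l1 ≠ 1 ∧ q.dist q₀ < ρ ∧ ∃ O₁ O₂, O₁ ≠ O₂ ∧
      IsPeriodicOrbit q.V O₁ ∧ IsPeriodicOrbit q.V O₂ ∧
      O₁ ⊆ thickening ε (insert 0 (range γ)) ∧ O₂ ⊆ thickening ε (insert 0 (range γ)) := by
  obtain ⟨μ, ν, i1, i2, i3, i4⟩ := exists_dirs h h1 h2 hu hv hp
  obtain ⟨Z, rfl, rfl⟩ := exists_pair h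
  obtain ⟨ρ1, p1, u1⟩ := unif Z (cd_lin μ) (by simp [lin])
  obtain ⟨ρ2, p2, u2⟩ := unif Z (cd_quad Z.S.q₀ μ) (by simp [quad])
  obtain ⟨ρ3, p3, u3⟩ := unif Z (cd_lin ν) (by simp [lin])
  obtain ⟨ρ4, p4, u4⟩ := unif Z (cd_quad Z.S.q₀ ν) (by simp [quad])
  have cψ : ContDiff ℝ 1 fun p : ℝ × ℝ => -(p.1 * (Z.S.q₀.V p).2) := by unfold NF.V; fun_prop
  obtain ⟨ρ5, p5, u5⟩ := unif Z cψ (by simp)
  obtain ⟨ρ6, p6, r6, p6', u6⟩ := Z.exists_arcs hε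
  obtain ⟨ρ7, p7, r7, p7', u7⟩ := Z.facts Z.S.κ₁ (by linarith [Z.S.κ₀_pos, Z.S.κ₀_le])
  rw [i1] at u1; rw [i2] at u2; rw [i3] at u3; rw [i4] at u4
  generalize (∫ t, -((Z.S.γ t).1 * (Z.S.q₀.V (Z.S.γ t)).2)) = F0 at u5
  obtain ⟨ρ0, p0, l⟩ : ∃ ρ0 > (0 : ℝ), ∀ x ∈ [ρ1, ρ2, ρ3, ρ4, ρ5, ρ6, r6, ρ7, r7, ρ / 2], ρ0 ≤ x :=
    ⟨min (min (min ρ1 ρ2) (min ρ3 ρ4)) (min (min (min ρ5 ρ6) (min r6 ρ7)) (min r7 (ρ / 2))),
      by positivity, by simp⟩
  simp only [List.forall_mem_cons, List.not_mem_nil, false_imp_iff, implies_true, and_true] at l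
  obtain ⟨l1, l2, l3, l4, l5, l6, l6', l7, l7', l8⟩ := l
  obtain ⟨η, hη, -, hη'⟩ := exists_small (|Z.C - Z.C * Real.log (ρ0 / 4) +
    (Z.C' - Z.C' * Real.log (ρ0 / 4))| + (|F0| + 1)) (show (0 : ℝ) < 1 / 4 by norm_num)
  replace hη' := hη' η hη.le le_rfl
  obtain ⟨rb, pb, hb1, hb2⟩ : ∃ rb > (0 : ℝ), rb ≤ ρ0 / 4 ∧ 2 ≤ η * (-Z.c * Real.log rb - Z.C) := by
    refine ⟨min (ρ0 / 4) (Real.exp (-((2 / η + Z.C) / Z.c))), by positivity, min_le_left _ _, ?_⟩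
    have := Real.log_le_log (by positivity)
      (min_le_right (ρ0 / 4) (Real.exp (-((2 / η + Z.C) / Z.c))))
    rw [Real.log_exp, le_neg, div_le_iff₀ Z.c_pos, ← le_sub_iff_add_le, div_le_iff₀ hη] at this
    linarith
  obtain ⟨e, he, -, he'⟩ := exists_small (η + (|μ.1| + |ν.1|) + (|μ.2| + |ν.2|)) p0
  replace he' := he' e he.le le_rfl
  let Q : ℝ → NF := fun s => fam Z.S.q₀ (-(e * η)) (e • (μ + s • ν))
  have hd : ∀ s ∈ Icc (-1 : ℝ) 1, (Q s).dist Z.S.q₀ ≤ ρ0 := fun s hs => by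
    have a : ∀ x y : ℝ, |e * (x + s * y)| ≤ e * (|x| + |y|) := fun x y => by
      rw [abs_mul, abs_of_pos he]
      refine mul_le_mul_of_nonneg_left ((abs_add_le _ _).trans ?_) he.le
      linarith [abs_mul_le (abs_le.2 hs) (le_refl |y|)]
    have a1 := a μ.1 ν.1
    have a2 := a μ.2 ν.2
    simp only [Q, fam, NF.dist, h1, h2, add_sub_cancel_left, sub_self, abs_zero, abs_neg, abs_div,
      abs_of_pos (mul_pos he hη), Prod.smul_fst, Prod.smul_snd, Prod.fst_add, Prod.snd_add,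
      smul_eq_mul, abs_two]
    linarith [abs_nonneg (e * (μ.1 + s * ν.1))]
  have hB : ∀ s ∈ Icc (-1 : ℝ) 1, ∀ r ∈ Ioo 0 ρ0, Z.Both (Q s) r ∧ Z.Arcs ε (Q s) r :=
    fun s hs r hr => u6 _ ((hd s hs).trans l6) r ⟨hr.1, hr.2.trans_le l6'⟩
  have hg : ∀ s ∈ Icc (-1 : ℝ) 1, ∀ r ∈ Ioo 0 ρ0, ∃ x, |x - 1| ≤ 1 / 4 ∧
      Z.S.I ((Q s).D 0 0) (Q s) r - Z.S'.I ((Q s).star.D 0 0) (Q s).star r =
        e * (x - η * (Z.S.T (Q s) r + Z.S'.T (Q s).star r)) := fun s hs r hr => by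
    have a1 := abs_le.1 (u1 _ ((hd s hs).trans l1) r ⟨hr.1, hr.2.trans_le l1⟩)
    have a2 := abs_le.1 (abs_mul_le (abs_le.2 hs)
      (u3 _ ((hd s hs).trans l3) r ⟨hr.1, hr.2.trans_le l3⟩))
    refine ⟨J Z (lin μ) (Q s) r + s * J Z (lin ν) (Q s) r,
      abs_le.2 ⟨by linarith [a1.1, a2.1], by linarith [a1.2, a2.2]⟩, ?_⟩
    have := J_lin Z (continuous_const (y := 1)) (cd_lin μ).continuous (cd_lin ν).continuous
      (-(e * η)) e (e * s) (Q s) r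
    rw [div_eq hu hv, show (fun p => -(e * η) + lin (e • (μ + s • ν)) p) =
      fun p => -(e * η) * 1 + e * lin μ p + e * s * lin ν p from
        funext fun p => by simp [lin]; ring, this]
    simp only [J, Setup.I, intervalIntegral.integral_const, sub_zero, smul_eq_mul]
    ring
  have hδ : ∀ s ∈ Icc (-1 : ℝ) 1, ∀ r ∈ Ioo 0 ρ0, ∃ x, |x - s| ≤ 1 / 2 ∧
      (x < 0 ↔ Z.gap (Q s) r < 0) := fun s hs r hr => by
    have a1 := abs_le.1 (u2 _ ((hd s hs).trans l2) r ⟨hr.1, hr.2.trans_le l2⟩)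
    have a2 := abs_le.1 (abs_mul_le (abs_le.2 hs)
      (u4 _ ((hd s hs).trans l4) r ⟨hr.1, hr.2.trans_le l4⟩))
    have a3 : |J Z (fun p => -(p.1 * (Z.S.q₀.V p).2)) (Q s) r| ≤ |F0| + 1 := by
      linarith [u5 _ ((hd s hs).trans l5) r ⟨hr.1, hr.2.trans_le l5⟩,
        abs_sub_abs_le_abs_sub (J Z (fun p => -(p.1 * (Z.S.q₀.V p).2)) (Q s) r) F0]
    have a4 := abs_le.1 (abs_mul_le (abs_of_pos hη).le a3)
    have a5 := mul_nonneg hη.le (abs_nonneg (Z.C - Z.C * Real.log (ρ0 / 4) +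
      (Z.C' - Z.C' * Real.log (ρ0 / 4))))
    refine ⟨-η * J Z (fun p => -(p.1 * (Z.S.q₀.V p).2)) (Q s) r + J Z (quad Z.S.q₀ μ) (Q s) r +
      s * J Z (quad Z.S.q₀ ν) (Q s) r,
      abs_le.2 ⟨by linarith [a1.1, a2.1, a4.2], by linarith [a1.2, a2.2, a4.1]⟩, ?_⟩
    have b1 := J_lin Z cψ.continuous (cd_quad Z.S.q₀ μ).continuous (cd_quad Z.S.q₀ ν).continuous
      (-(e * η)) e (e * s) (Q s) r
    have b2 := energy h1 h2 hu hv Z (hB s hs r hr).1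
    rw [show (fun p : ℝ × ℝ => -(e * η) * -(p.1 * (Z.S.q₀.V p).2) +
      quad Z.S.q₀ (e • (μ + s • ν)) p) = fun p => -(e * η) * -(p.1 * (Z.S.q₀.V p).2) +
        e * quad Z.S.q₀ μ p + e * s * quad Z.S.q₀ ν p from
      funext fun p => by simp [quad]; ring, b1] at b2
    obtain ⟨⟨f1, f2⟩, n1, n2⟩ := u7 _ ((hd s hs).trans l7) r ⟨hr.1, hr.2.trans_le l7'⟩
    rw [← f1.z_s] at n1
    rw [← f2.z_s, Z.z_eq, Z.z₀_eq, ← Prod.swap_sub, norm_swap] at n2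
    rw [Pair.gap, sub_neg, ← (mono_H0 h1 h2 hu hv Z.S rfl).lt_iff_lt n1 n2,
      ← mul_lt_mul_iff_right₀ he]
    exact Iff.trans (iff_of_eq (congrArg₂ _ (by rw [b2]; ring) (mul_zero _))) sub_neg
  choose! fl hfl using fun s (hs : s ∈ Icc (-1 : ℝ) 1) => Z.flux (q := Q s) (r₀ := ρ0) (n := 0)
    (u := 0) (fun r hr => (hB s hs r hr).1) fun r hr => ⟨by simp, by simp, by simp⟩
  have b0 : ∀ s ∈ Icc (-1 : ℝ) 1, ∀ r ∈ Ioo 0 ρ0, 0 < Bf 0 0 (2 * r) * (Q s).β₀ r :=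
    fun s hs r hr => mul_pos (Real.exp_pos _)
      ((mul_pos Z.c_pos hr.1).trans_le (hB s hs r hr).1.1.beta0)
  have sub : Icc (rb / 2) (ρ0 / 2) ⊆ Ioo 0 ρ0 := fun r hr => ⟨by linarith [hr.1], by linarith [hr.2]⟩
  have ma : ρ0 / 4 ∈ Ioo 0 ρ0 := ⟨by linarith, by linarith⟩
  obtain ⟨s, hs, x, hx, y, hy, hxy, gx, gy⟩ := two_zeros (g := fun s r => Z.gap (Q s) r)
    (r3 := rb / 2) (rb := rb) (ra := ρ0 / 4) (r1 := ρ0 / 2) (by linarith) hb1 (by linarith)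
    (fun r hr => cont_gap Z (fun s hs => (hB s hs r (sub hr)).1) fun s => by
      simp only [Q, fam, NF.dist]; fun_prop)
    (fun s hs r hr => ((Z.S.hasDerivAt_s Z.c_pos (fun r hr => (hB s hs r hr).1.1)
      (sub hr)).2.sub (Z.S'.hasDerivAt_s Z.c'_pos (fun r hr => (hB s hs r hr).1.2)
      (sub hr)).2).continuousAt.continuousWithinAt)
    (fun s hs h0 => by
      have sb : Icc (ρ0 / 4) (ρ0 / 2) ⊆ Ioo 0 ρ0 :=
        fun r hr => ⟨by linarith [hr.1], by linarith [hr.2]⟩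
      have := strictMonoOn_of_deriv_pos (convex_Icc (ρ0 / 4) (ρ0 / 2)) (f := fl s)
        (fun r hr => (hfl s hs r (sb hr)).1.continuousAt.continuousWithinAt) (fun r hr => by
          have hr' := interior_subset hr
          obtain ⟨x, a1, a2⟩ := hg s hs r (sb hr')
          rw [(hfl s hs r (sb hr')).1.deriv]
          refine mul_pos (b0 s hs r (sb hr')) (sub_pos.2 (Real.exp_lt_exp.2 (sub_pos.1 ?_)))
          have a3 := Real.log_le_log ma.1 hr'.1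
          have a4 : Z.S.T (Q s) r + Z.S'.T (Q s).star r ≤ |Z.C - Z.C * Real.log (ρ0 / 4) +
              (Z.C' - Z.C' * Real.log (ρ0 / 4))| := le_trans (by
            linarith [(hB s hs r (sb hr')).1.1.Tup, (hB s hs r (sb hr')).1.2.Tup,
              mul_le_mul_of_nonneg_left a3 Z.C_pos.le, mul_le_mul_of_nonneg_left a3 Z.C'_pos.le])
            (le_abs_self _)
          rw [a2]
          refine mul_pos he ?_
          linarith [(abs_le.1 a1).1, mul_le_mul_of_nonneg_left a4 hη.le,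
            mul_nonneg hη.le (abs_nonneg F0)])
        ⟨le_rfl, by linarith⟩ ⟨by linarith, le_rfl⟩ (by linarith)
      exact (hfl s hs _ (sb ⟨by linarith, le_rfl⟩)).2.1.2
        ((not_lt.1 (mt (hfl s hs _ ma).2.2.2 h0.not_gt)).trans_lt this))
    (fun s hs h0 => by
      have sb : Icc (rb / 2) rb ⊆ Ioo 0 ρ0 := fun r hr => ⟨by linarith [hr.1], by linarith [hr.2]⟩
      have := strictAntiOn_of_deriv_neg (convex_Icc (rb / 2) rb) (f := fl s)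
        (fun r hr => (hfl s hs r (sb hr)).1.continuousAt.continuousWithinAt) (fun r hr => by
          have hr' := interior_subset hr
          obtain ⟨x, a1, a2⟩ := hg s hs r (sb hr')
          rw [(hfl s hs r (sb hr')).1.deriv]
          refine mul_neg_of_pos_of_neg (b0 s hs r (sb hr'))
            (sub_neg.2 (Real.exp_lt_exp.2 (sub_neg.1 ?_)))
          have a3 := Real.log_le_log (sb hr').1 hr'.2
          have a4 : -Z.c * Real.log rb - Z.C ≤ Z.S.T (Q s) r + Z.S'.T (Q s).star r := by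
            linarith [(hB s hs r (sb hr')).1.1.Tlow, (hB s hs r (sb hr')).1.2.hit.1,
              mul_le_mul_of_nonneg_left a3 Z.c_pos.le]
          rw [a2]
          exact mul_neg_of_pos_of_neg he
            (by linarith [(abs_le.1 a1).2, mul_le_mul_of_nonneg_left a4 hη.le]))
        ⟨le_rfl, by linarith⟩ ⟨by linarith, le_rfl⟩ (by linarith)
      exact (hfl s hs _ (sb ⟨le_rfl, by linarith⟩)).2.1.2
        ((not_lt.1 (mt (hfl s hs _ (sb ⟨by linarith, le_rfl⟩)).2.2.2 h0.not_gt)).trans_lt this))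
    (by
      obtain ⟨x, a1, a2⟩ := hδ (-1) (by norm_num) _ ma
      exact a2.1 (by linarith [(abs_le.1 a1).2]))
    (fun r hr => by
      obtain ⟨x, a1, a2⟩ := hδ 1 (by norm_num) r ⟨by linarith [hr.1], by linarith [hr.2]⟩
      exact not_lt.1 fun c => by linarith [(abs_le.1 a1).1, a2.2 c])
  have fin : ∀ r ∈ Ioo 0 ρ0, Z.gap (Q s) r = 0 →
      range (Z.S.P (Q s) r) ⊆ thickening ε (insert 0 (range Z.S.γ)) := fun r hr g p hp => by
    rcases (Z.orbit (hB s hs r hr).1 g).2.1 p hp with ⟨t, ht, rfl⟩ | ⟨t, ht, rfl⟩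
    · exact (hB s hs r hr).2.1 t ⟨ht.1, by linarith [ht.2]⟩
    · exact Z.thick_eq' ((hB s hs r hr).2.2 t ⟨ht.1, by linarith [ht.2]⟩)
  refine ⟨Q s, rfl, by simp [Q, fam, he.ne', hη.ne'], by linarith [hd s hs], _, _, fun c => ?_,
    (Z.orbit (hB s hs x (sub hx)).1 gx).1, (Z.orbit (hB s hs y (sub hy)).1 gy).1,
    fin x (sub hx) gx, fin y (sub hy) gy⟩
  have f := (hB s hs x (sub hx)).1
  exact hxy.ne ((Z.orbit (hB s hs y (sub hy)).1 gy).2.2 x f.1.r_pos f.1.r_lt f.2.r_lt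
    (c ▸ ⟨0, Z.S.P_zero _ _⟩))

end Pool.Agent.Lib.MP_bf91d6_an
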