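import Pool.Agent.Lib.MP_bf91d6_an.R

/-! Block L2: explicit loop, isolation of periodic orbits, final value (from the statements of
`core2` and `two_orbits`). -/

set_option autoImplicit false

namespace Pool.Agent.Lib.MP_bf91d6_an

open Set Filter Topology Metric MeasureTheory

/-- The statement of `core2`. -/
def Core2Stmt : Prop :=
  ∀ {q₀ : NF} {γ : ℝ → ℝ × ℝ}, q₀.Loop γ → q₀.l2 = 1 →
    ∃ ε > (0 : ℝ), ∃ ρ > (0 : ℝ), ∀ q : NF, q.l2 = 1 → q.dist q₀ < ρ →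
      {O | IsPeriodicOrbit q.V O ∧ O ⊆ thickening ε (insert 0 (range γ))}.encard ≤ 2 ∨
        (cyclesNear q.V (insert 0 (range γ)) ε = ∅ ∧
          (q₀.a + q₀.f ≠ 0 → q.l1 = 1 ∧ 2 * q.a + q.e = 0 ∧ q.b + 2 * q.f = 0))

/-- The statement of `two_orbits`. -/
def TwoOrbitsStmt : Prop :=
  ∀ {q₀ : NF} {γ : ℝ → ℝ × ℝ}, q₀.Loop γ → q₀.l1 = 1 → q₀.l2 = 1 →
    2 * q₀.a + q₀.e = 0 → q₀.b + 2 * q₀.f = 0 → q₀.a + q₀.f ≠ 0 →
    ∀ {ε ρ : ℝ}, 0 < ε → 0 < ρ →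
    ∃ q : NF, q.l2 = 1 ∧ q.l1 ≠ 1 ∧ q.dist q₀ < ρ ∧ ∃ O₁ O₂, O₁ ≠ O₂ ∧
      IsPeriodicOrbit q.V O₁ ∧ IsPeriodicOrbit q.V O₂ ∧
      O₁ ⊆ thickening ε (insert 0 (range γ)) ∧ O₂ ⊆ thickening ε (insert 0 (range γ))

/-- An explicit Hamiltonian normal form. -/
def exQ : NF := ⟨1, 1, 0, -2, 0, 1⟩

/-- Its homoclinic orbit. -/
noncomputable def exγ (t : ℝ) : ℝ × ℝ :=
  (3 * Real.exp t / (1 + 3 * Real.exp t ^ 2 + Real.exp t ^ 3),
    3 * Real.exp t ^ 2 / (1 + 3 * Real.exp t ^ 2 + Real.exp t ^ 3))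

theorem exγ_sol : IsSol exQ.V exγ := fun t => by
  have he := Real.hasDerivAt_exp t
  have hp := Real.exp_pos t
  have hD : (1 + 3 * Real.exp t ^ 2 + Real.exp t ^ 3) ≠ 0 := by positivity
  have h1 := (((he.pow 2).const_mul 3).const_add 1).add (he.pow 3)
  have h2 := (he.const_mul 3).div h1 hD
  have h3 := ((he.pow 2).const_mul 3).div h1 hD
  refine (hd_mk h2 h3).congr_deriv ?_
  ext
  · simp only [exQ, NF.V, exγ, Pi.add_apply, Pi.pow_apply]
    field_simp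
    push_cast
    ring
  · simp only [exQ, NF.V, exγ, Pi.add_apply, Pi.pow_apply]
    field_simp
    push_cast
    ring

theorem exγ_bot : Tendsto exγ atBot (𝓝 0) := by
  have hc : ContinuousAt (fun τ : ℝ => ((3 * τ / (1 + 3 * τ ^ 2 + τ ^ 3),
      3 * τ ^ 2 / (1 + 3 * τ ^ 2 + τ ^ 3)) : ℝ × ℝ)) 0 := by
    refine ContinuousAt.prodMk ?_ ?_ <;> exact ContinuousAt.div (by fun_prop) (by fun_prop) (by simp)
  have := hc.tendsto.comp Real.tendsto_exp_atBot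
  simp only [mul_zero, zero_div, ne_eq, OfNat.ofNat_ne_zero, not_false_eq_true, zero_pow,
    Prod.mk_zero_zero] at this
  exact this

theorem exγ_top : Tendsto exγ atTop (𝓝 0) := by
  have hc : ContinuousAt (fun σ : ℝ => ((3 * σ ^ 2 / (σ ^ 3 + 3 * σ + 1),
      3 * σ / (σ ^ 3 + 3 * σ + 1)) : ℝ × ℝ)) 0 := by
    refine ContinuousAt.prodMk ?_ ?_ <;> exact ContinuousAt.div (by fun_prop) (by fun_prop) (by simp)
  have h := hc.tendsto.comp Real.tendsto_exp_neg_atTop_nhds_zero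
  have e : exγ = (fun σ : ℝ => ((3 * σ ^ 2 / (σ ^ 3 + 3 * σ + 1),
      3 * σ / (σ ^ 3 + 3 * σ + 1)) : ℝ × ℝ)) ∘ fun x => Real.exp (-x) := by
    funext t
    have hp := Real.exp_pos t
    simp only [exγ, Function.comp, Real.exp_neg]
    ext <;> simp only <;> field_simp
  rw [e]
  simpa [Prod.mk_zero_zero] using h

theorem exQ_loop : exQ.Loop exγ where
  l1 := one_pos
  l2 := one_pos
  sol := exγ_sol
  bot := exγ_bot
  top := exγ_top
  ne := fun h => by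
    have := congrArg Prod.fst h
    norm_num [exγ] at this

/-- A periodic orbit in an open set containing finitely many periodic orbits is a limit cycle. -/
theorem limitCycle_of_finite {V : ℝ × ℝ → ℝ × ℝ} (hV : ContDiff ℝ 1 V) {W : Set (ℝ × ℝ)}
    (hW : IsOpen W) (hf : {O | IsPeriodicOrbit V O ∧ O ⊆ W}.Finite) {O : Set (ℝ × ℝ)}
    (h : IsPeriodicOrbit V O) (hO : O ⊆ W) : IsLimitCycle V O := by
  have hK : IsClosed (⋃ O' ∈ {O | IsPeriodicOrbit V O ∧ O ⊆ W} \ {O}, O') :=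
    (hf.subset sdiff_subset).isClosed_biUnion fun O' h' => h'.1.1.isCompact.isClosed
  refine ⟨h, W \ _, hW.sdiff hK, fun p hp => ⟨hO hp, fun hp' => ?_⟩, fun O' h' hs => ?_⟩
  · obtain ⟨O', h', hp'⟩ := mem_iUnion₂.1 hp'
    exact h'.2 (h'.1.1.eq_of_mem hV h hp' hp)
  · by_contra hne
    obtain ⟨γ, T, h1, h2, h3, h4, h5⟩ := id h'
    have hp : γ 0 ∈ O' := h5 ▸ mem_range_self 0
    exact (hs hp).2 (mem_iUnion₂.2 ⟨O', ⟨⟨h', fun p hp => (hs hp).1⟩, hne⟩, hp⟩)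

theorem lower_ex (hc : Core2Stmt) (ht : TwoOrbitsStmt) : ∀ ε > (0 : ℝ), ∀ ρ > (0 : ℝ),
    ∃ q : NF, q.dist exQ < ρ ∧ 2 ≤ (cyclesNear q.V (insert 0 (range exγ)) ε).encard := by
  intro ε hε ρ hρ
  obtain ⟨ε', hε', ρ', hρ', h⟩ := hc exQ_loop rfl
  have hp : exQ.a + exQ.f ≠ 0 := by norm_num [exQ]
  obtain ⟨q, h2, h1, hd, O₁, O₂, hne, p1, p2, s1, s2⟩ := ht exQ_loop rfl rfl (by norm_num [exQ])
    (by norm_num [exQ]) hp (lt_min hε hε') (lt_min hρ hρ')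
  refine ⟨q, hd.trans_le (min_le_left _ _), ?_⟩
  rcases h q h2 (hd.trans_le (min_le_right _ _)) with h3 | h3
  · have hf := finite_of_encard_le_coe (k := 2) h3
    have m1 := thickening_mono (min_le_left ε ε') (insert 0 (range exγ))
    have m2 := thickening_mono (min_le_right ε ε') (insert 0 (range exγ))
    rw [← encard_pair hne]
    refine encard_le_encard ?_
    rintro O (rfl | rfl)
    · exact ⟨limitCycle_of_finite q.contDiff_V isOpen_thickening hf p1 (s1.trans m2), s1.trans m1⟩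
    · exact ⟨limitCycle_of_finite q.contDiff_V isOpen_thickening hf p2 (s2.trans m2), s2.trans m1⟩
  · exact absurd (h3.2 hp).1 h1

theorem lower_of (hc : Core2Stmt) (ht : TwoOrbitsStmt) :
    ∃ (q₀ : NF) (γ : ℝ → ℝ × ℝ), q₀.Loop γ ∧ ∀ ε > (0 : ℝ), ∀ ρ > (0 : ℝ),
      ∃ q : NF, q.dist q₀ < ρ ∧ 2 ≤ (cyclesNear q.V (insert 0 (range γ)) ε).encard :=
  ⟨exQ, exγ, exQ_loop, lower_ex hc ht⟩

theorem core_of (hc : Core2Stmt) : CoreStmt := by
  intro q₀ γ h h2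
  obtain ⟨ε, hε, ρ, hρ, h3⟩ := hc h h2
  refine ⟨ε, hε, ρ, hρ, fun q hq hd => ?_⟩
  rcases h3 q hq hd with h4 | h4
  · refine le_trans (encard_le_encard fun O hO => ?_) h4
    exact ⟨hO.1.1, hO.2⟩
  · rw [h4.1, encard_empty]
    exact zero_le

theorem NF.coef_dist (q q' : NF) : Dist.dist q.coef q'.coef ≤ q.dist q' := by
  have h0 := q.dist_nonneg q'
  rw [dist_pi_le_iff h0]
  have a1 := abs_nonneg (q.l1 - q'.l1)
  have a2 := abs_nonneg (q.l2 - q'.l2)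
  have a3 := abs_nonneg (q.a - q'.a)
  have a4 := abs_nonneg (q.b - q'.b)
  have a5 := abs_nonneg (q.e - q'.e)
  have a6 := abs_nonneg (q.f - q'.f)
  have a7 : |-q.l2 + q'.l2| = |q.l2 - q'.l2| := by
    rw [← abs_neg]
    congr 1
    ring
  intro i
  fin_cases i <;> simp only [NF.coef, Real.dist_eq, NF.dist] <;> simp <;> linarith

theorem NF.isQuadratic (q : NF) : IsQuadratic q.coef := by
  right; right; left
  simp [NF.coef]

theorem cluster_eq {l : Filter ℝ} [l.NeBot] {γ : ℝ → ℝ × ℝ} {s : ℝ × ℝ}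
    (h : Tendsto γ l (𝓝 s)) : {p | MapClusterPt p l γ} = {s} := by
  ext p
  refine ⟨fun hp => ?_, fun hp => ?_⟩
  · exact eq_of_nhds_neBot (ClusterPt.mono hp h)
  · rw [mem_singleton_iff.1 hp]
    exact h.mapClusterPt

theorem NF.Loop.isLoop {q : NF} {γ : ℝ → ℝ × ℝ} (h : q.Loop γ) :
    IsLoop q.coef (insert 0 (range γ)) := by
  refine ⟨0, γ, ⟨?_, ?_⟩, q.field_coef ▸ h.sol, ?_, cluster_eq h.bot, cluster_eq h.top, rfl⟩
  · rw [q.field_coef]
    simp [NF.V]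
  · have := mul_pos h.l1 h.l2
    simpa [NF.coef] using this
  · by_contra hn
    push Not at hn
    have e : γ = fun _ => γ 0 := funext fun t => hn t 0
    have := h.top
    rw [e] at this
    exact h.ne (tendsto_nhds_unique tendsto_const_nhds this)

theorem Nbif_of (hc : Core2Stmt) (ht : TwoOrbitsStmt) : Nbif = 2 := by
  refine le_antisymm (iSup_le fun c => iSup_le fun Γ => iSup_le fun h => ?_) ?_
  · obtain ⟨ε, hε, U, hU, h1⟩ := upper_of_core (core_of hc) c Γ h.2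
    exact sInf_le ⟨ε, hε, U, hU, fun c' hc' _ => h1 c' hc'⟩
  · obtain ⟨q₀, γ, h, h1⟩ := lower_of hc ht
    refine le_iSup_of_le q₀.coef (le_iSup_of_le (insert 0 (range γ))
      (le_iSup_of_le ⟨q₀.isQuadratic, h.isLoop⟩ (le_sInf ?_)))
    rintro k ⟨ε, hε, U, hU, h2⟩
    obtain ⟨ρ, hρ, h3⟩ := Metric.mem_nhds_iff.1 hU
    obtain ⟨q, hq, h4⟩ := h1 ε hε ρ hρ
    have h5 := h2 q.coef (h3 ((q.coef_dist q₀).trans_lt hq)) q.isQuadratic
    rw [q.field_coef] at h5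
    exact h4.trans h5

end Pool.Agent.Lib.MP_bf91d6_an
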