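import Pool.Agent.Lib.MP_bf91d6_an.Basic

set_option autoImplicit false

namespace Pool.Agent.Lib.MP_bf91d6_an

open Set Filter Topology Metric MeasureTheory

/-- A branch `r r' = θ r + ψ` over `(a, F₀)`. -/
structure Arc (θ a F₀ ρ : ℝ) (ψ r : ℝ → ℝ) : Prop where
  lt : a < F₀
  pos : ∀ F ∈ Ioo a F₀, 0 < r F
  deriv : ∀ F ∈ Ioo a F₀, HasDerivAt r (θ + ψ F / r F) F
  left : Tendsto r (𝓝[>] a) (𝓝 0)
  right : Tendsto r (𝓝[<] F₀) (𝓝 ρ)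
  int : IntegrableOn r (Ioo a F₀)
  intInv : IntegrableOn (fun F => 1 / r F) (Ioo a F₀)

namespace N1

/-- integrating factor for the difference of squares of two positive solutions -/
theorem factor {θ α β : ℝ} {ψ₁ ψ₂ r₁ r₂ : ℝ → ℝ} (p₁ : ∀ F ∈ Ioo α β, 0 < r₁ F)
    (p₂ : ∀ F ∈ Ioo α β, 0 < r₂ F) (d₁ : ∀ F ∈ Ioo α β, HasDerivAt r₁ (θ + ψ₁ F / r₁ F) F)
    (d₂ : ∀ F ∈ Ioo α β, HasDerivAt r₂ (θ + ψ₂ F / r₂ F) F)
    (hi : IntegrableOn (fun F => 1 / r₁ F) (Ioo α β)) :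
    ∃ (w : ℝ → ℝ) (C : ℝ), (∀ F ∈ Ioo α β, 0 < w F ∧ w F ≤ C) ∧ ∀ F ∈ Ioo α β,
      HasDerivAt (fun F => w F * ((r₂ F ^ 2 - r₁ F ^ 2) / 2)) (w F * (ψ₂ F - ψ₁ F)) F := by
  rcases le_or_gt β α with h | h
  · exact ⟨fun _ => 1, 1, fun F hF => by simp, fun F hF => absurd (hF.1.trans hF.2) (not_lt.2 h)⟩
  obtain ⟨x0, hx0⟩ := nonempty_Ioo.2 h
  let k : ℝ → ℝ := fun F => 2 * θ / (r₁ F + r₂ F)
  have kc : ContinuousOn k (Ioo α β) := fun F hF =>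
    (continuousAt_const.div ((d₁ F hF).continuousAt.add (d₂ F hF).continuousAt)
      (add_pos (p₁ F hF) (p₂ F hF)).ne').continuousWithinAt
  have ki : IntegrableOn k (Ioo α β) := by
    refine Integrable.mono' (hi.const_mul (2 * |θ|)) (kc.aestronglyMeasurable measurableSet_Ioo)
      ((ae_restrict_iff' measurableSet_Ioo).2 (ae_of_all _ fun F hF => ?_))
    have h1 := p₁ F hF
    have h2 := p₂ F hF
    simp only [k, Real.norm_eq_abs, abs_div, abs_mul, abs_two, abs_of_pos (add_pos h1 h2)]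
    rw [mul_one_div]
    exact div_le_div_of_nonneg_left (by positivity) h1 (by linarith)
  have sub : ∀ F ∈ Ioo α β, uIcc x0 F ⊆ Ioo α β := fun F hF =>
    ordConnected_Ioo.uIcc_subset hx0 hF
  have kd : ∀ F ∈ Ioo α β, HasDerivAt (fun F => ∫ x in x0..F, k x) (k F) F := fun F hF =>
    intervalIntegral.integral_hasDerivAt_right ((kc.mono (sub F hF)).intervalIntegrable)
      (kc.stronglyMeasurableAtFilter isOpen_Ioo F hF) (kc.continuousAt (Ioo_mem_nhds hF.1 hF.2))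
  refine ⟨fun F => Real.exp (-∫ x in x0..F, k x), Real.exp (∫ x in Ioo α β, ‖k x‖),
    fun F hF => ⟨Real.exp_pos _, Real.exp_le_exp.2 ?_⟩, fun F hF => ?_⟩
  · refine (neg_le_abs _).trans ?_
    rw [← Real.norm_eq_abs]
    refine (intervalIntegral.norm_integral_le_integral_norm_uIoc).trans ?_
    exact setIntegral_mono_set ki.norm (ae_of_all _ fun _ => norm_nonneg _)
      (uIoc_subset_uIcc.trans (sub F hF)).eventuallyLE
  · have h1 := p₁ F hF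
    have h2 := p₂ F hF
    refine (((kd F hF).fun_neg.exp).fun_mul
      ((((d₂ F hF).fun_pow 2).fun_sub ((d₁ F hF).fun_pow 2)).div_const 2)).congr_deriv ?_
    simp only [k]
    field_simp
    ring

theorem lt_of_sq {a b w : ℝ} (hb : 0 < b) (hw : 0 < w) (h : 0 < w * ((b ^ 2 - a ^ 2) / 2)) :
    a < b := by
  have := (mul_pos_iff_of_pos_left hw).1 h
  exact lt_of_pow_lt_pow_left₀ 2 hb.le (by linarith)

theorem cmpL {θ α β : ℝ} {ψ₁ ψ₂ r₁ r₂ : ℝ → ℝ} (p₁ : ∀ F ∈ Ioo α β, 0 < r₁ F)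
    (p₂ : ∀ F ∈ Ioo α β, 0 < r₂ F) (d₁ : ∀ F ∈ Ioo α β, HasDerivAt r₁ (θ + ψ₁ F / r₁ F) F)
    (d₂ : ∀ F ∈ Ioo α β, HasDerivAt r₂ (θ + ψ₂ F / r₂ F) F)
    (hi : IntegrableOn (fun F => 1 / r₁ F) (Ioo α β)) (he : ∀ F ∈ Ioo α β, ψ₁ F ≤ ψ₂ F)
    (l₁ : Tendsto r₁ (𝓝[>] α) (𝓝 0)) : ∀ F ∈ Ioo α β, r₁ F ≤ r₂ F := by
  obtain ⟨w, C, hw, hd⟩ := factor p₁ p₂ d₁ d₂ hi
  have mono : MonotoneOn (fun F => w F * ((r₂ F ^ 2 - r₁ F ^ 2) / 2)) (Ioo α β) :=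
    monotoneOn_of_hasDerivWithinAt_nonneg (convex_Ioo α β)
      (fun F hF => (hd F hF).continuousAt.continuousWithinAt)
      (fun F hF => (hd F (interior_subset hF)).hasDerivWithinAt)
      fun F hF => mul_nonneg (hw F (interior_subset hF)).1.le
        (sub_nonneg.2 (he F (interior_subset hF)))
  intro F hF
  have lim : Tendsto (fun x => -(C * (r₁ x ^ 2 / 2))) (𝓝[>] α) (𝓝 (-(C * (0 ^ 2 / 2)))) :=
    (((l₁.pow 2).div_const 2).const_mul C).neg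
  have h0 := le_of_tendsto lim (b := w F * ((r₂ F ^ 2 - r₁ F ^ 2) / 2)) (by
    filter_upwards [Ioo_mem_nhdsGT hF.1] with x hx
    have hx' : x ∈ Ioo α β := ⟨hx.1, hx.2.trans hF.2⟩
    refine le_trans ?_ (mono hx' hF hx.2.le)
    nlinarith [(hw x hx').1, (hw x hx').2, sq_nonneg (r₁ x), sq_nonneg (r₂ x),
      mul_nonneg (hw x hx').1.le (sq_nonneg (r₂ x)),
      mul_le_mul_of_nonneg_right (hw x hx').2 (sq_nonneg (r₁ x))])
  simp only [ne_eq, OfNat.ofNat_ne_zero, not_false_eq_true, zero_pow, zero_div, mul_zero,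
    neg_zero] at h0
  have := (mul_nonneg_iff_of_pos_left (hw F hF).1).1 h0
  exact le_of_pow_le_pow_left₀ two_ne_zero (p₂ F hF).le (by linarith)

theorem cmpR {θ α β G ρ : ℝ} {ψ₁ ψ₂ r₁ r₂ : ℝ → ℝ} (p₁ : ∀ F ∈ Ioo α β, 0 < r₁ F)
    (p₂ : ∀ F ∈ Ioo α β, 0 < r₂ F) (d₁ : ∀ F ∈ Ioo α β, HasDerivAt r₁ (θ + ψ₁ F / r₁ F) F)
    (d₂ : ∀ F ∈ Ioo α β, HasDerivAt r₂ (θ + ψ₂ F / r₂ F) F)
    (hi : IntegrableOn (fun F => 1 / r₁ F) (Ioo α β)) (hG : G ∈ Ioo α β)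
    (he : ∀ F ∈ Ioo G β, ψ₂ F < ψ₁ F) (l₁ : Tendsto r₁ (𝓝[<] β) (𝓝 ρ))
    (l₂ : Tendsto r₂ (𝓝[<] β) (𝓝 ρ)) : ∀ F ∈ Ico G β, r₁ F < r₂ F := by
  obtain ⟨w, C, hw, hd⟩ := factor p₁ p₂ d₁ d₂ hi
  have sub : Ico G β ⊆ Ioo α β := fun F hF => ⟨hG.1.trans_le hF.1, hF.2⟩
  have anti : StrictAntiOn (fun F => w F * ((r₂ F ^ 2 - r₁ F ^ 2) / 2)) (Ico G β) :=
    strictAntiOn_of_hasDerivWithinAt_neg (convex_Ico G β)
      (fun F hF => (hd F (sub hF)).continuousAt.continuousWithinAt)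
      (fun F hF => (hd F (sub (interior_subset hF))).hasDerivWithinAt)
      fun F hF => mul_neg_of_pos_of_neg (hw F (sub (interior_subset hF))).1
        (sub_neg.2 (he F (by rwa [interior_Ico] at hF)))
  intro F hF
  obtain ⟨F', h1, h2⟩ := exists_between hF.2
  have hF' : F' ∈ Ico G β := ⟨hF.1.trans h1.le, h2⟩
  have lim : Tendsto (fun x => -(C * |(r₂ x ^ 2 - r₁ x ^ 2) / 2|)) (𝓝[<] β)
      (𝓝 (-(C * |(ρ ^ 2 - ρ ^ 2) / 2|))) :=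
    ((((l₂.pow 2).sub (l₁.pow 2)).div_const 2).abs.const_mul C).neg
  have h0 := le_of_tendsto lim (b := w F' * ((r₂ F' ^ 2 - r₁ F' ^ 2) / 2)) (by
    filter_upwards [Ioo_mem_nhdsLT h2] with x hx
    have hx' : x ∈ Ico G β := ⟨hF'.1.trans hx.1.le, hx.2⟩
    refine le_trans ?_ (anti hF' hx' hx.1).le
    nlinarith [mul_le_mul_of_nonneg_right (hw x (sub hx')).2 (abs_nonneg ((r₂ x ^ 2 - r₁ x ^ 2) / 2)),
      mul_le_mul_of_nonneg_left (neg_abs_le ((r₂ x ^ 2 - r₁ x ^ 2) / 2)) (hw x (sub hx')).1.le])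
  simp only [sub_self, zero_div, abs_zero, mul_zero, neg_zero] at h0
  exact lt_of_sq (p₂ F (sub hF)) (hw F (sub hF)).1 (h0.trans_lt (anti hF hF' h1))

theorem int_lt {a G b : ℝ} {f g : ℝ → ℝ} (hG : a ≤ G) (hb : G < b)
    (hf : IntegrableOn f (Ioo a b)) (hg : IntegrableOn g (Ioo a b))
    (h1 : ∀ x ∈ Ioo a b, f x ≤ g x) (h2 : ∀ x ∈ Ioo G b, f x < g x) :
    ∫ x in Ioo a b, f x < ∫ x in Ioo a b, g x := by
  rw [← sub_pos, ← integral_sub hg hf, setIntegral_pos_iff_support_of_nonneg_ae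
    ((ae_restrict_iff' measurableSet_Ioo).2 (ae_of_all _ fun x hx => sub_nonneg.2 (h1 x hx)))
    (hg.sub hf)]
  refine lt_of_lt_of_le ?_ (measure_mono (s := Ioo G b) fun x hx =>
    ⟨(sub_pos.2 (h2 x hx)).ne', hG.trans_lt hx.1, hx.2⟩)
  simpa using hb

theorem area_lt {θ a₁ a₂ F₀ ρ G : ℝ} {ψ₁ ψ₂ r₁ r₂ : ℝ → ℝ} (A₁ : Arc θ a₁ F₀ ρ ψ₁ r₁)
    (A₂ : Arc θ a₂ F₀ ρ ψ₂ r₂) (h : a₂ ≤ a₁) (hG : a₁ ≤ G) (hG' : G < F₀)
    (h1 : ∀ F ∈ Ioo a₁ G, ψ₁ F ≤ ψ₂ F) (h2 : ∀ F ∈ Ioo G F₀, ψ₂ F < ψ₁ F) :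
    ∫ F in Ioo a₁ F₀, r₁ F < ∫ F in Ioo a₂ F₀, r₂ F := by
  have sub : Ioo a₁ F₀ ⊆ Ioo a₂ F₀ := Ioo_subset_Ioo_left h
  have sub' : Ioo a₁ G ⊆ Ioo a₁ F₀ := Ioo_subset_Ioo_right hG'.le
  have R : ∀ F ∈ Ioo a₁ F₀, G ≤ F → r₁ F < r₂ F := fun F hF hGF =>
    cmpR A₁.pos (fun F hF => A₂.pos F (sub hF)) A₁.deriv (fun F hF => A₂.deriv F (sub hF))
      A₁.intInv hF (fun x hx => h2 x ⟨hGF.trans_lt hx.1, hx.2⟩) A₁.right A₂.right F ⟨le_rfl, hF.2⟩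
  have L := cmpL (fun F hF => A₁.pos F (sub' hF)) (fun F hF => A₂.pos F (sub (sub' hF)))
    (fun F hF => A₁.deriv F (sub' hF)) (fun F hF => A₂.deriv F (sub (sub' hF)))
    (A₁.intInv.mono_set sub') h1 A₁.left
  refine (int_lt hG hG' A₁.int (A₂.int.mono_set sub) (fun x hx => ?_)
    fun x hx => R x ⟨hG.trans_lt hx.1, hx.2⟩ hx.1.le).trans_le
    (setIntegral_mono_set A₂.int ((ae_restrict_iff' measurableSet_Ioo).2
      (ae_of_all _ fun x hx => (A₂.pos x hx).le)) sub.eventuallyLE)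
  rcases lt_or_ge x G with e | e
  · exact L x ⟨hx.1, e⟩
  · exact (R x hx e).le

theorem not_lt_left {θ a₁ a₂ F₀ ρ : ℝ} {ψ₁ ψ₂ r₁ r₂ : ℝ → ℝ} (A₁ : Arc θ a₁ F₀ ρ ψ₁ r₁)
    (A₂ : Arc θ a₂ F₀ ρ ψ₂ r₂) (h : a₁ < a₂) (h2 : ∀ F ∈ Ioo a₂ F₀, ψ₂ F < ψ₁ F) : False := by
  have sub : Ioo a₂ F₀ ⊆ Ioo a₁ F₀ := Ioo_subset_Ioo_left h.le
  have ha : a₂ ∈ Ioo a₁ F₀ := ⟨h, A₂.lt⟩
  have := le_of_tendsto_of_tendsto ((A₁.deriv a₂ ha).continuousAt.tendsto.mono_left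
    nhdsWithin_le_nhds) A₂.left (by
    filter_upwards [Ioo_mem_nhdsGT A₂.lt] with F hF
    exact (cmpR (fun F hF => A₁.pos F (sub hF)) A₂.pos (fun F hF => A₁.deriv F (sub hF)) A₂.deriv
      (A₁.intInv.mono_set sub) hF (fun x hx => h2 x ⟨hF.1.trans hx.1, hx.2⟩) A₁.right A₂.right F
      ⟨le_rfl, hF.2⟩).le)
  exact absurd (A₁.pos a₂ ha) (not_lt.2 this)

theorem int_split {a G b : ℝ} {f : ℝ → ℝ} (h1 : a ≤ G) (h2 : G ≤ b) (hf : IntegrableOn f (Ioo a b)) :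
    ∫ x in Ioo a b, f x = (∫ x in Ioo a G, f x) + ∫ x in Ioo G b, f x := by
  have hi : IntervalIntegrable f volume a b :=
    (intervalIntegrable_iff_integrableOn_Ioo_of_le (h1.trans h2)).2 hf
  rw [← integral_Ioc_eq_integral_Ioo, ← integral_Ioc_eq_integral_Ioo,
    ← integral_Ioc_eq_integral_Ioo, ← intervalIntegral.integral_of_le h1,
    ← intervalIntegral.integral_of_le h2, ← intervalIntegral.integral_of_le (h1.trans h2)]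
  have hm : G ∈ uIcc a b := mem_uIcc_of_le h1 h2
  exact (intervalIntegral.integral_add_adjacent_intervals
    (hi.mono_set (uIcc_subset_uIcc_left hm)) (hi.mono_set (uIcc_subset_uIcc_right hm))).symm

theorem time_lt {θ a₁ a₂ F₀ ρ G c : ℝ} {ψ₁ ψ₂ r₁ r₂ : ℝ → ℝ} (A₁ : Arc θ a₁ F₀ ρ ψ₁ r₁)
    (A₂ : Arc θ a₂ F₀ ρ ψ₂ r₂) (h : a₁ < a₂) (hG : a₂ < G) (hG' : G < F₀) (e : ψ₁ G = ψ₂ G)
    (h0 : 0 < ψ₁ G) (h1 : ∀ F ∈ Ioo a₁ G, ψ₁ F + c * F ≤ ψ₁ G + c * G)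
    (h1' : ∀ F ∈ Ioo a₂ G, ψ₂ G + c * G ≤ ψ₂ F + c * F) (h2 : ∀ F ∈ Ioo G F₀, ψ₂ F < ψ₁ F) :
    ∫ F in Ioo a₂ F₀, 1 / r₂ F < ∫ F in Ioo a₁ F₀, 1 / r₁ F := by
  have sub : Ioo a₂ F₀ ⊆ Ioo a₁ F₀ := Ioo_subset_Ioo_left h.le
  have sub1 : Ioo a₁ G ⊆ Ioo a₁ F₀ := Ioo_subset_Ioo_right hG'.le
  have sub2 : Ioo a₂ G ⊆ Ioo a₂ F₀ := Ioo_subset_Ioo_right hG'.le
  have sub3 : Ioo G F₀ ⊆ Ioo a₂ F₀ := Ioo_subset_Ioo_left hG.le
  have R := cmpR (fun F hF => A₁.pos F (sub hF)) A₂.pos (fun F hF => A₁.deriv F (sub hF)) A₂.deriv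
    (A₁.intInv.mono_set sub) ⟨hG, hG'⟩ h2 A₁.right A₂.right
  set μ := (G - a₁) / (G - a₂) with hμ
  have g2 : 0 < G - a₂ := sub_pos.2 hG
  have hμ1 : 1 < μ := (one_lt_div g2).2 (by linarith)
  have hμ0 : 0 < μ := by linarith
  have hμa : a₁ / μ + (G - G / μ) = a₂ := by
    have : G - a₁ ≠ 0 := by linarith
    rw [hμ]; field_simp; ring
  have hφ : ∀ F ∈ Ioo a₁ G, F / μ + (G - G / μ) ∈ Ioo a₂ G := fun F hF =>
    ⟨by linarith [div_lt_div_of_pos_right hF.1 hμ0], by linarith [div_lt_div_of_pos_right hF.2 hμ0]⟩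
  have hd : ∀ F ∈ Ioo a₁ G, HasDerivAt (fun F => μ * r₂ (F / μ + (G - G / μ)))
      (θ + μ * ψ₂ (F / μ + (G - G / μ)) / (μ * r₂ (F / μ + (G - G / μ)))) F := fun F hF => by
    have := (((A₂.deriv _ (sub2 (hφ F hF))).comp F
      (((hasDerivAt_id F).div_const μ).add_const (G - G / μ))).const_mul μ)
    refine this.congr_deriv ?_
    have := (A₂.pos _ (sub2 (hφ F hF))).ne'
    field_simp
  have hp : ∀ F ∈ Ioo a₁ G, 0 < μ * r₂ (F / μ + (G - G / μ)) := fun F hF =>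
    mul_pos hμ0 (A₂.pos _ (sub2 (hφ F hF)))
  have L := cmpL (ψ₂ := fun F => μ * ψ₂ (F / μ + (G - G / μ)))
    (fun F hF => A₁.pos F (sub1 hF)) hp (fun F hF => A₁.deriv F (sub1 hF)) hd
    (A₁.intInv.mono_set sub1) (fun F hF => by
      have e1 := mul_le_mul_of_nonneg_left (h1' _ (hφ F hF)) hμ0.le
      have e2 : μ * (c * (F / μ + (G - G / μ))) = c * F + μ * (c * G) - c * G := by
        field_simp; ring
      nlinarith [h1 F hF]) A₁.left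
  have i1 := A₁.intInv.mono_set sub1
  have le1 : ∀ F ∈ Ioo a₁ G, 1 / (μ * r₂ (F / μ + (G - G / μ))) ≤ 1 / r₁ F := fun F hF =>
    one_div_le_one_div_of_le (A₁.pos F (sub1 hF)) (L F hF)
  have i2 : IntegrableOn (fun F => 1 / (μ * r₂ (F / μ + (G - G / μ)))) (Ioo a₁ G) :=
    Integrable.mono' i1 (ContinuousOn.aestronglyMeasurable (fun F hF =>
      (continuousAt_const.div (hd F hF).continuousAt (hp F hF).ne').continuousWithinAt)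
      measurableSet_Ioo) ((ae_restrict_iff' measurableSet_Ioo).2 (ae_of_all _ fun F hF => by
        rw [Real.norm_eq_abs, abs_of_pos (one_div_pos.2 (hp F hF))]; exact le1 F hF))
  have e1 := setIntegral_mono_on i2 i1 measurableSet_Ioo le1
  have e2 : ∫ F in Ioo a₁ G, 1 / (μ * r₂ (F / μ + (G - G / μ))) = ∫ F in Ioo a₂ G, 1 / r₂ F := by
    rw [← integral_Ioc_eq_integral_Ioo, ← integral_Ioc_eq_integral_Ioo,
      ← intervalIntegral.integral_of_le (h.trans hG).le, ← intervalIntegral.integral_of_le hG.le,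
      intervalIntegral.integral_comp_div_add (fun x => 1 / (μ * r₂ x)) hμ0.ne', hμa,
      show G / μ + (G - G / μ) = G by ring, smul_eq_mul, ← intervalIntegral.integral_const_mul]
    congr 1
    funext x
    field_simp
  have e3 := int_lt le_rfl hG' (A₂.intInv.mono_set sub3) (A₁.intInv.mono_set (sub3.trans sub))
    (fun x hx => one_div_le_one_div_of_le (A₁.pos x (sub (sub3 hx))) (R x ⟨hx.1.le, hx.2⟩).le)
    fun x hx => one_div_lt_one_div_of_lt (A₁.pos x (sub (sub3 hx))) (R x ⟨hx.1.le, hx.2⟩)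
  rw [int_split hG.le hG'.le A₂.intInv, int_split (h.trans hG).le hG'.le A₁.intInv]
  linarith

theorem pos_of_ne {α β : ℝ} {D : ℝ → ℝ} (hc : ContinuousOn D (Ioo α β))
    (hne : ∀ F ∈ Ioo α β, D F ≠ 0) (near : ∀ᶠ F in 𝓝[<] β, 0 < D F) : ∀ F ∈ Ioo α β, 0 < D F := by
  intro F hF
  obtain ⟨x, hx, hx'⟩ := (near.and (Ioo_mem_nhdsLT hF.2)).exists
  by_contra hle
  obtain ⟨y, hy, hy'⟩ := isPreconnected_Ioo.intermediate_value hF ⟨hF.1.trans hx'.1, hx'.2⟩ hc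
    (show (0 : ℝ) ∈ Icc (D F) (D x) from ⟨not_lt.1 hle, hx.le⟩)
  exact hne y hy hy'

end N1

theorem coppel {θ a₁ a₂ F₀ ρp ρm c : ℝ} {ψ₁ ψ₂ r₁p r₁m r₂p r₂m : ℝ → ℝ}
    (A₁p : Arc θ a₁ F₀ ρp ψ₁ r₁p) (A₁m : Arc (-θ) a₁ F₀ ρm ψ₁ r₁m)
    (A₂p : Arc θ a₂ F₀ ρp ψ₂ r₂p) (A₂m : Arc (-θ) a₂ F₀ ρm ψ₂ r₂m)
    (c₁ : ContinuousOn ψ₁ (Ioo a₁ F₀)) (c₂ : ContinuousOn ψ₂ (Ioo a₂ F₀))
    (area : (∫ F in Ioo a₁ F₀, r₁p F) + ∫ F in Ioo a₁ F₀, r₁m F =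
      (∫ F in Ioo a₂ F₀, r₂p F) + ∫ F in Ioo a₂ F₀, r₂m F)
    (time : (∫ F in Ioo a₁ F₀, 1 / r₁p F) + ∫ F in Ioo a₁ F₀, 1 / r₁m F =
      (∫ F in Ioo a₂ F₀, 1 / r₂p F) + ∫ F in Ioo a₂ F₀, 1 / r₂m F)
    (near : ∀ᶠ F in 𝓝[<] F₀, ψ₂ F < ψ₁ F)
    (cross : ∀ G, a₁ < G → a₂ < G → G < F₀ → ψ₁ G = ψ₂ G →
      0 < ψ₁ G ∧ (∀ F ∈ Ioo a₁ G, ψ₁ F + c * F ≤ ψ₁ G + c * G) ∧
        ∀ F ∈ Ioo a₂ G, ψ₂ G + c * G ≤ ψ₂ F + c * F) : False := by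
  have hc : ContinuousOn (fun F => ψ₁ F - ψ₂ F) (Ioo (max a₁ a₂) F₀) :=
    (c₁.mono (Ioo_subset_Ioo_left (le_max_left _ _))).sub
      (c₂.mono (Ioo_subset_Ioo_left (le_max_right _ _)))
  have near' : ∀ᶠ F in 𝓝[<] F₀, 0 < ψ₁ F - ψ₂ F := near.mono fun F hF => sub_pos.2 hF
  by_cases hex : ∃ G ∈ Ioo (max a₁ a₂) F₀, ψ₁ G - ψ₂ G = 0
  · obtain ⟨G0, hG0, hz0⟩ := hex
    obtain ⟨F1, hF1, hsub⟩ := (mem_nhdsLT_iff_exists_Ioo_subset).1 near'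
    have hle : G0 ≤ F1 := not_lt.1 fun h => (hsub ⟨h, hG0.2⟩).ne' hz0
    have hI : Icc G0 F1 ⊆ Ioo (max a₁ a₂) F₀ := fun x hx => ⟨hG0.1.trans_le hx.1, hx.2.trans_lt hF1⟩
    obtain ⟨G, ⟨hG, hz⟩, hmax⟩ := (isCompact_Icc.of_isClosed_subset
      ((hc.mono hI).preimage_isClosed_of_isClosed isClosed_Icc (isClosed_singleton (x := 0)))
      inter_subset_left).exists_isGreatest ⟨G0, ⟨le_rfl, hle⟩, hz0⟩
    have hG' := hI hG
    have g1 := (le_max_left _ _).trans_lt hG'.1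
    have g2 := (le_max_right _ _).trans_lt hG'.1
    have e : ψ₁ G = ψ₂ G := sub_eq_zero.1 hz
    have h2 : ∀ F ∈ Ioo G F₀, ψ₂ F < ψ₁ F := fun F hF => sub_pos.1 (N1.pos_of_ne
      (hc.mono (Ioo_subset_Ioo_left hG'.1.le)) (fun x hx hx0 => by
        rcases le_or_gt x F1 with h | h
        · exact absurd (hmax ⟨⟨hG.1.trans hx.1.le, h⟩, hx0⟩) (not_le.2 hx.1)
        · exact (hsub ⟨h, hx.2⟩).ne' hx0) near' F hF)
    obtain ⟨k0, k1, k2⟩ := cross G g1 g2 hG'.2 e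
    rcases le_or_gt a₂ a₁ with h | h
    · have h1 : ∀ F ∈ Ioo a₁ G, ψ₁ F ≤ ψ₂ F := fun F hF => by
        linarith [k1 F hF, k2 F ⟨h.trans_lt hF.1, hF.2⟩]
      linarith [N1.area_lt A₁p A₂p h g1.le hG'.2 h1 h2, N1.area_lt A₁m A₂m h g1.le hG'.2 h1 h2]
    · linarith [N1.time_lt A₁p A₂p h g2 hG'.2 e k0 k1 k2 h2,
        N1.time_lt A₁m A₂m h g2 hG'.2 e k0 k1 k2 h2]
  · have h2 := N1.pos_of_ne hc (fun F hF h => hex ⟨F, hF, h⟩) near'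
    rcases le_or_gt a₂ a₁ with h | h
    · rw [max_eq_left h] at h2
      have h1 : ∀ F ∈ Ioo a₁ a₁, ψ₁ F ≤ ψ₂ F := fun F hF => by simp at hF
      linarith [N1.area_lt A₁p A₂p h le_rfl A₁p.lt h1 fun F hF => sub_pos.1 (h2 F hF),
        N1.area_lt A₁m A₂m h le_rfl A₁p.lt h1 fun F hF => sub_pos.1 (h2 F hF)]
    · rw [max_eq_right h.le] at h2
      exact N1.not_lt_left A₁p A₂p h fun F hF => sub_pos.1 (h2 F hF)

/-- From a time interval to an `Arc` (increasing or decreasing parametrisation).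
`lo` is the end of `J` at which `Φ → a`, `hi` the end at which `Φ → F₀`. -/
theorem exists_arc {J : Set ℝ} (hJ : IsOpen J) (hc : J.OrdConnected) {θ a F₀ ρ : ℝ}
    {Φ Φ' Z Z' Ψ : ℝ → ℝ} (hΦ : ∀ t ∈ J, HasDerivAt Φ (Φ' t) t) (hne : ∀ t ∈ J, Φ' t ≠ 0)
    (hZ : ∀ t ∈ J, HasDerivAt Z (Z' t) t) (hpos : ∀ t ∈ J, 0 < Z t)
    (hode : ∀ t ∈ J, Z' t = (θ + Ψ t / Z t) * Φ' t) (hΨ : ContinuousOn Ψ J)
    (hlt : a < F₀) (hmem : ∀ t ∈ J, Φ t ∈ Ioo a F₀)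
    {lo hi : Filter ℝ} [lo.NeBot] [hi.NeBot] (hlo : lo ≤ 𝓟 J) (hhi : hi ≤ 𝓟 J)
    (hlo' : ∀ s ∈ lo, ∃ t₀ ∈ J, ∀ t ∈ J, Φ t < Φ t₀ → t ∈ s)
    (hhi' : ∀ s ∈ hi, ∃ t₀ ∈ J, ∀ t ∈ J, Φ t₀ < Φ t → t ∈ s)
    (hΦlo : Tendsto Φ lo (𝓝 a)) (hΦhi : Tendsto Φ hi (𝓝 F₀))
    (hZlo : Tendsto Z lo (𝓝 0)) (hZhi : Tendsto Z hi (𝓝 ρ))
    (i₁ : IntegrableOn (fun t => |Φ' t| * Z t) J) (i₂ : IntegrableOn (fun t => |Φ' t| / Z t) J) :
    ∃ τ : ℝ → ℝ, (∀ F ∈ Ioo a F₀, τ F ∈ J ∧ Φ (τ F) = F) ∧ ContinuousOn τ (Ioo a F₀) ∧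
      Tendsto τ (𝓝[<] F₀) hi ∧ ContinuousOn (fun F => Ψ (τ F)) (Ioo a F₀) ∧
      Arc θ a F₀ ρ (fun F => Ψ (τ F)) (fun F => Z (τ F)) ∧
      (∫ F in Ioo a F₀, Z (τ F)) = (∫ t in J, |Φ' t| * Z t) ∧
      (∫ F in Ioo a F₀, 1 / Z (τ F)) = ∫ t in J, |Φ' t| / Z t := by
  have cΦ : ContinuousOn Φ J := fun t ht => (hΦ t ht).continuousAt.continuousWithinAt
  have inj : InjOn Φ J := by
    have key : ∀ s ∈ J, ∀ t ∈ J, s < t → Φ s ≠ Φ t := fun s hs t ht hst e => by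
      obtain ⟨x, hx, hx0⟩ := exists_hasDerivAt_eq_zero hst (cΦ.mono (hc.out hs ht)) e
        fun x hx => hΦ x (hc.out hs ht (Ioo_subset_Icc_self hx))
      exact hne x (hc.out hs ht (Ioo_subset_Icc_self hx)) hx0
    intro s hs t ht e
    rcases lt_trichotomy s t with h | h | h
    · exact absurd e (key s hs t ht h)
    · exact h
    · exact absurd e.symm (key t ht s hs h)
  have img : Φ '' J = Ioo a F₀ := by
    refine Subset.antisymm (by rintro _ ⟨t, ht, rfl⟩; exact hmem t ht) fun F hF => ?_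
    obtain ⟨s, hs, hs'⟩ := ((hΦlo.eventually (gt_mem_nhds hF.1)).and (le_principal_iff.1 hlo)).exists
    obtain ⟨t, ht, ht'⟩ := ((hΦhi.eventually (lt_mem_nhds hF.2)).and (le_principal_iff.1 hhi)).exists
    exact hc.isPreconnected.intermediate_value hs' ht' cΦ ⟨hs.le, ht.le⟩
  set τ := Function.invFunOn Φ J with hτ
  have h1 : ∀ F ∈ Ioo a F₀, τ F ∈ J ∧ Φ (τ F) = F := fun F hF =>
    Function.invFunOn_pos (by rw [← img] at hF; exact hF)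
  have h2 : ∀ t ∈ J, τ (Φ t) = t := fun t ht => inj.leftInvOn_invFunOn ht
  have cτ : ∀ F ∈ Ioo a F₀, ContinuousAt τ F := fun F hF => by
    obtain ⟨ht, hF'⟩ := h1 F hF
    refine ((nhds_basis_Icc_pos (τ F)).tendsto_right_iff).2 fun ε hε => ?_
    obtain ⟨δ, hδ, hsub⟩ := (nhds_basis_Icc_pos (τ F)).mem_iff.1
      (inter_mem (hJ.mem_nhds ht) ((nhds_basis_Icc_pos (τ F)).mem_of_mem hε))
    have sJ : Icc (τ F - δ) (τ F + δ) ⊆ J := hsub.trans inter_subset_left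
    have hle : τ F - δ ≤ τ F + δ := by linarith
    have m1 : τ F - δ ∈ Icc (τ F - δ) (τ F + δ) := left_mem_Icc.2 hle
    have m2 : τ F + δ ∈ Icc (τ F - δ) (τ F + δ) := right_mem_Icc.2 hle
    have m3 : τ F ∈ Icc (τ F - δ) (τ F + δ) := ⟨by linarith, by linarith⟩
    have key : Φ '' Icc (τ F - δ) (τ F + δ) ∈ 𝓝 F := by
      rcases (cΦ.mono sJ).strictMonoOn_of_injOn_Icc' hle (inj.mono sJ) with hm | hm
      · exact mem_of_superset (Icc_mem_nhds ((hm m1 m3 (by linarith)).trans_eq hF')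
          (hF'.symm.trans_lt (hm m3 m2 (by linarith)))) (intermediate_value_Icc hle (cΦ.mono sJ))
      · exact mem_of_superset (Icc_mem_nhds ((hm m3 m2 (by linarith)).trans_eq hF')
          (hF'.symm.trans_lt (hm m1 m3 (by linarith)))) (intermediate_value_Icc' hle (cΦ.mono sJ))
    filter_upwards [key]
    rintro _ ⟨t, ht', rfl⟩
    rw [h2 t (sJ ht')]
    exact (hsub ht').2
  have cτ' : ContinuousOn τ (Ioo a F₀) := fun F hF => (cτ F hF).continuousWithinAt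
  have thi : Tendsto τ (𝓝[<] F₀) hi := fun s hs => by
    obtain ⟨t₀, ht₀, h⟩ := hhi' s hs
    rw [mem_map]
    filter_upwards [Ioo_mem_nhdsLT (hmem t₀ ht₀).2] with F hF
    have := h1 F ⟨(hmem t₀ ht₀).1.trans hF.1, hF.2⟩
    exact h _ this.1 (by rw [this.2]; exact hF.1)
  have tlo : Tendsto τ (𝓝[>] a) lo := fun s hs => by
    obtain ⟨t₀, ht₀, h⟩ := hlo' s hs
    rw [mem_map]
    filter_upwards [Ioo_mem_nhdsGT (hmem t₀ ht₀).1] with F hF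
    have := h1 F ⟨hF.1, hF.2.trans (hmem t₀ ht₀).2⟩
    exact h _ this.1 (by rw [this.2]; exact hF.2)
  have hd : ∀ t ∈ J, HasDerivWithinAt Φ (Φ' t) J t := fun t ht => (hΦ t ht).hasDerivWithinAt
  have e1 : EqOn (fun t => |Φ' t| • Z (τ (Φ t))) (fun t => |Φ' t| * Z t) J := fun t ht => by
    simp only [h2 t ht, smul_eq_mul]
  have e2 : EqOn (fun t => |Φ' t| • (1 / Z (τ (Φ t)))) (fun t => |Φ' t| / Z t) J := fun t ht => by
    simp only [h2 t ht, smul_eq_mul, mul_one_div]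
  refine ⟨τ, h1, cτ', thi, hΨ.comp cτ' fun F hF => (h1 F hF).1,
    ⟨hlt, fun F hF => hpos _ (h1 F hF).1, fun F hF => ?_, hZlo.comp tlo, hZhi.comp thi, ?_, ?_⟩,
    ?_, ?_⟩
  · have ht := (h1 F hF).1
    have := (hZ _ ht).comp F (HasDerivAt.of_local_left_inverse (cτ F hF) (hΦ _ ht) (hne _ ht)
      (by filter_upwards [Ioo_mem_nhds hF.1 hF.2] with y hy using (h1 y hy).2))
    rw [hode _ ht, mul_assoc, mul_inv_cancel₀ (hne _ ht), mul_one] at this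
    exact this
  · rw [← img, integrableOn_image_iff_integrableOn_abs_deriv_smul hJ.measurableSet hd inj]
    exact i₁.congr_fun e1.symm hJ.measurableSet
  · rw [← img, integrableOn_image_iff_integrableOn_abs_deriv_smul hJ.measurableSet hd inj]
    exact i₂.congr_fun e2.symm hJ.measurableSet
  · rw [← img, integral_image_eq_integral_abs_deriv_smul hJ.measurableSet hd inj]
    exact setIntegral_congr_fun hJ.measurableSet e1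
  · rw [← img, integral_image_eq_integral_abs_deriv_smul hJ.measurableSet hd inj]
    exact setIntegral_congr_fun hJ.measurableSet e2

end Pool.Agent.Lib.MP_bf91d6_an
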