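import Pool.Agent.Lib.MP_bf91d6_an.N1

set_option autoImplicit false

namespace Pool.Agent.Lib.MP_bf91d6_an.N2

open Set Filter Topology Metric MeasureTheory

lemma arc_congr {θ a F₀ ρ : ℝ} {ψ ψ' r : ℝ → ℝ} (h : Arc θ a F₀ ρ ψ r)
    (e : ∀ F ∈ Ioo a F₀, ψ F = ψ' F) : Arc θ a F₀ ρ ψ' r :=
  ⟨h.lt, h.pos, fun F hF => e F hF ▸ h.deriv F hF, h.left, h.right, h.int, h.intInv⟩

lemma up_end {J : Set ℝ} {b : ℝ} (h1 : J ⊆ Iio b) (h2 : J ∈ 𝓝[<] b) :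
    ∀ s ∈ 𝓝[<] b, ∃ t₀ ∈ J, ∀ t ∈ J, t₀ < t → t ∈ s := fun s hs => by
  obtain ⟨l, hl, h⟩ := mem_nhdsLT_iff_exists_Ioo_subset.1 (inter_mem hs h2)
  obtain ⟨t₀, a1, a2⟩ := exists_between (mem_Iio.1 hl)
  exact ⟨t₀, (h ⟨a1, a2⟩).2, fun t ht c => (h ⟨a1.trans c, h1 ht⟩).1⟩

lemma low_end {J : Set ℝ} {b : ℝ} (h1 : J ⊆ Ioi b) (h2 : J ∈ 𝓝[>] b) :
    ∀ s ∈ 𝓝[>] b, ∃ t₀ ∈ J, ∀ t ∈ J, t < t₀ → t ∈ s := fun s hs => by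
  obtain ⟨l, hl, h⟩ := mem_nhdsGT_iff_exists_Ioo_subset.1 (inter_mem hs h2)
  obtain ⟨t₀, a1, a2⟩ := exists_between (mem_Ioi.1 hl)
  exact ⟨t₀, (h ⟨a1, a2⟩).2, fun t ht c => (h ⟨h1 ht, c.trans a2⟩).1⟩

lemma bot_end {J : Set ℝ} (h2 : J ∈ atBot) :
    ∀ s ∈ atBot, ∃ t₀ ∈ J, ∀ t ∈ J, t < t₀ → t ∈ s := fun s hs => by
  obtain ⟨l, h⟩ := mem_atBot_sets.1 (inter_mem hs h2)
  exact ⟨l, (h l le_rfl).2, fun t _ c => (h t c.le).1⟩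

/-- data depending on the abscissa -/
structure SD (D F ψ : ℝ → ℝ) (M ξ : ℝ) : Prop where
  h0 : 0 < ξ
  hM : ξ < M
  DL : ∀ s ∈ Ioo 0 ξ, 0 < D s
  DR : ∀ s ∈ Ioo ξ M, D s < 0
  FL : StrictMonoOn F (Icc 0 ξ)
  FR : StrictAntiOn F (Icc ξ M)
  F0 : F 0 = 0
  Fc : ContinuousAt F 0
  ψc : ∀ s ∈ Ioo 0 M, s ≠ ξ → ContinuousAt ψ s

/-- data on the first half of the loop -/
structure TD (D F ψ x Z Z' : ℝ → ℝ) (θ tM M ξ : ℝ) : Prop where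
  xc : Continuous x
  mono : StrictMonoOn x (Iic tM)
  xM : x tM = M
  x0 : Tendsto x atBot (𝓝 0)
  xp : ∀ t, 0 < x t
  hΦ : ∀ t, HasDerivAt (fun t => F (x t)) (D (x t) * Z t) t
  hZ : ∀ t, HasDerivAt Z (Z' t) t
  ode : ∀ t, x t ≠ ξ → Z' t = θ * D (x t) * Z t + ψ (x t) * D (x t)
  Zp : ∀ t < tM, 0 < Z t
  ZM : Z tM = 0
  Z0 : Tendsto Z atBot (𝓝 0)
  i1 : Integrable fun t => D (x t) * Z t ^ 2
  i2 : Integrable fun t => D (x t)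

/-- a continuous inverse of `F` on an interval ending at `ξ` -/
structure Inv (F ψ σ : ℝ → ℝ) (a ξ : ℝ) (I : Set ℝ) : Prop where
  mem : ∀ G ∈ Ioo a (F ξ), σ G ∈ I
  eq : ∀ G ∈ Ioo a (F ξ), F (σ G) = G
  lim : Tendsto σ (𝓝[<] F ξ) (𝓝 ξ)
  cont : ContinuousOn (fun G => ψ (σ G)) (Ioo a (F ξ))

variable {D F ψ x Z Z' : ℝ → ℝ} {θ tM M ξ : ℝ}

lemma half (S : SD D F ψ M ξ) (T : TD D F ψ x Z Z' θ tM M ξ) :
    ∃ (σL σR rL rR : ℝ → ℝ) (ρ : ℝ), Inv F ψ σL 0 ξ (Ioo 0 ξ) ∧ Inv F ψ σR (F M) ξ (Ioo ξ M) ∧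
      Arc θ 0 (F ξ) ρ (fun G => ψ (σL G)) rL ∧ Arc θ (F M) (F ξ) ρ (fun G => ψ (σR G)) rR ∧
      (∫ G in Ioo 0 (F ξ), rL G) - (∫ G in Ioo (F M) (F ξ), rR G) =
        (∫ t in Iic tM, D (x t) * Z t ^ 2) ∧
      (∫ G in Ioo 0 (F ξ), 1 / rL G) - (∫ G in Ioo (F M) (F ξ), 1 / rR G) =
        ∫ t in Iic tM, D (x t) := by
  obtain ⟨t1, a1, a2⟩ := ((T.x0.eventually_lt_const S.h0).and (eventually_lt_atBot tM)).exists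
  obtain ⟨tp, ⟨-, a3⟩, xp⟩ := intermediate_value_Icc a2.le T.xc.continuousOn
    (show ξ ∈ _ from ⟨a1.le, T.xM ▸ S.hM.le⟩)
  have pM : tp < tM := lt_of_le_of_ne a3 fun e => S.hM.ne (by rw [← xp, e, T.xM])
  have mL : ∀ t ∈ Iio tp, x t ∈ Ioo 0 ξ := fun t ht =>
    ⟨T.xp t, xp ▸ T.mono (ht.trans pM).le a3 ht⟩
  have mR : ∀ t ∈ Ioo tp tM, x t ∈ Ioo ξ M := fun t ht =>
    ⟨xp ▸ T.mono a3 ht.2.le ht.1, T.xM ▸ T.mono ht.2.le (mem_Iic.2 le_rfl) ht.2⟩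
  have Φc : ∀ t, Tendsto (fun t => F (x t)) (𝓝 t) (𝓝 (F (x t))) := fun t => (T.hΦ t).continuousAt
  have Zc : ∀ t, Tendsto Z (𝓝 t) (𝓝 (Z t)) := fun t => (T.hZ t).continuousAt
  have ode : ∀ t < tM, x t ≠ ξ → Z' t = (θ + ψ (x t) / Z t) * (D (x t) * Z t) := fun t h1 h2 => by
    rw [T.ode t h2]; field_simp [(T.Zp t h1).ne']
  have sL : StrictMonoOn (fun t => F (x t)) (Iio tp) := fun t ht u hu c =>
    S.FL (Ioo_subset_Icc_self (mL t ht)) (Ioo_subset_Icc_self (mL u hu))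
      (T.mono (ht.trans pM).le (hu.trans pM).le c)
  have sR : StrictAntiOn (fun t => F (x t)) (Ioo tp tM) := fun t ht u hu c =>
    S.FR (Ioo_subset_Icc_self (mR t ht)) (Ioo_subset_Icc_self (mR u hu)) (T.mono ht.2.le hu.2.le c)
  have eL : ∀ t ∈ Iio tp, |D (x t) * Z t| * Z t = D (x t) * Z t ^ 2 ∧
      |D (x t) * Z t| / Z t = D (x t) := fun t ht => by
    have := T.Zp t (ht.trans pM)
    rw [abs_of_pos (mul_pos (S.DL _ (mL t ht)) this)]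
    exact ⟨by ring, by field_simp⟩
  have eR : ∀ t ∈ Ioo tp tM, |D (x t) * Z t| * Z t = -(D (x t) * Z t ^ 2) ∧
      |D (x t) * Z t| / Z t = -D (x t) := fun t ht => by
    have := T.Zp t ht.2
    rw [abs_of_neg (mul_neg_of_neg_of_pos (S.DR _ (mR t ht)) this)]
    exact ⟨by ring, by field_simp⟩
  have l0 : (0 : ℝ) ∈ Icc 0 ξ := left_mem_Icc.2 S.h0.le
  have l1 : ξ ∈ Icc 0 ξ := right_mem_Icc.2 S.h0.le
  have l2 : ξ ∈ Icc ξ M := left_mem_Icc.2 S.hM.le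
  have l3 : M ∈ Icc ξ M := right_mem_Icc.2 S.hM.le
  obtain ⟨τ, b1, -, b3, b4, b5, b6, b7⟩ := exists_arc (J := Iio tp) isOpen_Iio ordConnected_Iio
    (θ := θ) (a := 0) (F₀ := F ξ) (ρ := Z tp) (Ψ := fun t => ψ (x t)) (fun t _ => T.hΦ t)
    (fun t ht => (mul_pos (S.DL _ (mL t ht)) (T.Zp t (ht.trans pM))).ne') (fun t _ => T.hZ t)
    (fun t ht => T.Zp t (ht.trans pM)) (fun t ht => ode t (ht.trans pM) (mL t ht).2.ne)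
    (fun t ht => ((S.ψc _ ⟨T.xp t, (mL t ht).2.trans S.hM⟩ (mL t ht).2.ne).comp
      T.xc.continuousAt).continuousWithinAt)
    (S.F0 ▸ S.FL l0 l1 S.h0)
    (fun t ht => ⟨S.F0 ▸ S.FL l0 (Ioo_subset_Icc_self (mL t ht)) (T.xp t),
      S.FL (Ioo_subset_Icc_self (mL t ht)) l1 (mL t ht).2⟩)
    (lo := atBot) (hi := 𝓝[<] tp) (le_principal_iff.2 (Iio_mem_atBot tp)) inf_le_right
    (fun s hs => (bot_end (Iio_mem_atBot tp) s hs).imp fun t₀ h =>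
      ⟨h.1, fun t ht c => h.2 t ht ((sL.lt_iff_lt ht h.1).1 c)⟩)
    (fun s hs => (up_end subset_rfl self_mem_nhdsWithin s hs).imp fun t₀ h =>
      ⟨h.1, fun t ht c => h.2 t ht ((sL.lt_iff_lt h.1 ht).1 c)⟩)
    (S.F0 ▸ S.Fc.tendsto.comp T.x0) (xp ▸ (Φc tp).mono_left nhdsWithin_le_nhds) T.Z0
    ((Zc tp).mono_left nhdsWithin_le_nhds)
    (T.i1.integrableOn.congr_fun (fun t ht => (eL t ht).1.symm) measurableSet_Iio)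
    (T.i2.integrableOn.congr_fun (fun t ht => (eL t ht).2.symm) measurableSet_Iio)
  obtain ⟨τ', c1, -, c3, c4, c5, c6, c7⟩ := exists_arc (J := Ioo tp tM) isOpen_Ioo ordConnected_Ioo
    (θ := θ) (a := F M) (F₀ := F ξ) (ρ := Z tp) (Ψ := fun t => ψ (x t)) (fun t _ => T.hΦ t)
    (fun t ht => (mul_neg_of_neg_of_pos (S.DR _ (mR t ht)) (T.Zp t ht.2)).ne) (fun t _ => T.hZ t)
    (fun t ht => T.Zp t ht.2) (fun t ht => ode t ht.2 (mR t ht).1.ne')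
    (fun t ht => ((S.ψc _ ⟨T.xp t, (mR t ht).2⟩ (mR t ht).1.ne').comp
      T.xc.continuousAt).continuousWithinAt)
    (S.FR l2 l3 S.hM)
    (fun t ht => ⟨S.FR (Ioo_subset_Icc_self (mR t ht)) l3 (mR t ht).2,
      S.FR l2 (Ioo_subset_Icc_self (mR t ht)) (mR t ht).1⟩)
    (lo := 𝓝[<] tM) (hi := 𝓝[>] tp) (le_principal_iff.2 (Ioo_mem_nhdsLT pM))
    (le_principal_iff.2 (Ioo_mem_nhdsGT pM))
    (fun s hs => (up_end Ioo_subset_Iio_self (Ioo_mem_nhdsLT pM) s hs).imp fun t₀ h =>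
      ⟨h.1, fun t ht c => h.2 t ht ((sR.lt_iff_gt ht h.1).1 c)⟩)
    (fun s hs => (low_end Ioo_subset_Ioi_self (Ioo_mem_nhdsGT pM) s hs).imp fun t₀ h =>
      ⟨h.1, fun t ht c => h.2 t ht ((sR.lt_iff_gt h.1 ht).1 c)⟩)
    (T.xM ▸ (Φc tM).mono_left nhdsWithin_le_nhds) (xp ▸ (Φc tp).mono_left nhdsWithin_le_nhds)
    (T.ZM ▸ (Zc tM).mono_left nhdsWithin_le_nhds) ((Zc tp).mono_left nhdsWithin_le_nhds)
    (T.i1.neg.integrableOn.congr_fun (fun t ht => (eR t ht).1.symm) measurableSet_Ioo)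
    (T.i2.neg.integrableOn.congr_fun (fun t ht => (eR t ht).2.symm) measurableSet_Ioo)
  have sp : ∀ g : ℝ → ℝ, Integrable g →
      (∫ t in Iio tp, g t) - (∫ t in Ioo tp tM, -g t) = ∫ t in Iic tM, g t := fun g hg => by
    rw [integral_neg, sub_neg_eq_add, ← integral_Iic_eq_integral_Iio, ← integral_Ioc_eq_integral_Ioo,
      ← setIntegral_union (Iic_disjoint_Ioc le_rfl) measurableSet_Ioc hg.integrableOn
        hg.integrableOn, Iic_union_Ioc_eq_Iic a3]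
  have xt : Tendsto x (𝓝 tp) (𝓝 ξ) := xp ▸ T.xc.tendsto tp
  refine ⟨fun G => x (τ G), fun G => x (τ' G), _, _, _,
    ⟨fun G hG => mL _ (b1 G hG).1, fun G hG => (b1 G hG).2,
      xt.comp (b3.mono_right nhdsWithin_le_nhds), b4⟩,
    ⟨fun G hG => mR _ (c1 G hG).1, fun G hG => (c1 G hG).2,
      xt.comp (c3.mono_right nhdsWithin_le_nhds), c4⟩, b5, c5, ?_, ?_⟩
  · rw [b6, c6, setIntegral_congr_fun measurableSet_Iio fun t ht => (eL t ht).1,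
      setIntegral_congr_fun measurableSet_Ioo fun t ht => (eR t ht).1, sp _ T.i1]
  · rw [b7, c7, setIntegral_congr_fun measurableSet_Iio fun t ht => (eL t ht).2,
      setIntegral_congr_fun measurableSet_Ioo fun t ht => (eR t ht).2, sp _ T.i2]

/-- The comparison of the two branches, in both orders. -/
lemma both (S : SD D F ψ M ξ) (T : TD D F ψ x Z Z' θ tM M ξ)
    (T' : TD D F ψ (fun t => x (-t)) (fun t => -Z (-t)) (fun t => Z' (-t)) (-θ) (-tM) M ξ)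
    (j1 : ∫ t, D (x t) * Z t ^ 2 = 0) (j2 : ∫ t, D (x t) = 0) {φ : ℝ → ℝ} {c : ℝ}
    (hφ : ∀ s ∈ Ioo 0 M, s ≠ ξ → ψ s + c * F s = φ s) :
    ((∃ N ∈ 𝓝 ξ, ∀ s ∈ Ioo 0 ξ ∩ N, ∀ u ∈ Ioo ξ M ∩ N, φ u < φ s) →
      (∀ s ∈ Ioo 0 ξ, ∀ u ∈ Ioo ξ M, φ s = φ u → 0 < ψ s ∧ (∀ v ∈ Ioo 0 s, φ v ≤ φ s) ∧
        ∀ v ∈ Ioo u M, φ u ≤ φ v) → False) ∧
    ((∃ N ∈ 𝓝 ξ, ∀ s ∈ Ioo 0 ξ ∩ N, ∀ u ∈ Ioo ξ M ∩ N, φ s < φ u) →
      (∀ s ∈ Ioo 0 ξ, ∀ u ∈ Ioo ξ M, φ s = φ u → 0 < ψ u ∧ (∀ v ∈ Ioo 0 s, φ s ≤ φ v) ∧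
        ∀ v ∈ Ioo u M, φ v ≤ φ u) → False) := by
  obtain ⟨σL, σR, rL, rR, ρ, L, R, a1, a2, a3, a4⟩ := half S T
  obtain ⟨σL', σR', rL', rR', ρ', L', R', b1, b2, b3, b4⟩ := half S T'
  replace b1 := arc_congr b1 fun G hG => congrArg ψ (S.FL.injOn (Ioo_subset_Icc_self (L'.mem G hG))
    (Ioo_subset_Icc_self (L.mem G hG)) ((L'.eq G hG).trans (L.eq G hG).symm))
  replace b2 := arc_congr b2 fun G hG => congrArg ψ (S.FR.injOn (Ioo_subset_Icc_self (R'.mem G hG))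
    (Ioo_subset_Icc_self (R.mem G hG)) ((R'.eq G hG).trans (R.eq G hG).symm))
  simp only [neg_sq] at b3
  rw [integral_comp_neg_Iic (-tM) fun t => D (x t) * Z t ^ 2, neg_neg] at b3
  rw [integral_comp_neg_Iic (-tM) fun t => D (x t), neg_neg] at b4
  rw [← intervalIntegral.integral_Iic_add_Ioi (b := tM) T.i1.integrableOn T.i1.integrableOn] at j1
  rw [← intervalIntegral.integral_Iic_add_Ioi (b := tM) T.i2.integrableOn T.i2.integrableOn] at j2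
  have eL : ∀ G ∈ Ioo 0 (F ξ), ψ (σL G) + c * G = φ (σL G) := fun G hG => by
    rw [← hφ _ ⟨(L.mem G hG).1, (L.mem G hG).2.trans S.hM⟩ (L.mem G hG).2.ne, L.eq G hG]
  have eR : ∀ G ∈ Ioo (F M) (F ξ), ψ (σR G) + c * G = φ (σR G) := fun G hG => by
    rw [← hφ _ ⟨S.h0.trans (R.mem G hG).1, (R.mem G hG).2⟩ (R.mem G hG).1.ne', R.eq G hG]
  have oL : ∀ G ∈ Ioo 0 (F ξ), ∀ H ∈ Ioo 0 G, H ∈ Ioo 0 (F ξ) ∧ σL H ∈ Ioo 0 (σL G) :=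
    fun G hG H hH => by
      have h : H ∈ Ioo 0 (F ξ) := ⟨hH.1, hH.2.trans hG.2⟩
      refine ⟨h, (L.mem H h).1, (S.FL.lt_iff_lt (Ioo_subset_Icc_self (L.mem H h))
        (Ioo_subset_Icc_self (L.mem G hG))).1 ?_⟩
      rw [L.eq G hG, L.eq H h]; exact hH.2
  have oR : ∀ G ∈ Ioo (F M) (F ξ), ∀ H ∈ Ioo (F M) G,
      H ∈ Ioo (F M) (F ξ) ∧ σR H ∈ Ioo (σR G) M := fun G hG H hH => by
    have h : H ∈ Ioo (F M) (F ξ) := ⟨hH.1, hH.2.trans hG.2⟩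
    refine ⟨h, (S.FR.lt_iff_gt (Ioo_subset_Icc_self (R.mem H h))
      (Ioo_subset_Icc_self (R.mem G hG))).1 ?_, (R.mem H h).2⟩
    rw [R.eq G hG, R.eq H h]; exact hH.2
  have ev : ∀ N ∈ 𝓝 ξ, ∀ᶠ G in 𝓝[<] F ξ, (G ∈ Ioo 0 (F ξ) ∧ G ∈ Ioo (F M) (F ξ)) ∧
      σL G ∈ N ∧ σR G ∈ N := fun N hN => (Eventually.and (Ioo_mem_nhdsLT a1.lt)
    (Ioo_mem_nhdsLT a2.lt)).and (Eventually.and (L.lim hN) (R.lim hN))
  constructor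
  · rintro ⟨N, hN, h1⟩ h2
    refine coppel (c := c) a1 b1 a2 b2 L.cont R.cont (by linarith) (by linarith)
      ((ev N hN).mono fun G h => ?_) fun G g1 g2 g3 e => ?_
    · have := h1 _ ⟨L.mem G h.1.1, h.2.1⟩ _ ⟨R.mem G h.1.2, h.2.2⟩
      linarith [eL G h.1.1, eR G h.1.2]
    · have e1 := eL G ⟨g1, g3⟩
      have e2 := eR G ⟨g2, g3⟩
      obtain ⟨d1, d2, d3⟩ := h2 _ (L.mem G ⟨g1, g3⟩) _ (R.mem G ⟨g2, g3⟩) (by linarith)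
      refine ⟨d1, fun H hH => ?_, fun H hH => ?_⟩
      · rw [e1, eL H (oL G ⟨g1, g3⟩ H hH).1]; exact d2 _ (oL G ⟨g1, g3⟩ H hH).2
      · rw [e2, eR H (oR G ⟨g2, g3⟩ H hH).1]; exact d3 _ (oR G ⟨g2, g3⟩ H hH).2
  · rintro ⟨N, hN, h1⟩ h2
    refine coppel (c := c) a2 b2 a1 b1 R.cont L.cont (by linarith) (by linarith)
      ((ev N hN).mono fun G h => ?_) fun G g2 g1 g3 e => ?_
    · have := h1 _ ⟨L.mem G h.1.1, h.2.1⟩ _ ⟨R.mem G h.1.2, h.2.2⟩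
      linarith [eL G h.1.1, eR G h.1.2]
    · have e1 := eL G ⟨g1, g3⟩
      have e2 := eR G ⟨g2, g3⟩
      obtain ⟨d1, d2, d3⟩ := h2 _ (L.mem G ⟨g1, g3⟩) _ (R.mem G ⟨g2, g3⟩) (by linarith)
      refine ⟨d1, fun H hH => ?_, fun H hH => ?_⟩
      · rw [e2, eR H (oR G ⟨g2, g3⟩ H hH).1]; exact d3 _ (oR G ⟨g2, g3⟩ H hH).2
      · rw [e1, eL H (oL G ⟨g1, g3⟩ H hH).1]; exact d2 _ (oL G ⟨g1, g3⟩ H hH).2

lemma prod_cmp {w μ : ℝ → ℝ} (wp : ∀ s ∈ Ioo 0 M, 0 < w s)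
    (hw : MonotoneOn w (Ioo 0 M) ∨ AntitoneOn w (Ioo 0 M))
    (mL : MonotoneOn μ (Ioo 0 ξ)) (mR : MonotoneOn μ (Ioo ξ M))
    (mm : ∀ s ∈ Ioo 0 ξ, ∀ u ∈ Ioo ξ M, μ u < μ s) {s u : ℝ} (hs : s ∈ Ioo 0 ξ)
    (hu : u ∈ Ioo ξ M) (e : w s * μ s = w u * μ u) :
    (∀ v ∈ Ioo 0 s, w v * μ v ≤ w s * μ s) ∧ ∀ v ∈ Ioo u M, w u * μ u ≤ w v * μ v := by
  have su := hs.2.trans hu.1
  have hs' : s ∈ Ioo 0 M := ⟨hs.1, su.trans hu.2⟩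
  have hu' : u ∈ Ioo 0 M := ⟨hs.1.trans su, hu.2⟩
  have a1 := wp s hs'
  have a2 := wp u hu'
  have a3 := mm s hs u hu
  have k1 : ∀ v ∈ Ioo 0 s, v ∈ Ioo 0 M ∧ μ v ≤ μ s ∧ μ u < μ v := fun v hv =>
    ⟨⟨hv.1, hv.2.trans hs'.2⟩, mL ⟨hv.1, hv.2.trans hs.2⟩ hs hv.2.le,
      mm v ⟨hv.1, hv.2.trans hs.2⟩ u hu⟩
  have k2 : ∀ v ∈ Ioo u M, v ∈ Ioo 0 M ∧ μ u ≤ μ v ∧ μ v < μ s := fun v hv =>
    ⟨⟨hu'.1.trans hv.1, hv.2⟩, mR hu ⟨hu.1.trans hv.1, hv.2⟩ hv.1.le,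
      mm s hs v ⟨hu.1.trans hv.1, hv.2⟩⟩
  rcases hw with hw | hw
  · have b1 := hw hs' hu' su.le
    have b2 : 0 < μ u := by by_contra c; nlinarith
    refine ⟨fun v hv => ?_, fun v hv => ?_⟩
    · obtain ⟨c1, c2, c3⟩ := k1 v hv
      exact mul_le_mul (hw c1 hs' hv.2.le) c2 (b2.trans c3).le a1.le
    · obtain ⟨c1, c2, c3⟩ := k2 v hv
      exact mul_le_mul (hw hu' c1 hv.1.le) c2 b2.le (wp v c1).le
  · have b1 := hw hs' hu' su.le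
    have b2 : μ s < 0 := by by_contra c; nlinarith
    refine ⟨fun v hv => ?_, fun v hv => ?_⟩
    · obtain ⟨c1, c2, c3⟩ := k1 v hv
      nlinarith [hw c1 hs' hv.2.le]
    · obtain ⟨c1, c2, c3⟩ := k2 v hv
      nlinarith [hw hu' c1 hv.1.le, wp v c1]

end Pool.Agent.Lib.MP_bf91d6_an.N2
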