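import Pool.Agent.Lib.MP_bf91d6_an.Basic

set_option autoImplicit false

namespace Pool.Agent.Lib.MP_bf91d6_an

open Set Filter Topology Metric MeasureTheory

/-- Normal form at a saddle. -/
structure NF where
  l1 : ℝ
  l2 : ℝ
  a : ℝ
  b : ℝ
  e : ℝ
  f : ℝ

def NF.V (q : NF) (p : ℝ × ℝ) : ℝ × ℝ :=
  (q.l1 * p.1 + q.a * p.1 ^ 2 + q.b * p.1 * p.2 - p.2 ^ 2,
    -q.l2 * p.2 + p.1 ^ 2 + q.e * p.1 * p.2 + q.f * p.2 ^ 2)

/-- Time reversal combined with the exchange of the coordinates. -/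
def NF.star (q : NF) : NF := ⟨q.l2, q.l1, -q.f, -q.e, -q.b, -q.a⟩

def NF.dist (q q' : NF) : ℝ :=
  |q.l1 - q'.l1| + |q.l2 - q'.l2| + |q.a - q'.a| + |q.b - q'.b| + |q.e - q'.e| + |q.f - q'.f|

/-- The coefficient vector of a normal form. -/
def NF.coef (q : NF) : Fin 12 → ℝ := ![0, q.l1, 0, q.a, q.b, -1, 0, 0, -q.l2, 1, q.e, q.f]

structure NF.Loop (q : NF) (γ : ℝ → ℝ × ℝ) : Prop where
  l1 : 0 < q.l1
  l2 : 0 < q.l2
  sol : IsSol q.V γ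
  bot : Tendsto γ atBot (𝓝 0)
  top : Tendsto γ atTop (𝓝 0)
  ne : γ 0 ≠ 0

theorem NF.contDiff_V (q : NF) : ContDiff ℝ 1 q.V := by
  unfold NF.V
  fun_prop

theorem NF.field_coef (q : NF) : field q.coef = q.V := by
  funext p
  simp only [field, NF.coef, NF.V]
  ext <;> simp
  ring

theorem NF.star_star (q : NF) : q.star.star = q := by
  simp [NF.star]

theorem NF.star_V (q : NF) (p : ℝ × ℝ) : q.star.V p = -(q.V p.swap).swap := by
  ext <;> simp [NF.V, NF.star] <;> ring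

theorem NF.dist_star (q q' : NF) : q.star.dist q'.star = q.dist q' := by
  simp only [NF.dist, NF.star]
  rw [show -q.f - -q'.f = -(q.f - q'.f) by ring, show -q.e - -q'.e = -(q.e - q'.e) by ring,
    show -q.b - -q'.b = -(q.b - q'.b) by ring, show -q.a - -q'.a = -(q.a - q'.a) by ring,
    abs_neg, abs_neg, abs_neg, abs_neg]
  ring

theorem NF.dist_nonneg (q q' : NF) : 0 ≤ q.dist q' := by
  unfold NF.dist
  positivity

theorem NF.dist_self (q : NF) : q.dist q = 0 := by simp [NF.dist]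

theorem IsSol.star {q : NF} {γ : ℝ → ℝ × ℝ} (h : IsSol q.V γ) :
    IsSol q.star.V (fun t => (γ (-t)).swap) := fun t => by
  have h1 := (h (-t)).scomp t (hasDerivAt_neg t)
  rw [NF.star_V]
  refine (hd_swap h1).congr_deriv ?_
  ext <;> simp

theorem NF.Loop.star {q : NF} {γ : ℝ → ℝ × ℝ} (h : q.Loop γ) :
    q.star.Loop (fun t => (γ (-t)).swap) where
  l1 := h.l2
  l2 := h.l1
  sol := h.sol.star
  bot := by
    have := (continuous_swap.tendsto (0 : ℝ × ℝ)).comp (h.top.comp tendsto_neg_atBot_atTop)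
    exact this
  top := by
    have := (continuous_swap.tendsto (0 : ℝ × ℝ)).comp (h.bot.comp tendsto_neg_atTop_atBot)
    exact this
  ne := by
    intro h0
    apply h.ne
    simp only [neg_zero] at h0
    ext
    · exact congrArg Prod.snd h0
    · exact congrArg Prod.fst h0

/-- The bound for loops of normal forms. -/
def CoreStmt : Prop :=
  ∀ (q₀ : NF) (γ : ℝ → ℝ × ℝ), q₀.Loop γ → q₀.l2 = 1 →
    ∃ ε > (0 : ℝ), ∃ ρ > (0 : ℝ), ∀ q : NF, q.l2 = 1 → q.dist q₀ < ρ →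
      (cyclesNear q.V (insert 0 (range γ)) ε).encard ≤ 2

/-- Pre-Lienard form of a weak saddle, in coordinates `(ξ, η)`. -/
structure LN where
  n : ℝ
  m : ℝ
  A : ℝ
  B : ℝ
  C : ℝ

def LN.V (q : LN) (p : ℝ × ℝ) : ℝ × ℝ :=
  (p.2 * (1 + q.n * p.1) + q.m * p.1 ^ 2,
    p.1 + q.A * p.1 ^ 2 + q.B * p.1 * p.2 + q.C * p.2 ^ 2)

def LN.h (q : LN) (s : ℝ) : ℝ :=
  (1 + q.n * s) ^ 2 * (1 + q.A * s) - q.B * q.m * s ^ 2 * (1 + q.n * s) + q.C * q.m ^ 2 * s ^ 3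

structure LN.Loop (q : LN) (γ : ℝ → ℝ × ℝ) : Prop where
  sol : IsSol q.V γ
  bot : Tendsto γ atBot (𝓝 0)
  top : Tendsto γ atTop (𝓝 0)
  pos : ∀ t, 0 < (γ t).1
  int : Integrable (fun t => ‖γ t‖)
  inj : Function.Injective γ
  nonsing : ∀ t, q.V (γ t) ≠ 0

theorem LN.contDiff_V (q : LN) : ContDiff ℝ 1 q.V := by
  unfold LN.V
  fun_prop

/-- The conclusion of the geometric lemma for pre-Lienard forms. -/
def LN.Geom (q : LN) (γ : ℝ → ℝ × ℝ) (tM ξh : ℝ) : Prop :=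
  (∀ t, 0 < 1 + q.n * (γ t).1) ∧ (∀ t, (γ t).1 ≤ (γ tM).1) ∧
    (∀ t < tM, 0 < (q.V (γ t)).1) ∧ (q.V (γ tM)).1 = 0 ∧ (∀ t > tM, (q.V (γ t)).1 < 0) ∧
    0 < ξh ∧ ξh < (γ tM).1 ∧ (∀ s ∈ Ico 0 ξh, 0 < q.h s) ∧ q.h ξh = 0 ∧
    ∀ s ∈ Ioc ξh (γ tM).1, q.h s < 0

/-- The pre-Lienard form attached to an invariant direction `y = -τ x`. -/
noncomputable def NF.toLN (q : NF) (τ : ℝ) : LN where
  n := (q.a / τ + 1 / τ ^ 2 + τ - q.f) / 2
  m := (q.a / τ + 1 / τ ^ 2 + q.b + q.e / τ - τ + q.f) / 4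
  A := (q.a / τ - 1 / τ ^ 2 + q.b - q.e / τ - τ - q.f) / 4
  B := (q.a / τ - 1 / τ ^ 2 + τ + q.f) / 2
  C := (q.a / τ - 1 / τ ^ 2 - q.b + q.e / τ - τ - q.f) / 4

end Pool.Agent.Lib.MP_bf91d6_an
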