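import Pool.Agent.Lib.MP_bf91d6_an.R1

/-! Block R, part 2: reduction of the upper bound to normal forms. -/

set_option autoImplicit false

namespace Pool.Agent.Lib.MP_bf91d6_an

open Set Filter Topology Metric MeasureTheory

namespace R

theorem tendsto_of_cluster {γ : ℝ → ℝ × ℝ} (hc : Continuous γ) {l : Filter ℝ} {s : ℝ × ℝ}
    (hl : ∀ U ∈ l, ∃ U' ∈ l, U' ⊆ U ∧ IsPreconnected U')
    (h : {p | MapClusterPt p l γ} = {s}) : Tendsto γ l (𝓝 s) := by
  by_contra hn
  rw [Metric.tendsto_nhds] at hn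
  push Not at hn
  obtain ⟨ρ, hρ, hf⟩ := hn
  have hs : MapClusterPt s l γ := by
    have : s ∈ {p | MapClusterPt p l γ} := by rw [h]; rfl
    exact this
  have hf' : ∃ᶠ t in l, γ t ∈ ball s ρ := mapClusterPt_iff_frequently.1 hs _ (ball_mem_nhds s hρ)
  have hsph : ∃ᶠ t in l, γ t ∈ sphere s ρ := by
    rw [frequently_iff]
    intro U hU
    obtain ⟨U', hU', hsub, hpc⟩ := hl U hU
    obtain ⟨a, ha, ha'⟩ := frequently_iff.1 hf hU'
    obtain ⟨b, hb, hb'⟩ := frequently_iff.1 hf' hU'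
    obtain ⟨t, ht, he⟩ := hpc.intermediate_value hb ha
      (f := fun t => dist (γ t) s) (by fun_prop) ⟨le_of_lt hb', ha'⟩
    exact ⟨t, hsub ht, he⟩
  obtain ⟨p, hp, hp'⟩ := (isCompact_sphere s ρ).exists_mapClusterPt_of_frequently hsph
  have : p ∈ {p | MapClusterPt p l γ} := hp'
  rw [h, mem_singleton_iff] at this
  rw [this, mem_sphere, dist_self] at hp
  exact hρ.ne hp

theorem zero_bot {y k : ℝ → ℝ} {k0 : ℝ} (hy : ∀ t, HasDerivAt y (k t * y t) t) (hk : Continuous k)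
    (h0 : k0 < 0) (hk0 : Tendsto k atBot (𝓝 k0)) (hy0 : Tendsto y atBot (𝓝 0)) (t : ℝ) :
    y t = 0 := by
  have hφ : ∀ t, HasDerivAt (fun t => y t ^ 2) (2 * k t * y t ^ 2) t := fun t => by
    refine ((hy t).pow 2).congr_deriv ?_
    simp
    ring
  obtain ⟨T, hT⟩ := eventually_atBot.1 (hk0.eventually (gt_mem_nhds h0))
  have h1 : ∀ b ≤ T, y b ^ 2 ≤ 0 := fun b hb => by
    have h2 : Tendsto (fun t => y t ^ 2) atBot (𝓝 0) := by simpa using hy0.pow 2
    refine ge_of_tendsto h2 ?_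
    filter_upwards [eventually_le_atBot b] with a ha
    exact le_of_deriv_nonpos ha (fun t _ => hφ t) fun t ht => by
      have := hT t (ht.2.trans hb)
      nlinarith [sq_nonneg (y t)]
  by_contra hne
  have h3 : 0 < y t ^ 2 := by positivity
  have h4 := pos_bwd (φ := fun t => y t ^ 2) (k := fun t => 2 * k t) (a := min t T) (b := t)
    (min_le_left _ _) (by fun_prop) (fun t _ => hφ t) (fun t _ => le_rfl) h3
  exact absurd (h1 _ (min_le_right _ _)) (not_le.2 h4)

theorem zero_top {y k : ℝ → ℝ} {k0 : ℝ} (hy : ∀ t, HasDerivAt y (k t * y t) t) (hk : Continuous k)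
    (h0 : 0 < k0) (hk0 : Tendsto k atTop (𝓝 k0)) (hy0 : Tendsto y atTop (𝓝 0)) (t : ℝ) :
    y t = 0 := by
  have := zero_bot (y := fun t => y (-t)) (k := fun t => -k (-t)) (k0 := -k0)
    (fun t => by
      refine ((hy (-t)).comp t (hasDerivAt_neg t)).congr_deriv ?_
      ring)
    (by fun_prop) (by linarith) (hk0.comp tendsto_neg_atBot_atTop).neg
    (hy0.comp tendsto_neg_atBot_atTop) (-t)
  simpa using this

theorem diag_ne {d : Fin 12 → ℝ} (hd : Diag d) (h1 : 0 < d 1) (h8 : d 8 < 0) {g : ℝ → ℝ × ℝ}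
    (hg : IsSol (field d) g) (hb : Tendsto g atBot (𝓝 0)) (ht : Tendsto g atTop (𝓝 0))
    (hne : ∃ t, g t ≠ 0) : d 5 ≠ 0 ∧ d 9 ≠ 0 := by
  obtain ⟨h0, h6, h2, h7⟩ := hd
  have hc := hg.continuous
  have hX : (∀ t, d 5 * (g t).2 ^ 2 = 0) → ∀ t, (g t).1 = 0 := fun h =>
    zero_top (k := fun t => d 1 + d 3 * (g t).1 + d 4 * (g t).2) (k0 := d 1)
      (fun t => (hg.fst t).congr_deriv (by
        simp only [field, h0, h2]
        linear_combination h t))
      (by fun_prop) h1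
      (by
        have : Continuous fun p : ℝ × ℝ => d 1 + d 3 * p.1 + d 4 * p.2 := by fun_prop
        exact (this.tendsto' 0 (d 1) (by simp)).comp ht)
      ((continuous_fst.tendsto' (0 : ℝ × ℝ) 0 rfl).comp ht)
  have hY : (∀ t, d 9 * (g t).1 ^ 2 = 0) → ∀ t, (g t).2 = 0 := fun h =>
    zero_bot (k := fun t => d 8 + d 10 * (g t).1 + d 11 * (g t).2) (k0 := d 8)
      (fun t => (hg.snd t).congr_deriv (by
        simp only [field, h6, h7]
        linear_combination h t))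
      (by fun_prop) h8
      (by
        have : Continuous fun p : ℝ × ℝ => d 8 + d 10 * p.1 + d 11 * p.2 := by fun_prop
        exact (this.tendsto' 0 (d 8) (by simp)).comp hb)
      ((continuous_snd.tendsto' (0 : ℝ × ℝ) 0 rfl).comp hb)
  obtain ⟨t, ht⟩ := hne
  constructor
  · intro h
    have hx := hX fun t => by simp [h]
    exact ht (Prod.ext (hx t) (hY (fun t => by simp [hx t]) t))
  · intro h
    have hy := hY fun t => by simp [h]
    exact ht (Prod.ext (hX (fun t => by simp [hy t]) t) (hy t))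

theorem exists_eigvec {a b c d l : ℝ} (hD : a * d - b * c < 0)
    (hl : l ^ 2 - (a + d) * l + (a * d - b * c) = 0) :
    ∃ u v : ℝ, (u ≠ 0 ∨ v ≠ 0) ∧ a * u + b * v = l * u ∧ c * u + d * v = l * v := by
  by_cases h : b = 0 ∧ l = a
  · obtain ⟨rfl, rfl⟩ := h
    refine ⟨l - d, c, Or.inl fun h => ?_, by ring, by ring⟩
    have : d = l := by linarith
    rw [this] at hD
    nlinarith [sq_nonneg l]
  · refine ⟨b, l - a, ?_, by ring, by linear_combination -hl⟩
    by_contra hn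
    push Not at hn
    exact h ⟨hn.1, by linarith [hn.2]⟩

theorem exists_eig {a b c d : ℝ} (hD : a * d - b * c < 0) : ∃ (m : Fin 4 → ℝ) (l1 l2 : ℝ),
    det m ≠ 0 ∧ 0 < l1 ∧ l2 < 0 ∧ a * m 0 + b * m 2 = l1 * m 0 ∧ c * m 0 + d * m 2 = l1 * m 2 ∧
      a * m 1 + b * m 3 = l2 * m 1 ∧ c * m 1 + d * m 3 = l2 * m 3 := by
  set Δ := √((a + d) ^ 2 - 4 * (a * d - b * c)) with hΔ
  have h1 : Δ ^ 2 = (a + d) ^ 2 - 4 * (a * d - b * c) :=
    Real.sq_sqrt (by nlinarith [sq_nonneg (a + d)])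
  have h2 : |a + d| < Δ := by
    refine Real.lt_sqrt_of_sq_lt ?_
    rw [sq_abs]
    linarith
  have h3 := abs_lt.1 h2
  obtain ⟨u, v, huv, e1, e2⟩ := exists_eigvec (l := (a + d + Δ) / 2) hD
    (by linear_combination h1 / 4)
  obtain ⟨u', v', huv', e1', e2'⟩ := exists_eigvec (l := (a + d - Δ) / 2) hD
    (by linear_combination h1 / 4)
  refine ⟨![u, u', v, v'], (a + d + Δ) / 2, (a + d - Δ) / 2, fun h => ?_, by linarith,
    by linarith, e1, e2, e1', e2'⟩
  have h' : u * v' - u' * v = 0 := h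
  have hΔ0 : Δ ≠ 0 := by linarith [abs_nonneg (a + d)] |> fun h : 0 < Δ => h.ne'
  have k1 : u * u' = 0 := mul_left_cancel₀ hΔ0 (by linear_combination u * e1' - u' * e1 - b * h')
  have k2 : v * v' = 0 := mul_left_cancel₀ hΔ0 (by linear_combination v * e2' - v' * e2 + c * h')
  have k3 : u * v' = 0 := mul_left_cancel₀ hΔ0
    (by linear_combination v * e1' - v' * e1 + (a - (a + d - Δ) / 2) * h')
  have k4 : u' * v = 0 := by linarith
  rcases huv with h4 | h4 <;> rcases huv' with h5 | h5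
  · exact mul_ne_zero h4 h5 k1
  · exact mul_ne_zero h4 h5 k3
  · exact mul_ne_zero h5 h4 k4
  · exact mul_ne_zero h4 h5 k2

theorem exists_cube (x : ℝ) : ∃ α : ℝ, α ^ 3 = x := by
  rcases le_total 0 x with h | h
  · exact ⟨x ^ ((3 : ℕ) : ℝ)⁻¹, Real.rpow_inv_natCast_pow h (by norm_num)⟩
  · refine ⟨-(-x) ^ ((3 : ℕ) : ℝ)⁻¹, ?_⟩
    have := Real.rpow_inv_natCast_pow (neg_nonneg.2 h) (n := 3) (by norm_num)
    linear_combination -this

theorem diag_tr {c : Fin 12 → ℝ} {s : ℝ × ℝ} {m : Fin 4 → ℝ} (h0 : field c s = 0)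
    (h2 : m 3 * cP c s m 2 - m 1 * cQ c s m 2 = 0)
    (h7 : m 0 * cQ c s m 1 - m 2 * cP c s m 1 = 0) : Diag (tr c s m) := by
  have e1 : cP c s m 0 = 0 := congrArg Prod.fst h0
  have e2 : cQ c s m 0 = 0 := congrArg Prod.snd h0
  refine ⟨?_, ?_, ?_, ?_⟩
  · change tP c s m 0 = 0
    simp [tP, e1, e2]
  · change tQ c s m 0 = 0
    simp [tQ, e1, e2]
  · change tP c s m 2 = 0
    simp [tP, h2]
  · change tQ c s m 1 = 0
    simp [tQ, h7]

/-- Zeros of nearby fields near the saddle. -/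
theorem exists_zero (q : NF) (h1 : q.l1 ≠ 0) (h2 : q.l2 ≠ 0)
    {P : (Fin 12 → ℝ) × (ℝ × ℝ) → Prop} (hP : ∀ᶠ z in 𝓝 (q.coef, (0 : ℝ × ℝ)), P z) :
    ∀ᶠ c in 𝓝 q.coef, ∃ s, field c s = 0 ∧ P (c, s) := by
  let F : (Fin 12 → ℝ) × (ℝ × ℝ) → (Fin 12 → ℝ) × (ℝ × ℝ) := fun z => (z.1, field z.1 z.2)
  have hF : ContDiff ℝ 1 F := by
    unfold F field
    fun_prop
  have hs := hF.contDiffAt.hasStrictFDerivAt (x := (q.coef, 0)) one_ne_zero
  set F' := fderiv ℝ F (q.coef, 0)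
  have hline : ∀ w, HasDerivAt (fun t : ℝ => F ((q.coef, 0) + t • w)) (F' w) 0 := fun w => by
    have h3 : HasDerivAt (fun t : ℝ => (q.coef, (0 : ℝ × ℝ)) + t • w) w 0 := by
      simpa using ((hasDerivAt_id (0 : ℝ)).smul_const w).const_add (q.coef, (0 : ℝ × ℝ))
    exact HasFDerivAt.comp_hasDerivAt_of_eq _ hs.hasFDerivAt h3 (by simp)
  have e1 : ∀ w, (F' w).1 = w.1 := fun w => by
    have h3 : HasDerivAt (fun t : ℝ => q.coef + t • w.1) w.1 0 := by
      simpa using ((hasDerivAt_id (0 : ℝ)).smul_const w.1).const_add q.coef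
    exact HasDerivAt.unique (f := fun t : ℝ => q.coef + t • w.1) (hline w).fst h3
  have e2 : ∀ v : ℝ × ℝ, (F' (0, v)).2 = (q.l1 * v.1, -q.l2 * v.2) := fun v => by
    refine HasDerivAt.unique
      (f := fun t : ℝ => (F ((q.coef, 0) + t • ((0 : Fin 12 → ℝ), v))).2) (hline (0, v)).snd ?_
    have h3 : (fun t : ℝ => (F ((q.coef, 0) + t • ((0 : Fin 12 → ℝ), v))).2) = fun t =>
        (q.l1 * v.1 * t + (q.a * v.1 ^ 2 + q.b * v.1 * v.2 - v.2 ^ 2) * t ^ 2,
          -q.l2 * v.2 * t + (v.1 ^ 2 + q.e * v.1 * v.2 + q.f * v.2 ^ 2) * t ^ 2) := by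
      funext t
      simp only [F, Prod.smul_mk, smul_zero, Prod.mk_add_mk, add_zero, zero_add, NF.field_coef]
      ext <;> simp [NF.V] <;> ring
    rw [h3]
    have h4 : ∀ A B : ℝ, HasDerivAt (fun t : ℝ => A * t + B * t ^ 2) A 0 := fun A B => by
      refine HasDerivAt.congr_deriv (((hasDerivAt_id (0 : ℝ)).const_mul A).add
        (((hasDerivAt_id (0 : ℝ)).pow 2).const_mul B)) ?_
      simp
    exact hd_mk (h4 _ _) (h4 _ _)
  have hsurj : F'.range = ⊤ := by
    rw [eq_top_iff]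
    rintro ⟨a, w⟩ -
    set b := w - (F' (a, 0)).2 with hb
    refine ⟨(a, 0) + (0, (b.1 / q.l1, b.2 / -q.l2)), ?_⟩
    change F' _ = _
    rw [map_add]
    ext1
    · simp [e1]
    · rw [Prod.snd_add, e2]
      have h5 : -q.l2 ≠ 0 := neg_ne_zero.2 h2
      simp only [mul_div_cancel₀ _ h1, mul_div_cancel₀ _ h5, hb]
      ext <;> simp
  have hmap := hs.map_nhds_eq_of_surj hsurj
  have hF0 : F (q.coef, 0) = (q.coef, 0) := by
    simp only [F, NF.field_coef]
    ext <;> simp [NF.V]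
  have h6 : F '' {z | P z} ∈ 𝓝 (q.coef, (0 : ℝ × ℝ)) := by
    rw [← hF0, ← hmap]
    exact image_mem_map hP
  have h7 : Continuous fun c : Fin 12 → ℝ => (c, (0 : ℝ × ℝ)) := by fun_prop
  filter_upwards [h7.continuousAt h6] with c ⟨z, hz, he⟩
  obtain ⟨c', s⟩ := z
  have h8 : c' = c := congrArg Prod.fst he
  subst h8
  exact ⟨s, congrArg Prod.snd he, hz⟩

abbrev Z := (Fin 12 → ℝ) × (ℝ × ℝ)

def j11 (z : Z) : ℝ := z.1 1 + 2 * z.1 3 * z.2.1 + z.1 4 * z.2.2
def j12 (z : Z) : ℝ := z.1 2 + z.1 4 * z.2.1 + 2 * z.1 5 * z.2.2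
def j21 (z : Z) : ℝ := z.1 7 + 2 * z.1 9 * z.2.1 + z.1 10 * z.2.2
def j22 (z : Z) : ℝ := z.1 8 + z.1 10 * z.2.1 + 2 * z.1 11 * z.2.2
def dis (z : Z) : ℝ := (j11 z - j22 z) ^ 2 + 4 * j12 z * j21 z
noncomputable def den (z : Z) : ℝ := j11 z - j22 z + √(dis z)
noncomputable def mz (z : Z) : Fin 4 → ℝ := ![1, -2 * j12 z / den z, 2 * j21 z / den z, 1]
noncomputable def dz (z : Z) : Fin 12 → ℝ := tr z.1 z.2 (mz z)
noncomputable def rz (z : Z) : ℝ := -1 / (dz z 5 * dz z 9 ^ 2)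
noncomputable def az (z : Z) : ℝ := -dz z 8 * rz z ^ ((3 : ℕ) : ℝ)⁻¹
noncomputable def bz (z : Z) : ℝ := dz z 9 * az z ^ 2 / -dz z 8
noncomputable def Mz (z : Z) : Fin 4 → ℝ :=
  ![mz z 0 * az z, mz z 1 * bz z, mz z 2 * az z, mz z 3 * bz z]

theorem diag_dz {z : Z} (h0 : field z.1 z.2 = 0) (h1 : 0 < dis z) (h2 : den z ≠ 0) :
    Diag (dz z) := by
  have h3 : √(dis z) ^ 2 = dis z := Real.sq_sqrt h1.le
  have h4 : den z * (den z - 2 * (j11 z - j22 z)) = 4 * j12 z * j21 z := by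
    have : dis z = (j11 z - j22 z) ^ 2 + 4 * j12 z * j21 z := rfl
    unfold den
    linear_combination h3 + this
  refine diag_tr h0 ?_ ?_
  · change 1 * (j11 z * (-2 * j12 z / den z) + j12 z * 1) -
      -2 * j12 z / den z * (j21 z * (-2 * j12 z / den z) + j22 z * 1) = 0
    field_simp
    linear_combination j12 z * h4
  · change 1 * (j21 z * 1 + j22 z * (2 * j21 z / den z)) -
      2 * j21 z / den z * (j11 z * 1 + j12 z * (2 * j21 z / den z)) = 0
    field_simp
    linear_combination j21 z * h4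

theorem local_bound (hcore : CoreStmt) {q : NF} {γ : ℝ → ℝ × ℝ} (h : q.Loop γ) (hq : q.l2 = 1) :
    ∃ ε > (0 : ℝ), ∀ᶠ c in 𝓝 q.coef,
      (cyclesNear (field c) (insert 0 (range γ)) ε).encard ≤ 2 := by
  obtain ⟨ε0, hε0, ρ, hρ, hb⟩ := hcore q γ h hq
  set Γ := insert 0 (range γ)
  have hK : IsCompact Γ := by
    have ht : Tendsto γ (cocompact ℝ) (𝓝 0) := by
      rw [cocompact_eq_atBot_atTop]
      exact tendsto_sup.2 ⟨h.bot, h.top⟩
    exact ht.isCompact_insert_range_of_cocompact h.sol.continuous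
  obtain ⟨B, hB⟩ := hK.isBounded.exists_norm_le
  set ε := min ε0 1
  have hε : 0 < ε := lt_min hε0 one_pos
  refine ⟨ε / 2, by positivity, ?_⟩
  have hl := h.l1
  set z0 : Z := (q.coef, 0) with hz0
  have c11 : ContinuousAt j11 z0 := by unfold j11; fun_prop
  have c12 : ContinuousAt j12 z0 := by unfold j12; fun_prop
  have c21 : ContinuousAt j21 z0 := by unfold j21; fun_prop
  have c22 : ContinuousAt j22 z0 := by unfold j22; fun_prop
  have v11 : j11 z0 = q.l1 := by simp [j11, hz0, NF.coef]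
  have v12 : j12 z0 = 0 := by simp [j12, hz0, NF.coef]
  have v21 : j21 z0 = 0 := by simp [j21, hz0, NF.coef]
  have v22 : j22 z0 = -1 := by simp [j22, hz0, NF.coef, hq]
  have cdis : ContinuousAt dis z0 := by unfold dis; fun_prop
  have vdis : 0 < dis z0 := by
    simp only [dis, v11, v12, v21, v22]
    nlinarith
  have cden : ContinuousAt den z0 := by unfold den; fun_prop
  have vden : 0 < den z0 := by
    simp only [den, v11, v22]
    have := Real.sqrt_nonneg (dis z0)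
    linarith
  have cm : ContinuousAt mz z0 := by
    refine continuousAt_pi.2 fun i => ?_
    fin_cases i
    · exact continuousAt_const
    · exact (continuousAt_const.mul c12).div cden vden.ne'
    · exact (continuousAt_const.mul c21).div cden vden.ne'
    · exact continuousAt_const
  have vm : mz z0 = ![1, 0, 0, 1] := by simp [mz, v12, v21]
  have vdet : det (mz z0) = 1 := by simp [vm, det]
  have cd : ContinuousAt dz z0 :=
    cont_tr continuousAt_fst continuousAt_snd cm (by rw [vdet]; exact one_ne_zero)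
  have vd : dz z0 = q.coef := by
    rw [dz, vm]
    funext i
    fin_cases i <;> simp [tr, tP, tQ, cP, cQ, co, det, hz0]
  have cd' := continuousAt_pi.1 cd
  have v5 : dz z0 5 = -1 := by simp [vd, NF.coef]
  have v8 : dz z0 8 = -1 := by simp [vd, NF.coef, hq]
  have v9 : dz z0 9 = 1 := by simp [vd, NF.coef]
  have cr : ContinuousAt rz z0 :=
    continuousAt_const.div ((cd' 5).mul ((cd' 9).pow 2)) (by simp [v5, v9])
  have vr : rz z0 = 1 := by simp [rz, v5, v9]
  have ca : ContinuousAt az z0 := (cd' 8).neg.mul (cr.rpow_const (Or.inl (by simp [vr])))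
  have va : az z0 = 1 := by simp [az, v8, vr]
  have n8 : -dz z0 8 ≠ 0 := by simp [v8]
  have cb : ContinuousAt bz z0 := ((cd' 9).mul (ca.pow 2)).div (cd' 8).neg n8
  have vb : bz z0 = 1 := by simp [bz, v8, v9, va]
  have cm' := continuousAt_pi.1 cm
  have cg : ContinuousAt (fun z : Z => gap z.2 (Mz z)) z0 := by
    change ContinuousAt (fun z : Z => ‖z.2‖ + (|mz z 0 * az z - 1| + |mz z 1 * bz z| +
      |mz z 2 * az z| + |mz z 3 * bz z - 1|)) z0
    fun_prop
  have vg : gap z0.2 (Mz z0) = 0 := by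
    rw [Mz, vm, va, vb]
    simp [gap, hz0]
  have cq : ContinuousAt (fun z : Z => (nf (dz z) (az z)).dist q) z0 := by
    change ContinuousAt (fun z : Z => |dz z 1 / -dz z 8 - q.l1| + |1 - q.l2| +
      |dz z 3 * az z / -dz z 8 - q.a| + |dz z 4 * bz z / -dz z 8 - q.b| +
      |dz z 10 * az z / -dz z 8 - q.e| + |dz z 11 * bz z / -dz z 8 - q.f|) z0
    fun_prop (disch := exact n8)
  have vq : (nf (dz z0) (az z0)).dist q = 0 := by
    simp [NF.dist, nf, va, vd, NF.coef, hq]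
  have key : ∀ᶠ z in 𝓝 z0, field z.1 z.2 = 0 →
      (cyclesNear (field z.1) Γ (ε / 2)).encard ≤ 2 := by
    filter_upwards [cdis.eventually (lt_mem_nhds vdis), cden.eventually (lt_mem_nhds vden),
      (cont_det cm).eventually_ne (y := 0) (by rw [vdet]; exact one_ne_zero),
      (cd' 8).eventually (gt_mem_nhds (a := 0) (by simp [v8])),
      cr.eventually (lt_mem_nhds (a := 0) (by simp [vr])),
      ca.eventually_ne (y := 0) (by simp [va]), cb.eventually_ne (y := 0) (by simp [vb]),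
      cg.eventually (gt_mem_nhds (a := 1 / 2) (by simp [vg])),
      (cg.mul (continuousAt_const (y := 2 * B + 4))).eventually
        (gt_mem_nhds (a := ε / 2) (by simp [vg, hε])),
      cq.eventually (gt_mem_nhds (a := ρ) (by simp [vq, hρ]))] with z a1 a2 a3 a4 a5 a6 a7 a8 a9
      a10 h0
    have b1 : dz z 5 * dz z 9 ^ 2 ≠ 0 := fun e => by simp [rz, e] at a5
    have b2 : az z ^ 3 * (dz z 5 * dz z 9 ^ 2) = dz z 8 ^ 3 := by
      rw [az, mul_pow, Real.rpow_inv_natCast_pow a5.le (by norm_num), rz, mul_assoc,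
        div_mul_cancel₀ _ b1]
      ring
    have b3 := (tp_tr z.1 z.2 a3).scale (tp_nf (diag_dz h0 a1 a2.ne') a4.ne b2)
    have b4 : det (Mz z) ≠ 0 := by
      rw [Mz, det_scale]
      exact mul_ne_zero (mul_ne_zero a3 a6) a7
    refine (Tp.encard_le (m := Mz z) (ε' := ε0) b3 b4 (by linarith) fun p hp => ?_).trans
      (hb _ rfl a10)
    exact thickening_mono (min_le_left _ _) _ (near_thick hB (min_le_right _ _) a8 a9 p hp)
  filter_upwards [exists_zero q hl.ne' (by simp [hq]) key] with c ⟨s, h0, hs⟩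
  exact hs h0

end R

open R in
theorem upper_of_core (hcore : CoreStmt) (c : Fin 12 → ℝ) (Γ : Set (ℝ × ℝ)) (h : IsLoop c Γ) :
    ∃ ε > (0 : ℝ), ∃ U ∈ 𝓝 c, ∀ c' ∈ U, (cyclesNear (field c') Γ ε).encard ≤ 2 := by
  obtain ⟨s, γ, ⟨h0, hJ⟩, hγ, ⟨t1, t2, hne⟩, hb, ht, rfl⟩ := h
  have hb' := tendsto_of_cluster hγ.continuous (fun U hU => by
    obtain ⟨a, ha⟩ := mem_atBot_sets.1 hU
    exact ⟨Iic a, Iic_mem_atBot a, ha, isPreconnected_Iic⟩) hb
  have ht' := tendsto_of_cluster hγ.continuous (fun U hU => by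
    obtain ⟨a, ha⟩ := mem_atTop_sets.1 hU
    exact ⟨Ici a, Ici_mem_atTop a, ha, isPreconnected_Ici⟩) ht
  obtain ⟨m, l1, l2, hD, hl1, hl2, e1, e2, e3, e4⟩ := exists_eig hJ
  have p1 : cP c s m 1 = l1 * m 0 := e1
  have q1 : cQ c s m 1 = l1 * m 2 := e2
  have p2 : cP c s m 2 = l2 * m 1 := e3
  have q2 : cQ c s m 2 = l2 * m 3 := e4
  have hd : Diag (tr c s m) := diag_tr h0 (by rw [p2, q2]; ring) (by rw [p1, q1]; ring)
  have d1 : tr c s m 1 = l1 := by
    change tP c s m 1 = l1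
    rw [tP, p1, q1, div_eq_iff hD, det]
    ring
  have d8 : tr c s m 8 = l2 := by
    change tQ c s m 2 = l2
    rw [tQ, p2, q2, div_eq_iff hD, det]
    ring
  /- transport of the loop -/
  have loop : ∀ {W : ℝ × ℝ → ℝ × ℝ} {M : Fin 4 → ℝ} {κ : ℝ}, Tp (field c) W s M κ → det M ≠ 0 →
      0 < κ → ∃ g : ℝ → ℝ × ℝ, IsSol W g ∧ Tendsto g atBot (𝓝 0) ∧ Tendsto g atTop (𝓝 0) ∧
        g 0 ≠ 0 ∧ insert s (range γ) = aff s M '' insert 0 (range g) := by
    intro W M κ hT hM hκ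
    have hi := inv_pos.2 hκ
    have a0 : aff s M 0 = s := by simp [aff, lin_zero]
    have a1 : aff (-lin (inv M) s) (inv M) s = 0 := by simp [aff]
    have a2 := (continuous_aff (-lin (inv M) s) (inv M)).tendsto' s 0 a1
    refine ⟨_, (hT.symm hM hκ.ne').sol hγ,
      a2.comp (hb'.comp (tendsto_id.const_mul_atBot hi)),
      a2.comp (ht'.comp (tendsto_id.const_mul_atTop hi)), fun e => ?_, ?_⟩
    · have a3 := congrArg (aff s M) e
      rw [aff_right hM, a0, mul_zero] at a3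
      have a4 : ContDiff ℝ 1 (field c) := by unfold field; fun_prop
      have a5 := hγ.const_of_zero a4 (t₀ := 0) (by rw [a3, h0])
      exact hne ((a5 t1).trans (a5 t2).symm)
    · rw [image_insert_eq, a0]
      congr 1
      ext p
      constructor
      · rintro ⟨t, rfl⟩
        refine ⟨_, ⟨κ * t, rfl⟩, ?_⟩
        simp only [aff_right hM, inv_mul_cancel_left₀ hκ.ne']
      · rintro ⟨_, ⟨t, rfl⟩, rfl⟩
        exact ⟨κ⁻¹ * t, by simp only [aff_right hM]⟩
  obtain ⟨g, hg, gb, gt, g0, -⟩ := loop (tp_tr c s hD) hD one_pos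
  obtain ⟨n5, n9⟩ := diag_ne hd (by rwa [d1]) (by rwa [d8]) hg gb gt ⟨0, g0⟩
  set d := tr c s m with hdd
  have n8 : d 8 < 0 := by rwa [d8]
  obtain ⟨α, hα⟩ := exists_cube (d 8 ^ 3 / (d 5 * d 9 ^ 2))
  have hα' : α ^ 3 * (d 5 * d 9 ^ 2) = d 8 ^ 3 := by
    rw [hα]
    field_simp
  have hα0 : α ≠ 0 := fun e => by
    rw [e] at hα'
    exact pow_ne_zero 3 n8.ne (by linarith)
  set β := d 9 * α ^ 2 / -d 8 with hβ
  have hβ0 : β ≠ 0 := div_ne_zero (mul_ne_zero n9 (pow_ne_zero 2 hα0)) (neg_ne_zero.2 n8.ne)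
  have hT := (tp_tr c s hD).scale (tp_nf hd n8.ne hα')
  set M : Fin 4 → ℝ := ![m 0 * α, m 1 * β, m 2 * α, m 3 * β] with hM
  have hMD : det M ≠ 0 := by
    rw [hM, det_scale]
    exact mul_ne_zero (mul_ne_zero hD hα0) hβ0
  have hκ : 0 < 1 * -d 8 := by linarith
  obtain ⟨g', hg', gb', gt', g0', hΓ⟩ := loop hT hMD hκ
  have hL : (nf d α).Loop g' :=
    ⟨div_pos (by rwa [d1]) (by linarith), one_pos, hg', gb', gt', g0'⟩
  obtain ⟨ε, hε, hev⟩ := local_bound hcore hL rfl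
  obtain ⟨ε', hε', hsub⟩ := pull_thick (s := s) hMD (insert 0 (range g')) hε
  /- the transformed coefficients of nearby fields -/
  let T : (Fin 12 → ℝ) → Fin 12 → ℝ := fun c' => (1 * -d 8)⁻¹ • tr c' s M
  have hTp : ∀ c', Tp (field c') (field (T c')) s M (1 * -d 8) := fun c' p => by
    have : field (T c') p = (1 * -d 8)⁻¹ • field (tr c' s M) p := by
      ext <;> simp [T, field] <;> ring
    rw [tp_tr c' s hMD p, this, lin_smul, smul_smul, mul_inv_cancel₀ hκ.ne']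
  have hTc : ContinuousAt T c :=
    (cont_tr (c := id) (s := fun _ => s) (m := fun _ => M) (z := c) continuousAt_id
      continuousAt_const continuousAt_const hMD).const_smul (1 * -d 8)⁻¹
  have hT0 : T c = (nf d α).coef := by
    have hf : ∀ p, field (T c) p = field (nf d α).coef p := fun p => by
      have a1 := (hTp c p).symm.trans (hT p)
      have a2 := congrArg (lin (inv M)) (smul_right_injective _ hκ.ne' a1)
      rwa [lin_inv hMD, lin_inv hMD, ← NF.field_coef] at a2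
    generalize T c = u at hf
    generalize (nf d α).coef = v at hf
    have f0 := hf (0, 0)
    have f1 := hf (1, 0)
    have f2 := hf (-1, 0)
    have f3 := hf (0, 1)
    have f4 := hf (0, -1)
    have f5 := hf (1, 1)
    simp only [field, Prod.mk.injEq] at f0 f1 f2 f3 f4 f5
    funext i
    fin_cases i <;> simp <;>
      linarith [f0.1, f0.2, f1.1, f1.2, f2.1, f2.2, f3.1, f3.2, f4.1, f4.2, f5.1, f5.2]
  rw [← hT0] at hev
  refine ⟨ε', hε', _, hTc.eventually hev, fun c' hc' => ?_⟩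
  rw [hΓ]
  exact ((hTp c').encard_le hMD hκ hsub).trans hc'

end Pool.Agent.Lib.MP_bf91d6_an
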