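import Pool.Agent.Lib.MP_bf91d6_an.NF

/-! Block R, part 1: affine transport of limit cycles. -/

set_option autoImplicit false

namespace Pool.Agent.Lib.MP_bf91d6_an

open Set Filter Topology Metric MeasureTheory

namespace R

/-- The linear map with matrix `m`. -/
def lin (m : Fin 4 → ℝ) (p : ℝ × ℝ) : ℝ × ℝ := (m 0 * p.1 + m 1 * p.2, m 2 * p.1 + m 3 * p.2)

/-- The affine map `p ↦ s + m p`. -/
def aff (s : ℝ × ℝ) (m : Fin 4 → ℝ) (p : ℝ × ℝ) : ℝ × ℝ := s + lin m p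

def det (m : Fin 4 → ℝ) : ℝ := m 0 * m 3 - m 1 * m 2

noncomputable def inv (m : Fin 4 → ℝ) : Fin 4 → ℝ :=
  ![m 3 / det m, -m 1 / det m, -m 2 / det m, m 0 / det m]

/-- `W` is the field `V` written in the coordinates `aff s m` and the time scale `κ`. -/
def Tp (V W : ℝ × ℝ → ℝ × ℝ) (s : ℝ × ℝ) (m : Fin 4 → ℝ) (κ : ℝ) : Prop :=
  ∀ p, V (aff s m p) = κ • lin m (W p)

variable {V W X : ℝ × ℝ → ℝ × ℝ} {s : ℝ × ℝ} {m : Fin 4 → ℝ} {κ : ℝ}

theorem continuous_aff (s : ℝ × ℝ) (m : Fin 4 → ℝ) : Continuous (aff s m) := by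
  unfold aff lin
  fun_prop

theorem lin_inv (h : det m ≠ 0) (p : ℝ × ℝ) : lin (inv m) (lin m p) = p := by
  ext
  · simp [lin, inv]
    field_simp
    simp only [det]
    ring
  · simp [lin, inv]
    field_simp
    simp only [det]
    ring

theorem inv_lin (h : det m ≠ 0) (p : ℝ × ℝ) : lin m (lin (inv m) p) = p := by
  ext
  · simp [lin, inv]
    field_simp
    simp only [det]
    ring
  · simp [lin, inv]
    field_simp
    simp only [det]
    ring

theorem lin_add (m : Fin 4 → ℝ) (p q : ℝ × ℝ) : lin m (p + q) = lin m p + lin m q := by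
  ext <;> simp [lin] <;> ring

theorem lin_neg (m : Fin 4 → ℝ) (p : ℝ × ℝ) : lin m (-p) = -lin m p := by
  ext <;> simp [lin] <;> ring

theorem lin_smul (m : Fin 4 → ℝ) (a : ℝ) (p : ℝ × ℝ) : lin m (a • p) = a • lin m p := by
  ext <;> simp [lin] <;> ring

theorem lin_zero (m : Fin 4 → ℝ) : lin m 0 = 0 := by
  ext <;> simp [lin]

theorem aff_left (h : det m ≠ 0) (p : ℝ × ℝ) :
    aff (-lin (inv m) s) (inv m) (aff s m p) = p := by
  simp only [aff, lin_add, lin_inv h]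
  abel

theorem aff_right (h : det m ≠ 0) (p : ℝ × ℝ) :
    aff s m (aff (-lin (inv m) s) (inv m) p) = p := by
  simp only [aff, lin_add, lin_neg, inv_lin h]
  abel

theorem Tp.symm (h : Tp V W s m κ) (hD : det m ≠ 0) (hκ : κ ≠ 0) :
    Tp W V (-lin (inv m) s) (inv m) κ⁻¹ := fun p => by
  have := h (aff (-lin (inv m) s) (inv m) p)
  rw [aff_right hD] at this
  rw [this, lin_smul, lin_inv hD, smul_smul, inv_mul_cancel₀ hκ, one_smul]

theorem Tp.sol (h : Tp V W s m κ) {g : ℝ → ℝ × ℝ} (hg : IsSol W g) :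
    IsSol V (fun t => aff s m (g (κ * t))) := fun t => by
  have h0 : HasDerivAt (fun t : ℝ => κ * t) κ t := by simpa using (hasDerivAt_id t).const_mul κ
  have h1 := (hg.fst (κ * t)).comp t h0
  have h2 := (hg.snd (κ * t)).comp t h0
  rw [h]
  have h3 := hd_mk (((h1.const_mul (m 0)).add (h2.const_mul (m 1))).const_add s.1)
    (((h1.const_mul (m 2)).add (h2.const_mul (m 3))).const_add s.2)
  refine HasDerivAt.congr_deriv h3 ?_
  ext <;> simp [lin] <;> ring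

theorem Tp.per (h : Tp V W s m κ) (hD : det m ≠ 0) (hκ : 0 < κ) {O : Set (ℝ × ℝ)}
    (hO : IsPeriodicOrbit W O) : IsPeriodicOrbit V (aff s m '' O) := by
  obtain ⟨g, T, hg, hT, hp, ⟨a, b, hab⟩, rfl⟩ := hO
  refine ⟨_, T / κ, h.sol hg, div_pos hT hκ, fun t => ?_, ⟨a / κ, b / κ, fun he => hab ?_⟩, ?_⟩
  · have : κ * (t + T / κ) = κ * t + T := by field_simp
    simp only [this, hp (κ * t)]
  · simp only [mul_div_cancel₀ _ hκ.ne'] at he
    have := congrArg (aff (-lin (inv m) s) (inv m)) he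
    rwa [aff_left hD, aff_left hD] at this
  · ext p
    constructor
    · rintro ⟨_, ⟨t, rfl⟩, rfl⟩
      exact ⟨t / κ, by simp only [mul_div_cancel₀ _ hκ.ne']⟩
    · rintro ⟨t, rfl⟩
      exact ⟨_, ⟨_, rfl⟩, rfl⟩

theorem det_inv (hD : det m ≠ 0) : det (inv m) ≠ 0 := by
  have : det (inv m) = (det m)⁻¹ := by
    simp [det, inv]
    have h := hD
    simp only [det] at h
    field_simp
  rw [this]
  exact inv_ne_zero hD

theorem preimage_eq (hD : det m ≠ 0) (O : Set (ℝ × ℝ)) :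
    aff s m ⁻¹' O = aff (-lin (inv m) s) (inv m) '' O := by
  ext p
  constructor
  · intro hp
    exact ⟨_, hp, aff_left hD p⟩
  · rintro ⟨q, hq, rfl⟩
    simpa [aff_right hD] using hq

theorem aff_surj (hD : det m ≠ 0) : Function.Surjective (aff s m) := fun p => ⟨_, aff_right hD p⟩

theorem aff_inj (hD : det m ≠ 0) : Function.Injective (aff s m) :=
  Function.LeftInverse.injective (aff_left hD)

theorem Tp.cycle (h : Tp V W s m κ) (hD : det m ≠ 0) (hκ : 0 < κ) {O : Set (ℝ × ℝ)}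
    (hO : IsLimitCycle V O) : IsLimitCycle W (aff s m ⁻¹' O) := by
  obtain ⟨h1, U, hU, hOU, h2⟩ := hO
  refine ⟨?_, aff s m ⁻¹' U, hU.preimage (continuous_aff s m), preimage_mono hOU,
    fun O' hO' hsub => ?_⟩
  · rw [preimage_eq hD]
    exact (h.symm hD hκ.ne').per (det_inv hD) (inv_pos.2 hκ) h1
  · rw [← h2 _ (h.per hD hκ hO') (image_subset_iff.2 hsub), preimage_image_eq _ (aff_inj hD)]

theorem Tp.encard_le (h : Tp V W s m κ) (hD : det m ≠ 0) (hκ : 0 < κ) {Γ Γ' : Set (ℝ × ℝ)}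
    {ε ε' : ℝ} (hsub : ∀ p, aff s m p ∈ thickening ε Γ → p ∈ thickening ε' Γ') :
    (cyclesNear V Γ ε).encard ≤ (cyclesNear W Γ' ε').encard :=
  encard_le_encard_of_injOn (f := fun O => aff s m ⁻¹' O)
    (fun _ hO => ⟨h.cycle hD hκ hO.1, fun p hp => hsub p (hO.2 hp)⟩)
    (aff_surj hD).preimage_injective.injOn

theorem Tp.scale (h : Tp V W s m κ) {α β κ' : ℝ} (h' : Tp W X 0 ![α, 0, 0, β] κ') :
    Tp V X s ![m 0 * α, m 1 * β, m 2 * α, m 3 * β] (κ * κ') := fun p => by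
  have e : aff s ![m 0 * α, m 1 * β, m 2 * α, m 3 * β] p = aff s m (aff 0 ![α, 0, 0, β] p) := by
    ext <;> simp [aff, lin] <;> ring
  rw [e, h, h']
  ext <;> simp [lin] <;> ring

theorem det_scale (m : Fin 4 → ℝ) (α β : ℝ) :
    det ![m 0 * α, m 1 * β, m 2 * α, m 3 * β] = det m * α * β := by
  simp [det]
  ring

/-- Coefficients of a quadratic polynomial after the substitution `aff s m`. -/
def co (a0 a1 a2 a3 a4 a5 : ℝ) (s : ℝ × ℝ) (m : Fin 4 → ℝ) : Fin 6 → ℝ :=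
  ![a0 + a1 * s.1 + a2 * s.2 + a3 * s.1 ^ 2 + a4 * s.1 * s.2 + a5 * s.2 ^ 2,
    (a1 + 2 * a3 * s.1 + a4 * s.2) * m 0 + (a2 + a4 * s.1 + 2 * a5 * s.2) * m 2,
    (a1 + 2 * a3 * s.1 + a4 * s.2) * m 1 + (a2 + a4 * s.1 + 2 * a5 * s.2) * m 3,
    a3 * m 0 ^ 2 + a4 * m 0 * m 2 + a5 * m 2 ^ 2,
    2 * a3 * m 0 * m 1 + a4 * (m 0 * m 3 + m 1 * m 2) + 2 * a5 * m 2 * m 3,
    a3 * m 1 ^ 2 + a4 * m 1 * m 3 + a5 * m 3 ^ 2]

def cP (c : Fin 12 → ℝ) := co (c 0) (c 1) (c 2) (c 3) (c 4) (c 5)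

def cQ (c : Fin 12 → ℝ) := co (c 6) (c 7) (c 8) (c 9) (c 10) (c 11)

noncomputable def tP (c : Fin 12 → ℝ) (s : ℝ × ℝ) (m : Fin 4 → ℝ) (i : Fin 6) : ℝ :=
  (m 3 * cP c s m i - m 1 * cQ c s m i) / det m

noncomputable def tQ (c : Fin 12 → ℝ) (s : ℝ × ℝ) (m : Fin 4 → ℝ) (i : Fin 6) : ℝ :=
  (m 0 * cQ c s m i - m 2 * cP c s m i) / det m

/-- The coefficient vector in the new coordinates. -/
noncomputable def tr (c : Fin 12 → ℝ) (s : ℝ × ℝ) (m : Fin 4 → ℝ) : Fin 12 → ℝ :=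
  ![tP c s m 0, tP c s m 1, tP c s m 2, tP c s m 3, tP c s m 4, tP c s m 5,
    tQ c s m 0, tQ c s m 1, tQ c s m 2, tQ c s m 3, tQ c s m 4, tQ c s m 5]

theorem tp_tr (c : Fin 12 → ℝ) (s : ℝ × ℝ) (hD : det m ≠ 0) :
    Tp (field c) (field (tr c s m)) s m 1 := fun p => by
  have e1 : (field c (aff s m p)).1 = cP c s m 0 + cP c s m 1 * p.1 + cP c s m 2 * p.2 +
      cP c s m 3 * p.1 ^ 2 + cP c s m 4 * p.1 * p.2 + cP c s m 5 * p.2 ^ 2 := by
    simp [field, aff, lin, cP, co]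
    ring
  have e2 : (field c (aff s m p)).2 = cQ c s m 0 + cQ c s m 1 * p.1 + cQ c s m 2 * p.2 +
      cQ c s m 3 * p.1 ^ 2 + cQ c s m 4 * p.1 * p.2 + cQ c s m 5 * p.2 ^ 2 := by
    simp [field, aff, lin, cQ, co]
    ring
  ext
  · rw [e1]
    simp [field, tr, lin, tP, tQ]
    field_simp
    simp only [det]
    ring
  · rw [e2]
    simp [field, tr, lin, tP, tQ]
    field_simp
    simp only [det]
    ring

section Cont

variable {Z : Type} [TopologicalSpace Z] {z : Z} {c : Z → Fin 12 → ℝ} {s : Z → ℝ × ℝ}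
  {m : Z → Fin 4 → ℝ}

theorem cont_cP (hc : ContinuousAt c z) (hs : ContinuousAt s z) (hm : ContinuousAt m z)
    (i : Fin 6) : ContinuousAt (fun z => cP (c z) (s z) (m z) i) z := by
  have h1 := continuousAt_pi.1 hc
  have h2 := continuousAt_pi.1 hm
  fin_cases i <;> simp [cP, co] <;> fun_prop

theorem cont_cQ (hc : ContinuousAt c z) (hs : ContinuousAt s z) (hm : ContinuousAt m z)
    (i : Fin 6) : ContinuousAt (fun z => cQ (c z) (s z) (m z) i) z := by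
  have h1 := continuousAt_pi.1 hc
  have h2 := continuousAt_pi.1 hm
  fin_cases i <;> simp [cQ, co] <;> fun_prop

theorem cont_det (hm : ContinuousAt m z) : ContinuousAt (fun z => det (m z)) z := by
  have h2 := continuousAt_pi.1 hm
  unfold det
  fun_prop

theorem cont_tr (hc : ContinuousAt c z) (hs : ContinuousAt s z) (hm : ContinuousAt m z)
    (hD : det (m z) ≠ 0) : ContinuousAt (fun z => tr (c z) (s z) (m z)) z := by
  have h2 := continuousAt_pi.1 hm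
  have hP : ∀ i, ContinuousAt (fun z => tP (c z) (s z) (m z) i) z := fun i =>
    (((h2 3).mul (cont_cP hc hs hm i)).sub ((h2 1).mul (cont_cQ hc hs hm i))).div (cont_det hm) hD
  have hQ : ∀ i, ContinuousAt (fun z => tQ (c z) (s z) (m z) i) z := fun i =>
    (((h2 0).mul (cont_cQ hc hs hm i)).sub ((h2 2).mul (cont_cP hc hs hm i))).div (cont_det hm) hD
  refine continuousAt_pi.2 fun i => ?_
  fin_cases i
  exacts [hP 0, hP 1, hP 2, hP 3, hP 4, hP 5, hQ 0, hQ 1, hQ 2, hQ 3, hQ 4, hQ 5]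

end Cont

/-- Diagonal linear part and a zero at the origin. -/
def Diag (d : Fin 12 → ℝ) : Prop := d 0 = 0 ∧ d 6 = 0 ∧ d 2 = 0 ∧ d 7 = 0

/-- The normal form obtained by scaling. -/
noncomputable def nf (d : Fin 12 → ℝ) (α : ℝ) : NF :=
  ⟨d 1 / -d 8, 1, d 3 * α / -d 8, d 4 * (d 9 * α ^ 2 / -d 8) / -d 8, d 10 * α / -d 8,
    d 11 * (d 9 * α ^ 2 / -d 8) / -d 8⟩

theorem tp_nf {d : Fin 12 → ℝ} (hd : Diag d) (h8 : d 8 ≠ 0) {α : ℝ}
    (hα : α ^ 3 * (d 5 * d 9 ^ 2) = d 8 ^ 3) :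
    Tp (field d) (nf d α).V 0 ![α, 0, 0, d 9 * α ^ 2 / -d 8] (-d 8) := fun p => by
  obtain ⟨h0, h6, h2, h7⟩ := hd
  ext
  · simp [field, aff, lin, nf, NF.V, h0, h2]
    field_simp
    linear_combination (α * p.2 ^ 2) * hα
  · simp [field, aff, lin, nf, NF.V, h6, h7]
    field_simp

theorem norm_lin_le (m : Fin 4 → ℝ) (p : ℝ × ℝ) :
    ‖lin m p‖ ≤ (|m 0| + |m 1| + |m 2| + |m 3|) * ‖p‖ := by
  have h1 : |p.1| ≤ ‖p‖ := norm_fst_le p
  have h2 : |p.2| ≤ ‖p‖ := norm_snd_le p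
  have key : ∀ a b : ℝ, |a * p.1 + b * p.2| ≤ (|a| + |b|) * ‖p‖ := fun a b => by
    refine (abs_add_le _ _).trans ?_
    rw [abs_mul, abs_mul, add_mul]
    gcongr
  have h3 := norm_nonneg p
  rw [Prod.norm_def]
  refine max_le ((key _ _).trans ?_) ((key _ _).trans ?_)
  · have : 0 ≤ (|m 2| + |m 3|) * ‖p‖ := by positivity
    linarith
  · have : 0 ≤ (|m 0| + |m 1|) * ‖p‖ := by positivity
    linarith

/-- Small neighbourhoods of the image pull back to small neighbourhoods. -/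
theorem pull_thick (hD : det m ≠ 0) (Γ : Set (ℝ × ℝ)) {ε : ℝ} (hε : 0 < ε) :
    ∃ ε' > (0 : ℝ), ∀ p, aff s m p ∈ thickening ε' (aff s m '' Γ) → p ∈ thickening ε Γ := by
  set L := |inv m 0| + |inv m 1| + |inv m 2| + |inv m 3| with hL
  have hL0 : 0 ≤ L := by positivity
  refine ⟨ε / (L + 1), by positivity, fun p hp => ?_⟩
  obtain ⟨_, ⟨q, hq, rfl⟩, hd⟩ := mem_thickening_iff.1 hp
  refine mem_thickening_iff.2 ⟨q, hq, ?_⟩
  rw [dist_eq_norm] at hd ⊢
  have e : p - q = lin (inv m) (aff s m p - aff s m q) := by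
    have : aff s m p - aff s m q = lin m (p - q) := by
      rw [sub_eq_add_neg p, lin_add, lin_neg]
      simp only [aff]
      abel
    rw [this, lin_inv hD]
  have h1 := norm_lin_le (inv m) (aff s m p - aff s m q)
  rw [← e, ← hL] at h1
  rw [lt_div_iff₀ (by positivity)] at hd
  nlinarith [norm_nonneg (aff s m p - aff s m q)]

/-- Distance of the data from the identity. -/
noncomputable def gap (s : ℝ × ℝ) (m : Fin 4 → ℝ) : ℝ :=
  ‖s‖ + (|m 0 - 1| + |m 1| + |m 2| + |m 3 - 1|)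

theorem near_thick {Γ : Set (ℝ × ℝ)} {B ε : ℝ} (hB : ∀ q ∈ Γ, ‖q‖ ≤ B) (hε1 : ε ≤ 1)
    (h1 : gap s m < 1 / 2) (h2 : gap s m * (2 * B + 4) < ε / 2) (p : ℝ × ℝ)
    (hp : aff s m p ∈ thickening (ε / 2) Γ) : p ∈ thickening ε Γ := by
  obtain ⟨q, hq, hd⟩ := mem_thickening_iff.1 hp
  refine mem_thickening_iff.2 ⟨q, hq, ?_⟩
  have e : aff s m p - p = s + lin ![m 0 - 1, m 1, m 2, m 3 - 1] p := by
    ext <;> simp [aff, lin] <;> ring
  have h3 := norm_lin_le ![m 0 - 1, m 1, m 2, m 3 - 1] p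
  simp only [Matrix.cons_val_zero, Matrix.cons_val_one, Matrix.cons_val] at h3
  have h4 : dist (aff s m p) p ≤ gap s m * (1 + ‖p‖) := by
    rw [dist_eq_norm, e]
    refine (norm_add_le _ _).trans ?_
    have h5 : 0 ≤ |m 0 - 1| + |m 1| + |m 2| + |m 3 - 1| := by positivity
    have h6 := norm_nonneg s
    have h7 := norm_nonneg p
    unfold gap
    nlinarith
  have h5 : dist p q ≤ dist (aff s m p) p + dist (aff s m p) q := dist_triangle_left _ _ _
  have h6 : ‖p‖ ≤ dist p q + ‖q‖ := by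
    rw [dist_eq_norm]
    simpa using norm_add_le (p - q) q
  have h7 := hB q hq
  have h8 := norm_nonneg p
  have h9 : 0 ≤ gap s m := by unfold gap; positivity
  have h10 : ‖p‖ ≤ 2 * B + 3 := by nlinarith
  nlinarith

end R

end Pool.Agent.Lib.MP_bf91d6_an
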