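import Pool.Agent.Lib.MP_bf91d6_an.G

set_option autoImplicit false

namespace Pool.Agent.Lib.MP_bf91d6_an

open Set Filter Topology Metric MeasureTheory

namespace T

theorem V_toLN (q : NF) (h1 : q.l1 = 1) (h2 : q.l2 = 1) {τ : ℝ} (hτ : 0 < τ)
    (hr : 1 - (q.e - q.a) * τ + (q.f - q.b) * τ ^ 2 - τ ^ 3 = 0) (p : ℝ × ℝ) :
    (q.toLN τ).V (τ * p.1 + p.2, τ * p.1 - p.2) =
      (τ * (q.V p).1 + (q.V p).2, τ * (q.V p).1 - (q.V p).2) := by
  have hτ' := hτ.ne'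
  ext
  · simp only [NF.toLN, LN.V, NF.V, h1, h2]
    field_simp
    linear_combination (-2 * (τ * p.1 - p.2) ^ 2) * hr
  · simp only [NF.toLN, LN.V, NF.V, h1, h2]
    field_simp
    ring

/-- A smooth function vanishing at the saddle is integrable along the loop. -/
theorem integrable_comp {E : Type} [NormedAddCommGroup E] [NormedSpace ℝ E] {q : NF}
    {γ : ℝ → ℝ × ℝ} (h : q.Loop γ) {F : ℝ × ℝ → E} (hF : ContDiff ℝ 1 F) (h0 : F 0 = 0) :
    Integrable (fun t => F (γ t)) := by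
  have hc := h.sol.continuous
  have ht : Tendsto γ (cocompact ℝ) (𝓝 0) := by
    rw [cocompact_eq_atBot_atTop]
    exact tendsto_sup.2 ⟨h.bot, h.top⟩
  have hK : IsCompact (insert 0 (range γ)) := ht.isCompact_insert_range_of_cocompact hc
  obtain ⟨K, hL⟩ := (hF.locallyLipschitz.locallyLipschitzOn).exists_lipschitzOnWith_of_compact hK
  refine Integrable.mono' (h.integrable.const_mul K)
    (hF.continuous.comp hc).aestronglyMeasurable (Eventually.of_forall fun t => ?_)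
  have := hL.dist_le_mul (γ t) (mem_insert_of_mem _ (mem_range_self t)) 0 (mem_insert _ _)
  simpa [h0] using this

theorem exists_root (u v : ℝ) : ∃ τ : ℝ, 0 < τ ∧ 1 - u * τ + v * τ ^ 2 - τ ^ 3 = 0 := by
  set M : ℝ := |u| + |v| + 2 with hM
  have hu := neg_abs_le u
  have hv := le_abs_self v
  have hu0 := abs_nonneg u
  have hv0 := abs_nonneg v
  have hM1 : 1 ≤ M := by linarith
  have hc : ContinuousOn (fun τ : ℝ => 1 - u * τ + v * τ ^ 2 - τ ^ 3) (Icc 0 M) := by fun_prop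
  have hneg : 1 - u * M + v * M ^ 2 - M ^ 3 ≤ 0 := by
    have e1 : M ≤ M ^ 2 := by nlinarith
    have e2 : -u * M ≤ |u| * M ^ 2 := by nlinarith
    have e3 : v * M ^ 2 ≤ |v| * M ^ 2 := by nlinarith
    have e4 : M ^ 3 = (|u| + |v| + 2) * M ^ 2 := by rw [← hM]; ring
    nlinarith
  obtain ⟨τ, hτ, he⟩ := intermediate_value_Icc' (by linarith : (0 : ℝ) ≤ M) hc
    (show (0 : ℝ) ∈ Icc _ _ from ⟨hneg, by simp⟩)
  refine ⟨τ, lt_of_le_of_ne hτ.1 ?_, he⟩
  rintro rfl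
  simp at he

theorem exists_good_root (u v : ℝ) : ∃ τ : ℝ, 0 < τ ∧ 1 - u * τ + v * τ ^ 2 - τ ^ 3 = 0 ∧
    (v * τ ^ 2 = 2 * τ ^ 3 + 1 → τ ^ 3 = 1) := by
  obtain ⟨τ, hτ, hr⟩ := exists_root u v
  by_cases hv : v * τ ^ 2 = 2 * τ ^ 3 + 1
  · have hτ' := hτ.ne'
    have ev : v = 2 * τ + 1 / τ ^ 2 := by field_simp; linear_combination hv
    have eu : u = 2 / τ + τ ^ 2 := by field_simp; linear_combination hv - hr
    refine ⟨1 / τ ^ 2, by positivity, ?_, fun h => ?_⟩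
    · rw [ev, eu]; field_simp; ring
    · rw [ev] at h
      field_simp at h
      have h3 : (τ ^ 3 - 1) ^ 2 = 0 := by linear_combination -h
      have h4 : τ ^ 3 = 1 := by simpa [sub_eq_zero] using h3
      field_simp
      linear_combination (-(τ ^ 3 + 1)) * h4
  · exact ⟨τ, hτ, hr, fun h => absurd h hv⟩

end T

theorem NF.Loop.toLN {q : NF} {γ : ℝ → ℝ × ℝ} (h : q.Loop γ) (h1 : q.l1 = 1) (h2 : q.l2 = 1)
    {τ : ℝ} (hτ : 0 < τ) (hr : 1 - (q.e - q.a) * τ + (q.f - q.b) * τ ^ 2 - τ ^ 3 = 0) :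
    (q.toLN τ).Loop (fun t => (τ * (γ t).1 + (γ t).2, τ * (γ t).1 - (γ t).2)) := by
  have hc : Continuous fun p : ℝ × ℝ => (τ * p.1 + p.2, τ * p.1 - p.2) := by fun_prop
  have hinj : ∀ p p' : ℝ × ℝ, (τ * p.1 + p.2, τ * p.1 - p.2) = (τ * p'.1 + p'.2, τ * p'.1 - p'.2) →
      p = p' := by
    intro p p' he
    obtain ⟨e1, e2⟩ := Prod.mk.inj he
    ext
    · exact mul_left_cancel₀ hτ.ne' (by linarith)
    · linarith
  refine ⟨fun t => ?_, ?_, ?_, fun t => ?_, ?_, fun s t he => h.inj (hinj _ _ he), fun t he => ?_⟩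
  · rw [T.V_toLN q h1 h2 hτ hr]
    exact hd_mk (((h.sol.fst t).const_mul τ).add (h.sol.snd t))
      (((h.sol.fst t).const_mul τ).sub (h.sol.snd t))
  · exact (hc.tendsto' 0 0 (by simp)).comp h.bot
  · exact (hc.tendsto' 0 0 (by simp)).comp h.top
  · have := h.pos t
    have := mul_pos hτ this.1
    simp only
    linarith [(h.pos t).2]
  · exact (T.integrable_comp h (F := fun p : ℝ × ℝ => (τ * p.1 + p.2, τ * p.1 - p.2))
      (by fun_prop) (by simp)).norm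
  · rw [T.V_toLN q h1 h2 hτ hr] at he
    exact h.nonsing t (hinj _ 0 (by simpa using he))

end Pool.Agent.Lib.MP_bf91d6_an
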